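import Pool.Agent.Lib.MP_12eca1_ag.Q.Defs

/-!
Common lemmas for the linear bound.
-/

namespace Pool.Agent.Lib.MP_12eca1_ag.Q

open MvPolynomial Filter Module P

theorem thL : StL := stL stV stIdx
theorem thI : StI := stI stIdx
theorem thHad : StHad := stHad stV stIdx
theorem thM : StM := stM stV stChg stIdx
theorem thX : StX := stX thL
theorem thN : StN := stN stG thHad
theorem thD1 : StD1 := stD1 stS thL stZ

/-! ### Specialisation and size -/

section Spec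

variable {κ : Type*} {η θ ξ : κ → ℂ}

lemma Spec.refl (η : κ → ℂ) : Spec η η := fun _ h => h

lemma Spec.trans (h1 : Spec η θ) (h2 : Spec θ ξ) : Spec η ξ := fun Q h => h2 Q (h1 Q h)

lemma Spec.rat (h : Spec η θ) (Q : MvPolynomial κ ℚ) (hQ : aeval η Q = 0) : aeval θ Q = 0 := by
  classical
  obtain ⟨c, hc⟩ := IsLocalization.exist_integer_multiples_of_finset (nonZeroDivisors ℤ)
    (Q.support.image fun m => coeff m Q)
  choose! k hk using hc
  have h0 : ((c : ℤ) : ℂ) ≠ 0 := by exact_mod_cast nonZeroDivisors.coe_ne_zero c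
  have key : ∀ x : κ → ℂ, aeval x (∑ m ∈ Q.support, monomial m (k (coeff m Q))) =
      ((c : ℤ) : ℂ) * aeval x Q := fun x => by
    conv_rhs => rw [Q.as_sum]
    rw [map_sum, map_sum, Finset.mul_sum]
    refine Finset.sum_congr rfl fun m hm => ?_
    have h1 := congrArg (algebraMap ℚ ℂ) (hk _ (Finset.mem_image_of_mem _ hm))
    rw [aeval_monomial, aeval_monomial, ← mul_assoc]
    congr 1
    simpa using h1
  have := h _ (by rw [key, hQ, mul_zero])
  rw [key] at this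
  exact (mul_eq_zero.mp this).resolve_left h0

lemma aeval_pt (x : κ → ℂ) (Q : MvPolynomial (Option κ) ℤ) :
    aeval (pt x) Q = aeval x (aeval (fun o => o.elim 1 X) Q : MvPolynomial κ ℤ) := by
  have : (aeval (pt x) : MvPolynomial (Option κ) ℤ →ₐ[ℤ] ℂ) =
      (aeval x).comp (aeval fun o => o.elim 1 X) := algHom_ext fun o => by cases o <;> simp [pt]
  exact DFunLike.congr_fun this Q

lemma Spec.vI_le (h : Spec η θ) : vI η ≤ vI θ := fun Q hQ => by
  rw [← sum_homogeneousComponent Q]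
  refine Submodule.sum_mem _ fun n _ => ?_
  have h1 := vI_isHom η Q hQ n
  rw [mem_vI_iff _ (homogeneousComponent_isHomogeneous n Q), aeval_pt] at h1 ⊢
  exact h _ h1

lemma X_none_notMem_vI (η : κ → ℂ) : X none ∉ vI η := by
  rw [mem_vI_iff η (isHomogeneous_X ℤ none)]
  simp [pt]

lemma CN.mono {t : ℕ} {α α' : ℝ} (h : CN η t α) (hα : α ≤ α') : CN η t α' := by
  filter_upwards [h] with R h1 s hs
  refine (h1 s hs).trans ?_
  gcongr

end Spec

lemma hz_mem_vI {κ : Type} {η : κ → ℂ} {e : ℕ} {f : MvPolynomial κ ℤ} (h : f.totalDegree ≤ e) :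
    JB.hz e f ∈ vI η ↔ aeval η f = 0 := by
  rw [mem_vI_iff η (JB.hz_hom h), JB.aeval_hz]

lemma spec_of_zero {κ : Type} {η θ : κ → ℂ} {q : Ideal (MvPolynomial (Option κ) ℤ)} (h : vI η ≤ q)
    (hθ : ∀ Q ∈ q, aeval (pt θ) Q = 0) : Spec η θ := fun Q hQ => by
  rw [← JB.aeval_hz θ Q.totalDegree]
  exact hθ _ (h ((hz_mem_vI le_rfl).mpr hQ))

lemma HA.mono {σ : Type} {J : Ideal (MvPolynomial σ ℤ)} {τ : ℕ} {α α' : ℝ} (h : HA J τ α)
    (hα : α ≤ α') : HA J τ α' := by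
  filter_upwards [h] with R h1
  exact ⟨h1.1.trans (by gcongr), h1.2.trans (by gcongr)⟩

lemma lcov_bot {V E : Type} [AddCommGroup V] [Module ℂ V] [NormedAddCommGroup E]
    [InnerProductSpace ℂ E] (ι : V →ₗ[ℂ] E) : lcov ι ⊥ = 0 := by
  unfold lcov
  split_ifs with h
  · have : IsEmpty (Fin (finrank ℤ (⊥ : Submodule ℤ V))) := by
      rw [finrank_bot]; infer_instance
    simp [lvol]
  · rfl

lemma chi0_nonneg {σ : Type} [Finite σ] (J : Ideal (MvPolynomial σ ℤ)) (R : ℕ) :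
    0 ≤ chi (l2 σ) J R := by
  have h1 := stZ σ (Jl J R) (isLat_Jl J R).1 fun P hP =>
    let ⟨Q, _, _, h⟩ := mem_Jl.mp hP; ⟨Q, h.symm⟩
  have h2 := thHad _ _ (l2 σ) (Jl ⊤ R) ⊥ _ 1 l2_injective (isLat_Jl ⊤ R)
    ((bot_sup_eq _).trans (Jl_top_eq R).symm) one_pos (by
      rintro _ ⟨m, -, rfl⟩
      exact ⟨0, zero_mem _, by simpa using norm_l2_le_l1 (monomial m (1 : ℂ))⟩)
  rw [lcov_bot, Real.log_one] at h2
  unfold chi
  linarith

lemma exists_HA {κ : Type} [Fintype κ] {θ : κ → ℂ} {T : ℕ} (h : TB θ T) :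
    ∃ α : ℝ, HA (vI θ) T α := by
  obtain ⟨C, hC, h1⟩ := thD1 κ θ T h
  refine ⟨Real.log C, ?_⟩
  filter_upwards [eventually_ge_atTop 1] with R hR
  rw [Real.exp_log hC]
  exact h1 R hR

/-- a polynomial does not vary much near a point -/
lemma norm_aeval_le {κ : Type} {θ η : κ → ℂ} {B r : ℝ} (hB : 1 ≤ B) (hθ : ∀ i, ‖θ i‖ + 1 ≤ B)
    (h0 : 0 < r) (h1 : r ≤ 1) (hη : ∀ i, ‖η i - θ i‖ ≤ r) {f : MvPolynomial κ ℤ} {δ : ℕ}
    (hf : f.totalDegree ≤ δ) : ‖aeval η f‖ ≤ ‖aeval θ f‖ + r * (B ^ δ * l1 f) := by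
  have h2 := JB.l1_tay_le hB hθ h0.le h1 (isHomogeneous_toC (JB.hz_hom hf))
  rw [eval_toC, JB.aeval_hz, l1_toC] at h2
  have hr : (r : ℂ) ≠ 0 := by exact_mod_cast h0.ne'
  have h3 : aeval η f = aeval (fun i => (η i - θ i) / r) (tay θ r (toC (JB.hz δ f))) := by
    have : (aeval (pt η) : MvPolynomial (Option κ) ℂ →ₐ[ℂ] ℂ) =
        (aeval fun i => (η i - θ i) / r).comp (tay θ r) := algHom_ext fun o => by
      cases o <;> simp [pt]
      field_simp
      ring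
    rw [← JB.aeval_hz η δ, ← aeval_toC, this]; rfl
  have h4 : ∀ Q : MvPolynomial κ ℂ, ‖aeval (fun i => (η i - θ i) / r) Q‖ ≤ l1 Q := fun Q => by
    conv_lhs => rw [Q.as_sum, map_sum]
    refine (norm_sum_le _ _).trans (Finset.sum_le_sum fun m _ => ?_)
    rw [aeval_monomial, norm_mul]
    refine mul_le_of_le_one_right (norm_nonneg _) ?_ |>.trans (by simp)
    rw [Finsupp.prod, norm_prod]
    refine Finset.prod_le_one (fun _ _ => norm_nonneg _) fun i _ => ?_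
    rw [norm_pow]
    refine pow_le_one₀ (norm_nonneg _) ?_
    rw [norm_div, Complex.norm_real, Real.norm_of_nonneg h0.le, div_le_one h0]
    exact hη i
  rw [h3]
  refine (h4 _).trans (h2.trans ?_)
  gcongr
  exact JB.l1_hz δ f

/-! ### Transcendence bases -/

lemma TB.trdeg_le {κ : Type} {θ : κ → ℂ} {T : ℕ} (h : TB θ T) :
    Algebra.trdeg ℚ (IntermediateField.adjoin ℚ (Set.range θ)) ≤ T := by
  obtain ⟨e, h1, h2⟩ := h
  set K := IntermediateField.adjoin ℚ (Set.range θ)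
  let u : Fin T → K := fun i => ⟨θ (e i), IntermediateField.subset_adjoin _ _ ⟨_, rfl⟩⟩
  have h3 : ∀ z ∈ K, IsAlgebraic (Algebra.adjoin ℚ (Set.range (θ ∘ e))) z := fun z hz => by
    induction hz using IntermediateField.adjoin_induction with
    | mem x hx => obtain ⟨i, rfl⟩ := hx; exact h2 i
    | algebraMap x => exact (isAlgebraic_algebraMap x).extendScalars (algebraMap ℚ _).injective
    | add x y _ _ a b => exact a.add b
    | inv x _ a => exact a.inv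
    | mul x y _ _ a b => exact a.mul b
  have h4 : Algebra.IsAlgebraic (Algebra.adjoin ℚ (Set.range u)) K := ⟨fun z => by
    have h5 : (Algebra.adjoin ℚ (Set.range u)).map K.val = Algebra.adjoin ℚ (Set.range (θ ∘ e)) := by
      exact (AlgHom.map_adjoin K.val _).trans (congrArg _ (Set.range_comp _ u).symm)
    have h6 := h3 z z.2
    rw [← h5] at h6
    exact (isAlgebraic_ringHom_iff_of_comp_eq
      ((Algebra.adjoin ℚ (Set.range u)).equivMapOfInjective K.val Subtype.val_injective)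
      K.val Subtype.val_injective (by ext; rfl)).mp h6⟩
  exact (Algebra.IsAlgebraic.trdeg_le_cardinalMk ℚ (Set.range u)).trans
    (Cardinal.mk_range_le.trans (by simp))

lemma TB.le_of_indep {κ : Type} {θ : κ → ℂ} {T a : ℕ} (h : TB θ T) {v : Fin a → ℂ}
    (hv : AlgebraicIndependent ℚ v) (hm : ∀ l, v l ∈ IntermediateField.adjoin ℚ (Set.range θ)) :
    a ≤ T := by
  have hi : AlgebraicIndependent ℚ fun l => (⟨v l, hm l⟩ :
      IntermediateField.adjoin ℚ (Set.range θ)) :=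
    AlgebraicIndependent.of_comp (IntermediateField.adjoin ℚ (Set.range θ)).val hv
  have := hi.cardinalMk_le_trdeg.trans (TB.trdeg_le h)
  rw [Cardinal.mk_fin] at this
  exact_mod_cast this

lemma exists_TB {κ : Type} [Fintype κ] (θ : κ → ℂ) : ∃ T, TB θ T := by
  classical
  obtain ⟨s, hs⟩ := (AlgebraicIndependent.matroid ℚ ℂ).exists_isBasis (Set.range θ)
  obtain ⟨h1, h2, h3⟩ := AlgebraicIndependent.matroid_isBasis_iff.1 hs
  have := ((Set.finite_range θ).subset h2).fintype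
  choose g hg using fun a : s => h2 a.2
  have he : θ ∘ (g ∘ (Fintype.equivFin s).symm) = (↑) ∘ (Fintype.equivFin s).symm :=
    funext fun t => hg _
  refine ⟨Fintype.card s, g ∘ (Fintype.equivFin s).symm, ?_, fun i => ?_⟩
  · rw [he]
    exact AlgebraicIndependent.comp h1 _ (Fintype.equivFin s).symm.injective
  · rw [he, Set.range_comp, (Fintype.equivFin s).symm.surjective.range_eq, Set.image_univ,
      Subtype.range_coe]
    exact h3 _ ⟨i, rfl⟩

/-! ### Characters -/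

section Mon

variable {ι : Type*} [Fintype ι]

omit [Fintype ι] in
lemma ex_ne_zero (z : ι → ℂ) (k : ι ⊕ ι) : ex z k ≠ 0 := by
  cases k <;> exact Complex.exp_ne_zero _

lemma lf_add (μ ν : ι → ℤ) (z : ι → ℂ) : lf (μ + ν) z = lf μ z + lf ν z := by
  simp [lf, add_mul, Finset.sum_add_distrib]

lemma lf_sub (μ ν : ι → ℤ) (z : ι → ℂ) : lf (μ - ν) z = lf μ z - lf ν z := by
  simp [lf, sub_mul, Finset.sum_sub_distrib]

lemma lf_smul (c : ℤ) (μ : ι → ℤ) (z : ι → ℂ) : lf (c • μ) z = c * lf μ z := by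
  simp [lf, Finset.mul_sum, mul_assoc]

@[simp] lemma lf_zero (z : ι → ℂ) : lf 0 z = 0 := by simp [lf]

/-- the linear form as a linear map -/
noncomputable def lfL (z : ι → ℂ) : (ι → ℤ) →ₗ[ℤ] ℂ where
  toFun μ := lf μ z
  map_add' μ ν := lf_add μ ν z
  map_smul' c μ := by simpa using lf_smul c μ z

@[simp] lemma lfL_apply (z : ι → ℂ) (μ : ι → ℤ) : lfL z μ = lf μ z := rfl

lemma norm_lf_sub_le (μ : ι → ℤ) {z z' : ι → ℂ} {r : ℝ} (h : ∀ i, ‖z i - z' i‖ ≤ r) :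
    ‖lf μ z - lf μ z'‖ ≤ (∑ i, |(μ i : ℝ)|) * r := by
  rw [lf, lf, ← Finset.sum_sub_distrib, Finset.sum_mul]
  refine (norm_sum_le _ _).trans (Finset.sum_le_sum fun i _ => ?_)
  rw [← mul_sub, norm_mul, Complex.norm_intCast]
  exact mul_le_mul_of_nonneg_left (h i) (abs_nonneg _)

lemma norm_lf_le (μ : ι → ℤ) {z : ι → ℂ} {r : ℝ} (h : ∀ i, ‖z i‖ ≤ r) :
    ‖lf μ z‖ ≤ (∑ i, |(μ i : ℝ)|) * r := by
  simpa [lf] using norm_lf_sub_le μ (z := z) (z' := 0) (r := r) (by simpa using h)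

lemma aeval_mon (z : ι → ℂ) (μ : ι → ℤ) : aeval (ex z) (mon μ) = Complex.exp (lf μ z) := by
  rw [lf, Complex.exp_sum, mon, map_prod]
  refine Finset.prod_congr rfl fun i _ => ?_
  have h : (μ i : ℂ) = ((μ i).toNat : ℂ) - ((-μ i).toNat : ℂ) := by
    exact_mod_cast (Int.toNat_sub_toNat_neg (μ i)).symm
  simp only [map_mul, map_pow, aeval_X, ex, Sum.elim_inl, Sum.elim_inr, ← Complex.exp_nat_mul,
    ← Complex.exp_add]
  rw [h]; congr 1; ring

lemma aeval_mon_eq_prod (η : ι ⊕ ι → ℂ) (μ : ι → ℤ) : aeval η (mon μ) =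
    ∏ k, η k ^ (Sum.elim (fun i => ((μ i).toNat : ℤ)) (fun i => ((-μ i).toNat : ℤ)) k) := by
  rw [mon, map_prod, Fintype.prod_sum_type, ← Finset.prod_mul_distrib]
  simp only [map_mul, map_pow, aeval_X, Sum.elim_inl, Sum.elim_inr, zpow_natCast]

@[simp] lemma mon_zero : mon (0 : ι → ℤ) = 1 := by simp [mon]

lemma deg_mon (μ : ι → ℤ) : ((mon μ).totalDegree : ℝ) ≤ ∑ i, |(μ i : ℝ)| := by
  have h : (mon μ).totalDegree ≤ ∑ i, (μ i).natAbs :=
    (totalDegree_finsetProd _ _).trans (Finset.sum_le_sum fun i _ =>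
      (totalDegree_mul _ _).trans (by rw [totalDegree_X_pow, totalDegree_X_pow]; omega))
  refine (Nat.cast_le.mpr h).trans_eq ?_
  simp [Nat.cast_natAbs]

lemma deg_mon_sub_one (μ : ι → ℤ) : ((mon μ - 1).totalDegree : ℝ) ≤ ∑ i, |(μ i : ℝ)| :=
  (Nat.cast_le.mpr (totalDegree_sub_C_le _ 1)).trans (deg_mon μ)

lemma l1_mon (μ : ι → ℤ) : l1 (mon μ) ≤ 1 := by
  refine (l1_prod_le _ _ (fun _ => (1 : ℝ)) fun i _ => ?_).trans (by simp)
  simpa using l1_mul_le_of_le (l1_pow_le (l1_X (K := ℤ) (Sum.inl i : ι ⊕ ι)).le (μ i).toNat)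
    (l1_pow_le (l1_X (Sum.inr i)).le (-μ i).toNat)

lemma l1_mon_sub_one (μ : ι → ℤ) : l1 (mon μ - 1) ≤ 2 := by
  have h1 := l1_sub_le (mon μ) 1
  rw [l1_one] at h1
  linarith [l1_mon μ]

lemma norm_ex_sub_le (z : ι → ℂ) : ∃ c : ℝ, 1 ≤ c ∧ ∀ (z' : ι → ℂ) (r : ℝ), r ≤ 1 →
    (∀ i, ‖z' i - z i‖ ≤ r) → ∀ k, ‖ex z' k - ex z k‖ ≤ c * r := by
  have h0 : 0 ≤ ∑ k, ‖ex z k‖ := Finset.sum_nonneg fun _ _ => norm_nonneg _
  refine ⟨1 + 2 * ∑ k, ‖ex z k‖, by linarith, fun z' r hr h k => ?_⟩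
  have h1 := Finset.single_le_sum (f := fun k => ‖ex z k‖) (fun _ _ => norm_nonneg _)
    (Finset.mem_univ k)
  have key : ∀ w w' : ℂ, ‖w' - w‖ ≤ r → ‖Complex.exp w' - Complex.exp w‖ ≤
      ‖Complex.exp w‖ * (2 * r) := fun w w' hw => by
    rw [show Complex.exp w' - Complex.exp w = Complex.exp w * (Complex.exp (w' - w) - 1) by
      rw [mul_sub, ← Complex.exp_add]; simp, norm_mul]
    gcongr
    exact (Complex.norm_exp_sub_one_le (hw.trans hr)).trans (by linarith)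
  have h2 : ‖ex z' k - ex z k‖ ≤ ‖ex z k‖ * (2 * r) := by
    cases k with
    | inl i => exact key _ _ (h i)
    | inr i => exact key _ _ (by rw [neg_sub_neg, norm_sub_rev]; exact h i)
  have h3 : 0 ≤ r := by rcases k with i | i <;> exact (norm_nonneg _).trans (h i)
  nlinarith

/-- logarithms of a nearby point of the locus -/
lemma exists_logs (z : ι → ℂ) : ∃ c : ℝ, 1 ≤ c ∧ ∀ (θ : ι ⊕ ι → ℂ) (r : ℝ), c * r ≤ 1 →
    Spec (ex z) θ → (∀ k, ‖θ k - ex z k‖ ≤ r) →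
    ∃ z' : ι → ℂ, ex z' = θ ∧ ∀ i, ‖z' i - z i‖ ≤ c * r := by
  have h0 : 0 ≤ ∑ i, ‖z i‖ := Finset.sum_nonneg fun _ _ => norm_nonneg _
  have h1 := Real.one_le_exp h0
  refine ⟨2 * Real.exp (∑ i, ‖z i‖), by linarith, fun θ r hr hs h => ?_⟩
  choose η h2 h3 using fun i => JOne.near_log (w := z i) (z := θ (.inl i)) (ε := r)
    (Finset.single_le_sum (f := fun i => ‖z i‖) (fun _ _ => norm_nonneg _) (Finset.mem_univ i))
    (h (.inl i)) (by linarith)
  refine ⟨fun i => z i + η i, funext fun k => ?_, fun i => by simpa [mul_assoc] using h3 i⟩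
  cases k with
  | inl i => exact (h2 i).symm
  | inr i =>
    have h4 := hs (X (.inl i) * X (.inr i) - 1) (by simp [ex, ← Complex.exp_add])
    simp only [map_sub, map_mul, aeval_X, map_one, sub_eq_zero, h2 i] at h4
    change Complex.exp (-(z i + η i)) = _
    rw [Complex.exp_neg]
    exact (eq_inv_of_mul_eq_one_right h4).symm

end Mon

/-! ### Integral vectors -/

section Int

variable {m : ℕ} {G G' : Set (Fin m → ℤ)} {t t' K K' : ℝ}

lemma abs_le_norm (a : Fin m → ℤ) (i : Fin m) : |(a i : ℝ)| ≤ ‖a‖ := by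
  simpa [Int.norm_eq_abs] using norm_le_pi_norm a i

lemma norm_le_of_abs {a : Fin m → ℤ} (ht : 0 ≤ t) (h : ∀ i, |(a i : ℝ)| ≤ t) : ‖a‖ ≤ t :=
  (pi_norm_le_iff_of_nonneg ht).mpr fun i => by simpa [Int.norm_eq_abs] using h i

lemma norm_cst (a : Fin m → ℤ) : ‖cst a‖ = ‖a‖ :=
  le_antisymm ((pi_norm_le_iff_of_nonneg (norm_nonneg _)).mpr fun i => abs_le_norm a i)
    (norm_le_of_abs (norm_nonneg _) fun i => norm_le_pi_norm (cst a) i)

lemma exists_norm_eq_nat (a : Fin m → ℤ) : ∃ ν : ℕ, ‖a‖ = ν := by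
  refine ⟨Finset.univ.sup fun i => (a i).natAbs, le_antisymm
    (norm_le_of_abs (Nat.cast_nonneg _) fun i => ?_) ?_⟩
  · have := Finset.le_sup (f := fun i => (a i).natAbs) (Finset.mem_univ i)
    rw [← Int.cast_abs, ← Nat.cast_natAbs]
    exact_mod_cast this
  · rw [← Nat.le_floor_iff (norm_nonneg a), Finset.sup_le_iff]
    intro i _
    rw [Nat.le_floor_iff (norm_nonneg a), Nat.cast_natAbs, Int.cast_abs]
    exact abs_le_norm a i

lemma one_le_norm {a : Fin m → ℤ} (h : a ≠ 0) : 1 ≤ ‖a‖ := by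
  obtain ⟨ν, hν⟩ := exists_norm_eq_nat a
  have := norm_pos_iff.mpr h
  rw [hν] at this ⊢
  exact_mod_cast this

lemma finite_norm_le (t : ℝ) : {a : Fin m → ℤ | ‖a‖ ≤ t}.Finite :=
  (Set.Finite.pi' fun _ : Fin m => Set.finite_Icc (-⌈t⌉) ⌈t⌉).subset fun a ha i => by
    have h1 : |(a i : ℝ)| ≤ ⌈t⌉ := (abs_le_norm a i).trans (le_trans ha (Int.le_ceil t))
    exact abs_le.mp (by exact_mod_cast h1)

/-- the inclusion of the integral vectors as a linear map -/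
def cstL (m : ℕ) : (Fin m → ℤ) →ₗ[ℤ] Fin m → ℝ where
  toFun := cst
  map_add' a b := by ext i; simp [cst]
  map_smul' c a := by ext i; simp [cst]

@[simp] lemma cstL_apply (a : Fin m → ℤ) : cstL m a = cst a := rfl

lemma cst_add (a b : Fin m → ℤ) : cst (a + b) = cst a + cst b := map_add (cstL m) a b

lemma cst_sub (a b : Fin m → ℤ) : cst (a - b) = cst a - cst b := map_sub (cstL m) a b

@[simp] lemma cst_zero : cst (0 : Fin m → ℤ) = 0 := map_zero (cstL m)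

lemma cst_injective : Function.Injective (cst : (Fin m → ℤ) → Fin m → ℝ) := fun _ _ h =>
  funext fun i => Int.cast_injective (α := ℝ) (congrFun h i)

lemma cst_mem_rsp {a : Fin m → ℤ} (h : a ∈ G) : cst a ∈ rsp G := Submodule.subset_span ⟨a, h, rfl⟩

lemma rsp_mono (h : G ⊆ G') : rsp G ≤ rsp G' := Submodule.span_mono (Set.image_mono h)

lemma rk_mono (h : G ⊆ G') : rk G ≤ rk G' := Submodule.finrank_mono (rsp_mono h)

lemma rk_le (G : Set (Fin m → ℤ)) : rk G ≤ m :=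
  (Submodule.finrank_le _).trans (finrank_fin_fun ℝ).le

lemma rk_insert {a : Fin m → ℤ} (h : cst a ∉ rsp G) : rk G + 1 ≤ rk (insert a G) :=
  Submodule.finrank_lt_finrank_of_lt (lt_of_le_of_ne (rsp_mono (Set.subset_insert a G))
    fun e => h (e ▸ cst_mem_rsp (Set.mem_insert a G)))

lemma Many.mono (h : Many G t K) (hG : rsp G' ≤ rsp G) (ht : t ≤ t') (hK : K' ≤ K) :
    Many G' t' K' :=
  let ⟨A, h1, h2, h3⟩ := h
  ⟨A, hK.trans h1, fun a ha => (h2 a ha).trans ht, fun a ha a' ha' e => h3 a ha a' ha' (hG e)⟩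

lemma Many.anti (h : Many G t K) (hG : G' ⊆ G) (hK : K' ≤ K) : Many G' t K' :=
  h.mono (rsp_mono hG) le_rfl hK

variable {J ι : Type*} [Fintype ι] {E : J → (Fin m → ℤ) →ₗ[ℤ] ι → ℤ} {z : ι → ℂ}

/-- the real linear extension of a linear form on the integral vectors -/
noncomputable def rext (φ : (Fin m → ℤ) →ₗ[ℤ] ℂ) : (Fin m → ℝ) →ₗ[ℝ] ℂ :=
  Fintype.linearCombination ℝ fun i => φ (Pi.single i 1)

lemma rext_cst (φ : (Fin m → ℤ) →ₗ[ℤ] ℂ) (a : Fin m → ℤ) : rext φ (cst a) = φ a := by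
  rw [φ.pi_apply_eq_sum_univ a, rext, Fintype.linearCombination_apply]
  refine Finset.sum_congr rfl fun i _ => ?_
  rw [cst, Int.cast_smul_eq_zsmul]
  congr 2
  ext j
  simp [Pi.single_apply, eq_comm]

lemma mem_Ker_of_rsp (hG : G ⊆ Ker E z) {a : Fin m → ℤ} (h : cst a ∈ rsp G) : a ∈ Ker E z :=
  fun j => by
    have h1 : rsp G ≤ LinearMap.ker (rext (lfL z ∘ₗ E j)) := Submodule.span_le.mpr (by
      rintro _ ⟨g, hg, rfl⟩
      exact (rext_cst _ g).trans (hG hg j))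
    exact (rext_cst _ a).symm.trans (h1 h)

lemma Ker_sat (a : Fin m → ℤ) (h : cst a ∈ rsp (Ker E z)) : a ∈ Ker E z :=
  mem_Ker_of_rsp subset_rfl h

lemma Van_of_Ker {a : Fin m → ℤ} (h : a ∈ Ker E z) : Van E (ex z) a := fun j => by
  rw [aeval_mon, h j, Complex.exp_zero]

lemma Ker_of_Van {a : Fin m → ℤ} (h : Van E (ex z) a) (h2 : ∀ j, ‖lf (E j a) z‖ ≤ 2) :
    a ∈ Ker E z := fun j => JM1.eq_zero_of_exp ((aeval_mon z _).symm.trans (h j)) (h2 j)

end Int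

section Sides

variable {m n : ℕ}

lemma Ex_apply (j : Fin n) (a : Fin m → ℤ) (k : Fin m × Fin n) :
    Ex m n j a k = if k.2 = j then a k.1 else 0 := by
  rw [Ex, LinearMap.pi_apply]; split_ifs <;> rfl

lemma Ey_apply (i : Fin m) (u : Fin n → ℤ) (k : Fin m × Fin n) :
    Ey m n i u k = if k.1 = i then u k.2 else 0 := by
  rw [Ey, LinearMap.pi_apply]; split_ifs <;> rfl

lemma lf_Ex (j : Fin n) (a : Fin m → ℤ) (z : Fin m × Fin n → ℂ) :
    lf (Ex m n j a) z = lf a fun i => z (i, j) := by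
  simp [lf, Ex_apply, Fintype.sum_prod_type]

lemma lf_Ey (i : Fin m) (u : Fin n → ℤ) (z : Fin m × Fin n → ℂ) :
    lf (Ey m n i u) z = lf u fun j => z (i, j) := by
  rw [lf, Fintype.sum_prod_type_right]
  simp [lf, Ey_apply]

lemma lf_Ex_xy (j : Fin n) (a : Fin m → ℤ) (x : Fin m → ℂ) (y : Fin n → ℂ) :
    lf (Ex m n j a) (xy x y) = lf a x * y j := by
  rw [lf_Ex]; simp [lf, xy, Finset.sum_mul, mul_assoc]

lemma lf_Ey_xy (i : Fin m) (u : Fin n → ℤ) (x : Fin m → ℂ) (y : Fin n → ℂ) :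
    lf (Ey m n i u) (xy x y) = x i * lf u y := by
  rw [lf_Ey]; simp [lf, xy, Finset.mul_sum, mul_left_comm]

lemma Bd_Ex {c : ℕ} (hc : m ≤ c) : Bd (Ex m n) c := fun j a => by
  have : ∑ k, |(Ex m n j a k : ℝ)| = ∑ i, |(a i : ℝ)| := by
    simp [Ex_apply, Fintype.sum_prod_type, apply_ite (abs : ℝ → ℝ)]
  rw [this]
  refine (Finset.sum_le_card_nsmul _ _ _ fun i _ => abs_le_norm a i).trans ?_
  rw [Finset.card_fin, nsmul_eq_mul]
  gcongr

lemma Bd_Ey {c : ℕ} (hc : n ≤ c) : Bd (Ey m n) c := fun i u => by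
  have : ∑ k, |(Ey m n i u k : ℝ)| = ∑ j, |(u j : ℝ)| := by
    rw [Fintype.sum_prod_type_right]
    simp [Ey_apply, apply_ite (abs : ℝ → ℝ)]
  rw [this]
  refine (Finset.sum_le_card_nsmul _ _ _ fun j _ => abs_le_norm u j).trans ?_
  rw [Finset.card_fin, nsmul_eq_mul]
  gcongr

lemma Conf.mono {x : Fin m → ℂ} {y : Fin n → ℂ} {k k' : ℕ} {w : ℝ} (h : Conf x y k w)
    (hk : k' ≤ k) : Conf x y k' w :=
  let ⟨z, t, Gx, Gy, a1, a2, a3, a4, a5, a6, a7, a8, a9⟩ := h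
  ⟨z, t, Gx, Gy, a1, a2, a3, a4, a5, a6, a7, hk.trans a8, a9⟩

end Sides

end Pool.Agent.Lib.MP_12eca1_ag.Q
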