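import Pool.Agent.Lib.MP_12eca1_ag.P.Fin

/-!
Definitions and statements for the linear bound in the large transcendence degree theorem
without the technical hypothesis.
-/

namespace Pool.Agent.Lib.MP_12eca1_ag.Q

open MvPolynomial Filter Module P

/-! ### Points, specialisation, size -/

/-- `θ` is a specialisation of `η` -/
def Spec {κ : Type*} (η θ : κ → ℂ) : Prop :=
  ∀ Q : MvPolynomial κ ℤ, aeval η Q = 0 → aeval θ Q = 0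

/-- upper bounds for the two Hilbert functions -/
def HA {σ : Type} (J : Ideal (MvPolynomial σ ℤ)) (τ : ℕ) (α : ℝ) : Prop :=
  ∀ᶠ R : ℕ in atTop, Hf J R ≤ Real.exp α * R ^ τ ∧ chi (l2 σ) J R ≤ Real.exp α * R ^ (τ + 1)

/-- an upper bound for the number of values of integral polynomials at a point -/
def CN {κ : Type*} (η : κ → ℂ) (t : ℕ) (α : ℝ) : Prop :=
  ∀ᶠ R : ℕ in atTop, ∀ s : Finset ℂ, (∀ v ∈ s, ∃ Q : MvPolynomial κ ℤ, Q.totalDegree ≤ R ∧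
    l1 Q ≤ Real.exp R ∧ aeval η Q = v) → (s.card : ℝ) ≤ Real.exp (Real.exp α * R ^ t)

/-- a proper quotient of a domain has a smaller transcendence degree -/
def StLt : Prop :=
  ∀ (k A : Type) [Field k] [CommRing A] [IsDomain A] [Algebra k A] (q : Ideal A) (n : ℕ),
    q.IsPrime → q ≠ ⊥ → (n : Cardinal) ≤ Algebra.trdeg k (A ⧸ q) →
    ((n + 1 : ℕ) : Cardinal) ≤ Algebra.trdeg k A

/-- generic points are dense -/
def StDens : Prop :=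
  ∀ (A ι : Type) [CommRing A] [IsDomain A] [Algebra ℚ A] [Algebra.FiniteType ℚ A] [Fintype ι]
    (ev : A →ₐ[ℚ] ℂ) (g : ι → A) (ε : ℝ), 0 < ε →
    ∃ ev' : A →ₐ[ℚ] ℂ, Function.Injective ev' ∧ ∀ i, ‖ev' (g i) - ev (g i)‖ ≤ ε

/-- cutting the locus of a point by a hypersurface through a specialisation -/
def StCut : Prop :=
  ∀ (κ : Type) [Fintype κ] (η θ : κ → ℂ) (τ e : ℕ) (f : MvPolynomial κ ℤ) (ε : ℝ), TB η τ →
    Spec η θ → f.totalDegree ≤ e → aeval η f ≠ 0 → aeval θ f = 0 → 0 < ε →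
    ∃ (η' : κ → ℂ) (τ' e' : ℕ) (g : MvPolynomial (Option κ) ℤ), τ = τ' + 1 ∧ TB η' τ' ∧
      Spec η η' ∧ Spec η' θ ∧ aeval η' f = 0 ∧ (∀ i, ‖η' i - θ i‖ ≤ ε) ∧ g.IsHomogeneous e' ∧
      col (vI η ⊔ Ideal.span {JB.hz e f}) g = vI η'

/-- the Hilbert functions of a component of a hypersurface section -/
def StHAc : Prop :=
  ∀ (σ : Type) [Fintype σ] (p p' : Ideal (MvPolynomial σ ℤ)) (f g : MvPolynomial σ ℤ)
    (τ e e' : ℕ) (i : σ) (α : ℝ), IsHom p → p.IsPrime → p'.IsPrime → 1 ≤ e → f.IsHomogeneous e →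
    f ∉ p → l1 f ≤ 2 → g.IsHomogeneous e' → col (p ⊔ Ideal.span {f}) g = p' → X i ∉ p' →
    HA p (τ + 1) α → HA p' τ (α + Real.log e + 2 * (τ + 3))

/-- the counting bound: start, specialisation, hypersurface section -/
def StCN : Prop :=
  ∀ (κ : Type) [Fintype κ] (η θ : κ → ℂ) (τ : ℕ), (TB η τ → ∃ α : ℝ, CN η (τ + 1) α) ∧
    (∀ α : ℝ, Spec η θ → CN η τ α → CN θ τ α) ∧
    ∀ (α : ℝ) (e : ℕ) (f : MvPolynomial κ ℤ), Spec η θ → 1 ≤ e → f.totalDegree ≤ e → l1 f ≤ 2 →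
      aeval η f ≠ 0 → aeval θ f = 0 → CN η (τ + 2) α →
      CN θ (τ + 1) (α + Real.log e + 2 * (τ + 3))

/-! ### Tori and relations -/

/-- the exponentials and their inverses -/
noncomputable def ex {ι : Type*} (z : ι → ℂ) : ι ⊕ ι → ℂ :=
  Sum.elim (fun i => Complex.exp (z i)) fun i => Complex.exp (-z i)

/-- a Laurent monomial written in the variables and their inverses -/
noncomputable def mon {ι : Type*} [Fintype ι] (μ : ι → ℤ) : MvPolynomial (ι ⊕ ι) ℤ :=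
  ∏ i, X (Sum.inl i) ^ (μ i).toNat * X (Sum.inr i) ^ (-μ i).toNat

/-- an integral linear form -/
noncomputable def lf {ι : Type*} [Fintype ι] (μ : ι → ℤ) (z : ι → ℂ) : ℂ := ∑ i, (μ i : ℂ) * z i

/-- integral vectors as real vectors -/
def cst {m : ℕ} (a : Fin m → ℤ) : Fin m → ℝ := fun i => a i

/-- the real span of a set of integral vectors -/
def rsp {m : ℕ} (G : Set (Fin m → ℤ)) : Submodule ℝ (Fin m → ℝ) := Submodule.span ℝ (cst '' G)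

/-- the rank of a set of integral vectors -/
noncomputable def rk {m : ℕ} (G : Set (Fin m → ℤ)) : ℕ := finrank ℝ (rsp G)

/-- there are at least `K` integral vectors of norm at most `t` incongruent modulo the span
of `G` -/
def Many {m : ℕ} (G : Set (Fin m → ℤ)) (t K : ℝ) : Prop :=
  ∃ A : Finset (Fin m → ℤ), K ≤ A.card ∧ (∀ a ∈ A, ‖a‖ ≤ t) ∧
    ∀ a ∈ A, ∀ a' ∈ A, cst (a - a') ∈ rsp G → a = a'

section Side

variable {m : ℕ} {J ι : Type*} [Fintype ι] (E : J → (Fin m → ℤ) →ₗ[ℤ] ι → ℤ)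

/-- the relations of the point with logarithms `z` -/
def Ker (z : ι → ℂ) : Set (Fin m → ℤ) := {a | ∀ j, lf (E j a) z = 0}

/-- the characters attached to `a` are trivial at `η` -/
def Van (η : ι ⊕ ι → ℂ) (a : Fin m → ℤ) : Prop := ∀ j, aeval η (mon (E j a)) = 1

/-- a bound for the degrees of the characters -/
def Bd (c : ℕ) : Prop := ∀ j a, ∑ i, |(E j a i : ℝ)| ≤ c * ‖a‖

end Side

/-- successive minima of a saturated lattice, integrated -/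
def StLat : Prop :=
  ∀ m : ℕ, ∃ C : ℝ, ∀ F : Set (Fin m → ℤ), (∀ a, cst a ∈ rsp F → a ∈ F) → ∃ l : ℝ → ℝ, l 0 = 0 ∧
    (∀ (c s : ℝ) (ρ : ℕ), 0 ≤ c → c ≤ s → rk {a ∈ F | ‖a‖ < Real.exp s} + ρ ≤ m →
      l c + ρ * (s - c) ≤ l s) ∧
    ∀ s : ℝ, 0 ≤ s → Many {a ∈ F | ‖a‖ ≤ Real.exp s} (Real.exp s) (Real.exp (l s - C))

/-- few classes modulo the relations of an algebraic point -/
def StTm : Prop :=
  ∀ (m c : ℕ) (Z : ℝ), ∃ C : ℝ, 1 ≤ C ∧ ∀ (J ι : Type) [Fintype ι]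
    (E : J → (Fin m → ℤ) →ₗ[ℤ] ι → ℤ) (z : ι → ℂ) (α t K : ℝ), Bd E c → (∀ i, ‖z i‖ ≤ Z) →
    0 ≤ α → CN (ex z) 1 α → 1 ≤ t → Many (Ker E z) t K →
    K ≤ (C * t * Real.exp (3 * α)) ^ (m - rk (Ker E z))

/-! ### The zero estimate with a lattice support -/

/-- the number of components of an intersection of hyperplane sections -/
def StBz : Prop :=
  ∀ ρ : ℕ, ∃ c : ℝ, 0 ≤ c ∧ ∀ (S : Type) [CommRing S] [IsDomain S] [Algebra ℂ S]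
    (W : Submodule ℂ S) (N : ℝ), W.FG → 1 ∈ W → Algebra.adjoin ℂ (W : Set S) = ⊤ →
    (∀ᶠ R : ℕ in atTop, (finrank ℂ ↥(W ^ R) : ℝ) ≤ N * R ^ ρ) →
    Algebra.trdeg ℂ S ≤ ρ ∧ ((ρ : Cardinal) ≤ Algebra.trdeg ℂ S → ∀ F : Set S, F ⊆ W →
      ∀ s : Finset (Ideal S), (∀ q ∈ s, q ∈ (Ideal.span F).minimalPrimes) → (s.card : ℝ) ≤ c * N)

open Pointwise Classical in
/-- the zero estimate for an exponential sum with a support of small growth -/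
def StZa : Prop :=
  ∀ ρ : ℕ, ∃ c : ℝ, 0 ≤ c ∧ ∀ (V Γ : Type) [AddCommGroup V] [Module ℝ V] [AddCommMonoid Γ]
    (A : Finset V) (N : ℝ) (p : V → ℂ) (ω : Γ →+ V →+ ℂ) (S : Finset Γ), 0 ∈ A →
    (∀ a ∈ A, -a ∈ A) → finrank ℝ (Submodule.span ℝ (A : Set V)) = ρ →
    (∀ᶠ R : ℕ in atTop, ((R • A).card : ℝ) ≤ N * R ^ ρ) → (∃ a ∈ A, p a ≠ 0) → 0 ∈ S →
    (∀ s ∈ ρ • S, ∑ a ∈ A, p a * Complex.exp (ω s a) = 0) →
    ∃ a ∈ A, ∃ a' ∈ A, a ≠ a' ∧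
      ((S.image fun s => Complex.exp (ω s (a - a'))).card : ℝ) ≤ c * N

open Pointwise Classical in
/-- the choice of the support modulo a set of relations -/
def StZE : Prop :=
  ∀ m : ℕ, ∃ C : ℝ, 1 ≤ C ∧ ∀ (G : Set (Fin m → ℤ)) (t L : ℝ), 1 ≤ t → 2 ≤ L →
    (∀ g ∈ G, ‖g‖ ≤ t) → Many G t L → ∃ A : Finset (Fin m → ℤ), L ≤ A.card ∧ A.card ≤ C * L ∧
      (∀ a ∈ A, ‖a‖ ≤ C * t) ∧ ∀ (Γ : Type) [AddCommMonoid Γ]
        (ω : Γ →+ (Fin m → ℝ) →ₗ[ℝ] ℂ) (S : Finset Γ) (p : (Fin m → ℤ) → ℂ),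
        (∀ s, ∀ g ∈ G, ω s (cst g) = 0) → 0 ∈ S → (∃ a ∈ A, p a ≠ 0) →
        (∀ s ∈ m • S, ∑ a ∈ A, p a * Complex.exp (ω s (cst a)) = 0) →
        ∃ a ∈ A, ∃ a' ∈ A, cst (a - a') ∉ rsp G ∧
          ((S.image fun s => Complex.exp (ω s (cst (a - a')))).card : ℝ) ≤ C * L

/-- the products of the two families -/
def xy {m n : ℕ} (x : Fin m → ℂ) (y : Fin n → ℂ) : Fin m × Fin n → ℂ := fun k => x k.1 * y k.2

/-- the characters attached to a vector of the first lattice -/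
def Ex (m n : ℕ) (j : Fin n) : (Fin m → ℤ) →ₗ[ℤ] Fin m × Fin n → ℤ :=
  LinearMap.pi fun k => if k.2 = j then LinearMap.proj k.1 else 0

/-- the characters attached to a vector of the second lattice -/
def Ey (m n : ℕ) (i : Fin m) : (Fin n → ℤ) →ₗ[ℤ] Fin m × Fin n → ℤ :=
  LinearMap.pi fun k => if k.1 = i then LinearMap.proj k.2 else 0

/-- the auxiliary function and the zero estimate produce a new small linear form -/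
def StRel : Prop :=
  ∀ (m n : ℕ) (x : Fin m → ℂ) (y : Fin n → ℂ), ∃ C : ℝ, 1 ≤ C ∧
    ∀ (U t : ℝ) (Gx : Set (Fin m → ℤ)) (Gy : Set (Fin n → ℤ)), 1 ≤ t → C * t ^ 2 ≤ U →
      (∀ g ∈ Gx, ‖g‖ ≤ t) → Many Gx t (C * U ^ 2 * t ^ 2) → Many Gy t (C * U ^ 2 * t ^ 2) →
      ∃ F : Set (MvPolynomial ((Fin m × Fin n) ⊕ (Fin m × Fin n)) ℤ),
        (∀ f ∈ F, (f.totalDegree : ℝ) ≤ C * t ^ 2 ∧ l1 f ≤ C * U ^ 2 ∧
          ‖aeval (ex (xy x y)) f‖ ≤ Real.exp (-U)) ∧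
        ∀ (z : Fin m × Fin n → ℂ) (r : ℝ), r ≤ 1 → (∀ k, ‖z k - xy x y k‖ ≤ r) →
          Gx ⊆ Ker (Ex m n) z → (∀ f ∈ F, aeval (ex z) f = 0) →
          ∃ (a : Fin m → ℤ) (u : Fin n → ℤ), cst a ∉ rsp Gx ∧ cst u ∉ rsp Gy ∧ ‖a‖ ≤ C * t ∧
            ‖u‖ ≤ C * t ∧ ‖lf a x‖ * ‖lf u y‖ ≤ C * t ^ 2 * r

/-! ### Anomalous intersections -/

/-- the theorem of Ax for several derivations -/
def StAx : Prop :=
  ∀ (C K κ : Type) [Field C] [Field K] [Algebra C K] [CharZero C] [IsAlgClosed K] [Fintype κ]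
    (τ e : ℕ) (D : Fin τ → Derivation C K K) (g : κ → K) (b : Fin τ → κ) (ν : Fin e → κ → C),
    (∀ z, (∀ s, D s z = 0) → z ∈ Set.range (algebraMap C K)) → (∀ k, g k ≠ 0) →
    (∀ s s', D s (g (b s')) = if s = s' then 1 else 0) →
    (∀ l s, ∑ k, algebraMap C K (ν l k) * (D s (g k) / g k) = 0) →
    (∀ c : Fin e → C, ∑ l, c l • ν l ∈ Submodule.span C {v : κ → C | ∃ μ : κ → ℤ,
      ∏ k, g k ^ μ k ∈ Set.range (algebraMap C K) ∧ v = fun k => (μ k : C)} → c = 0) →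
    ∃ b' : Fin (τ + e) → κ, AlgebraicIndependent C (g ∘ b')

/-- near a generic point the intersections with subtori have the generic dimension -/
def StWZ : Prop :=
  ∀ (κ : Type) [Fintype κ] (θ : κ → ℂ) (T : ℕ), (∀ k, θ k ≠ 0) → TB θ T → ∃ ε : ℝ, 0 < ε ∧
    ∀ (η : κ → ℂ) (τ a : ℕ) (μ : Fin a → κ → ℤ), Spec θ η → (∀ k, ‖η k - θ k‖ ≤ ε) → TB η τ →
      (∀ l, ∏ k, η k ^ μ l k = 1) → (AlgebraicIndependent ℚ fun l => ∏ k, θ k ^ μ l k) →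
      a + τ ≤ T

/-! ### Changing the precision of the twisted Hilbert function -/

/-- beyond the distance to the zeros the precision plays no role -/
def StLow : Prop :=
  ∀ (κ : Type) [Fintype κ] (θ : κ → ℂ) (B U ρ : ℝ) (δ : ℕ) (J : Ideal (MvPolynomial (Option κ) ℤ)),
    1 ≤ B → (∀ i, ‖θ i‖ + 1 ≤ B) → 0 ≤ ρ → ρ + 1 ≤ U → 1 ≤ δ → IsHom J →
    (¬ ∃ θ' : κ → ℂ, (∀ i, ‖θ' i - θ i‖ ≤ Real.exp (-ρ)) ∧ ∀ Q ∈ J, aeval (pt θ') Q = 0) →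
    ∀ᶠ R : ℕ in atTop, chi (tw θ (ρ + 1) δ R) J R ≤
      chi (tw θ U δ R) J R + Hf J R * (R * (2 * Real.log B + 1))

/-- convexity in the precision -/
def StHalf : Prop :=
  ∀ (κ : Type) [Fintype κ] (θ : κ → ℂ) (B U : ℝ) (δ : ℕ) (J : Ideal (MvPolynomial (Option κ) ℤ)),
    1 ≤ B → (∀ i, ‖θ i‖ + 1 ≤ B) → 0 ≤ U →
    ∀ᶠ R : ℕ in atTop, 2 * chi (tw θ (U / 2) δ R) J R ≤
      chi (l2 (Option κ)) J R + chi (tw θ U δ R) J R + Hf J R * (R * (4 * (Real.log B + 1)))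

/-! ### The history of a point and the levels -/

/-- cutting by the relations of a point in the order of their size -/
def StHist : Prop :=
  ∀ (T c : ℕ) (c₁ : ℝ), 1 ≤ T → 1 ≤ c → ∃ C : ℝ, 0 ≤ C ∧ ∀ (κ : Type) [Fintype κ] (θ θ' : κ → ℂ)
    (ε α₀ s₀ W : ℝ) (Ev : Set (MvPolynomial κ ℤ × ℕ)) (l : ℝ → ℝ), TB θ T → HA (vI θ) T α₀ →
    CN θ (T + 1) α₀ → 0 ≤ α₀ → Spec θ θ' → 0 < ε → (∀ i, ‖θ i - θ' i‖ ≤ ε) → 0 ≤ s₀ →
    α₀ + (T + 1) * s₀ ≤ W →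
    (∀ v ∈ Ev, v.1.totalDegree ≤ c * v.2 ∧ l1 v.1 ≤ 2 ∧ aeval θ' v.1 = 0 ∧ Real.exp s₀ ≤ v.2) →
    80 * (α₀ + T * s₀) + C ≤ l s₀ →
    (∀ (η : κ → ℂ) (τ : ℕ) (a b : ℝ), TB η τ → Spec θ η → (∀ i, ‖η i - θ' i‖ ≤ ε) → 0 ≤ a →
      a ≤ b → (∀ v ∈ Ev, v.2 < Real.exp b → aeval η v.1 = 0) → l a + 80 * τ * (b - a) ≤ l b) →
    (∀ α : ℝ, 0 ≤ α → CN θ' 1 α → (∀ a b : ℝ, 0 ≤ a → a ≤ b → l a + 21 * (b - a) ≤ l b) ∨
      ∀ a : ℝ, 0 ≤ a → l a ≤ 20 * (a + 3 * α) + c₁) →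
    ∃ (η : κ → ℂ) (τ : ℕ) (α s : ℝ), τ ≤ T ∧ TB η τ ∧ Spec θ η ∧ (∀ i, ‖η i - θ' i‖ ≤ ε) ∧
      HA (vI η) τ α ∧ 0 ≤ α ∧ s₀ ≤ s ∧ α + (τ + 1) * s ≤ W + C ∧ 21 * W ≤ l s ∧
      ∀ v ∈ Ev, v.2 ≤ Real.exp s → aeval η v.1 = 0

/-- a nearby point of the locus with many relations and few remaining classes -/
def Conf {m n : ℕ} (x : Fin m → ℂ) (y : Fin n → ℂ) (k : ℕ) (w : ℝ) : Prop :=
  ∃ (z : Fin m × Fin n → ℂ) (t : ℝ) (Gx : Set (Fin m → ℤ)) (Gy : Set (Fin n → ℤ)), 1 ≤ t ∧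
    Spec (ex (xy x y)) (ex z) ∧ (∀ i, ‖z i - xy x y i‖ ≤ Real.exp (-Real.exp w)) ∧
    Gx ⊆ Ker (Ex m n) z ∧ Gy ⊆ Ker (Ey m n) z ∧ (∀ g ∈ Gx, ‖g‖ ≤ t) ∧ (∀ g ∈ Gy, ‖g‖ ≤ t) ∧
    k ≤ rk Gx + rk Gy ∧ ¬ (Many Gx t (Real.exp (5.1 * w)) ∧ Many Gy t (Real.exp (5.1 * w)))

/-- adding relations at one scale without loss of precision -/
def StTemp : Prop :=
  ∀ (m n T : ℕ) (x : Fin m → ℂ) (y : Fin n → ℂ) (C : ℝ), ∀ᶠ w : ℝ in atTop,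
    ∀ (η : (Fin m × Fin n) ⊕ (Fin m × Fin n) → ℂ) (τ : ℕ) (α s : ℝ) (Gx : Set (Fin m → ℤ))
      (Gy : Set (Fin n → ℤ)), τ ≤ T → TB η τ → Spec (ex (xy x y)) η → HA (vI η) τ α → 0 ≤ α →
      0 ≤ s → α + (τ + 1) * s ≤ w / 4 + C →
      (∀ i, ‖η i - ex (xy x y) i‖ ≤ C * Real.exp (-Real.exp w)) →
      (∀ g ∈ Gx, ‖g‖ ≤ Real.exp s ∧ Van (Ex m n) η g ∧ ∀ j, ‖lf (Ex m n j g) (xy x y)‖ ≤ 1) →
      (∀ g ∈ Gy, ‖g‖ ≤ Real.exp s ∧ Van (Ey m n) η g ∧ ∀ i, ‖lf (Ey m n i g) (xy x y)‖ ≤ 1) →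
      Many Gx (Real.exp s) (Real.exp (3 * w)) → Many Gy (Real.exp s) (Real.exp (3 * w)) →
      Conf x y (rk Gx + rk Gy + 1) (0.495 * w)

/-- the rank of the relations of a nearby point of the locus is bounded by the dimension -/
def Stab {m : ℕ} {J ι : Type} [Fintype ι] (E : J → (Fin m → ℤ) →ₗ[ℤ] ι → ℤ) (z : ι → ℂ) : Prop :=
  ∃ ε : ℝ, 0 < ε ∧ ∀ (η : ι ⊕ ι → ℂ) (τ : ℕ) (S : Set (Fin m → ℤ)), TB η τ → Spec (ex z) η →
    (∀ i, ‖η i - ex z i‖ ≤ ε) → (∀ a ∈ S, Van E η a) → rk S + 80 * τ ≤ m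

/-- passing to the next level -/
def StLev : Prop :=
  ∀ (m n T : ℕ) (x : Fin m → ℂ) (y : Fin n → ℂ), 1 ≤ T → 80 * T < m → 80 * T < n →
    LinearIndependent ℚ x → LinearIndependent ℚ y → TB (ex (xy x y)) T →
    Stab (Ex m n) (xy x y) → Stab (Ey m n) (xy x y) →
    ∀ᶠ w : ℝ in atTop, ∀ k, Conf x y k w → Conf x y (k + 1) (0.495 * w)

/-- the linear bound for an exact transcendence degree -/
def Main (T : ℕ) : Prop :=
  ∀ (m n : ℕ) (x : Fin m → ℂ) (y : Fin n → ℂ), 80 * T + 24 ≤ m → 80 * T + 24 ≤ n →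
    LinearIndependent ℚ x → LinearIndependent ℚ y → ¬ TB (ex (xy x y)) T

/-- stability from the induction hypothesis -/
def StStab : Prop :=
  ∀ (m n T : ℕ) (x : Fin m → ℂ) (y : Fin n → ℂ), 80 * T + 24 ≤ m → 80 * T + 24 ≤ n →
    LinearIndependent ℚ x → LinearIndependent ℚ y → TB (ex (xy x y)) T → (∀ T' < T, Main T') →
    Stab (Ex m n) (xy x y) ∧ Stab (Ey m n) (xy x y)

end Pool.Agent.Lib.MP_12eca1_ag.Q
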