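import Pool.Agent.Lib.MP_12eca1_ag.Q.Defs

/-! An abstract Bezout type bound for the number of minimal primes. -/

namespace Pool.Agent.Lib.MP_12eca1_ag.Q

open MvPolynomial Filter Module P

namespace KBz

variable {S : Type} [CommRing S] [Algebra ℂ S]

/-- a finite dimensional generating subspace that contains the unit -/
structure Ok (W : Submodule ℂ S) : Prop where
  fg : W.FG
  one : 1 ∈ W
  top : Algebra.adjoin ℂ (W : Set S) = ⊤

/-- the affine Hilbert function -/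
noncomputable def H (W : Submodule ℂ S) (I : Ideal S) (R : ℕ) : ℕ :=
  finrank ℂ ((W ^ R).map (Ideal.Quotient.mkₐ ℂ I).toLinearMap)

/-- the dimension of the part of degree at most `R` of an ideal -/
noncomputable def K (W : Submodule ℂ S) (I : Ideal S) (R : ℕ) : ℕ :=
  finrank ℂ ↥(W ^ R ⊓ I.restrictScalars ℂ)

variable {W : Submodule ℂ S}

theorem Ok.fin (h : Ok W) (R : ℕ) : Module.Finite ℂ ↥(W ^ R) := Module.Finite.of_fg (h.fg.pow R)

theorem Ok.mono (h : Ok W) {R R' : ℕ} (hR : R ≤ R') : W ^ R ≤ W ^ R' :=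
  pow_le_pow_right' (Submodule.one_le.2 h.one) hR

theorem Ok.mem (h : Ok W) (x : S) : ∃ c, x ∈ W ^ c := by
  have hx : x ∈ Algebra.adjoin ℂ (W : Set S) := h.top ▸ Algebra.mem_top
  induction hx using Algebra.adjoin_induction with
  | mem x hx => exact ⟨1, by rwa [pow_one]⟩
  | algebraMap r => exact ⟨0, by rw [pow_zero]; exact Submodule.algebraMap_mem r⟩
  | add x y _ _ hx hy =>
    obtain ⟨a, ha⟩ := hx
    obtain ⟨b, hb⟩ := hy
    exact ⟨a + b, add_mem (h.mono (Nat.le_add_right a b) ha) (h.mono (Nat.le_add_left b a) hb)⟩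
  | mul x y _ _ hx hy =>
    obtain ⟨a, ha⟩ := hx
    obtain ⟨b, hb⟩ := hy
    exact ⟨a + b, by rw [pow_add]; exact Submodule.mul_mem_mul ha hb⟩

theorem Ok.finiteType (h : Ok W) : Algebra.FiniteType ℂ S := by
  obtain ⟨s, hs⟩ := h.fg
  exact ⟨s, by rw [← h.top, ← hs, Algebra.adjoin_span]⟩

theorem Ok.H_add_K (hW : Ok W) (I : Ideal S) (R : ℕ) :
    H W I R + K W I R = finrank ℂ ↥(W ^ R) := by
  have := hW.fin R
  have h := LinearMap.finrank_range_add_finrank_ker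
    ((Ideal.Quotient.mkₐ ℂ I).toLinearMap.domRestrict (W ^ R))
  rw [LinearMap.range_domRestrict, LinearMap.ker_domRestrict] at h
  have e : LinearMap.ker (Ideal.Quotient.mkₐ ℂ I).toLinearMap = I.restrictScalars ℂ := by
    ext p
    simp [Ideal.Quotient.eq_zero_iff_mem]
  rw [← h, H, K, ← Submodule.finrank_map_subtype_eq (W ^ R), Submodule.map_comap_subtype, e]

theorem Ok.H_mono (hW : Ok W) (I : Ideal S) {R R' : ℕ} (h : R ≤ R') : H W I R ≤ H W I R' := by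
  have := hW.fin R'
  exact Submodule.finrank_mono (Submodule.map_mono (hW.mono h))

theorem Ok.H_anti (hW : Ok W) {I J : Ideal S} (h : I ≤ J) (R : ℕ) : H W J R ≤ H W I R := by
  have := hW.fin R
  have h1 : K W I R ≤ K W J R := Submodule.finrank_mono (inf_le_inf_left _ fun p hp => h hp)
  have h2 := hW.H_add_K I R
  have h3 := hW.H_add_K J R
  omega

/-- the lower bound for a prime -/
theorem Ok.le_H (hW : Ok W) {q : Ideal S} (hq : q.IsPrime) {d : ℕ}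
    (ht : (d : Cardinal) ≤ Algebra.trdeg ℂ (S ⧸ q)) (r : ℕ) : (r + 1) ^ d ≤ H W q (d * r) := by
  classical
  have := hW.fin (d * r)
  have htop : Algebra.adjoin ℂ (Ideal.Quotient.mkₐ ℂ q '' W) = ⊤ := by
    rw [← AlgHom.map_adjoin, hW.top, Algebra.map_top,
      (AlgHom.range_eq_top _).2 (Ideal.Quotient.mkₐ_surjective ℂ q)]
  have : Algebra.IsAlgebraic (Algebra.adjoin ℂ (Ideal.Quotient.mkₐ ℂ q '' W)) (S ⧸ q) :=
    ⟨fun a => isAlgebraic_algebraMap
      (⟨a, htop ▸ Algebra.mem_top⟩ : Algebra.adjoin ℂ (Ideal.Quotient.mkₐ ℂ q '' W))⟩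
  obtain ⟨t, hts, htb⟩ := exists_isTranscendenceBasis_subset (R := ℂ) (Ideal.Quotient.mkₐ ℂ q '' W)
  rw [← htb.cardinalMk_eq_trdeg, ← Cardinal.mk_fin, Cardinal.le_def] at ht
  obtain ⟨e⟩ := ht
  have hind := htb.1.comp e e.injective
  choose w hw hwe using fun i : Fin d => hts (e i).2
  let n : (Fin d → Fin (r + 1)) → (Fin d →₀ ℕ) := fun a =>
    Finsupp.equivFunOnFinite.symm fun i => (a i : ℕ)
  have hn : Function.Injective n := fun a b h => funext fun i => Fin.ext (by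
    simpa [n] using DFunLike.congr_fun h i)
  have hli : LinearIndependent ℂ fun a =>
      aeval (R := ℂ) (((↑) : t → S ⧸ q) ∘ e) (monomial (n a) 1) :=
    (((basisMonomials (Fin d) ℂ).linearIndependent.comp n hn).map'
      (aeval (((↑) : t → S ⧸ q) ∘ e)).toLinearMap (LinearMap.ker_eq_bot.2 hind))
  have hmem : ∀ a, aeval (R := ℂ) (((↑) : t → S ⧸ q) ∘ e) (monomial (n a) 1) ∈
      (W ^ (d * r)).map (Ideal.Quotient.mkₐ ℂ q).toLinearMap := by
    intro a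
    refine ⟨∏ i, w i ^ (a i : ℕ), ?_, ?_⟩
    · have h1 : ∀ s : Finset (Fin d), ∏ i ∈ s, w i ^ (a i : ℕ) ∈ W ^ (s.card * r) := fun s => by
        induction s using Finset.induction_on with
        | empty => simpa using hW.mono (Nat.zero_le 0) (Submodule.one_le.1 le_rfl)
        | insert i s hi ih =>
          rw [Finset.prod_insert hi, Finset.card_insert_of_notMem hi, Nat.succ_mul, add_comm,
            pow_add]
          exact Submodule.mul_mem_mul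
            (hW.mono (Nat.le_of_lt_succ (a i).2) (Submodule.pow_mem_pow W (hw i) _)) ih
      simpa using h1 Finset.univ
    · rw [aeval_monomial, map_one, one_mul, Finsupp.prod_fintype _ _ (by simp),
        AlgHom.toLinearMap_apply, map_prod]
      exact Finset.prod_congr rfl fun i _ => by rw [map_pow, hwe]; simp [n]
  have hli' : LinearIndependent ℂ fun a => (⟨_, hmem a⟩ :
      (W ^ (d * r)).map (Ideal.Quotient.mkₐ ℂ q).toLinearMap) :=
    LinearIndependent.of_comp (Submodule.subtype _) hli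
  have h := hli'.fintype_card_le_finrank
  rwa [Fintype.card_fun, Fintype.card_fin, Fintype.card_fin] at h

theorem trdeg_step [Algebra.FiniteType ℂ S] {q q' : Ideal S} (hq : q.IsPrime) {f : S}
    (h : q' ∈ (q ⊔ Ideal.span {f}).minimalPrimes) :
    Algebra.trdeg ℂ (S ⧸ q) ≤ Algebra.trdeg ℂ (S ⧸ q') + 1 := by
  have hle : q ≤ q' := le_sup_left.trans h.1.2
  have h1 : q'.map (Ideal.Quotient.mk q) ∈
      (Ideal.span {Ideal.Quotient.mk q f}).minimalPrimes := by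
    rw [← Set.image_singleton, ← Ideal.map_span,
      Ideal.minimalPrimes_map_of_surjective Ideal.Quotient.mk_surjective, Ideal.mk_ker, sup_comm]
    exact ⟨q', h, rfl⟩
  have h2 := stE ℂ (S ⧸ q) (Ideal.Quotient.mk q f) _ h1
  exact h2.trans_eq (congrArg (· + 1) (DoubleQuot.quotQuotEquivQuotOfLEₐ ℂ hle).trdeg_eq)

/-- the invariant of a family of primes at step `j` -/
def Inv (W : Submodule ℂ S) (ρ j : ℕ) (a : ℝ) (P : Finset (Ideal S)) : Prop :=
  (∀ q ∈ P, q.IsPrime ∧ (ρ : Cardinal) ≤ Algebra.trdeg ℂ (S ⧸ q) + j) ∧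
    ∀ᶠ R : ℕ in atTop, ((∑ q ∈ P, H W q R : ℕ) : ℝ) * R ^ j ≤ a * R ^ ρ

variable {ρ j : ℕ} {a : ℝ} {P : Finset (Ideal S)}

theorem Inv.card_mul (hW : Ok W) (h : Inv W ρ j a P) (r R : ℕ) (hR : ρ * r ≤ R) :
    P.card * (r + 1) ^ (ρ - j) ≤ ∑ q ∈ P, H W q R := by
  rw [← smul_eq_mul]
  refine Finset.card_nsmul_le_sum _ _ _ fun q hq => (hW.le_H (h.1 q hq).1 ?_ r).trans
    (hW.H_mono q ((Nat.mul_le_mul_right r (Nat.sub_le ρ j)).trans hR))
  rcases le_total ρ j with h1 | h1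
  · simp [Nat.sub_eq_zero_of_le h1]
  · have h2 := (h.1 q hq).2
    rwa [← Nat.sub_add_cancel h1, Nat.cast_add, Cardinal.add_nat_le_add_nat_iff] at h2

theorem Inv.card_le (hW : Ok W) (h : Inv W ρ j a P) (hj : j ≤ ρ) :
    (P.card : ℝ) ≤ a * (ρ + 1) ^ ρ := by
  obtain ⟨R₀, hR₀⟩ := eventually_atTop.1 h.2
  have hle : R₀ + 1 ≤ (ρ + 1) * (R₀ + 1) := Nat.le_mul_of_pos_left _ (Nat.succ_pos ρ)
  have h1 := hR₀ ((ρ + 1) * (R₀ + 1)) (by omega)
  have h2 := h.card_mul hW R₀ ((ρ + 1) * (R₀ + 1)) (by gcongr <;> omega)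
  have h3 : P.card * (R₀ + 1) ^ ρ ≤
      (∑ q ∈ P, H W q ((ρ + 1) * (R₀ + 1))) * ((ρ + 1) * (R₀ + 1)) ^ j :=
    calc P.card * (R₀ + 1) ^ ρ = P.card * (R₀ + 1) ^ (ρ - j) * (R₀ + 1) ^ j := by
          rw [mul_assoc, ← pow_add, Nat.sub_add_cancel hj]
      _ ≤ _ := by gcongr
  refine le_of_mul_le_mul_right ?_ (show (0 : ℝ) < (R₀ + 1) ^ ρ by positivity)
  calc (P.card : ℝ) * (R₀ + 1) ^ ρ = (P.card * (R₀ + 1) ^ ρ : ℕ) := by push_cast; rfl
    _ ≤ _ := Nat.cast_le.2 h3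
    _ ≤ a * (((ρ + 1) * (R₀ + 1) : ℕ) : ℝ) ^ ρ := by rwa [Nat.cast_mul, Nat.cast_pow]
    _ = _ := by push_cast; rw [mul_pow, mul_assoc]

theorem Inv.eq_empty (hW : Ok W) (h : Inv W ρ (ρ + 1) a P) : P = ∅ := by
  obtain ⟨R, h1, h0, ha⟩ := (h.2.and ((eventually_gt_atTop 0).and
    (tendsto_natCast_atTop_atTop.eventually_gt_atTop a))).exists
  have h2 := h.card_mul hW 0 R (by simp)
  rw [zero_add, one_pow, mul_one] at h2
  rw [← Finset.card_eq_zero]
  by_contra hne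
  have h3 : (1 : ℝ) ≤ (∑ q ∈ P, H W q R : ℕ) := by exact_mod_cast (show 1 ≤ _ by omega)
  have h4 : (0 : ℝ) < R ^ ρ := by positivity
  have h5 : (R : ℝ) * R ^ ρ ≤ a * R ^ ρ := by
    refine le_trans ?_ h1
    rw [← pow_succ']
    exact le_mul_of_one_le_left (by positivity) h3
  exact absurd (le_of_mul_le_mul_right h5 h4) (not_le.2 ha)

variable [IsDomain S]

theorem Ok.trdeg_le (hW : Ok W) {N : ℝ}
    (hN : ∀ᶠ R : ℕ in atTop, (finrank ℂ ↥(W ^ R) : ℝ) ≤ N * R ^ ρ) : Algebra.trdeg ℂ S ≤ ρ := by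
  by_contra hlt
  have h1 : ((ρ + 1 : ℕ) : Cardinal) ≤ Algebra.trdeg ℂ (S ⧸ (⊥ : Ideal S)) := by
    rw [(AlgEquiv.quotientBot ℂ S).trdeg_eq, Nat.cast_succ, ← Cardinal.succ_natCast]
    exact Order.succ_le_of_lt (not_le.1 hlt)
  obtain ⟨R₀, hR₀⟩ := eventually_atTop.1 hN
  obtain ⟨r, hr, h0, ha⟩ := ((eventually_ge_atTop R₀).and ((eventually_gt_atTop 0).and
    (tendsto_natCast_atTop_atTop.eventually_gt_atTop (N * (ρ + 1) ^ ρ)))).exists
  have h2 := hW.le_H Ideal.isPrime_bot h1 r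
  have h3 := hW.H_add_K ⊥ ((ρ + 1) * r)
  have h4 := hR₀ ((ρ + 1) * r) (hr.trans (Nat.le_mul_of_pos_left _ (Nat.succ_pos ρ)))
  have h5 : r ^ (ρ + 1) ≤ (r + 1) ^ (ρ + 1) := Nat.pow_le_pow_left (Nat.le_succ r) _
  have h6 : ((r ^ (ρ + 1) : ℕ) : ℝ) ≤ finrank ℂ ↥(W ^ ((ρ + 1) * r)) := Nat.cast_le.2 (by omega)
  have h7 := h6.trans h4
  push_cast at h7
  rw [pow_succ', mul_pow, ← mul_assoc] at h7
  exact absurd (le_of_mul_le_mul_right h7 (by positivity)) (not_le.2 ha)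

theorem Ok.inv_zero (hW : Ok W) {N : ℝ}
    (hN : ∀ᶠ R : ℕ in atTop, (finrank ℂ ↥(W ^ R) : ℝ) ≤ N * R ^ ρ)
    (ht : (ρ : Cardinal) ≤ Algebra.trdeg ℂ S) : Inv W ρ 0 N {⊥} := by
  refine ⟨fun q hq => ?_, hN.mono fun R hR => ?_⟩
  · rw [Finset.mem_singleton.1 hq]
    refine ⟨Ideal.isPrime_bot, ?_⟩
    rwa [(AlgEquiv.quotientBot ℂ S).trdeg_eq, Nat.cast_zero, add_zero]
  · have h1 := hW.H_add_K ⊥ R
    rw [Finset.sum_singleton, pow_zero, mul_one]
    exact (Nat.cast_le.2 (by omega)).trans hR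

/-- the basic inequality for multiplication by `f` -/
theorem Ok.H_step (hW : Ok W) {I J q : Ideal S} {f : S} {D : ℕ} (hJ : J ≤ I) (hf : f ∈ I)
    (hf0 : f ≠ 0) (hq : ∀ u, f * u ∈ J → u ∈ q) (hD : f ∈ W ^ D) (R : ℕ) :
    H W I (R + D) + H W q R ≤ H W J (R + D) := by
  have := hW.fin R
  have := hW.fin (R + D)
  let φ : S →ₗ[ℂ] S := LinearMap.mulLeft ℂ f
  have hφ : Function.Injective φ := fun a b h => mul_left_cancel₀ hf0 h
  let A : Submodule ℂ S := W ^ (R + D) ⊓ J.restrictScalars ℂ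
  let V : Submodule ℂ S := (W ^ R).map φ
  have hV : finrank ℂ V = finrank ℂ ↥(W ^ R) :=
    (Submodule.equivMapOfInjective φ hφ (W ^ R)).finrank_eq.symm
  have : Module.Finite ℂ A := Submodule.finiteDimensional_inf_left _ _
  have h1 := Submodule.finrank_sup_add_finrank_inf_eq A V
  have h2 : finrank ℂ ↥(A ⊔ V) ≤ K W I (R + D) := by
    refine Submodule.finrank_mono (sup_le (inf_le_inf_left _ fun p hp => hJ hp) ?_)
    rintro _ ⟨u, hu, rfl⟩
    refine ⟨?_, I.mul_mem_right u hf⟩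
    rw [add_comm, pow_add]
    exact Submodule.mul_mem_mul hD hu
  have h3 : finrank ℂ ↥(A ⊓ V) ≤ K W q R := by
    have : Module.Finite ℂ ↥(W ^ R ⊓ q.restrictScalars ℂ) :=
      Submodule.finiteDimensional_inf_left _ _
    refine le_trans (Submodule.finrank_mono ?_) (Submodule.finrank_map_le φ _)
    rintro _ ⟨hA, u, hu, rfl⟩
    exact ⟨u, ⟨hu, hq u hA.2⟩, rfl⟩
  have h4 := hW.H_add_K I (R + D)
  have h5 := hW.H_add_K J (R + D)
  have h6 := hW.H_add_K q R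
  have h7 : finrank ℂ A = K W J (R + D) := rfl
  omega

/-- pairwise incomparable primes -/
theorem Ok.sum_H_le (hW : Ok W) (P : Finset (Ideal S)) (hP : ∀ q ∈ P, q.IsPrime)
    (hI : ∀ q ∈ P, ∀ q' ∈ P, q ≤ q' → q = q') :
    ∃ c, ∀ R, ∑ q ∈ P, H W q R ≤ H W (P.inf id) (R + c) := by
  classical
  induction P using Finset.induction_on with
  | empty => exact ⟨0, fun R => by simp⟩
  | insert q P hq ih =>
    obtain ⟨c, hc⟩ := ih (fun q' h => hP q' (Finset.mem_insert_of_mem h)) fun a ha b hb =>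
      hI a (Finset.mem_insert_of_mem ha) b (Finset.mem_insert_of_mem hb)
    have hqp := hP q (Finset.mem_insert_self _ _)
    have hn : ¬P.inf id ≤ q := by
      rw [hqp.inf_le']
      rintro ⟨q', hq', hle⟩
      exact hq (hI q' (Finset.mem_insert_of_mem hq') q (Finset.mem_insert_self _ _) hle ▸ hq')
    obtain ⟨h, hh, hhq⟩ := SetLike.not_le_iff_exists.1 hn
    obtain ⟨D, hD⟩ := hW.mem h
    refine ⟨c + D, fun R => ?_⟩
    have h1 := hW.H_step (I := P.inf id) (J := q ⊓ P.inf id) (q := q) inf_le_right hh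
      (fun e => hhq (e ▸ q.zero_mem)) (fun u hu => (hqp.mem_or_mem hu.1).resolve_left hhq) hD
      (R + c)
    have h2 := hW.H_mono (P.inf id) (Nat.le_add_right (R + c) D)
    have h3 := hW.H_mono q (Nat.le_add_right R c)
    have h4 := hc R
    rw [Finset.sum_insert hq, Finset.inf_insert, ← add_assoc, id]
    omega

theorem Inv.step (hW : Ok W) (h : Inv W ρ j a P) (F : Set S) (hF : F ⊆ W) :
    ∃ P' : Finset (Ideal S), Inv W ρ (j + 1) (3 ^ ρ * a) P' ∧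
      ∀ q ∈ P, ∀ Q : Ideal S, Q.IsPrime → Ideal.span F ≤ Q → q ≤ Q →
        Ideal.span F ≤ q ∨ ∃ q' ∈ P', q' ≤ Q := by
  classical
  have := hW.finiteType
  have : IsNoetherianRing S := Algebra.FiniteType.isNoetherianRing ℂ S
  have hM : ∀ q ∈ P, ∃ (M : Finset (Ideal S)) (c : ℕ),
      (∀ q' ∈ M, q'.IsPrime ∧ (ρ : Cardinal) ≤ Algebra.trdeg ℂ (S ⧸ q') + (j + 1 : ℕ)) ∧
      (∀ R R', R + c ≤ R' → ∑ q' ∈ M, H W q' R + H W q R' ≤ H W q (R' + 1)) ∧
      ∀ Q : Ideal S, Q.IsPrime → Ideal.span F ≤ Q → q ≤ Q →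
        Ideal.span F ≤ q ∨ ∃ q' ∈ M, q' ≤ Q := by
    intro q hq
    obtain ⟨hqp, hqt⟩ := h.1 q hq
    by_cases hFq : Ideal.span F ≤ q
    · exact ⟨∅, 0, by simp, fun R R' _ => by simpa using hW.H_mono q (Nat.le_add_right R' 1),
        fun Q _ _ _ => Or.inl hFq⟩
    obtain ⟨f, hfF, hfq⟩ : ∃ f ∈ F, f ∉ q := by
      rw [Ideal.span_le] at hFq
      exact Set.not_subset.1 hFq
    have hfin := (q ⊔ Ideal.span {f}).finite_minimalPrimes_of_isNoetherianRing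
    obtain ⟨c, hc⟩ := hW.sum_H_le hfin.toFinset (fun q' hq' => (hfin.mem_toFinset.1 hq').1.1)
      fun a ha b hb hab => le_antisymm hab
        ((hfin.mem_toFinset.1 hb).2 (hfin.mem_toFinset.1 ha).1 hab)
    refine ⟨hfin.toFinset, c, fun q' hq' => ⟨(hfin.mem_toFinset.1 hq').1.1, ?_⟩,
      fun R R' hR => ?_, fun Q hQ hFQ hqQ => Or.inr ?_⟩
    · refine hqt.trans ((add_le_add_left (trdeg_step hqp (hfin.mem_toFinset.1 hq')) _).trans_eq ?_)
      push_cast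
      rw [add_assoc, add_comm 1]
    · have h1 := hW.H_step (I := q ⊔ Ideal.span {f}) (J := q) (q := q) (D := 1) le_sup_left
        (Ideal.mem_sup_right (Ideal.mem_span_singleton_self f)) (fun e => hfq (e ▸ q.zero_mem))
        (fun u hu => (hqp.mem_or_mem hu).resolve_left hfq) (by rw [pow_one]; exact hF hfF) R'
      have h2 : H W (hfin.toFinset.inf id) (R + c) ≤ H W (q ⊔ Ideal.span {f}) (R + c) :=
        hW.H_anti (Finset.le_inf fun q' hq' => (hfin.mem_toFinset.1 hq').1.2) _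
      have h3 := hW.H_mono (q ⊔ Ideal.span {f}) (hR.trans (Nat.le_add_right R' 1))
      have h4 := hc R
      omega
    · obtain ⟨q', hq', hle⟩ := Ideal.exists_minimalPrimes_le (I := q ⊔ Ideal.span {f}) (J := Q)
        (sup_le hqQ ((Ideal.span_singleton_le_iff_mem _).2 (hFQ (Ideal.subset_span hfF))))
      exact ⟨q', hfin.mem_toFinset.2 hq', hle⟩
  choose! M c hM1 hM2 hM3 using hM
  refine ⟨P.biUnion M, ⟨fun q' hq' => ?_, ?_⟩, fun q hq Q hQ hFQ hqQ => ?_⟩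
  · obtain ⟨q, hq, hq'⟩ := Finset.mem_biUnion.1 hq'
    exact hM1 q hq q' hq'
  · obtain ⟨R₀, hR₀⟩ := eventually_atTop.1 h.2
    refine eventually_atTop.2 ⟨R₀ + (P.sup c + 1), fun R hR => ?_⟩
    have h1 := JF1.tele (fun R => ∑ q ∈ P, H W q R) (fun R => ∑ q' ∈ P.biUnion M, H W q' R)
      (P.sup c) 1 (fun R R' hRR => Finset.sum_le_sum fun q _ => hW.H_mono q hRR) le_rfl
      (fun R R' hRR => by
        refine (Nat.add_le_add_right (JF1.sum_biUnion_le _ _ _) _).trans ?_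
        rw [← Finset.sum_add_distrib]
        exact Finset.sum_le_sum fun q hq =>
          hM2 q hq R R' ((Nat.add_le_add_left (Finset.le_sup hq) R).trans hRR))
      (R := R) (by omega)
    have h2 := hR₀ (3 * R) (by omega)
    have h3 : (∑ q' ∈ P.biUnion M, H W q' R) * R ^ (j + 1) ≤
        (∑ q ∈ P, H W q (3 * R)) * (3 * R) ^ j :=
      calc (∑ q' ∈ P.biUnion M, H W q' R) * R ^ (j + 1)
          = R * (∑ q' ∈ P.biUnion M, H W q' R) * R ^ j := by ring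
        _ ≤ 1 * (∑ q ∈ P, H W q (3 * R)) * (3 * R) ^ j := by gcongr; omega
        _ = _ := by rw [one_mul]
    calc ((∑ q' ∈ P.biUnion M, H W q' R : ℕ) : ℝ) * R ^ (j + 1)
        = ((∑ q' ∈ P.biUnion M, H W q' R) * R ^ (j + 1) : ℕ) := by rw [Nat.cast_mul, Nat.cast_pow]
      _ ≤ _ := Nat.cast_le.2 h3
      _ ≤ a * ((3 * R : ℕ) : ℝ) ^ ρ := by rwa [Nat.cast_mul, Nat.cast_pow]
      _ = _ := by push_cast; ring
  · exact (hM3 q hq Q hQ hFQ hqQ).imp id fun ⟨q', hq', hle⟩ =>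
      ⟨q', Finset.mem_biUnion.2 ⟨q, hq, hq'⟩, hle⟩

theorem Ok.families (hW : Ok W) {N : ℝ} (h0 : Inv W ρ 0 N {⊥}) (F : Set S) (hF : F ⊆ W) (j : ℕ)
    (hj : j ≤ ρ + 1) : ∃ P Z : Finset (Ideal S), Inv W ρ j ((3 ^ ρ) ^ j * N) P ∧
      (Z.card : ℝ) ≤ (∑ i ∈ Finset.range j, (3 ^ ρ) ^ i * (ρ + 1 : ℝ) ^ ρ) * N ∧
      ∀ Q ∈ (Ideal.span F).minimalPrimes, Q ∈ Z ∨ ∃ q ∈ P, q ≤ Q := by
  classical
  induction j with
  | zero =>
    exact ⟨{⊥}, ∅, by simpa using h0, by simp,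
      fun Q _ => Or.inr ⟨⊥, Finset.mem_singleton_self _, bot_le⟩⟩
  | succ j ih =>
    obtain ⟨P, Z, hP, hZ, hQ⟩ := ih (by omega)
    obtain ⟨P', hP', hQ'⟩ := hP.step hW F hF
    refine ⟨P', Z ∪ P, ?_, ?_, fun Q hQm => ?_⟩
    · rwa [pow_succ', mul_assoc]
    · have h1 := hP.card_le hW (by omega)
      have h2 : ((Z ∪ P).card : ℝ) ≤ Z.card + P.card := by
        exact_mod_cast Finset.card_union_le Z P
      rw [Finset.sum_range_succ, add_mul]
      linarith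
    · rcases hQ Q hQm with h | ⟨q, hq, hle⟩
      · exact Or.inl (Finset.mem_union_left _ h)
      · rcases hQ' q hq Q hQm.1.1 hQm.1.2 hle with h | h
        · exact Or.inl (Finset.mem_union_right _
            (le_antisymm hle (hQm.2 ⟨(hP.1 q hq).1, h⟩ hle) ▸ hq))
        · exact Or.inr h

end KBz

theorem stBz : StBz := by
  intro ρ
  refine ⟨∑ i ∈ Finset.range (ρ + 1), (3 ^ ρ) ^ i * (ρ + 1 : ℝ) ^ ρ, by positivity,
    fun S _ _ _ W N h1 h2 h3 hN => ?_⟩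
  have hW : KBz.Ok W := ⟨h1, h2, h3⟩
  refine ⟨hW.trdeg_le hN, fun ht F hF s hs => ?_⟩
  obtain ⟨P, Z, hP, hZ, hQ⟩ := hW.families (hW.inv_zero hN ht) F hF (ρ + 1) le_rfl
  refine le_trans (Nat.cast_le.2 (Finset.card_le_card fun Q hQs => ?_)) hZ
  rcases hQ Q (hs Q hQs) with h | ⟨q, hq, -⟩
  · exact h
  · simp [hP.eq_empty hW] at hq

end Pool.Agent.Lib.MP_12eca1_ag.Q
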