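import Pool.Agent.Lib.MP_12eca1_ag.Q.Basic

/-!
Cutting the locus of a point by a hypersurface.
-/

namespace Pool.Agent.Lib.MP_12eca1_ag.Q

open MvPolynomial Filter Module P

namespace KCut

lemma clear {σ : Type} (P : MvPolynomial σ ℚ) : ∃ (c : ℤ) (Q : MvPolynomial σ ℤ), c ≠ 0 ∧
    map (algebraMap ℤ ℚ) Q = c * P := by
  induction P using MvPolynomial.induction_on with
  | C a =>
    refine ⟨a.den, C a.num, by exact_mod_cast a.den_nz, ?_⟩
    rw [map_C, eq_intCast, ← Rat.den_mul_eq_num, C_mul]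
    simp
  | add p q hp hq =>
    obtain ⟨c, P, hc, h⟩ := hp
    obtain ⟨d, Q, hd, h'⟩ := hq
    refine ⟨c * d, d * P + c * Q, mul_ne_zero hc hd, ?_⟩
    simp only [map_add, map_mul, h, h', map_intCast, Int.cast_mul]
    ring
  | mul_X p i hp =>
    obtain ⟨c, P, hc, h⟩ := hp
    exact ⟨c, P * X i, hc, by simp only [map_mul, h, map_X, mul_assoc]⟩

/-- from integral to rational relations -/
lemma spec_rat {σ K L : Type} [Field K] [Field L] [CharZero K] [CharZero L] {x : σ → K} {y : σ → L}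
    (h : ∀ Q : MvPolynomial σ ℤ, aeval x Q = 0 → aeval y Q = 0) (P : MvPolynomial σ ℚ)
    (hP : aeval x P = 0) : aeval y P = 0 := by
  obtain ⟨c, Q, hc, e⟩ := clear P
  have h1 := h Q (by rw [← aeval_map_algebraMap ℚ, e, map_mul, hP, mul_zero])
  rw [← aeval_map_algebraMap ℚ, e, map_mul, map_intCast] at h1
  exact (mul_eq_zero.1 h1).resolve_left (by exact_mod_cast hc)

/-- the transcendence degree of the coordinate ring of a point -/
lemma trdeg_eq {κ B : Type} [CommRing B] [Algebra ℚ B] {η : κ → ℂ} {τ : ℕ} (h : TB η τ)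
    (π : MvPolynomial κ ℚ →ₐ[ℚ] B) (hπ : Function.Surjective π) (j : B →ₐ[ℚ] ℂ)
    (hj : Function.Injective j) (e : ∀ i, j (π (X i)) = η i) : Algebra.trdeg ℚ B = τ := by
  refine le_antisymm (le_trans ?_ (TB.trdeg_le h)) ?_
  · have hm : ∀ b, j b ∈ (IntermediateField.adjoin ℚ (Set.range η)).toSubalgebra := fun b => by
      obtain ⟨Q, rfl⟩ := hπ b
      induction Q using MvPolynomial.induction_on with
      | C a =>
        rw [← algebraMap_eq, AlgHom.commutes, AlgHom.commutes]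
        exact Subalgebra.algebraMap_mem _ _
      | add p q hp hq =>
        rw [map_add, map_add]
        exact add_mem hp hq
      | mul_X p i hp =>
        rw [map_mul, map_mul, e]
        exact mul_mem hp (IntermediateField.subset_adjoin _ _ ⟨i, rfl⟩)
    exact trdeg_le_of_injective (j.codRestrict _ hm) fun a b hab => hj (congrArg Subtype.val hab)
  · obtain ⟨u, hu, -⟩ := h
    have hx : AlgebraicIndependent ℚ fun t => π (X (u t)) := AlgebraicIndependent.of_comp j (by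
      convert hu using 1
      funext t
      exact e (u t))
    simpa using hx.cardinalMk_le_trdeg

/-- a prime ideal quotient below a given prime ideal -/
lemma exists_prime {σ : Type} [Finite σ] {J n : Ideal (MvPolynomial σ ℤ)} (hJ : IsHom J)
    (hn : n.IsPrime) (h : J ≤ n) :
    ∃ (g : MvPolynomial σ ℤ) (e : ℕ), g.IsHomogeneous e ∧ col J g ≤ n ∧ (col J g).IsPrime := by
  obtain ⟨_, ⟨g, e, h1, h2, rfl⟩, hmax⟩ := set_has_maximal_iff_noetherian.2
    (inferInstance : IsNoetherian (MvPolynomial σ ℤ) (MvPolynomial σ ℤ))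
    {q | ∃ (g : MvPolynomial σ ℤ) (e : ℕ), g.IsHomogeneous e ∧ col J g ≤ n ∧ col J g = q}
    ⟨_, 1, 0, isHomogeneous_one σ ℤ, fun P hP => h (by simpa [mem_col] using hP), rfl⟩
  refine ⟨g, e, h1, h2, ?_⟩
  have key : ∀ (a : MvPolynomial σ ℤ) (d : ℕ), a.IsHomogeneous d → col J (g * a) ≤ n →
      col J g = col J (g * a) := fun a d ha hle => by
    have h3 : col J g ≤ col J (g * a) := fun P hP => by
      rw [mem_col, mul_right_comm]
      exact J.mul_mem_right a hP
    exact (h3.lt_or_eq).resolve_left (hmax _ ⟨g * a, e + d, h1.mul ha, hle, rfl⟩)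
  let := MvPolynomial.gradedAlgebra (σ := σ) (R := ℤ)
  refine Ideal.IsHomogeneous.isPrime_of_homogeneous_mem_or_mem (𝒜 := homogeneousSubmodule σ ℤ)
    (fun n P hP => (decomposition.decompose'_apply P n).symm ▸ JC.isHom_col hJ h1 P hP n)
    (fun ht => hn.ne_top (top_le_iff.1 (ht ▸ h2))) ?_
  rintro a b ⟨d, ha⟩ - hab
  by_cases hle : col J (g * a) ≤ n
  · right
    rw [key a d ha hle, mem_col, mul_assoc]
    exact hab
  · left
    obtain ⟨c, hc, hc'⟩ := SetLike.not_le_iff_exists.1 hle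
    obtain ⟨k, hk⟩ : ∃ k, homogeneousComponent k c ∉ n := by
      by_contra! hh
      exact hc' (sum_homogeneousComponent c ▸ Submodule.sum_mem _ fun k _ => hh k)
    have h4 := JC.isHom_col hJ (h1.mul ha) c hc k
    rw [key _ k (homogeneousComponent_isHomogeneous k c) fun P hP =>
      (hn.mem_or_mem (h2 (show _ * P ∈ col J g by rwa [mem_col, ← mul_assoc]))).resolve_left hk,
      mem_col, mul_right_comm]
    exact h4

lemma aeval_scale {σ F : Type} [CommRing F] {P : MvPolynomial σ ℤ} {d : ℕ}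
    (hP : P.IsHomogeneous d) (c : F) (z : σ → F) :
    aeval (fun o => c * z o) P = c ^ d * aeval z P := by
  conv => rw [P.as_sum, map_sum, map_sum, Finset.mul_sum]
  refine Finset.sum_congr rfl fun m hm => ?_
  rw [aeval_monomial, aeval_monomial, ← degree_of_mem_support hP hm, Finsupp.degree_apply,
    ← Finset.prod_pow_eq_pow_sum, Finsupp.prod, Finsupp.prod, mul_left_comm,
    ← Finset.prod_mul_distrib]
  simp only [mul_pow]

/-- dehomogenisation -/
noncomputable def dh {κ : Type} : MvPolynomial (Option κ) ℤ →ₐ[ℤ] MvPolynomial κ ℤ :=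
  aeval fun o => o.elim 1 X

lemma dh_hz {κ : Type} (d : ℕ) (f : MvPolynomial κ ℤ) : dh (JB.hz d f) = f := by
  conv_rhs => rw [f.as_sum]
  simp only [dh, JB.hz, map_sum, map_mul, map_pow, aeval_X, Option.elim_none, one_pow, mul_one,
    aeval_rename]
  refine Finset.sum_congr rfl fun m _ => ?_
  exact DFunLike.congr_fun aeval_X_left _

/-- the generic point of a prime ideal -/
lemma exists_gen {κ : Type} {q : Ideal (MvPolynomial (Option κ) ℤ)} (hq : q.IsPrime) {η : κ → ℂ}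
    (h : q ≤ vI η) : ∃ (F : Type) (_ : Field F) (_ : CharZero F) (y : κ → F),
      ∀ (P : MvPolynomial (Option κ) ℤ) (d : ℕ), P.IsHomogeneous d →
        (P ∈ q ↔ aeval y (dh P) = 0) := by
  obtain ⟨F, _, φ, hφ⟩ : ∃ (F : Type) (_ : Field F) (φ : MvPolynomial (Option κ) ℤ →+* F),
      ∀ P, φ P = 0 ↔ P ∈ q := ⟨FractionRing (MvPolynomial (Option κ) ℤ ⧸ q), inferInstance,
    (algebraMap (MvPolynomial (Option κ) ℤ ⧸ q) _).comp (Ideal.Quotient.mk q), fun P =>
      (map_eq_zero_iff _ (IsFractionRing.injective (MvPolynomial (Option κ) ℤ ⧸ q) _)).trans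
        Ideal.Quotient.eq_zero_iff_mem⟩
  have hz : CharZero F := ⟨fun a b hab => by
    have h1 : (C (a - b : ℤ) : MvPolynomial (Option κ) ℤ) ∈ q := (hφ _).1 (by
      rw [eq_intCast, map_intCast, Int.cast_sub, Int.cast_natCast, Int.cast_natCast, hab, sub_self])
    have h2 := (mem_vI_iff η (isHomogeneous_C _ _)).1 (h h1)
    rw [aeval_C, eq_intCast, Int.cast_eq_zero] at h2
    omega⟩
  have h0 : φ (X none) ≠ 0 := fun e => X_none_notMem_vI η (h ((hφ _).1 e))
  refine ⟨F, inferInstance, hz, fun i => φ (X (some i)) / φ (X none), fun P d hP => ?_⟩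
  have e1 : φ = (aeval fun o => φ (X none) *
      aeval (fun i => φ (X (some i)) / φ (X none)) (dh (X o)) :
        MvPolynomial (Option κ) ℤ →ₐ[ℤ] F) := ringHom_ext (fun a => by simp) fun o => by
    cases o with
    | none => simp [dh]
    | some i =>
      simp only [dh, RingHom.coe_coe, aeval_X, Option.elim_some]
      field_simp
  have e2 : (aeval fun o => aeval (fun i => φ (X (some i)) / φ (X none)) (dh (X o)) :
      MvPolynomial (Option κ) ℤ →ₐ[ℤ] F) =
      (aeval fun i => φ (X (some i)) / φ (X none)).comp dh := algHom_ext fun o => by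
    rw [aeval_X, AlgHom.comp_apply]
  rw [← hφ, DFunLike.congr_fun e1 P, RingHom.coe_coe, aeval_scale hP, e2, mul_eq_zero,
    AlgHom.comp_apply]
  exact or_iff_right (pow_ne_zero _ h0)

end KCut

open KCut in
theorem stCut (hL : StLt) (hD : StDens) : StCut := by
  intro κ _ η θ τ e f ε hτ hs hf h1 h2 hε
  let A := (aeval η : MvPolynomial κ ℚ →ₐ[ℚ] ℂ).range
  let π : MvPolynomial κ ℚ →ₐ[ℚ] A := AlgHom.rangeRestrict _
  have hπ : Function.Surjective π := AlgHom.rangeRestrict_surjective _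
  have hπ0 : ∀ Q, π Q = 0 ↔ aeval η Q = 0 := fun Q => Subtype.ext_iff
  have : Algebra.FiniteType ℚ A := .of_surjective π hπ
  let ev : A →ₐ[ℚ] ℂ := AlgHom.liftOfSurjective π hπ (aeval θ)
    fun Q hQ => hs.rat Q ((hπ0 Q).1 hQ)
  have hev : ∀ Q, ev (π Q) = aeval θ Q := fun Q => AlgHom.liftOfSurjective_apply _ _ _ _ _
  have := RingHom.ker_isPrime ev
  obtain ⟨p, hp, hp1⟩ := Ideal.exists_minimalPrimes_le
    (I := Ideal.span {π (map (algebraMap ℤ ℚ) f)}) (J := RingHom.ker ev) (by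
      rw [Ideal.span_singleton_le_iff_mem, RingHom.mem_ker, hev, aeval_map_algebraMap, h2])
  have hp2 : p.IsPrime := hp.isPrime
  have hp3 : π (map (algebraMap ℤ ℚ) f) ∈ p := hp.1.2 (Ideal.mem_span_singleton_self _)
  obtain ⟨ev', i1, i2⟩ := hD (A ⧸ p) κ (Ideal.Quotient.liftₐ p ev fun a ha => hp1 ha)
    (fun i => Ideal.Quotient.mkₐ ℚ p (π (X i))) ε hε
  set η' : κ → ℂ := fun i => ev' (Ideal.Quotient.mkₐ ℚ p (π (X i))) with hη'
  have k1 : ∀ Q : MvPolynomial κ ℚ, aeval η' Q = 0 ↔ π Q ∈ p := fun Q => by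
    have : aeval η' = ev'.comp ((Ideal.Quotient.mkₐ ℚ p).comp π) := algHom_ext fun i => aeval_X _ _
    rw [this]
    exact (map_eq_zero_iff _ i1).trans Ideal.Quotient.eq_zero_iff_mem
  have k2 : ∀ Q : MvPolynomial κ ℤ, aeval η' Q = 0 ↔ π (map (algebraMap ℤ ℚ) Q) ∈ p := fun Q => by
    rw [← k1, aeval_map_algebraMap]
  obtain ⟨τ', hτ'⟩ := exists_TB η'
  have t1 : Algebra.trdeg ℚ A = τ :=
    trdeg_eq hτ π hπ A.val Subtype.val_injective fun i => aeval_X _ _
  have t2 : Algebra.trdeg ℚ (A ⧸ p) = τ' := trdeg_eq hτ' ((Ideal.Quotient.mkₐ ℚ p).comp π)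
    ((Ideal.Quotient.mkₐ_surjective ℚ p).comp hπ) ev' i1 fun i => rfl
  have t3 := stE ℚ A _ p hp
  have t4 := hL ℚ A p τ' hp2 (fun h => h1 (by
    rw [h, Ideal.mem_bot, hπ0, aeval_map_algebraMap] at hp3
    exact hp3)) t2.ge
  rw [t1, t2] at t3
  rw [t1] at t4
  have s1 : Spec η η' := fun Q hQ => by
    rw [k2, (hπ0 _).2 (by rwa [aeval_map_algebraMap])]
    exact zero_mem _
  have s2 : aeval η' f = 0 := (k2 f).2 hp3
  obtain ⟨g, e', g1, g2, g3⟩ := exists_prime (JC.isHom_sup (vI_isHom η) (JB.hz_hom hf))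
    (vI_isPrime η') (sup_le s1.vI_le (by rwa [Ideal.span_singleton_le_iff_mem, hz_mem_vI hf]))
  refine ⟨η', τ', e', g, le_antisymm (by exact_mod_cast t3) (by exact_mod_cast t4), hτ', s1,
    fun Q hQ => ?_, s2, fun i => ?_, g1, le_antisymm g2 fun P hP => ?_⟩
  · have := hp1 ((k2 Q).1 hQ)
    rwa [RingHom.mem_ker, hev, aeval_map_algebraMap] at this
  · have := i2 i
    rwa [show Ideal.Quotient.liftₐ p ev (fun a ha => hp1 ha) (Ideal.Quotient.mkₐ ℚ p (π (X i))) =
      θ i from (hev _).trans (aeval_X _ _)] at this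
  obtain ⟨F, _, _, y, hy⟩ := exists_gen g3 g2
  have y1 : ∀ {d : ℕ} {Q : MvPolynomial κ ℤ}, Q.totalDegree ≤ d →
      (JB.hz d Q ∈ col (vI η ⊔ Ideal.span {JB.hz e f}) g ↔ aeval y Q = 0) := fun hQ => by
    rw [hy _ _ (JB.hz_hom hQ), dh_hz]
  let ψ : A →ₐ[ℚ] F := AlgHom.liftOfSurjective π hπ (aeval y) fun Q hQ =>
    spec_rat (fun Q' hQ' => (y1 le_rfl).1
      (JC.le_col (Ideal.mem_sup_left ((hz_mem_vI le_rfl).2 hQ')))) Q ((hπ0 Q).1 hQ)
  have hψ : ∀ Q, ψ (π Q) = aeval y Q := fun Q => AlgHom.liftOfSurjective_apply _ _ _ _ _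
  have hm : p ≤ RingHom.ker ψ := hp.2 ⟨RingHom.ker_isPrime ψ, by
    rw [Ideal.span_singleton_le_iff_mem, RingHom.mem_ker, hψ, aeval_map_algebraMap]
    exact (y1 hf).1 (JC.le_col (Ideal.mem_sup_right (Ideal.mem_span_singleton_self _)))⟩
    fun a ha => by
      obtain ⟨Q, rfl⟩ := hπ a
      rw [RingHom.mem_ker, hψ] at ha
      exact (k1 Q).1 (spec_rat (fun Q' hQ' => (hz_mem_vI le_rfl).1 (g2 ((y1 le_rfl).2 hQ'))) Q ha)
  rw [← sum_homogeneousComponent P]
  refine Submodule.sum_mem _ fun n _ => ?_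
  have h3 := vI_isHom η' P hP n
  rw [mem_vI_iff _ (homogeneousComponent_isHomogeneous n P), aeval_pt] at h3
  have h4 := hm ((k2 _).1 h3)
  rw [RingHom.mem_ker, hψ, aeval_map_algebraMap] at h4
  exact (hy _ _ (homogeneousComponent_isHomogeneous n P)).2 h4

end Pool.Agent.Lib.MP_12eca1_ag.Q
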