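import Pool.Agent.Lib.MP_12eca1_ag.Q.Defs

/-!
Transcendence degree of proper quotients and density of generic points.
-/

namespace Pool.Agent.Lib.MP_12eca1_ag.Q

open MvPolynomial Filter Module P

theorem stLt : StLt := by
  intro k A _ _ _ _ q n hq hq0 hn
  have := hq
  obtain ⟨s, hs⟩ := exists_isTranscendenceBasis k (A ⧸ q)
  rw [← hs.cardinalMk_eq_trdeg, ← Cardinal.mk_fin n] at hn
  obtain ⟨e⟩ := (Cardinal.le_def _ _).1 hn
  have hu : AlgebraicIndependent k fun i : Fin n => (e i : A ⧸ q) := hs.1.comp e e.injective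
  choose v hv using fun i : Fin n => Ideal.Quotient.mk_surjective (e i : A ⧸ q)
  have huv : (fun i : Fin n => (e i : A ⧸ q)) = Ideal.Quotient.mkₐ k q ∘ v :=
    funext fun i => (hv i).symm
  rw [huv] at hu
  have hvi : AlgebraicIndependent k v := hu.of_comp _
  obtain ⟨f, hf, hf0⟩ := Submodule.exists_mem_ne_zero_of_ne_bot hq0
  have ht : Transcendental (Algebra.adjoin k (Set.range v)) f := by
    intro halg
    obtain ⟨⟨c, hc⟩, hcq, hc0⟩ := Submodule.exists_mem_ne_zero_of_ne_bot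
      (Ideal.comap_ne_bot_of_algebraic_mem hf0 hf halg)
    rw [Algebra.adjoin_range_eq_range_aeval] at hc
    obtain ⟨p, rfl⟩ := hc
    have h1 : aeval (Ideal.Quotient.mkₐ k q ∘ v) p = 0 := by
      have h2 : aeval (Ideal.Quotient.mkₐ k q ∘ v) p = Ideal.Quotient.mkₐ k q (aeval v p) :=
        (comp_aeval_apply v (Ideal.Quotient.mkₐ k q) p).symm
      rw [h2]
      exact Ideal.Quotient.eq_zero_iff_mem.2 hcq
    have h3 : p = 0 := hu.eq_zero_of_aeval_eq_zero p h1
    exact hc0 (Subtype.ext (by simp [h3]))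
  have h4 := (AlgebraicIndependent.option_iff.2 ⟨hvi, ht⟩).cardinalMk_le_trdeg
  simpa using h4

namespace KDens

open Topology

/-- an injective point of the base and a root of the specialised minimal polynomial extend -/
theorem ext_root {B A : Type} [CommRing B] [IsDomain B] [IsIntegrallyClosed B] [CommRing A]
    [IsDomain A] [Algebra B A] [IsTorsionFree B A] [Algebra.IsIntegral B A] (β : B →+* ℂ)
    (hβ : Function.Injective β) (a : A) (z : ℂ) (hz : (minpoly B a).eval₂ β z = 0) :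
    ∃ φ : A →+* ℂ, Function.Injective φ ∧ (∀ p, φ (algebraMap B A p) = β p) ∧ φ a = z := by
  let : Algebra B ℂ := β.toAlgebra
  have ha : IsIntegral B a := Algebra.IsIntegral.isIntegral a
  have inj : ∀ (S : Type) [CommRing S] [IsDomain S] [Algebra B S] [Algebra.IsIntegral B S]
      (ψ : S →+* ℂ), (∀ p, ψ (algebraMap B S p) = β p) → Function.Injective ψ := by
    intro S _ _ _ _ ψ h
    rw [RingHom.injective_iff_ker_eq_bot]
    refine Ideal.eq_bot_of_comap_eq_bot (R := B) (eq_bot_iff.2 fun p hp => ?_)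
    have h1 : β p = β 0 := by rw [← h p, map_zero]; exact hp
    exact hβ h1
  let ψ : Algebra.adjoin B ({a} : Set A) →ₐ[B] ℂ := (Algebra.adjoin.powerBasis' ha).lift z (by
    rw [← Algebra.adjoin.powerBasis'_minpoly_gen ha]; exact hz)
  have hψ : ψ ⟨a, Algebra.subset_adjoin (Set.mem_singleton a)⟩ = z := by
    rw [← Algebra.adjoin.powerBasis'_gen ha]
    exact (Algebra.adjoin.powerBasis' ha).lift_gen z _
  have : Algebra.IsIntegral B (Algebra.adjoin B ({a} : Set A)) :=
    Algebra.IsIntegral.adjoin fun x _ => Algebra.IsIntegral.isIntegral x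
  have hi : Function.Injective ψ.toRingHom := inj _ ψ.toRingHom ψ.commutes
  let : Algebra (Algebra.adjoin B ({a} : Set A)) ℂ := ψ.toRingHom.toAlgebra
  have : IsTorsionFree (Algebra.adjoin B ({a} : Set A)) ℂ :=
    (isTorsionFree_iff_algebraMap_injective).2 hi
  have : Algebra.IsIntegral (Algebra.adjoin B ({a} : Set A)) A := Algebra.IsIntegral.tower_top B
  let φ : A →ₐ[Algebra.adjoin B ({a} : Set A)] ℂ := IsAlgClosed.lift
  have h1 : ∀ p, φ.toRingHom (algebraMap B A p) = β p := by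
    intro p
    rw [IsScalarTower.algebraMap_apply B (Algebra.adjoin B ({a} : Set A)) A]
    exact (φ.commutes _).trans (ψ.commutes p)
  exact ⟨φ.toRingHom, inj A _ h1, h1,
    (φ.commutes ⟨a, Algebra.subset_adjoin (Set.mem_singleton a)⟩).trans hψ⟩

/-- a small value of a monic polynomial gives a nearby root -/
theorem near_root (F : Polynomial ℂ) (hF : F.Monic) (w : ℂ) {δ : ℝ} (hδ : 0 < δ)
    (h : ‖F.eval w‖ < δ ^ F.natDegree) : ∃ z, F.eval z = 0 ∧ ‖z - w‖ < δ := by
  have key : ∀ s : Multiset ℂ, (∀ z ∈ s, δ ≤ ‖z - w‖) →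
      δ ^ Multiset.card s ≤ ‖(s.map fun z => w - z).prod‖ := by
    intro s
    induction s using Multiset.induction_on with
    | empty => simp
    | cons z s ih =>
      intro hs
      rw [Multiset.card_cons, Multiset.map_cons, Multiset.prod_cons, norm_mul, pow_succ',
        norm_sub_rev]
      exact mul_le_mul (hs z (Multiset.mem_cons_self _ _))
        (ih fun y hy => hs y (Multiset.mem_cons_of_mem hy)) (by positivity) (norm_nonneg _)
  by_contra hc
  push Not at hc
  have h1 := key F.roots fun z hz => hc z (Polynomial.isRoot_of_mem_roots hz)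
  have hs := IsAlgClosed.splits F
  rw [← hs.natDegree_eq_card_roots, ← hs.eval_eq_prod_roots_of_monic hF] at h1
  exact absurd h (not_lt.2 h1)

/-- the limit of bounded points along an ultrafilter -/
theorem limit_hom {A : Type} [CommRing A] (φ : ℕ → A →+* ℂ) (U : Ultrafilter ℕ)
    (h : ∀ x, ∃ R : ℝ, ∀ᶠ k in (U : Filter ℕ), ‖φ k x‖ ≤ R) :
    ∃ ψ : A →+* ℂ, ∀ x, Tendsto (fun k => φ k x) U (𝓝 (ψ x)) := by
  have h1 : ∀ x, ∃ y, Tendsto (fun k => φ k x) U (𝓝 y) := by
    intro x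
    obtain ⟨R, hR⟩ := h x
    obtain ⟨y, -, hy⟩ := (isCompact_closedBall (0 : ℂ) R).ultrafilter_le_nhds'
      (U.map fun k => φ k x) (by
        rw [Ultrafilter.mem_map]
        exact hR.mono fun k hk => mem_closedBall_zero_iff.2 hk)
    exact ⟨y, hy⟩
  choose y hy using h1
  refine ⟨⟨⟨⟨y, ?_⟩, fun a b => ?_⟩, ?_, fun a b => ?_⟩, hy⟩
  · exact tendsto_nhds_unique (hy 1) (by simp)
  · exact tendsto_nhds_unique (hy (a * b)) (by simpa using (hy a).mul (hy b))
  · exact tendsto_nhds_unique (hy 0) (by simp)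
  · exact tendsto_nhds_unique (hy (a + b)) (by simpa using (hy a).add (hy b))

/-- integral elements stay bounded -/
theorem bdd_root {B A : Type} [CommRing B] [CommRing A] [Algebra B A] (φ : ℕ → A →+* ℂ)
    (l : Filter ℕ) (β : B → ℂ) (h : ∀ p, Tendsto (fun k => φ k (algebraMap B A p)) l (𝓝 (β p)))
    {x : A} (hx : IsIntegral B x) : ∃ R : ℝ, ∀ᶠ k in l, ‖φ k x‖ ≤ R := by
  obtain ⟨P, hP, hx⟩ := hx
  let C : NNReal := ∑ i ∈ Finset.range P.natDegree, (‖β (P.coeff i)‖₊ + 1)
  refine ⟨(C + 1 : NNReal), ?_⟩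
  have h1 : ∀ᶠ k in l, ∀ i ∈ Finset.range P.natDegree,
      ‖φ k (algebraMap B A (P.coeff i))‖₊ ≤ ‖β (P.coeff i)‖₊ + 1 :=
    (eventually_all_finset _).2 fun i _ =>
      (h (P.coeff i)).nnnorm.eventually (eventually_le_nhds (lt_add_one _))
  refine h1.mono fun k hk => ?_
  let θ : B →+* ℂ := (φ k).comp (algebraMap B A)
  have hm : (P.map θ).Monic := hP.map θ
  have hr : (P.map θ).IsRoot (φ k x) := by
    rw [Polynomial.IsRoot.def, Polynomial.eval_map, ← Polynomial.hom_eval₂, hx, map_zero]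
  have h2 := hr.norm_lt_cauchyBound hm.ne_zero
  have h3 : Polynomial.cauchyBound (P.map θ) ≤ C + 1 := by
    rw [Polynomial.cauchyBound, hm.leadingCoeff, nnnorm_one, div_one]
    refine add_le_add_left (Finset.sup_le fun i hi => ?_) 1
    have hi' : i ∈ Finset.range P.natDegree :=
      Finset.mem_range.2 ((Finset.mem_range.1 hi).trans_le Polynomial.natDegree_map_le)
    rw [Polynomial.coeff_map]
    exact (hk i hi').trans (Finset.single_le_sum (f := fun i => ‖β (P.coeff i)‖₊ + 1)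
      (fun _ _ => zero_le) hi')
  exact_mod_cast (h2.le.trans h3)

theorem cont_aeval {σ : Type} (p : MvPolynomial σ ℚ) :
    Continuous fun b : σ → ℂ => aeval b p := by
  induction p using MvPolynomial.induction_on with
  | C a => simpa using continuous_const
  | add p q hp hq => simp only [map_add]; exact hp.add hq
  | mul_X p i hp => simp only [map_mul, aeval_X]; exact hp.mul (continuous_apply i)

/-- algebraically independent families are dense -/
theorem dense_indep (s : ℕ) :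
    Dense {b : Fin s → ℂ | ∀ p : MvPolynomial (Fin s) ℚ, aeval b p = 0 → p = 0} := by
  have : Countable (MvPolynomial (Fin s) ℚ) := AddMonoidAlgebra.coeff_injective.countable
  have h1 : Dense (⋂ p : {p : MvPolynomial (Fin s) ℚ // p ≠ 0},
      {b : Fin s → ℂ | aeval b p.1 ≠ 0}) := by
    refine dense_iInter_of_isOpen (fun p => isOpen_ne_fun (cont_aeval p.1) continuous_const)
      fun p => Metric.dense_iff.2 fun b r hr => ?_
    by_contra hc
    apply p.2
    refine map_injective (algebraMap ℚ ℂ) (algebraMap ℚ ℂ).injective ?_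
    refine funext_set (fun i => Metric.ball (b i) r)
      (fun i => infinite_of_mem_nhds (b i) (Metric.ball_mem_nhds _ hr)) fun x hx => ?_
    rw [map_zero, map_zero, eval_map, ← aeval_def]
    by_contra h2
    exact hc ⟨x, by rw [ball_pi _ hr]; exact hx, h2⟩
  refine h1.mono fun b hb p hp => ?_
  by_contra h
  exact Set.mem_iInter.1 hb ⟨p, h⟩ hp

/-- a limit of generic points with a prescribed value at one element -/
theorem one_value {s : ℕ} {A : Type} [CommRing A] [IsDomain A]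
    [Algebra (MvPolynomial (Fin s) ℚ) A] [IsTorsionFree (MvPolynomial (Fin s) ℚ) A]
    [Algebra.IsIntegral (MvPolynomial (Fin s) ℚ) A] (ev : A →+* ℂ) (a : A) :
    ∃ (ψ : A →+* ℂ) (φ : ℕ → A →+* ℂ) (U : Ultrafilter ℕ), (∀ k, Function.Injective (φ k)) ∧
      (∀ x, Tendsto (fun k => φ k x) U (𝓝 (ψ x))) ∧
      (∀ p, ψ (algebraMap (MvPolynomial (Fin s) ℚ) A p) =
        ev (algebraMap (MvPolynomial (Fin s) ℚ) A p)) ∧ ψ a = ev a := by
  let b0 : Fin s → ℂ := fun i => ev (algebraMap (MvPolynomial (Fin s) ℚ) A (X i))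
  have hb0 : ∀ p, aeval b0 p = ev (algebraMap (MvPolynomial (Fin s) ℚ) A p) := by
    intro p
    have h1 : (aeval b0 : MvPolynomial (Fin s) ℚ →ₐ[ℚ] ℂ).toRingHom =
        ev.comp (algebraMap (MvPolynomial (Fin s) ℚ) A) :=
      ringHom_ext' (Subsingleton.elim _ _) fun i => by simp [b0]
    exact RingHom.congr_fun h1 p
  have ha : IsIntegral (MvPolynomial (Fin s) ℚ) a := Algebra.IsIntegral.isIntegral a
  let F := minpoly (MvPolynomial (Fin s) ℚ) a
  let β : (Fin s → ℂ) → MvPolynomial (Fin s) ℚ →+* ℂ := fun b =>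
    (aeval b : MvPolynomial (Fin s) ℚ →ₐ[ℚ] ℂ).toRingHom
  have hc : Continuous fun b => F.eval₂ (β b) (ev a) := by
    simp only [Polynomial.eval₂_eq_sum_range]
    exact continuous_finsetSum _ fun i _ => (cont_aeval _).mul continuous_const
  have h0 : F.eval₂ (β b0) (ev a) = 0 := by
    have h1 : β b0 = ev.comp (algebraMap (MvPolynomial (Fin s) ℚ) A) := RingHom.ext hb0
    rw [h1, ← Polynomial.hom_eval₂, ← Polynomial.aeval_def, minpoly.aeval, map_zero]
  have step : ∀ δ : ℝ, 0 < δ → ∃ (b : Fin s → ℂ) (φ : A →+* ℂ), dist b b0 < δ ∧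
      Function.Injective φ ∧ (∀ p, φ (algebraMap (MvPolynomial (Fin s) ℚ) A p) = aeval b p) ∧
      dist (φ a) (ev a) < δ := by
    intro δ hδ
    have ho : IsOpen (Metric.ball b0 δ ∩ {b | ‖F.eval₂ (β b) (ev a)‖ < δ ^ F.natDegree}) :=
      Metric.isOpen_ball.inter (isOpen_lt hc.norm continuous_const)
    obtain ⟨b, ⟨h1, h2⟩, h3⟩ := (dense_indep s).inter_open_nonempty _ ho
      ⟨b0, Metric.mem_ball_self hδ, by
        simp only [Set.mem_ofPred_eq, h0, norm_zero]; positivity⟩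
    have hm : F.Monic := minpoly.monic ha
    obtain ⟨z, hz, hzw⟩ := near_root (F.map (β b)) (hm.map _) (ev a) hδ (by
      rw [Polynomial.eval_map, hm.natDegree_map]; exact h2)
    rw [Polynomial.eval_map] at hz
    obtain ⟨φ, h4, h5, h6⟩ := ext_root (β b) ((injective_iff_map_eq_zero _).2 h3) a z hz
    exact ⟨b, φ, h1, h4, h5, by rw [h6, dist_eq_norm]; exact hzw⟩
  choose b φ h1 h2 h3 h4 using fun k : ℕ => step (1 / ((k : ℝ) + 1)) Nat.one_div_pos_of_nat
  have lim : ∀ {E : Type} [PseudoMetricSpace E] (u : ℕ → E) (y : E),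
      (∀ k : ℕ, dist (u k) y < 1 / ((k : ℝ) + 1)) → Tendsto u atTop (𝓝 y) := fun u y h =>
    tendsto_iff_dist_tendsto_zero.2 (squeeze_zero (fun _ => dist_nonneg) (fun k => (h k).le)
      tendsto_one_div_add_atTop_nhds_zero_nat)
  have hU : (Ultrafilter.of (atTop : Filter ℕ) : Filter ℕ) ≤ atTop := Ultrafilter.of_le _
  have h5 : ∀ p, Tendsto (fun k => φ k (algebraMap (MvPolynomial (Fin s) ℚ) A p))
      (Ultrafilter.of (atTop : Filter ℕ)) (𝓝 (aeval b0 p)) := by
    intro p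
    simp only [h3]
    exact (((cont_aeval p).tendsto b0).comp (lim b b0 h1)).mono_left hU
  obtain ⟨ψ, hψ⟩ := limit_hom φ (Ultrafilter.of atTop) fun x =>
    bdd_root φ _ _ h5 (Algebra.IsIntegral.isIntegral x)
  exact ⟨ψ, φ, _, h2, hψ, fun p => (tendsto_nhds_unique (hψ _) (h5 p)).trans (hb0 p),
    tendsto_nhds_unique (hψ a) ((lim _ _ h4).mono_left hU)⟩

end KDens

theorem stDens : StDens := by
  intro A ι _ _ _ _ _ ev g ε hε
  obtain ⟨s, f, hf, hfin⟩ := exists_finite_inj_algHom_of_fg ℚ A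
  let : Algebra (MvPolynomial (Fin s) ℚ) A := f.toRingHom.toAlgebra
  have : Module.Finite (MvPolynomial (Fin s) ℚ) A := hfin
  have : IsTorsionFree (MvPolynomial (Fin s) ℚ) A :=
    (isTorsionFree_iff_algebraMap_injective).2 hf
  let : Algebra (MvPolynomial (Fin s) ℚ) ℂ :=
    (ev.toRingHom.comp (algebraMap (MvPolynomial (Fin s) ℚ) A)).toAlgebra
  let G : (A →+* ℂ) → Prop := fun ψ =>
    ∃ ev' : A →ₐ[ℚ] ℂ, Function.Injective ev' ∧ ∀ i, ‖ev' (g i) - ψ (g i)‖ ≤ ε
  have h1 : ∀ a, ∃ ψ : A →ₐ[MvPolynomial (Fin s) ℚ] ℂ, G ψ.toRingHom ∧ ψ a = ev a := by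
    intro a
    obtain ⟨ψ, φ, U, h2, h3, h4, h5⟩ := KDens.one_value (s := s) ev.toRingHom a
    refine ⟨⟨ψ, h4⟩, ?_, h5⟩
    have h6 : ∀ᶠ k in (U : Filter ℕ), ∀ i, ‖φ k (g i) - ψ (g i)‖ ≤ ε :=
      eventually_all.2 fun i => ((h3 (g i)).eventually (Metric.closedBall_mem_nhds _ hε)).mono
        fun k hk => by rwa [← dist_eq_norm]
    obtain ⟨k, hk⟩ := h6.exists
    exact ⟨(φ k).toRatAlgHom, h2 k, hk⟩
  obtain ⟨⟨ψ, ev', h2, h3⟩, h4⟩ := Subspace.exists_eq_top_of_iUnion_eq_univ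
    (ι := {ψ : A →ₐ[MvPolynomial (Fin s) ℚ] ℂ // G ψ.toRingHom})
    (p := fun ψ => LinearMap.eqLocus ψ.1.toRingHom.toRatAlgHom.toLinearMap ev.toLinearMap)
    (Set.eq_univ_of_forall fun a => by
      obtain ⟨ψ, h2, h3⟩ := h1 a
      exact Set.mem_iUnion.2 ⟨⟨ψ, h2⟩, h3⟩)
  refine ⟨ev', h2, fun i => ?_⟩
  have h5 : ψ.toRingHom (g i) = ev (g i) :=
    LinearMap.congr_fun (LinearMap.eqLocus_eq_top.1 h4) (g i)
  rw [← h5]
  exact h3 i

end Pool.Agent.Lib.MP_12eca1_ag.Q
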