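import Pool.Agent.Lib.MP_12eca1_ag.Q.Basic

/-!
The Hilbert functions and the counting bound under a hypersurface section.
-/

namespace Pool.Agent.Lib.MP_12eca1_ag.Q

open MvPolynomial Filter Module P

namespace KHA

section Hilb

variable {σ : Type} [Fintype σ] {J p q : Ideal (MvPolynomial σ ℤ)} {f g : MvPolynomial σ ℤ}
  {e e' : ℕ}

lemma step (hJ : IsHom J) (hg : g.IsHomogeneous e) {γ : ℝ} (hγ : 0 < γ) (h : l1 g ≤ γ) (R : ℕ) :
    Hf J (R + e) = Hf (J ⊔ Ideal.span {g}) (R + e) + Hf (col J g) R ∧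
    chi (l2 σ) (J ⊔ Ideal.span {g}) (R + e) + chi (l2 σ) (col J g) R -
      Hf (col J g) R * Real.log γ ≤ chi (l2 σ) J (R + e) :=
  thX σ _ _ (l2 σ) (l2 σ) J g e R γ l2_injective l2_injective hJ hg hγ fun P _ =>
    (norm_l2_mul_le _ P).trans (mul_le_mul_of_nonneg_right (by rwa [l1_toC]) (norm_nonneg _))

lemma mono (hq : IsHom q) (hq' : q.IsPrime) {i : σ} (hi : X i ∉ q) :
    Monotone (Hf q) ∧ Monotone (chi (l2 σ) q) := by
  have h := fun R => step hq (isHomogeneous_X ℤ i) one_pos (l1_X i).le R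
  simp only [JC.col_prime hq' hi, Real.log_one, mul_zero, sub_zero] at h
  exact ⟨monotone_nat_of_le_succ fun R => by
      linarith [(h R).1, Hf_nonneg (q ⊔ Ideal.span {X i}) (R + 1)],
    monotone_nat_of_le_succ fun R => by
      linarith [(h R).2, chi0_nonneg (q ⊔ Ideal.span {X i}) (R + 1)]⟩

lemma tel_H (hp : IsHom p) (hp' : p.IsPrime) (hf : f.IsHomogeneous e) (hf' : f ∉ p)
    (hl : l1 f ≤ 2) (hle : p ⊔ Ideal.span {f} ≤ q) (hm : Monotone (Hf q)) (R k : ℕ) :
    k * Hf q R ≤ Hf p (R + k * e) := by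
  induction k with
  | zero => simpa using Hf_nonneg p R
  | succ k ih =>
    have a1 := (step hp hf two_pos hl (R + k * e)).1
    rw [JC.col_prime hp' hf'] at a1
    have a2 := Hf_anti hle (R + k * e + e)
    have a3 := hm (show R ≤ R + k * e + e by omega)
    rw [show R + (k + 1) * e = R + k * e + e by ring]
    push_cast
    linarith

lemma tel_chi (hp : IsHom p) (hp' : p.IsPrime) (hf : f.IsHomogeneous e) (hf' : f ∉ p)
    (hl : l1 f ≤ 2) (hg : g.IsHomogeneous e') (hc : col (p ⊔ Ideal.span {f}) g = q)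
    (h1 : Monotone (Hf p)) (h2 : Monotone (Hf q)) (h3 : Monotone (chi (l2 σ) q)) (R S k : ℕ)
    (hk : R + k * e + e' ≤ S) :
    k * (chi (l2 σ) q R - Hf p S - Hf q S * Real.log (l1 g + 1)) ≤
      chi (l2 σ) p (R + k * e + e') := by
  induction k with
  | zero => simpa using chi0_nonneg p (R + e')
  | succ k ih =>
    rw [Nat.succ_mul] at hk
    have a0 := ih (by omega)
    have a1 := (step hp hf two_pos hl (R + k * e + e')).2
    have b := l1_nonneg g
    have a2 := (step (JC.isHom_sup hp hf) hg (γ := l1 g + 1) (by linarith) (by linarith)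
      (R + k * e + e)).2
    rw [JC.col_prime hp' hf'] at a1
    rw [hc, show R + k * e + e + e' = R + k * e + e' + e by ring] at a2
    have a3 := chi0_nonneg (p ⊔ Ideal.span {f} ⊔ Ideal.span {g}) (R + k * e + e' + e)
    have a4 := h3 (show R ≤ R + k * e + e by omega)
    have a5 := mul_le_mul_of_nonneg_right (h2 (show R + k * e + e ≤ S by omega))
      (Real.log_nonneg (show 1 ≤ l1 g + 1 by linarith))
    have a6 : Hf p (R + k * e + e') * Real.log 2 ≤ Hf p S :=
      (mul_le_of_le_one_right (Hf_nonneg _ _)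
        (by linarith [Real.log_le_sub_one_of_pos two_pos])).trans (h1 (by omega))
    rw [show R + (k + 1) * e + e' = R + k * e + e' + e by ring]
    push_cast
    linarith

end Hilb

lemma three_pow (t : ℕ) : (3 : ℝ) ^ (t + 3) ≤ Real.exp (2 * (t + 3)) := by
  have : (3 : ℝ) ^ (t + 3) ≤ Real.exp 2 ^ (t + 3) :=
    pow_le_pow_left₀ (by norm_num) (by linarith [Real.add_one_le_exp (2 : ℝ)]) _
  rw [← Real.exp_nat_mul] at this
  push_cast at this
  rwa [mul_comm]

lemma exp_ge {e : ℕ} (he : 1 ≤ e) (α : ℝ) (t : ℕ) :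
    Real.exp α * e * 3 ^ (t + 3) ≤ Real.exp (α + Real.log e + 2 * (t + 3)) := by
  rw [Real.exp_add, Real.exp_add, Real.exp_log (by exact_mod_cast he)]
  exact mul_le_mul_of_nonneg_left (three_pow t) (by positivity)

lemma tendsto_three : Tendsto (fun R : ℕ => 3 * R) atTop atTop :=
  tendsto_atTop_mono (fun R => by simp only [id]; omega) tendsto_id

lemma div_bounds {e : ℕ} (he : 1 ≤ e) (R : ℕ) :
    R ≤ (R / e + 1) * e ∧ (R / e + 1) * e ≤ R + e ∧ R / e + 1 ≤ R + 1 := by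
  have h1 := Nat.div_add_mod R e
  have h2 := Nat.mod_lt R (show 0 < e by omega)
  have h3 := Nat.div_le_self R e
  rw [Nat.succ_mul, mul_comm (R / e)]
  omega

/-- division by the number of steps -/
lemma le_of_mul {e k R : ℕ} (hk : R ≤ (k + 1) * e) {x A : ℝ} (hA : 0 ≤ A)
    (h : ((k + 1 : ℕ) : ℝ) * x ≤ A * R) : x ≤ A * e := by
  have h1 : (0 : ℝ) < (k + 1 : ℕ) := by positivity
  have h2 : (R : ℝ) ≤ (k + 1 : ℕ) * e := by exact_mod_cast hk
  refine le_of_mul_le_mul_left (h.trans ?_) h1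
  calc A * R ≤ A * ((k + 1 : ℕ) * e) := mul_le_mul_of_nonneg_left h2 hA
    _ = _ := by ring

section Count

variable {κ : Type} {η θ : κ → ℂ}

lemma cn_start [Fintype κ] {T : ℕ} (h : TB η T) : ∃ α, CN η (T + 1) α := by
  obtain ⟨d, C, H⟩ := stS _ _ T h
  set c : ℝ := C * 2 + 1 with hc
  have hc0 : 0 < c := by positivity
  refine ⟨(c + 4) * (d * c ^ T), ?_⟩
  filter_upwards [eventually_ge_atTop 1] with R hR s hs
  have hR' : (1 : ℝ) ≤ R := by exact_mod_cast hR
  obtain ⟨Φ, h1, h2⟩ := H R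
  choose! P p1 p2 p3 using hs
  have hm : ∀ v ∈ s, ∀ m ∈ (P v).support, m.degree ≤ R := fun v hv m hm =>
    (le_totalDegree hm).trans (p1 v hv)
  have key := JIn.card_le s (fun v l => ∑ m ∈ (P v).support, coeff m (P v) • Φ m l)
    (C * (R + 1)) ⌈Real.exp R * (C : ℝ) ^ (R + 1)⌉₊
    (fun v hv l => (totalDegree_finsetSum _ _).trans (Finset.sup_le fun m h =>
      (totalDegree_smul_le _ _).trans (h1 m (hm v hv m h) l).1))
    (fun v hv l => by
      refine le_trans ?_ (Nat.le_ceil _)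
      refine (l1_sum_le _ _).trans ((Finset.sum_le_sum fun m h => (l1_smul_le _ _).trans
        (mul_le_mul_of_nonneg_left (h1 m (hm v hv m h) l).2 (norm_nonneg _))).trans ?_)
      rw [← Finset.sum_mul]
      exact mul_le_mul_of_nonneg_right (p2 v hv) (by positivity))
    (fun v hv w hw e => by
      have := (h2 (P v - P w) ((totalDegree_sub _ _).trans (max_le (p1 v hv) (p1 w hw)))).2
        fun l => by rw [JIn.psi_sub, sub_eq_zero]; exact congrFun e l
      rwa [map_sub, p3 v hv, p3 w hw, sub_eq_zero] at this)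
  rw [Fintype.card_fin] at key
  have r2 : ((R + 1 : ℕ) : ℝ) ≤ 2 * R := by
    push_cast
    linarith
  have r3 : ((C * (R + 1) : ℕ) : ℝ) + R ≤ c * R := by
    rw [Nat.cast_mul, hc]
    nlinarith [mul_le_mul_of_nonneg_left r2 (Nat.cast_nonneg (α := ℝ) C)]
  have r4 : Real.exp R * (C : ℝ) ^ (R + 1) ≤ Real.exp (c * R) := by
    have h3 : (C : ℝ) ^ (R + 1) ≤ Real.exp ((C * (R + 1) : ℕ) : ℝ) := by
      rw [Nat.cast_mul, mul_comm (C : ℝ), Real.exp_nat_mul]
      exact pow_le_pow_left₀ (Nat.cast_nonneg _) (by linarith [Real.add_one_le_exp (C : ℝ)]) _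
    refine (mul_le_mul_of_nonneg_left h3 (Real.exp_pos R).le).trans ?_
    rw [← Real.exp_add]
    exact Real.exp_le_exp.2 (by linarith)
  have r5 : ((2 * ⌈Real.exp R * (C : ℝ) ^ (R + 1)⌉₊ + 1 : ℕ) : ℝ) ≤ Real.exp ((c + 4) * R) := by
    have h3 := Nat.ceil_lt_add_one (a := Real.exp R * (C : ℝ) ^ (R + 1)) (by positivity)
    have h4 : 1 ≤ Real.exp (c * R) := Real.one_le_exp (by positivity)
    have h5 : 5 ≤ Real.exp (4 * R) := by linarith [Real.add_one_le_exp (4 * (R : ℝ))]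
    rw [add_mul, Real.exp_add]
    push_cast
    nlinarith
  have r6 : ((d * (C * (R + 1) + 1) ^ T : ℕ) : ℝ) ≤ d * (c * R) ^ T := by
    rw [Nat.cast_mul, Nat.cast_pow, Nat.cast_add, Nat.cast_one]
    exact mul_le_mul_of_nonneg_left (pow_le_pow_left₀ (by positivity) (by linarith) T)
      (Nat.cast_nonneg _)
  calc (s.card : ℝ) ≤ ((2 * ⌈Real.exp R * (C : ℝ) ^ (R + 1)⌉₊ + 1 : ℕ) : ℝ) ^
        (d * (C * (R + 1) + 1) ^ T) := by exact_mod_cast key
    _ ≤ Real.exp ((c + 4) * R) ^ (d * (C * (R + 1) + 1) ^ T) :=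
        pow_le_pow_left₀ (Nat.cast_nonneg _) r5 _
    _ ≤ Real.exp (Real.exp ((c + 4) * (d * c ^ T)) * R ^ (T + 1)) := by
        rw [← Real.exp_nat_mul]
        refine Real.exp_le_exp.2 ((mul_le_mul_of_nonneg_right r6 (by positivity)).trans ?_)
        have h3 : (c + 4) * (d * c ^ T) ≤ Real.exp ((c + 4) * (d * c ^ T)) := by
          linarith [Real.add_one_le_exp ((c + 4) * (d * c ^ T))]
        refine le_trans (le_of_eq ?_) (mul_le_mul_of_nonneg_right h3 (by positivity))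
        rw [mul_pow, pow_succ]
        ring

lemma cn_spec {t : ℕ} {α : ℝ} (hs : Spec η θ) (h : CN η t α) : CN θ t α := by
  classical
  filter_upwards [h] with R h1 s h2
  choose! P p1 p2 p3 using h2
  have := h1 (s.image fun v => aeval η (P v)) fun w hw => by
    obtain ⟨v, hv, rfl⟩ := Finset.mem_image.1 hw
    exact ⟨P v, p1 v hv, p2 v hv, rfl⟩
  rwa [Finset.card_image_of_injOn fun v hv w hw e => by
    have := hs (P v - P w) (by rw [map_sub, sub_eq_zero]; exact e)
    rwa [map_sub, p3 v hv, p3 w hw, sub_eq_zero] at this] at this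

/-- Horner forms in `f` -/
lemma horner (hs : Spec η θ) {f : MvPolynomial κ ℤ} {e R : ℕ} {L : ℝ} (hf : f.totalDegree ≤ e)
    (hl : l1 f ≤ 2) (h1 : aeval η f ≠ 0) (h2 : aeval θ f = 0) (s : Finset ℂ)
    (h : ∀ v ∈ s, ∃ Q : MvPolynomial κ ℤ, Q.totalDegree ≤ R ∧ l1 Q ≤ L ∧ aeval θ Q = v) (k : ℕ) :
    ∃ t : Finset ℂ, t.card = s.card ^ k ∧ ∀ w ∈ t, ∃ Q : MvPolynomial κ ℤ,
      Q.totalDegree ≤ R + k * e ∧ l1 Q ≤ (2 ^ k - 1) * L ∧ aeval η Q = w := by
  classical
  choose! P p1 p2 p3 using h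
  induction k with
  | zero =>
    refine ⟨{0}, by simp, fun w hw => ⟨0, by simp, by simp, ?_⟩⟩
    rw [Finset.mem_singleton.1 hw, map_zero]
  | succ k ih =>
    obtain ⟨t, ht, hw⟩ := ih
    refine ⟨(t ×ˢ s).image fun a => aeval η (P a.2) + aeval η f * a.1, ?_, ?_⟩
    · rw [Finset.card_image_of_injOn, Finset.card_product, ht, pow_succ]
      intro a ha b hb e
      have ha := Finset.mem_product.1 (Finset.mem_coe.1 ha)
      have hb := Finset.mem_product.1 (Finset.mem_coe.1 hb)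
      have e' : aeval η (P a.2) + aeval η f * a.1 = aeval η (P b.2) + aeval η f * b.1 := e
      obtain ⟨A, -, -, hA⟩ := hw _ ha.1
      obtain ⟨B, -, -, hB⟩ := hw _ hb.1
      have h3 := hs (P a.2 - P b.2 + f * (A - B)) (by
        rw [map_add, map_sub, map_mul, map_sub, hA, hB]
        linear_combination e')
      rw [map_add, map_mul, h2, zero_mul, add_zero, map_sub, p3 _ ha.2, p3 _ hb.2,
        sub_eq_zero] at h3
      rw [h3, add_right_inj] at e'
      exact Prod.ext (mul_left_cancel₀ h1 e') h3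
    · intro x hx
      obtain ⟨a, ha, rfl⟩ := Finset.mem_image.1 hx
      have ha := Finset.mem_product.1 ha
      obtain ⟨A, a1, a2, a3⟩ := hw _ ha.1
      refine ⟨P a.2 + f * A, (totalDegree_add _ _).trans (max_le ((p1 _ ha.2).trans (by omega))
        ((totalDegree_mul _ _).trans ?_)), ?_, by rw [map_add, map_mul, a3]⟩
      · rw [Nat.succ_mul]
        omega
      · refine (l1_add_le _ _).trans ((add_le_add (p2 _ ha.2) (l1_mul_le_of_le hl a2)).trans_eq ?_)
        ring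

lemma cn_cut {t e : ℕ} {α : ℝ} {f : MvPolynomial κ ℤ} (hs : Spec η θ) (he : 1 ≤ e)
    (hf : f.totalDegree ≤ e) (hl : l1 f ≤ 2) (h1 : aeval η f ≠ 0) (h2 : aeval θ f = 0)
    (h : CN η (t + 2) α) : CN θ (t + 1) (α + Real.log e + 2 * (t + 3)) := by
  filter_upwards [tendsto_three.eventually h, eventually_ge_atTop e] with R h3 hR s h4
  obtain ⟨k1, k2, k3⟩ := div_bounds he R
  obtain ⟨u, hu, hw⟩ := horner hs hf hl h1 h2 s h4 (R / e + 1)
  generalize R / e = k at k1 k2 k3 hu hw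
  have hL : (2 ^ (k + 1) - 1) * Real.exp R ≤ Real.exp (3 * R : ℕ) := by
    have a1 : (2 : ℝ) ^ (k + 1) ≤ Real.exp 1 ^ (k + 1) :=
      pow_le_pow_left₀ (by norm_num) (by linarith [Real.add_one_le_exp (1 : ℝ)]) _
    rw [← Real.exp_nat_mul, mul_one] at a1
    have a2 : Real.exp (k + 1 : ℕ) ≤ Real.exp (2 * R : ℕ) :=
      Real.exp_le_exp.2 (Nat.cast_le.2 (by omega))
    rw [show 3 * R = 2 * R + R by ring, Nat.cast_add (2 * R), Real.exp_add]
    exact mul_le_mul_of_nonneg_right (by linarith) (Real.exp_pos R).le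
  have h5 := h3 u fun w hwu => by
    obtain ⟨Q, a1, a2, a3⟩ := hw w hwu
    exact ⟨Q, a1.trans (by omega), a2.trans hL, a3⟩
  rw [hu, Nat.cast_pow] at h5
  refine le_of_pow_le_pow_left₀ (Nat.succ_ne_zero k) (Real.exp_pos _).le (h5.trans ?_)
  rw [← Real.exp_nat_mul, Real.exp_le_exp]
  have a1 : (R : ℝ) ≤ (k + 1 : ℕ) * e := by exact_mod_cast k1
  have a2 : (3 : ℝ) ^ (t + 2) ≤ 3 ^ (t + 3) := pow_le_pow_right₀ (by norm_num) (by omega)
  calc Real.exp α * ((3 * R : ℕ) : ℝ) ^ (t + 2)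
      = Real.exp α * R ^ (t + 1) * (3 ^ (t + 2) * R) := by push_cast; ring
    _ ≤ Real.exp α * R ^ (t + 1) * (3 ^ (t + 3) * ((k + 1 : ℕ) * e)) := by gcongr
    _ = (k + 1 : ℕ) * (Real.exp α * e * 3 ^ (t + 3) * R ^ (t + 1)) := by ring
    _ ≤ _ := by
        gcongr
        exact exp_ge he α t

end Count

end KHA

open KHA in
theorem stHAc : StHAc := by
  intro σ _ p q f g τ e e' i α hp hp' hq' he hf hf' hl hg hc hi h
  have hle : p ⊔ Ideal.span {f} ≤ q := hc ▸ JC.le_col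
  have hq : IsHom q := hc ▸ JC.isHom_col (JC.isHom_sup hp hf) hg
  obtain ⟨m1, m2⟩ := mono hp hp' fun h => hi ((le_sup_left.trans hle) h)
  obtain ⟨m3, m4⟩ := mono hq hq' hi
  have hα := Real.exp_pos α
  have he' : (1 : ℝ) ≤ e := by exact_mod_cast he
  have hH : ∀ᶠ R : ℕ in atTop, Hf q R ≤ Real.exp α * 3 ^ (τ + 1) * R ^ τ * e := by
    filter_upwards [tendsto_three.eventually h, eventually_ge_atTop e] with R h1 hR
    obtain ⟨k1, k2, -⟩ := div_bounds he R
    refine le_of_mul k1 (by positivity) ((tel_H hp hp' hf hf' hl hle m3 R _).trans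
      ((m1 (show _ ≤ 3 * R by omega)).trans (h1.1.trans_eq ?_)))
    push_cast
    ring
  filter_upwards [hH, tendsto_three.eventually hH, tendsto_three.eventually h,
    eventually_ge_atTop (e + e'), (tendsto_natCast_atTop_atTop (R := ℝ)).eventually_ge_atTop
      (3 ^ (τ + 1) * 3 ^ τ * e * Real.log (l1 g + 1))] with R h1 h2 h3 hR h4
  have hb := exp_ge he α τ
  have h0 : (0 : ℝ) ≤ R ^ τ := by positivity
  constructor
  · refine h1.trans (le_trans ?_ (mul_le_mul_of_nonneg_right hb h0))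
    have a2 : (3 : ℝ) ^ (τ + 1) ≤ 3 ^ (τ + 3) := pow_le_pow_right₀ (by norm_num) (by omega)
    calc Real.exp α * 3 ^ (τ + 1) * R ^ τ * e = Real.exp α * e * 3 ^ (τ + 1) * R ^ τ := by ring
      _ ≤ _ := by gcongr
  · obtain ⟨k1, k2, -⟩ := div_bounds he R
    have a1 := le_of_mul (A := Real.exp α * 3 ^ (τ + 2) * R ^ (τ + 1)) k1 (by positivity)
      ((tel_chi hp hp' hf hf' hl hg hc m1 m3 m4 R (3 * R) (R / e + 1) (by omega)).trans
        ((m2 (show _ ≤ 3 * R by omega)).trans (h3.2.trans_eq (by push_cast; ring))))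
    have a2 : Hf q (3 * R) * Real.log (l1 g + 1) ≤ Real.exp α * R ^ (τ + 1) := by
      refine (mul_le_mul_of_nonneg_right h2
        (Real.log_nonneg (by linarith [l1_nonneg g]))).trans ?_
      calc _ = Real.exp α * R ^ τ * (3 ^ (τ + 1) * 3 ^ τ * e * Real.log (l1 g + 1)) := by
            push_cast; ring
        _ ≤ Real.exp α * R ^ τ * R := by gcongr
        _ = _ := by ring
    have a3 : Hf p (3 * R) ≤ Real.exp α * R ^ (τ + 1) * 3 ^ (τ + 1) :=
      h3.1.trans_eq (by push_cast; ring)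
    refine le_trans ?_ (mul_le_mul_of_nonneg_right hb (by positivity))
    have a4 : (1 : ℝ) ≤ 3 ^ τ := one_le_pow₀ (by norm_num)
    have a5 : 3 ^ (τ + 2) * (e : ℝ) + 3 ^ (τ + 1) + 1 ≤ e * 3 ^ (τ + 3) := by
      rw [pow_add, pow_add, pow_add]
      nlinarith
    have a6 := mul_le_mul_of_nonneg_left a5 (show 0 ≤ Real.exp α * R ^ (τ + 1) by positivity)
    linarith

open KHA in
theorem stCN : StCN := fun _ _ _ _ _ =>
  ⟨cn_start, fun _ => cn_spec, fun _ _ _ => cn_cut⟩

end Pool.Agent.Lib.MP_12eca1_ag.Q
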