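import Pool.Agent.Lib.MP_12eca1_ag.Q.Basic

/-!
Convexity of the twisted Hilbert function in the precision.
-/

namespace Pool.Agent.Lib.MP_12eca1_ag.Q

open MvPolynomial Filter Module P

namespace KHalf

section CS

variable {E : Type} [NormedAddCommGroup E] [InnerProductSpace ℂ E] {n : ℕ}

lemma eq_case {a b : Fin n → E} (ha : LinearIndependent ℂ a)
    (hb : ∀ j, b j ∈ Submodule.span ℂ (Set.range a))
    (hC : (Matrix.of fun i j => inner ℂ (a i) (b j)).det ≠ 0) :
    Real.log ‖(Matrix.of fun i j => inner ℂ (a i) (b j)).det‖ = lvol a + lvol b := by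
  choose A hA using fun i => (Submodule.mem_span_range_iff_exists_fun ℂ).1 (hb i)
  have h1 : (Matrix.of fun i j => inner ℂ (a i) (b j)) =
      Matrix.gram ℂ a * (Matrix.of A).transpose := by
    ext i j
    simp [Matrix.mul_apply, Matrix.gram_apply, ← hA, mul_comm]
  rw [h1, Matrix.det_mul, Matrix.det_transpose] at hC ⊢
  obtain ⟨h2, h3⟩ := mul_ne_zero_iff.1 hC
  have h4 := stChg E (Fin n) a (Matrix.of A) ha h3
  simp only [Matrix.of_apply, hA] at h4
  rw [norm_mul, Real.log_mul (norm_ne_zero_iff.2 h2) (norm_ne_zero_iff.2 h3), h4, lvol]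
  ring

lemma lvol_elim (u : Fin n → E) : lvol (Sum.elim (fun i : Fin 0 => (i.elim0 : E)) u) = lvol u := by
  rw [← JM.lvol_equiv (Equiv.emptySum (Fin 0) (Fin n)).symm]
  rfl

lemma li_elim {u : Fin n → E} (h : LinearIndependent ℂ u) :
    LinearIndependent ℂ (Sum.elim (fun i : Fin 0 => (i.elim0 : E)) u) :=
  (linearIndependent_equiv (Equiv.emptySum (Fin 0) (Fin n)).symm).1 h

lemma cs {a b : Fin n → E} (ha : LinearIndependent ℂ a) (hb : LinearIndependent ℂ b)
    (hC : (Matrix.of fun i j => inner ℂ (a i) (b j)).det ≠ 0) :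
    Real.log ‖(Matrix.of fun i j => inner ℂ (a i) (b j)).det‖ ≤ lvol a + lvol b := by
  set S := Submodule.span ℂ (Set.range a)
  have : FiniteDimensional ℂ S := FiniteDimensional.span_of_finite ℂ (Set.finite_range a)
  have h1 : ∀ i x, inner ℂ (a i) (S.starProjection x) = inner ℂ (a i) x := fun i x => by
    rw [← Submodule.inner_starProjection_left_eq_right,
      Submodule.starProjection_eq_self_iff.2 (Submodule.subset_span (Set.mem_range_self i))]
  have h2 : (Matrix.of fun i j => inner ℂ (a i) (b j)) =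
      Matrix.of fun i j => inner ℂ (a i) (S.starProjection (b j)) := by simp only [h1]
  have h3 : LinearIndependent ℂ fun j => S.starProjection (b j) := by
    rw [Fintype.linearIndependent_iff]
    intro c hc
    refine congrFun (Matrix.eq_zero_of_mulVec_eq_zero hC (funext fun i => ?_))
    have := congrArg (inner ℂ (a i)) hc
    simpa [Matrix.mulVec, dotProduct, inner_sum, inner_smul_right, h1, mul_comm] using this
  rw [h2] at hC ⊢
  rw [eq_case ha (fun j => S.starProjection_apply_mem _) hC]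
  have h4 := stV E E 0 0 n (fun i => i.elim0) (fun j => S.starProjection (b j))
    (fun i => i.elim0) b (fun _ => 1) (li_elim h3) (li_elim hb) (fun _ => one_pos) (by
      intro i s hs
      refine ⟨S.starProjection s, ?_, ?_⟩
      · simp only [Set.range_eq_empty, Set.empty_union] at hs ⊢
        have := Submodule.mem_map_of_mem (f := (S.starProjection : E →ₗ[ℂ] E)) hs
        rwa [Submodule.map_span, ← Set.image_comp] at this
      · rw [← map_sub, one_mul]
        exact S.norm_starProjection_apply_le _)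
  rw [lvol_elim, lvol_elim] at h4
  simpa using h4

end CS

section Diag

variable {σ : Type}

/-- multiplication of the coefficients by weights -/
noncomputable def diag (w : (σ →₀ ℕ) → ℝ) : MvPolynomial σ ℂ →ₗ[ℂ] MvPolynomial σ ℂ :=
  (basisMonomials σ ℂ).constr ℂ fun m => monomial m (w m : ℂ)

lemma coeff_diag (w : (σ →₀ ℕ) → ℝ) (P : MvPolynomial σ ℂ) (m : σ →₀ ℕ) :
    coeff m (diag w P) = w m * coeff m P := by
  classical
  induction P using MvPolynomial.induction_on' with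
  | monomial n a =>
    have h : monomial n a = a • basisMonomials σ ℂ n := by simp [smul_monomial]
    rw [h, map_smul, diag, Module.Basis.constr_basis, ← h, coeff_smul, coeff_monomial,
      coeff_monomial]
    split_ifs with h1
    · simp [h1, mul_comm]
    · simp
  | add p q hp hq => simp [hp, hq, mul_add]

lemma support_diag (w : (σ →₀ ℕ) → ℝ) (P : MvPolynomial σ ℂ) : (diag w P).support ⊆ P.support :=
  fun m hm => by
    rw [MvPolynomial.mem_support_iff, coeff_diag] at hm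
    exact MvPolynomial.mem_support_iff.2 (right_ne_zero_of_mul hm)

lemma diag_hom (w : (σ →₀ ℕ) → ℝ) {P : MvPolynomial σ ℂ} {R : ℕ} (h : P.IsHomogeneous R) :
    (diag w P).IsHomogeneous R := fun _ hm =>
  h (MvPolynomial.mem_support_iff.1 (support_diag w P (MvPolynomial.mem_support_iff.2 hm)))

lemma l1_diag {w : (σ →₀ ℕ) → ℝ} (hw : ∀ m, 0 < w m) (P : MvPolynomial σ ℂ) :
    l1 (diag w P) = ∑ m ∈ P.support, w m * ‖coeff m P‖ := by
  rw [l1_eq_sum (support_diag w P)]
  refine Finset.sum_congr rfl fun m _ => ?_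
  rw [coeff_diag, norm_mul, Complex.norm_real, Real.norm_of_nonneg (hw m).le]

lemma diag_inj {w : (σ →₀ ℕ) → ℝ} (hw : ∀ m, 0 < w m) : Function.Injective (diag w) :=
  fun P Q h => by
    ext m
    have := congrArg (coeff m) h
    rw [coeff_diag, coeff_diag] at this
    exact mul_left_cancel₀ (by exact_mod_cast (hw m).ne') this

lemma inner_diag {w w₀ w₁ : (σ →₀ ℕ) → ℝ} (h : ∀ m, w m * w m = w₀ m * w₁ m)
    (P Q : MvPolynomial σ ℂ) : inner ℂ (l2 σ (diag w P)) (l2 σ (diag w Q)) =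
      inner ℂ (l2 σ (diag w₀ P)) (l2 σ (diag w₁ Q)) := by
  rw [lp.inner_eq_tsum, lp.inner_eq_tsum]
  refine tsum_congr fun m => ?_
  have h1 : (w m : ℂ) * w m = w₀ m * w₁ m := by exact_mod_cast h m
  simp only [l2_apply, coeff_diag, RCLike.inner_apply, map_mul, Complex.conj_ofReal]
  linear_combination (coeff m Q * (starRingEnd ℂ) (coeff m P)) * h1

end Diag

variable {κ : Type}

/-- the translation to the point -/
noncomputable def psi (θ : κ → ℂ) : MvPolynomial (Option κ) ℂ →ₐ[ℂ] MvPolynomial (Option κ) ℂ :=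
  aeval fun o => o.elim (X none) fun i => X (some i) + C (θ i) * X none

lemma psi_psi (θ : κ → ℂ) (P : MvPolynomial (Option κ) ℂ) : psi (-θ) (psi θ P) = P := by
  have : (psi (-θ)).comp (psi θ) = AlgHom.id _ _ := algHom_ext fun o => by
    cases o <;> simp [psi]
  exact DFunLike.congr_fun this P

lemma psi_hom (θ : κ → ℂ) {P : MvPolynomial (Option κ) ℂ} {R : ℕ} (h : P.IsHomogeneous R) :
    (psi θ P).IsHomogeneous R := by
  have := h.aeval (n := 1) (fun o : Option κ => o.elim (X none : MvPolynomial (Option κ) ℂ)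
    fun i => X (some i) + C (θ i) * X none) (by
      rintro (_ | i)
      · exact isHomogeneous_X _ _
      · exact (isHomogeneous_X _ _).add (isHomogeneous_C_mul_X _ _))
  rwa [one_mul] at this

lemma l1_psi {θ : κ → ℂ} {B : ℝ} (hB : 1 ≤ B) (hθ : ∀ i, ‖θ i‖ + 1 ≤ B)
    {P : MvPolynomial (Option κ) ℂ} {R : ℕ} (h : P.IsHomogeneous R) :
    l1 (psi θ P) ≤ B ^ R * l1 P := by
  refine l1_aeval_le_of_isHomogeneous ?_ h
  rintro (_ | i)
  · simpa using hB
  · refine (l1_add_le _ _).trans (le_trans ?_ (hθ i))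
    have := l1_C_mul_le (θ i) (X none : MvPolynomial (Option κ) ℂ)
    simp only [l1_X] at this ⊢
    linarith

/-- dehomogenisation with scaling -/
noncomputable def deh (ε : ℂ) : MvPolynomial (Option κ) ℂ →ₐ[ℂ] MvPolynomial κ ℂ :=
  aeval fun o => o.elim 1 fun i => C ε * X i

lemma tay_eq (θ : κ → ℂ) (ε : ℂ) (P : MvPolynomial (Option κ) ℂ) :
    tay θ ε P = deh ε (psi θ P) := by
  have : tay θ ε = (deh ε).comp (psi θ) := algHom_ext fun o => by
    cases o <;> simp [psi, deh, add_comm]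
  exact DFunLike.congr_fun this P

variable [Fintype κ]

lemma deh_monomial (ε a : ℂ) (m : Option κ →₀ ℕ) :
    deh ε (monomial m a) = monomial m.some (a * ε ^ ∑ i, m (some i)) := by
  rw [deh, aeval_monomial, monomial_eq, Finsupp.prod_fintype _ _ (by simp),
    Finsupp.prod_fintype _ _ (by simp), Fintype.prod_option]
  simp [mul_pow, Finset.prod_mul_distrib, Finset.prod_pow_eq_pow_sum, mul_assoc]

lemma coeff_deh (ε : ℂ) {Q : MvPolynomial (Option κ) ℂ} {R : ℕ} (h : Q.IsHomogeneous R)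
    {m : Option κ →₀ ℕ} (hm : m ∈ Q.support) :
    coeff m.some (deh ε Q) = coeff m Q * ε ^ ∑ i, m (some i) := by
  classical
  conv_lhs => rw [Q.as_sum, map_sum, coeff_sum]
  rw [Finset.sum_eq_single m]
  · rw [deh_monomial, coeff_monomial, if_pos rfl]
  · intro m' hm' hne
    rw [deh_monomial, coeff_monomial, if_neg]
    intro e
    have e1 : ∀ i, m' (some i) = m (some i) := fun i => by simpa using DFunLike.congr_fun e i
    have h1 := degree_of_mem_support h hm
    have h2 := degree_of_mem_support h hm'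
    rw [Finsupp.degree_eq_sum, Fintype.sum_option] at h1 h2
    simp only [e1] at h2
    refine hne (Finsupp.ext ?_)
    rintro (_ | i)
    · omega
    · exact e1 i
  · exact fun h => absurd hm h

/-- the weights -/
noncomputable def wt (U : ℝ) (k : ℕ) (m : Option κ →₀ ℕ) : ℝ :=
  Real.exp (U * (k - ∑ i, m (some i) : ℕ))

lemma wt_pos (U : ℝ) (k : ℕ) (m : Option κ →₀ ℕ) : 0 < wt U k m := Real.exp_pos _

/-- the diagonal model of the twisted norm -/
noncomputable def dg (θ : κ → ℂ) (U : ℝ) (k : ℕ) : MvPolynomial (Option κ) ℂ →ₗ[ℂ] L2 (Option κ) :=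
  l2 _ ∘ₗ diag (wt U k) ∘ₗ (psi θ).toLinearMap

lemma dg_apply (θ : κ → ℂ) (U : ℝ) (k : ℕ) (P : MvPolynomial (Option κ) ℂ) :
    dg θ U k P = l2 _ (diag (wt U k) (psi θ P)) := rfl

lemma dg_inj (θ : κ → ℂ) (U : ℝ) (k : ℕ) : Function.Injective (dg θ U k) := fun P Q h => by
  rw [dg_apply, dg_apply] at h
  have h1 : psi θ P = psi θ Q := diag_inj (wt_pos U k) (l2_injective h)
  rw [← psi_psi θ P, h1, psi_psi]

lemma exp_eq (U : ℝ) (k j : ℕ) :
    Real.exp (U * k) * Real.exp (-U) ^ j = Real.exp (U * (k - j)) := by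
  rw [← Real.exp_nat_mul, ← Real.exp_add]
  congr 1
  ring

section Norms

variable {θ : κ → ℂ} {B U c : ℝ} (hB : 1 ≤ B) (hθ : ∀ i, ‖θ i‖ + 1 ≤ B) (hU : 0 ≤ U) (δ : ℕ)
  {R : ℕ} (hc : ((R + 1) ^ Fintype.card (Option κ) : ℕ) ≤ c)
  {P : MvPolynomial (Option κ) ℂ} (hP : P.IsHomogeneous R)

omit [Fintype κ] in
lemma l1_le {σ : Type} [Fintype σ] (hc : ((R + 1) ^ Fintype.card σ : ℕ) ≤ c)
    {P : MvPolynomial σ ℂ} (hP : P.IsHomogeneous R) : l1 P ≤ c * ‖l2 _ P‖ :=
  (l1_le_card_mul P).trans (mul_le_mul_of_nonneg_right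
    ((Nat.cast_le.2 (card_support_le hP.totalDegree_le)).trans hc) (norm_nonneg _))

include hB hθ hU hc hP

omit hU in
lemma dg_le : ‖dg θ U (R / δ) P‖ ≤ B ^ R * c ^ 2 * ‖tw θ U δ R P‖ := by
  have hc1 : 1 ≤ c := le_trans (by exact_mod_cast Nat.one_le_pow _ _ R.succ_pos) hc
  have hB1 : 1 ≤ B ^ R := one_le_pow₀ hB
  have hQ := psi_hom θ hP
  have h0 := norm_nonneg (tw θ U δ R P)
  rw [dg_apply]
  refine (norm_l2_le_l1 _).trans ?_
  rw [l1_diag (wt_pos _ _)]
  refine (Finset.sum_le_card_nsmul _ _ (B ^ R * c * ‖tw θ U δ R P‖) fun m hm => ?_).trans ?_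
  · rcases le_total (R / δ) (∑ i, m (some i)) with h | h
    · rw [wt, Nat.sub_eq_zero_of_le h, Nat.cast_zero, mul_zero, Real.exp_zero, one_mul, mul_assoc]
      refine (norm_coeff_le_l1 _ _).trans ((l1_psi hB hθ hP).trans ?_)
      have := (l1_le hc hP).trans (mul_le_mul_of_nonneg_left (norm_l2_le_tw θ U δ R P) (by linarith))
      gcongr
    · have h1 := mul_le_mul_of_nonneg_left (norm_coeff_le_l2
        (tay θ ((Real.exp (-U) : ℝ) : ℂ) P) m.some) (Real.exp_pos (U * (R / δ : ℕ))).le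
      replace h1 := h1.trans (norm_tay_le_tw θ U δ R P)
      rw [tay_eq, coeff_deh _ hQ hm, norm_mul, norm_pow, Complex.norm_real,
        Real.norm_of_nonneg (Real.exp_pos _).le, mul_left_comm, exp_eq, mul_comm] at h1
      rw [wt, Nat.cast_sub h]
      exact h1.trans (le_mul_of_one_le_left h0 (one_le_mul_of_one_le_of_one_le hB1 hc1))
  · rw [nsmul_eq_mul]
    have := (Nat.cast_le.2 (card_support_le hQ.totalDegree_le)).trans hc
    calc _ ≤ c * (B ^ R * c * ‖tw θ U δ R P‖) := by gcongr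
      _ = _ := by ring

lemma tw_le : ‖tw θ U δ R P‖ ≤ 2 * B ^ R * c * ‖dg θ U (R / δ) P‖ := by
  have hB1 : 1 ≤ B ^ R := one_le_pow₀ hB
  have hQ := psi_hom θ hP
  have h1 := l1_le hc (diag_hom (wt U (R / δ)) hQ)
  rw [← dg_apply, l1_diag (wt_pos _ _)] at h1
  have h2 : l1 (psi θ P) ≤ c * ‖dg θ U (R / δ) P‖ :=
    le_trans (Finset.sum_le_sum fun m _ => le_mul_of_one_le_left (norm_nonneg _)
      (Real.one_le_exp (by positivity))) h1
  have h3 : l1 P ≤ B ^ R * l1 (psi θ P) := by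
    have := l1_psi (θ := -θ) hB (by simpa using hθ) hQ
    rwa [psi_psi] at this
  have h4 : Real.exp (U * (R / δ : ℕ)) * l1 (tay θ ((Real.exp (-U) : ℝ) : ℂ) P) ≤
      c * ‖dg θ U (R / δ) P‖ := by
    refine le_trans ?_ h1
    rw [tay_eq]
    generalize psi θ P = Q
    conv_lhs => rw [Q.as_sum, map_sum]
    refine (mul_le_mul_of_nonneg_left (l1_sum_le _ _) (Real.exp_pos _).le).trans ?_
    rw [Finset.mul_sum]
    refine Finset.sum_le_sum fun m _ => ?_
    rw [deh_monomial, l1_monomial, norm_mul, norm_pow, Complex.norm_real,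
      Real.norm_of_nonneg (Real.exp_pos _).le, mul_left_comm, exp_eq, mul_comm, wt]
    have : ((R / δ : ℕ) : ℝ) - (∑ i, m (some i) : ℕ) ≤ (R / δ - ∑ i, m (some i) : ℕ) := by
      rw [sub_le_iff_le_add]
      exact_mod_cast le_tsub_add
    gcongr
  have h5 := (l1_nonneg _).trans h2
  calc _ ≤ _ := norm_tw_le θ U δ R P
    _ ≤ B ^ R * (c * ‖dg θ U (R / δ) P‖) + B ^ R * (c * ‖dg θ U (R / δ) P‖) :=
      add_le_add (h3.trans (by gcongr)) (h4.trans (le_mul_of_one_le_left h5 hB1))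
    _ = _ := by ring

end Norms

lemma cmp {σ E E' : Type} [Finite σ] [NormedAddCommGroup E] [InnerProductSpace ℂ E]
    [NormedAddCommGroup E'] [InnerProductSpace ℂ E'] {ι : MvPolynomial σ ℂ →ₗ[ℂ] E}
    {ι' : MvPolynomial σ ℂ →ₗ[ℂ] E'} (h : Function.Injective ι) (h' : Function.Injective ι')
    (J : Ideal (MvPolynomial σ ℤ)) {R : ℕ} {x : ℝ}
    (H : ∀ P : MvPolynomial σ ℂ, P.IsHomogeneous R → ‖ι P‖ ≤ Real.exp x * ‖ι' P‖) :
    chi ι' J R ≤ chi ι J R + Hf J R * x := by
  have h1 := (thL _ _ _ _ ι' ι LinearMap.id (Jl ⊤ R) (Jl ⊤ R) (Jl J R) _ h' h (isLat_Jl _ _)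
    (isLat_Jl _ _) (Jl_mono le_top R) (by simp) (Real.exp_pos x)
    fun P hP => H P (mem_span_Jl_top.1 hP)).2
  have e : (LinearMap.id : MvPolynomial σ ℂ →ₗ[ℂ] _).restrictScalars ℤ = LinearMap.id := rfl
  rw [e, Submodule.map_id, Submodule.comap_id, sup_eq_right.2 (Jl_mono le_top R),
    inf_eq_right.2 (Jl_mono le_top R), Real.log_exp] at h1
  unfold chi Hf
  linarith

lemma convex (θ : κ → ℂ) (U : ℝ) (k : ℕ) (J : Ideal (MvPolynomial (Option κ) ℤ)) (R : ℕ) :
    2 * chi (dg θ (U / 2) k) J R ≤ chi (dg θ 0 k) J R + chi (dg θ U k) J R := by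
  have key : ∀ (J : Ideal (MvPolynomial (Option κ) ℤ)) (v : Fin (finrank ℤ (Jl J R)) → _),
      IsBas (Jl J R) v → (∀ U, LinearIndependent ℂ fun i => dg θ U k (v i)) ∧
      (∀ U, lcov (dg θ U k) (Jl J R) = lvol fun i => dg θ U k (v i)) ∧
      Matrix.gram ℂ (fun i => dg θ (U / 2) k (v i)) =
        Matrix.of fun i j => inner ℂ (dg θ 0 k (v i)) (dg θ U k (v j)) := by
    intro J v hv
    refine ⟨fun U => ((isLat_Jl J R).li (JL.bas_mem hv) hv.1).map' _
      (LinearMap.ker_eq_bot.2 (dg_inj θ U k)),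
      fun U => (JL.lvol_bas stIdx (dg_inj θ U k) (isLat_Jl J R) hv).symm, ?_⟩
    ext i j
    rw [Matrix.gram_apply, Matrix.of_apply, dg_apply, dg_apply, dg_apply, dg_apply]
    refine inner_diag (fun m => ?_) _ _
    simp only [wt, ← Real.exp_add]
    congr 1
    ring
  obtain ⟨v, hv⟩ := exists_isBas (isLat_Jl J R).1
  obtain ⟨u, hu⟩ := exists_isBas (isLat_Jl (⊤ : Ideal (MvPolynomial (Option κ) ℤ)) R).1
  obtain ⟨a1, a2, a3⟩ := key J v hv
  obtain ⟨b1, b2, b3⟩ := key ⊤ u hu
  have a4 := Matrix.det_gram_ne_zero_iff_linearIndependent.2 (a1 (U / 2))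
  have b4 := Matrix.det_gram_ne_zero_iff_linearIndependent.2 (b1 (U / 2))
  have a5 := cs (a1 0) (a1 U) (a3 ▸ a4)
  have b5 := eq_case (b1 0) (b := fun i => dg θ U k (u i)) (fun j => by
    have h1 : (u j).IsHomogeneous R :=
      mem_span_Jl_top.1 (Submodule.subset_span (JL.bas_mem hu j))
    have h2 := JL.spanC_bas hu (mem_span_Jl_top.2
      (psi_hom (-θ) (diag_hom (wt U k) (psi_hom θ h1))))
    have h3 := Submodule.mem_map_of_mem (f := dg θ 0 k) h2
    rw [Submodule.map_span, ← Set.range_comp] at h3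
    have h4 := psi_psi (-θ) (diag (wt U k) (psi θ (u j)))
    rw [neg_neg] at h4
    have h5 : ∀ Q : MvPolynomial (Option κ) ℂ, diag (wt 0 k) Q = Q := fun Q => by
      ext m
      simp [coeff_diag, wt]
    rw [dg_apply, h4, h5] at h3
    exact h3) (b3 ▸ b4)
  rw [← a3] at a5
  rw [← b3] at b5
  simp only [chi, a2, b2]
  rw [lvol, lvol.eq_1 (fun i => dg θ (U / 2) k (u i))]
  linarith

omit [Fintype κ] in
lemma growth (c : ℕ) : ∀ᶠ R : ℕ in atTop, 2 * (((R + 1) ^ c : ℕ) : ℝ) ^ 2 ≤ Real.exp R := by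
  have h1 := (tendsto_pow_const_div_const_pow_of_one_lt (c * 2)
    (Real.one_lt_exp_iff.2 one_pos)).comp (tendsto_add_atTop_nat 1)
  filter_upwards [h1.eventually (gt_mem_nhds (show (0 : ℝ) < 1 / (2 * Real.exp 1) by positivity))]
    with R hR
  simp only [Function.comp] at hR
  rw [div_lt_div_iff₀ (by positivity) (by positivity), pow_succ, ← Real.exp_nat_mul] at hR
  have h2 := Real.exp_pos 1
  push_cast at hR ⊢
  rw [mul_one] at hR
  rw [← pow_mul]
  nlinarith

end KHalf

open KHalf in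
theorem stHalf : StHalf := by
  intro κ _ θ B U δ J hB hθ hU
  filter_upwards [growth (Fintype.card (Option κ))] with R hR
  set c : ℝ := (((R + 1) ^ Fintype.card (Option κ) : ℕ) : ℝ) with hc
  have hc1 : 1 ≤ c := by rw [hc]; exact_mod_cast Nat.one_le_pow _ _ R.succ_pos
  have hB0 : 0 < B := by linarith
  have e : Real.exp (R * (Real.log B + 1)) = B ^ R * Real.exp R := by
    rw [mul_add, mul_one, Real.exp_add, Real.exp_nat_mul, Real.exp_log hB0]
  have g1 : B ^ R * c ^ 2 ≤ Real.exp (R * (Real.log B + 1)) := by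
    rw [e]
    have : c ^ 2 ≤ Real.exp R := by nlinarith
    gcongr
  have g2 : 2 * B ^ R * c ≤ Real.exp (R * (Real.log B + 1)) := by
    rw [e, mul_comm 2, mul_assoc]
    have : 2 * c ≤ Real.exp R := by nlinarith
    gcongr
  have h1 := cmp (dg_inj θ (U / 2) (R / δ)) (tw_injective θ (U / 2) δ R) J fun P hP =>
    (dg_le hB hθ δ hc.ge hP).trans (mul_le_mul_of_nonneg_right g1 (norm_nonneg _))
  have h2 := cmp l2_injective (dg_inj θ 0 (R / δ)) J fun P hP =>
    ((norm_l2_le_tw θ 0 δ R P).trans (tw_le hB hθ le_rfl δ hc.ge hP)).trans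
      (mul_le_mul_of_nonneg_right g2 (norm_nonneg _))
  have h3 := cmp (tw_injective θ U δ R) (dg_inj θ U (R / δ)) J fun P hP =>
    (tw_le hB hθ hU δ hc.ge hP).trans (mul_le_mul_of_nonneg_right g2 (norm_nonneg _))
  have h4 := convex θ U (R / δ) J R
  linarith

end Pool.Agent.Lib.MP_12eca1_ag.Q
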