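import Pool.Agent.Lib.MP_12eca1_ag.Q.Basic

/-!
Cutting by the relations of a point in the order of their size.
-/

namespace Pool.Agent.Lib.MP_12eca1_ag.Q

open MvPolynomial Filter Module P

namespace KHist

/-- one cut -/
theorem cut (h1 : StCut) (h2 : StHAc) (h3 : StCN) {κ : Type} [Fintype κ] {η θ' : κ → ℂ}
    {τ e : ℕ} {f : MvPolynomial κ ℤ} {ε α : ℝ} (hT : TB η τ) (hs : Spec η θ') (he : 1 ≤ e)
    (hd : f.totalDegree ≤ e) (hl : l1 f ≤ 2) (hη : aeval η f ≠ 0) (hθ : aeval θ' f = 0)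
    (hε : 0 < ε) (hA : HA (vI η) τ α) (hN : CN η (τ + 1) α) :
    ∃ (η' : κ → ℂ) (τ' : ℕ), τ = τ' + 1 ∧ TB η' τ' ∧ Spec η η' ∧ Spec η' θ' ∧
      (∀ i, ‖η' i - θ' i‖ ≤ ε) ∧ HA (vI η') τ' (α + Real.log e + 2 * (τ' + 3)) ∧
      CN η' (τ' + 1) (α + Real.log e + 2 * (τ' + 3)) := by
  obtain ⟨η', τ', e', g, rfl, a1, a2, a3, a4, a5, a6, a7⟩ := h1 κ η θ' τ e f ε hT hs hd hη hθ hε
  exact ⟨η', τ', rfl, a1, a2, a3, a5,
    h2 _ (vI η) (vI η') (JB.hz e f) g τ' e e' none α (vI_isHom η) (vI_isPrime η) (vI_isPrime η') he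
      (JB.hz_hom hd) (fun h => hη ((hz_mem_vI hd).1 h)) ((JB.l1_hz e f).trans hl) a6 a7
      (X_none_notMem_vI η') hA,
    (h3 κ η η' τ' ).2.2 α e f a2 he hd hl hη a4 hN⟩

end KHist

theorem stHist (h1 : StCut) (h2 : StHAc) (h3 : StCN) : StHist := by
  classical
  intro T c c₁ hT hc
  have hc' : (1 : ℝ) ≤ c := by exact_mod_cast hc
  obtain ⟨K, hK⟩ : ∃ K : ℝ, K = Real.log c + 2 * (T + 3) := ⟨_, rfl⟩
  have K0 : 0 ≤ K := by
    have := Real.log_nonneg hc'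
    rw [hK]
    positivity
  have T0 : (0 : ℝ) ≤ T := Nat.cast_nonneg T
  refine ⟨80 * T * K + |c₁| + 1, by positivity, ?_⟩
  intro κ _ θ θ' ε α₀ s₀ W Ev l hTB hHA hCN hα₀ hsp hε hcl hs₀ hW hEv hl hsl hend
  have W0 : 0 ≤ W := le_trans (by positivity) hW
  have c0 := abs_nonneg c₁
  have key : ∀ (τ d : ℕ) (η : κ → ℂ) (α a : ℝ), τ + d = T → TB η τ → Spec θ η → Spec η θ' →
      (∀ i, ‖η i - θ' i‖ ≤ ε) → HA (vI η) τ α → CN η (τ + 1) α → 0 ≤ α → s₀ ≤ a →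
      (0 < d → a ≤ α) → (∀ v ∈ Ev, v.2 < Real.exp a → aeval η v.1 = 0) →
      α + (τ + 1) * a ≤ W + d * K →
      80 * (α + τ * a) + (80 * T * K + |c₁| + 1) - 80 * d * K ≤ l a →
      ∃ (η : κ → ℂ) (τ : ℕ) (α s : ℝ), τ ≤ T ∧ TB η τ ∧ Spec θ η ∧ (∀ i, ‖η i - θ' i‖ ≤ ε) ∧
        HA (vI η) τ α ∧ 0 ≤ α ∧ s₀ ≤ s ∧ α + (τ + 1) * s ≤ W + (80 * T * K + |c₁| + 1) ∧
        21 * W ≤ l s ∧ ∀ v ∈ Ev, v.2 ≤ Real.exp s → aeval η v.1 = 0 := by
    intro τ
    induction τ using Nat.strong_induction_on with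
    | _ τ ih =>
    intro d η α a hd b1 b2 b3 b4 b5 b6 b7 b8 b9 b10 b11 b12
    have τ0 : (0 : ℝ) ≤ τ := Nat.cast_nonneg τ
    have d0 : (0 : ℝ) ≤ d := Nat.cast_nonneg d
    have hd' : (τ : ℝ) + d = T := by exact_mod_cast hd
    have dK : d * K ≤ T * K := mul_le_mul_of_nonneg_right (by linarith) K0
    have dK0 : 0 ≤ d * K := mul_nonneg d0 K0
    have a0 : 0 ≤ a := hs₀.trans b8
    obtain ⟨s, hs⟩ : ∃ s : ℝ, α + (τ + 1) * s = W + d * K :=
      ⟨(W + d * K - α) / (τ + 1), by field_simp; ring⟩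
    have as : a ≤ s := le_of_mul_le_mul_left (a := (τ : ℝ) + 1) (by linarith) (by linarith)
    by_cases hv : ∀ v ∈ Ev, v.2 ≤ Real.exp s → aeval η v.1 = 0
    · refine ⟨η, τ, α, s, by omega, b1, b2, b4, b5, b7, b8.trans as, by nlinarith, ?_, hv⟩
      rcases Nat.eq_zero_or_pos τ with rfl | hτ
      · have e1 := b9 (by omega)
        have e2 : (d : ℝ) = T := by simpa using hd'
        simp only [Nat.cast_zero, zero_mul, add_zero, zero_add, one_mul] at hs b12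
        rw [e2] at b12 hs
        rcases hend α b7 ((h3 κ η θ' 1).2.1 α b3 b6) with h | h
        · have := h a s a0 as
          have := mul_nonneg T0 K0
          linarith
        · have := h a a0
          have := le_abs_self c₁
          linarith
      · have e1 := hsl η τ a s b1 b2 b4 a0 as fun v h4 h5 => hv v h4 h5.le
        have e2 : (1 : ℝ) ≤ τ := by exact_mod_cast hτ
        have e3 : s ≤ τ * s := le_mul_of_one_le_left (a0.trans as) e2
        linarith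
    · push Not at hv
      have hex : ∃ n : ℕ, ∃ v ∈ Ev, v.2 = n ∧ aeval η v.1 ≠ 0 :=
        let ⟨v, h4, _, h5⟩ := hv; ⟨_, v, h4, rfl, h5⟩
      obtain ⟨v, v1, v2, v3⟩ := Nat.find_spec hex
      have vmin : ∀ w ∈ Ev, w.2 < v.2 → aeval η w.1 = 0 := fun w hw h4 => by
        by_contra h5
        exact Nat.find_min hex (v2 ▸ h4) ⟨w, hw, rfl, h5⟩
      have v4 : (v.2 : ℝ) ≤ Real.exp s := by
        obtain ⟨w, h4, h5, h6⟩ := hv
        refine le_trans (Nat.cast_le.2 (not_lt.1 fun h7 => h6 (vmin w h4 h7))) h5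
      have v5 : Real.exp a ≤ v.2 := not_lt.1 fun h4 => v3 (b10 v v1 h4)
      have v6 : (0 : ℝ) < v.2 := (Real.exp_pos a).trans_le v5
      have v7 : 0 < v.2 := by exact_mod_cast v6
      obtain ⟨w1, w2, w3, -⟩ := hEv v v1
      obtain ⟨η', τ', rfl, a1, a2, a3, a4, a5, a6⟩ := KHist.cut h1 h2 h3 b1 b3
        (Nat.mul_pos hc v7) w1 w2 v3 w3 hε b5 b6
      have g1 : a ≤ Real.log v.2 := (Real.le_log_iff_exp_le v6).2 v5
      have g2 : Real.log v.2 ≤ s := (Real.log_le_iff_le_exp v6).2 v4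
      have g3 : ∀ w ∈ Ev, w.2 < Real.exp (Real.log v.2) → aeval η w.1 = 0 := fun w hw h4 =>
        vmin w hw (by rwa [Real.exp_log v6, Nat.cast_lt] at h4)
      have g4 : α + Real.log (c * v.2 : ℕ) + 2 * (τ' + 3) ≤ α + Real.log v.2 + K := by
        rw [Nat.cast_mul, Real.log_mul (by linarith) v6.ne', hK]
        push_cast at hd'
        linarith
      have g5 := hsl η _ a _ b1 b2 b4 a0 g1 g3
      have g6 := mul_le_mul_of_nonneg_left g2 (show (0 : ℝ) ≤ ((τ' + 1 : ℕ) : ℝ) + 1 by linarith)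
      refine ih τ' (Nat.lt_succ_self _) (d + 1) η' (α + Real.log v.2 + K) (Real.log v.2) (by omega)
        a1 (b2.trans a2) a3 a4 (a5.mono g4) (a6.mono g4) (by linarith) (b8.trans g1)
        (fun _ => by linarith) (fun w hw h4 => a2 _ (g3 w hw h4)) ?_ ?_
      · push_cast at hs g6 ⊢
        linarith
      · push_cast at b12 g5 ⊢
        linarith
  exact key T 0 θ α₀ s₀ rfl hTB (Spec.refl θ) hsp hcl hHA hCN hα₀ le_rfl
    (fun h => absurd h (lt_irrefl 0)) (fun v hv h => absurd (hEv v hv).2.2.2 (not_le.2 h))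
    (by simpa using hW) (by simpa using hl)

end Pool.Agent.Lib.MP_12eca1_ag.Q
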