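import Pool.Agent.Lib.MP_12eca1_ag.Q.Basic

/-!
Successive minima of a saturated lattice and the number of classes of a box.
-/

namespace Pool.Agent.Lib.MP_12eca1_ag.Q

open Module P

namespace KLat

variable {m : ℕ}

/-- a finite set is small if its fibres and its image are small -/
lemma card_le_fib {α β : Type*} [DecidableEq β] (S : Finset α) (f : α → β) (B : ℝ)
    (h : ∀ a ∈ S, ((S.filter fun x => f x = f a).card : ℝ) ≤ B) :
    (S.card : ℝ) ≤ (S.image f).card * B := by
  rw [Finset.card_eq_sum_card_image f S, Nat.cast_sum, ← nsmul_eq_mul]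
  refine Finset.sum_le_card_nsmul _ _ _ fun y hy => ?_
  obtain ⟨a, ha, rfl⟩ := Finset.mem_image.1 hy
  exact h a ha

/-- the classes modulo `q` of the integral vectors of a subspace -/
lemma cls (W : Submodule ℝ (Fin m → ℝ)) (q : ℕ) : ∃ r ≤ finrank ℝ W,
    ∃ f : (Fin m → ℤ) → Fin r → ZMod q, ∀ a a', cst a ∈ W → cst a' ∈ W → f a = f a' →
      ∃ w : Fin m → ℤ, a - a' = (q : ℤ) • w := by
  classical
  let L : Submodule ℤ (Fin m → ℤ) := (W.restrictScalars ℤ).comap (cstL m)
  let b := Module.finBasis ℤ L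
  refine ⟨finrank ℤ L, ?_, fun a i => if h : a ∈ L then ((b.repr ⟨a, h⟩ i : ℤ) : ZMod q) else 0,
    fun a a' ha ha' e => ?_⟩
  · have h1 : LinearIndependent ℤ fun i => (b i : Fin m → ℤ) :=
      b.linearIndependent.map' L.subtype (Submodule.ker_subtype L)
    have h2 : LinearIndependent ℝ fun i => cst (b i : Fin m → ℤ) :=
      (linearIndependent_algebraMap_comp_iff (S := ℝ)).2 h1
    have h3 : LinearIndependent ℝ fun i => (⟨cst (b i : Fin m → ℤ), (b i).2⟩ : W) :=
      LinearIndependent.of_comp W.subtype h2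
    simpa using h3.fintype_card_le_finrank
  · have ha1 : a ∈ L := ha
    have ha2 : a' ∈ L := ha'
    have h1 : ∀ i, ∃ c : ℤ, b.repr ⟨a, ha1⟩ i - b.repr ⟨a', ha2⟩ i = q * c := fun i => by
      have := congrFun e i
      simp only [dif_pos ha1, dif_pos ha2] at this
      exact (ZMod.intCast_eq_intCast_iff_dvd_sub _ _ _).1 this.symm
    choose c hc using h1
    refine ⟨((∑ i, c i • b i : L) : Fin m → ℤ), ?_⟩
    have h2 : (⟨a, ha1⟩ - ⟨a', ha2⟩ : L) = (q : ℤ) • ∑ i, c i • b i := by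
      rw [← b.sum_repr ⟨a, ha1⟩, ← b.sum_repr ⟨a', ha2⟩, ← Finset.sum_sub_distrib,
        Finset.smul_sum]
      refine Finset.sum_congr rfl fun i _ => ?_
      rw [← sub_smul, hc, mul_smul]
    exact congrArg Subtype.val h2

/-- the counting lemma -/
lemma henk (F : Set (Fin m → ℤ)) (hF : ∀ a, cst a ∈ rsp F → a ∈ F) (lam : ℕ → ℝ) (k : ℕ)
    (h0 : ∀ j < k, 0 < lam j) (h1 : ∀ j j', j ≤ j' → j' < k → lam j ≤ lam j')
    (h2 : ∀ j < k, rk {a ∈ F | ‖a‖ < lam j} ≤ j) (i : ℕ) : i ≤ k →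
    ∀ (W : Submodule ℝ (Fin m → ℝ)) (S : Finset (Fin m → ℤ)) (D : ℝ), W ≤ rsp F →
      finrank ℝ W ≤ i → (∀ a ∈ S, cst a ∈ W) → (∀ a ∈ S, ∀ a' ∈ S, ‖a - a'‖ ≤ D) →
      (∀ j < i, lam j ≤ 2 * D) → (S.card : ℝ) ≤ ∏ j ∈ Finset.range i, 2 * D / lam j := by
  classical
  induction i with
  | zero =>
    intro _ W S D _ hW hS _ _
    have hb : W = ⊥ := Submodule.finrank_eq_zero.1 (Nat.le_zero.1 hW)
    rw [Finset.range_zero, Finset.prod_empty]
    have : S.card ≤ 1 := Finset.card_le_one.2 fun a ha a' ha' => cst_injective (by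
      have e1 := hS a ha
      have e2 := hS a' ha'
      rw [hb, Submodule.mem_bot] at e1 e2
      rw [e1, e2])
    exact_mod_cast this
  | succ i ih =>
    intro hi W S D hWF hW hS hD hl
    have l0 := h0 i hi
    have l1 := hl i (Nat.lt_succ_self i)
    have hD0 : 0 < D := by linarith
    obtain ⟨q, hq1, hq2, hq3⟩ : ∃ q : ℕ, 1 ≤ q ∧ D < q * lam i ∧ q * lam i ≤ 2 * D := by
      refine ⟨⌊D / lam i⌋₊ + 1, by omega, ?_, ?_⟩
      · rw [← div_lt_iff₀ l0]
        exact_mod_cast Nat.lt_floor_add_one _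
      · have a1 := Nat.floor_le (div_pos hD0 l0).le
        rw [le_div_iff₀ l0] at a1
        push_cast
        rcases Nat.eq_zero_or_pos ⌊D / lam i⌋₊ with h | h
        · rw [h]; simpa using l1
        · have a2 : (1 : ℝ) ≤ ⌊D / lam i⌋₊ := by exact_mod_cast h
          nlinarith
    have hq0 : (0 : ℝ) < q := by exact_mod_cast hq1
    have : NeZero q := ⟨by omega⟩
    obtain ⟨r, hr, f, hf⟩ := cls W q
    have hn : ∀ w : Fin m → ℤ, ‖(q : ℤ) • w‖ = q * ‖w‖ := fun w => by
      rw [← norm_cst, ← norm_cst w, ← cstL_apply, map_smul, cstL_apply, natCast_zsmul,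
        ← Nat.cast_smul_eq_nsmul ℝ, norm_smul, Real.norm_natCast]
    have key := card_le_fib S f (∏ j ∈ Finset.range i, 2 * (D / q) / lam j) fun a ha => by
      have h3 : ∀ x ∈ S.filter fun x => f x = f a, ∃ w : Fin m → ℤ, x - a = (q : ℤ) • w :=
        fun x hx => hf x a (hS x (Finset.mem_filter.1 hx).1) (hS a ha) (Finset.mem_filter.1 hx).2
      choose! w hw using h3
      have h4 : ∀ x ∈ S.filter fun x => f x = f a, ∀ y ∈ S.filter fun x => f x = f a,
          x - y = (q : ℤ) • (w x - w y) := fun x hx y hy => by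
        rw [smul_sub, ← hw x hx, ← hw y hy]; abel
      rw [← Finset.card_image_of_injOn (f := w) fun x hx y hy e => by
        have := h4 x hx y hy
        rwa [e, sub_self, smul_zero, sub_eq_zero] at this]
      refine ih (by omega) (rsp {a ∈ F | ‖a‖ < lam i}) _ _ (rsp_mono fun _ h => h.1) (h2 i hi)
        (fun v hv => ?_) (fun v hv v' hv' => ?_) fun j hj => ?_
      · obtain ⟨x, hx, rfl⟩ := Finset.mem_image.1 hv
        have hxS := (Finset.mem_filter.1 hx).1
        refine cst_mem_rsp ⟨hF _ (hWF ?_), ?_⟩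
        · have e : cst (w x) = (q : ℝ)⁻¹ • (cst x - cst a) := by
            rw [← cst_sub, hw x hx, ← cstL_apply ((q : ℤ) • w x), map_smul, cstL_apply,
              natCast_zsmul, ← Nat.cast_smul_eq_nsmul ℝ, smul_smul, inv_mul_cancel₀ hq0.ne',
              one_smul]
          rw [e]
          exact W.smul_mem _ (W.sub_mem (hS x hxS) (hS a ha))
        · have := hD x hxS a ha
          rw [hw x hx, hn] at this
          exact lt_of_mul_lt_mul_left (this.trans_lt hq2) hq0.le
      · obtain ⟨x, hx, rfl⟩ := Finset.mem_image.1 hv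
        obtain ⟨y, hy, rfl⟩ := Finset.mem_image.1 hv'
        have := hD x (Finset.mem_filter.1 hx).1 y (Finset.mem_filter.1 hy).1
        rw [h4 x hx y hy, hn] at this
        rw [le_div_iff₀ hq0]
        linarith
      · have := h1 j i hj.le hi
        rw [← mul_div_assoc, le_div_iff₀ hq0]
        nlinarith
    have h5 : ((S.image f).card : ℝ) ≤ q ^ (i + 1) := by
      have a1 := Finset.card_le_univ (S.image f)
      rw [Fintype.card_fun, ZMod.card, Fintype.card_fin] at a1
      have a2 := Nat.pow_le_pow_right hq1 (hr.trans hW)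
      exact_mod_cast a1.trans a2
    have h6 : 0 ≤ ∏ j ∈ Finset.range i, 2 * D / lam j := Finset.prod_nonneg fun j hj =>
      div_nonneg (by linarith) (h0 j (by have := Finset.mem_range.1 hj; omega)).le
    have h7 : ∏ j ∈ Finset.range i, 2 * (D / q) / lam j =
        (∏ j ∈ Finset.range i, 2 * D / lam j) / q ^ i := by
      rw [eq_div_iff (by positivity), ← Finset.card_range i, ← Finset.prod_const,
        Finset.card_range, ← Finset.prod_mul_distrib]
      refine Finset.prod_congr rfl fun j _ => ?_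
      field_simp
    rw [h7] at key
    rw [Finset.prod_range_succ]
    refine key.trans ((mul_le_mul_of_nonneg_right h5 (by positivity)).trans ?_)
    have h8 : (q : ℝ) ≤ 2 * D / lam i := by rwa [le_div_iff₀ l0]
    calc (q : ℝ) ^ (i + 1) * ((∏ j ∈ Finset.range i, 2 * D / lam j) / q ^ i)
        = (∏ j ∈ Finset.range i, 2 * D / lam j) * q := by field_simp; ring
      _ ≤ _ := mul_le_mul_of_nonneg_left h8 h6

/-- the successive minima -/
noncomputable def lam (F : Set (Fin m → ℤ)) (j : ℕ) : ℕ :=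
  sInf {n : ℕ | j < rk {a ∈ F | ‖a‖ ≤ n}}

lemma rk_floor (F : Set (Fin m → ℤ)) {t : ℝ} (ht : 0 ≤ t) :
    {a ∈ F | ‖a‖ ≤ (⌊t⌋₊ : ℕ)} = {a ∈ F | ‖a‖ ≤ t} := by
  ext a
  obtain ⟨ν, hν⟩ := exists_norm_eq_nat a
  simp only [Set.mem_ofPred_eq, hν, Nat.cast_le, Nat.le_floor_iff ht]

lemma lam_lt (F : Set (Fin m → ℤ)) (j : ℕ) : rk {a ∈ F | ‖a‖ < lam F j} ≤ j := by
  rcases Nat.eq_zero_or_pos (lam F j) with h | h
  · have : {a ∈ F | ‖a‖ < lam F j} = ∅ := by
      ext a
      simp [h]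
    rw [this, rk, rsp, Set.image_empty, Submodule.span_empty, finrank_bot]
    exact Nat.zero_le _
  · have h1 : lam F j - 1 ∉ {n : ℕ | j < rk {a ∈ F | ‖a‖ ≤ n}} :=
      Nat.notMem_of_lt_sInf (by unfold lam at h ⊢; omega)
    refine le_trans (rk_mono fun a ha => And.intro ha.1 ?_) (not_lt.1 h1)
    obtain ⟨ν, hν⟩ := exists_norm_eq_nat a
    have h2 := ha.2
    rw [hν] at h2 ⊢
    have h3 : ν < lam F j := by exact_mod_cast h2
    exact_mod_cast Nat.le_sub_one_of_lt h3

lemma lam_pos (F : Set (Fin m → ℤ)) {j : ℕ} (h : ∃ n : ℕ, j < rk {a ∈ F | ‖a‖ ≤ n}) :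
    1 ≤ lam F j := by
  by_contra h1
  have h2 : j < rk {a ∈ F | ‖a‖ ≤ (lam F j : ℕ)} := Nat.sInf_mem h
  have h3 : lam F j = 0 := by omega
  have h4 : rsp {a ∈ F | ‖a‖ ≤ (lam F j : ℕ)} = ⊥ := by
    rw [rsp, Submodule.span_eq_bot]
    rintro _ ⟨a, ha, rfl⟩
    have : a = 0 := norm_le_zero_iff.1 (by simpa [h3] using ha.2)
    rw [this, cst_zero]
  rw [rk, h4, finrank_bot] at h2
  omega

open Classical in
/-- the truncated logarithm of a minimum -/
noncomputable def ell (F : Set (Fin m → ℤ)) (j : ℕ) (s : ℝ) : ℝ :=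
  if ∃ n : ℕ, j < rk {a ∈ F | ‖a‖ ≤ n} then min s (Real.log (lam F j)) else s

lemma ell_le (F : Set (Fin m → ℤ)) (j : ℕ) (s : ℝ) : ell F j s ≤ s := by
  unfold ell
  split_ifs
  · exact min_le_left _ _
  · exact le_rfl

lemma ell_mono (F : Set (Fin m → ℤ)) (j : ℕ) {c s : ℝ} (h : c ≤ s) : ell F j c ≤ ell F j s := by
  unfold ell
  split_ifs
  · exact min_le_min_right _ h
  · exact h

lemma ell_eq (F : Set (Fin m → ℤ)) {j : ℕ} {s : ℝ} (h : rk {a ∈ F | ‖a‖ < Real.exp s} ≤ j) :
    ell F j s = s := by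
  unfold ell
  split_ifs with h1
  · refine min_eq_left ?_
    have h2 : j < rk {a ∈ F | ‖a‖ ≤ (lam F j : ℕ)} := Nat.sInf_mem h1
    have h3 : (0 : ℝ) < lam F j := by exact_mod_cast lam_pos F h1
    rw [Real.le_log_iff_exp_le h3]
    by_contra h4
    have := rk_mono (G := {a ∈ F | ‖a‖ ≤ (lam F j : ℕ)}) (G' := {a ∈ F | ‖a‖ < Real.exp s})
      fun a ha => ⟨ha.1, ha.2.trans_lt (not_le.1 h4)⟩
    omega
  · rfl

end KLat

open KLat in
theorem stLat : StLat := by
  classical
  intro m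
  refine ⟨m * Real.log 4, fun F hF => ⟨fun s => ∑ j ∈ Finset.range m, ell F j s, ?_,
    fun c s ρ _ hcs hρ => ?_, fun s hs => ?_⟩⟩
  · refine Finset.sum_eq_zero fun j _ => ?_
    unfold ell
    split_ifs with h
    · exact min_eq_left (Real.log_natCast_nonneg _)
    · rfl
  · have h1 : ∑ j ∈ Finset.range m, (if m - ρ ≤ j then s - c else 0) = ρ * (s - c) := by
      rw [← Finset.sum_filter, Finset.sum_const, nsmul_eq_mul]
      congr 2
      have : (Finset.range m).filter (fun j => m - ρ ≤ j) = Finset.Ico (m - ρ) m := by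
        ext j; simp [and_comm]
      rw [this, Nat.card_Ico]
      omega
    rw [← h1, ← Finset.sum_add_distrib]
    refine Finset.sum_le_sum fun j _ => ?_
    split_ifs with h
    · rw [ell_eq F (j := j) (s := s) (by omega)]
      linarith [ell_le F j c]
    · simpa using ell_mono F j hcs
  · set t := Real.exp s with ht
    have ht1 : 1 ≤ t := Real.one_le_exp hs
    set G := {a ∈ F | ‖a‖ ≤ t} with hG
    have hk : ∀ j < rk G, j < rk {a ∈ F | ‖a‖ ≤ (⌊t⌋₊ : ℕ)} := fun j hj => by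
      rwa [rk_floor F (by linarith)]
    have l1 : ∀ j < rk G, (1 : ℝ) ≤ lam F j := fun j hj => by
      exact_mod_cast lam_pos F ⟨_, hk j hj⟩
    have l2 : ∀ j < rk G, (lam F j : ℝ) ≤ t := fun j hj => by
      have : lam F j ≤ ⌊t⌋₊ := Nat.sInf_le (hk j hj)
      exact (Nat.cast_le.2 this).trans (Nat.floor_le (by linarith))
    let B : Finset (Fin m → ℤ) := Fintype.piFinset fun _ => Finset.Icc (-(⌊t⌋₊ : ℤ)) ⌊t⌋₊
    have hB : ∀ a ∈ B, ‖a‖ ≤ t := fun a ha => norm_le_of_abs (by linarith) fun i => by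
      have h1 := abs_le.2 (Finset.mem_Icc.1 (Fintype.mem_piFinset.1 ha i))
      have h2 : |(a i : ℝ)| ≤ (⌊t⌋₊ : ℕ) := by exact_mod_cast h1
      exact h2.trans (Nat.floor_le (by linarith))
    have hBc : t ^ m ≤ B.card := by
      rw [Fintype.card_piFinset, Finset.prod_const, Finset.card_univ, Fintype.card_fin,
        Nat.cast_pow]
      refine pow_le_pow_left₀ (by linarith) ?_ m
      have h1 : (Finset.Icc (-(⌊t⌋₊ : ℤ)) ⌊t⌋₊).card = ⌊t⌋₊ + 1 + ⌊t⌋₊ := by
        rw [Int.card_Icc]; omega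
      rw [h1]
      push_cast
      linarith [Nat.lt_floor_add_one t, Nat.cast_nonneg (α := ℝ) ⌊t⌋₊]
    let f : (Fin m → ℤ) → (Fin m → ℝ) ⧸ rsp G := fun a => (rsp G).mkQ (cst a)
    have hf : ∀ a a', f a = f a' ↔ cst (a - a') ∈ rsp G := fun a a' => by
      rw [cst_sub]; exact Submodule.Quotient.eq _
    have key := card_le_fib B f (∏ j ∈ Finset.range (rk G), 2 * (2 * t) / lam F j) fun a ha => by
      rw [← Finset.card_image_of_injective _ (sub_left_injective (b := a))]
      refine henk F hF (fun j => lam F j) (rk G) (fun j hj => by linarith [l1 j hj])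
        (fun j j' h1 h2 => ?_) (fun j _ => lam_lt F j) _ le_rfl (rsp G) _ _
        (rsp_mono fun _ h => h.1) le_rfl (fun v hv => ?_) (fun v hv v' hv' => ?_)
        fun j hj => by linarith [l2 j hj]
      · have h3 : j' < rk {a ∈ F | ‖a‖ ≤ (lam F j' : ℕ)} :=
          Nat.sInf_mem (s := {n : ℕ | j' < rk {a ∈ F | ‖a‖ ≤ n}}) ⟨_, hk j' h2⟩
        have h4 : lam F j ≤ lam F j' := Nat.sInf_le (h1.trans_lt h3)
        exact_mod_cast h4
      · obtain ⟨x, hx, rfl⟩ := Finset.mem_image.1 hv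
        exact (hf x a).1 (Finset.mem_filter.1 hx).2
      · obtain ⟨x, hx, rfl⟩ := Finset.mem_image.1 hv
        obtain ⟨y, hy, rfl⟩ := Finset.mem_image.1 hv'
        rw [sub_sub_sub_cancel_right]
        linarith [norm_sub_le x y, hB x (Finset.mem_filter.1 hx).1, hB y (Finset.mem_filter.1 hy).1]
    obtain ⟨A, hA1, hA2, hA3⟩ := Finset.exists_subset_injOn_image_eq_of_surjOn (f := f)
      (B : Set (Fin m → ℤ)) (B.image f) (by rw [Finset.coe_image]; exact Set.surjOn_image _ _)
    refine ⟨A, ?_, fun a ha => hB a (hA1 ha), fun a ha a' ha' e => hA2 ha ha' ((hf a a').2 e)⟩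
    rw [← hA3, Finset.card_image_of_injOn hA2] at key
    obtain ⟨d, hd⟩ := Nat.exists_eq_add_of_le (rk_le G)
    have h1 : Real.exp (∑ j ∈ Finset.range m, ell F j s) ≤
        (∏ j ∈ Finset.range (rk G), (lam F j : ℝ)) * t ^ d := by
      rw [Real.exp_sum, congrArg Finset.range hd, Finset.prod_range_add]
      refine mul_le_mul (Finset.prod_le_prod (fun _ _ => (Real.exp_pos _).le) fun j hj => ?_)
        ((Finset.prod_le_prod (fun _ _ => (Real.exp_pos _).le) fun j _ =>
          Real.exp_le_exp.2 (ell_le F _ s)).trans (by simp [ht]))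
        (Finset.prod_nonneg fun _ _ => (Real.exp_pos _).le)
        (Finset.prod_nonneg fun _ _ => Nat.cast_nonneg _)
      have hj' := Finset.mem_range.1 hj
      rw [← Real.le_log_iff_exp_le (by linarith [l1 j hj']), ell, if_pos ⟨_, hk j hj'⟩]
      exact min_le_right _ _
    have h2 : 0 < ∏ j ∈ Finset.range (rk G), (lam F j : ℝ) :=
      Finset.prod_pos fun j hj => by linarith [l1 j (Finset.mem_range.1 hj)]
    rw [Finset.prod_div_distrib, Finset.prod_const, Finset.card_range] at key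
    have h3 := hBc.trans key
    rw [← mul_div_assoc, le_div_iff₀ h2] at h3
    have h4 : t ^ m = t ^ rk G * t ^ d := by rw [← pow_add, ← hd]
    have h5 : (2 * (2 * t)) ^ rk G = 4 ^ rk G * t ^ rk G := by rw [← mul_pow]; ring_nf
    have h6 : (4 : ℝ) ^ rk G ≤ 4 ^ m := pow_le_pow_right₀ (by norm_num) (rk_le G)
    have h7 : 0 < t ^ rk G := by positivity
    rw [Real.exp_sub, Real.exp_nat_mul, Real.exp_log (by norm_num), div_le_iff₀ (by positivity)]
    refine h1.trans (le_trans ?_ (mul_le_mul_of_nonneg_left h6 (Nat.cast_nonneg _)))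
    rw [h4, h5] at h3
    refine le_of_mul_le_mul_left ?_ h7
    nlinarith

end Pool.Agent.Lib.MP_12eca1_ag.Q
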