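import Pool.Agent.Lib.MP_12eca1_ag.Q.Basic

/-!
Passing to the next level.
-/

namespace Pool.Agent.Lib.MP_12eca1_ag.Q

open MvPolynomial Filter Module P Topology

namespace KLev

variable {m : ℕ} {J ι : Type} [Fintype ι]

/-- the binomials attached to the relations of a point -/
def EvS (E : J → (Fin m → ℤ) →ₗ[ℤ] ι → ℤ) (z : ι → ℂ) : Set (MvPolynomial (ι ⊕ ι) ℤ × ℕ) :=
  {v | ∃ a ∈ Ker E z, a ≠ 0 ∧ ‖a‖ = v.2 ∧ ∃ j, v.1 = mon (E j a) - 1}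

/-- the properties of the integrated successive minima of one of the two lattices -/
structure Gd (E : J → (Fin m → ℤ) →ₗ[ℤ] ι → ℤ) (z₀ z : ι → ℂ) (c T : ℕ) (c₁ s₀ C w : ℝ)
    (l : ℝ → ℝ) : Prop where
  ev : ∀ v ∈ EvS E z, v.1.totalDegree ≤ c * v.2 ∧ l1 v.1 ≤ 2 ∧ aeval (ex z) v.1 = 0 ∧
    Real.exp s₀ ≤ v.2
  start : 80 * T * s₀ + s₀ ≤ l s₀
  slope : ∀ (η : ι ⊕ ι → ℂ) (τ : ℕ) (a b : ℝ), TB η τ → Spec (ex z₀) η →
    (∀ i, ‖η i - ex z₀ i‖ ≤ C * Real.exp (-Real.exp w)) → 0 ≤ a → a ≤ b →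
    (∀ v ∈ EvS E z, v.2 < Real.exp b → aeval η v.1 = 0) → l a + 80 * τ * (b - a) ≤ l b
  last : ∀ α : ℝ, 0 ≤ α → CN (ex z) 1 α → (∀ a b : ℝ, 0 ≤ a → a ≤ b → l a + 21 * (b - a) ≤ l b) ∨
    ∀ a : ℝ, 0 ≤ a → l a ≤ 20 * (a + 3 * α) + c₁
  many : ∀ s t : ℝ, 0 ≤ s → Real.exp s ≤ t → 21 * (w / 4) ≤ l s →
    Many {a ∈ Ker E z | ‖a‖ ≤ t} t (Real.exp (5.1 * w))
  small : ∀ (η : ι ⊕ ι → ℂ) (s : ℝ), s ≤ w / 4 + C →
    (∀ v ∈ EvS E z, v.2 ≤ Real.exp s → aeval η v.1 = 0) → ∀ g ∈ {a ∈ Ker E z | ‖a‖ ≤ Real.exp s},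
      ‖g‖ ≤ Real.exp s ∧ Van E η g ∧ ∀ j, ‖lf (E j g) z₀‖ ≤ 1

variable {E : J → (Fin m → ℤ) →ₗ[ℤ] ι → ℤ} {z₀ z : ι → ℂ} {c : ℕ}

lemma van {η : ι ⊕ ι → ℂ} {a : Fin m → ℤ} (ha : a ∈ Ker E z)
    (h : ∀ v ∈ EvS E z, ‖a‖ = v.2 → aeval η v.1 = 0) : Van E η a := fun j => by
  by_cases h0 : a = 0
  · rw [h0, map_zero, mon_zero, map_one]
  · obtain ⟨ν, hν⟩ := exists_norm_eq_nat a
    have := h (mon (E j a) - 1, ν) ⟨a, ha, h0, hν, j, rfl⟩ hν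
    rwa [map_sub, map_one, sub_eq_zero] at this

lemma norm_lf (hE : Bd E c) {r : ℝ} (hr : 0 ≤ r) (hz : ∀ i, ‖z i - z₀ i‖ ≤ r) {a : Fin m → ℤ}
    (ha : a ∈ Ker E z) (j : J) : ‖lf (E j a) z₀‖ ≤ c * ‖a‖ * r := by
  have := norm_lf_sub_le (E j a) hz
  rw [ha j, zero_sub, norm_neg] at this
  exact this.trans (mul_le_mul_of_nonneg_right (hE j a) hr)

lemma exists_span (G : Set (Fin m → ℤ)) : ∃ r : ℝ, rsp G ≤ rsp {a ∈ G | ‖a‖ ≤ r} := by
  obtain ⟨s, h1, h2⟩ := (Submodule.fg_span_iff_fg_span_finset_subset (cst '' G)).1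
    (IsNoetherian.noetherian (rsp G))
  refine ⟨∑ v ∈ s, ‖v‖, h2.le.trans (Submodule.span_mono fun v hv => ?_)⟩
  obtain ⟨a, ha, rfl⟩ := h1 hv
  refine ⟨a, ⟨ha, ?_⟩, rfl⟩
  rw [← norm_cst]
  exact Finset.single_le_sum (f := fun v => ‖v‖) (fun _ _ => norm_nonneg _) hv

lemma tend : Tendsto (fun w : ℝ => Real.exp (-Real.exp w)) atTop (𝓝 0) :=
  Real.tendsto_exp_neg_atTop_nhds_zero.comp Real.tendsto_exp_atTop

lemma ev_lt (C : ℝ) {ε : ℝ} (hε : 0 < ε) : ∀ᶠ w : ℝ in atTop, C * Real.exp (-Real.exp w) < ε :=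
  (tend.const_mul C).eventually (gt_mem_nhds (by simpa using hε))

lemma side (h1 : StLat) (h2 : StTm) {T : ℕ} (hE : Bd E c) (hm : 80 * T < m) (hS : Stab E z₀)
    (hsep : ∀ a ≠ 0, ∃ j, lf (E j a) z₀ ≠ 0) : ∃ c₀ : ℝ, ∀ c₁ s₀ C : ℝ, c₀ ≤ c₁ → 0 ≤ s₀ →
      ∀ᶠ w : ℝ in atTop, ∀ z : ι → ℂ, (∀ i, ‖z i - z₀ i‖ ≤ Real.exp (-Real.exp w)) →
        ∃ l, Gd E z₀ z c T c₁ s₀ C w l := by
  obtain ⟨CL, hL⟩ := h1 m
  obtain ⟨CT, hCT, hT⟩ := h2 m c (‖z₀‖ + 1)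
  obtain ⟨ε, hε, hS⟩ := hS
  refine ⟨20 * Real.log CT + CL, fun c₁ s₀ C hc₁ hs₀ => ?_⟩
  have e1 : ∀ᶠ w : ℝ in atTop, ∀ a ∈ {a : Fin m → ℤ | ‖a‖ ≤ Real.exp s₀}, a ≠ 0 →
      ∃ j, c * ‖a‖ * Real.exp (-Real.exp w) < ‖lf (E j a) z₀‖ := by
    refine (eventually_all_finite (finite_norm_le _)).2 fun a _ => ?_
    by_cases h0 : a = 0
    · exact Eventually.of_forall fun _ h => absurd h0 h
    · obtain ⟨j, hj⟩ := hsep a h0
      exact (ev_lt _ (norm_pos_iff.2 hj)).mono fun w hw _ => ⟨j, hw⟩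
  filter_upwards [e1, ev_lt C hε, eventually_ge_atTop (7 * |CL|),
    eventually_ge_atTop (2 * (c + |C|))] with w w1 w2 w3 w4 z hz
  have hr := Real.exp_pos (-Real.exp w)
  have hr1 : Real.exp (-Real.exp w) ≤ 1 := Real.exp_le_one_iff.2 (by linarith [Real.exp_pos w])
  have short : ∀ a ∈ Ker E z, a ≠ 0 → Real.exp s₀ < ‖a‖ := fun a ha h0 => by
    by_contra! h
    obtain ⟨j, hj⟩ := w1 a h h0
    exact hj.not_ge (norm_lf hE hr.le hz ha j)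
  obtain ⟨l, l0, l1, l2⟩ := hL (Ker E z) Ker_sat
  have l3 : ∀ (a b : ℝ) (ρ : ℕ), 0 ≤ a → a ≤ b → rk (Ker E z) + ρ ≤ m → l a + ρ * (b - a) ≤ l b :=
    fun a b ρ a1 a2 a3 => l1 a b ρ a1 a2
      ((Nat.add_le_add_right (rk_mono (Set.sep_subset _ _)) ρ).trans a3)
  refine ⟨l, ?_, ?_, fun η τ a b t1 t2 t3 t4 t5 t6 => ?_, fun α hα hc => ?_,
    fun s t hs hst hl => ?_, fun η s hs hv g hg => ⟨hg.2, ?_, fun j => ?_⟩⟩
  · rintro ⟨_, ν⟩ ⟨a, ha, h0, hν, j, rfl⟩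
    refine ⟨?_, l1_mon_sub_one _, ?_, hν ▸ (short a ha h0).le⟩
    · have := (deg_mon_sub_one (E j a)).trans (hE j a)
      rw [hν] at this
      exact_mod_cast this
    · rw [map_sub, map_one, Van_of_Ker ha j, sub_self]
  · have h3 : rk {a ∈ Ker E z | ‖a‖ < Real.exp s₀} = 0 := by
      refine Submodule.finrank_eq_zero.2 (Submodule.span_eq_bot.2 ?_)
      rintro _ ⟨a, ha, rfl⟩
      by_cases h0 : a = 0
      · rw [h0, cst_zero]
      · exact absurd (short a ha.1 h0) ha.2.not_gt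
    have := l1 0 s₀ (80 * T + 1) le_rfl hs₀ (by omega)
    push_cast at this
    linarith
  · have := l1 a b (80 * τ) t4 t5 (hS η τ _ t1 t2 (fun i => (t3 i).trans w2.le)
      fun g hg => van hg.1 fun v hv e => t6 v hv (e ▸ hg.2))
    push_cast at this
    exact this
  · by_cases h : rk (Ker E z) + 21 ≤ m
    · exact Or.inl fun a b a1 a2 => by exact_mod_cast l3 a b 21 a1 a2 h
    refine Or.inr fun a ha => ?_
    obtain ⟨r, hr'⟩ := exists_span (Ker E z)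
    have hb : a ≤ max a r := le_max_left _ _
    have hb' : r ≤ Real.exp (max a r) := by
      linarith [le_max_right a r, Real.add_one_le_exp (max a r)]
    generalize max a r = b at hb hb'
    have h3 := hT J ι E z α _ _ hE (fun i => by
      linarith [norm_sub_norm_le (z i) (z₀ i), hz i, norm_le_pi_norm z₀ i]) hα hc
      (Real.one_le_exp (ha.trans hb)) ((l2 b (ha.trans hb)).mono
        (hr'.trans (rsp_mono fun g hg => ⟨hg.1, hg.2.trans hb'⟩)) le_rfl le_rfl)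
    have h4 := l3 a b (m - rk (Ker E z)) ha hb (by have := rk_le (Ker E z); omega)
    have h5 : ((m - rk (Ker E z) : ℕ) : ℝ) ≤ 20 := by exact_mod_cast (by omega)
    generalize m - rk (Ker E z) = ρ at h3 h4 h5
    rw [← Real.exp_log (show 0 < CT by linarith), ← Real.exp_add, ← Real.exp_add,
      ← Real.exp_nat_mul, Real.exp_le_exp] at h3
    nlinarith [mul_le_mul_of_nonneg_right h5
      (show 0 ≤ Real.log CT + a + 3 * α by linarith [Real.log_nonneg hCT])]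
  · have ht : 0 < t := (Real.exp_pos s).trans_le hst
    have h3 : s ≤ Real.log t := (Real.le_log_iff_exp_le ht).2 hst
    have h4 := l2 _ (hs.trans h3)
    have h5 := l3 s _ 0 hs h3 (rk_le _)
    rw [Real.exp_log ht] at h4
    refine h4.anti subset_rfl (Real.exp_le_exp.2 ?_)
    have := le_abs_self CL
    have := abs_nonneg CL
    push_cast at h5
    linarith
  · exact van hg.1 fun v h e => hv v h (e ▸ hg.2)
  · refine (norm_lf hE hr.le hz hg.1 j).trans ?_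
    have h3 : (c : ℝ) ≤ Real.exp c := by linarith [Real.add_one_le_exp (c : ℝ)]
    refine (mul_le_mul_of_nonneg_right (mul_le_mul h3 hg.2 (norm_nonneg _) (Real.exp_pos _).le)
      hr.le).trans ?_
    rw [← Real.exp_add, ← Real.exp_add, Real.exp_le_one_iff]
    have := le_abs_self C
    have := abs_nonneg C
    have := Nat.cast_nonneg (α := ℝ) c
    linarith [Real.add_one_le_exp w]

lemma lf_ne {x : Fin m → ℂ} (hx : LinearIndependent ℚ x) {a : Fin m → ℤ} (ha : a ≠ 0) :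
    lf a x ≠ 0 := fun h => ha (funext fun i => by
  have := Fintype.linearIndependent_iff.1 hx (fun i => (a i : ℚ)) (by
    simpa [lf, Rat.smul_def] using h) i
  exact_mod_cast this)

end KLev

open KLev in
theorem stLev (h1 : StLat) (h2 : StTm) (h3 : StHist) (h4 : StTemp) (h5 : StCN) : StLev := by
  intro m n T x y hT hm hn hx hy hθ sx sy
  obtain ⟨α₁, a1⟩ := exists_HA hθ
  obtain ⟨α₂, a2⟩ := (h5 _ _ (ex (xy x y)) T).1 hθ
  obtain ⟨cx, gx⟩ := side h1 h2 (Bd_Ex (c := m + n + 1) (by omega)) hm sx fun a ha =>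
    ⟨⟨0, by omega⟩, by rw [lf_Ex_xy]; exact mul_ne_zero (lf_ne hx ha) (hy.ne_zero _)⟩
  obtain ⟨cy, gy⟩ := side h1 h2 (Bd_Ey (c := m + n + 1) (by omega)) hn sy fun a ha =>
    ⟨⟨0, by omega⟩, by rw [lf_Ey_xy]; exact mul_ne_zero (hx.ne_zero _) (lf_ne hy ha)⟩
  obtain ⟨C, hC, h3⟩ := h3 T (m + n + 1) (max cx cy) hT (by omega)
  obtain ⟨c₀, hc₀, hex⟩ := norm_ex_sub_le (xy x y)
  obtain ⟨α₀, b0, b1, b2⟩ : ∃ α₀ : ℝ, 0 ≤ α₀ ∧ α₁ ≤ α₀ ∧ α₂ ≤ α₀ :=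
    ⟨|α₁| + |α₂|, by positivity, by linarith [le_abs_self α₁, abs_nonneg α₂],
      by linarith [le_abs_self α₂, abs_nonneg α₁]⟩
  have hs₀ : 0 ≤ 80 * α₀ + C := by linarith
  filter_upwards [gx _ _ (C + 2 * c₀) (le_max_left cx cy) hs₀,
    gy _ _ (C + 2 * c₀) (le_max_right cx cy) hs₀, h4 m n T x y (C + 2 * c₀),
    eventually_ge_atTop (4 * (α₀ + (T + 1) * (80 * α₀ + C))), eventually_ge_atTop 0]
    with w w1 w2 w3 w4 w5 k ⟨z, t, Gx, Gy, c1, c2, c3, c4, c5, c6, c7, c8, c9⟩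
  obtain ⟨lx, gx⟩ := w1 z c3
  obtain ⟨ly, gy⟩ := w2 z c3
  have hr := Real.exp_pos (-Real.exp w)
  have d1 := hex z _ (Real.exp_le_one_iff.2 (by linarith [Real.exp_pos w])) c3
  have d2 : ∀ η : _ → ℂ, (∀ i, ‖η i - ex z i‖ ≤ c₀ * Real.exp (-Real.exp w)) →
      ∀ i, ‖η i - ex (xy x y) i‖ ≤ (C + 2 * c₀) * Real.exp (-Real.exp w) := fun η h i => by
    nlinarith [norm_sub_le_norm_sub_add_norm_sub (η i) (ex z i) (ex (xy x y) i), h i, d1 i]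
  obtain ⟨η, τ, α, s, r1, r2, r3, r4, r5, r6, r7, r8, r9, r10⟩ := h3 _ (ex (xy x y)) (ex z)
    (c₀ * Real.exp (-Real.exp w)) α₀ (80 * α₀ + C) (w / 4) (EvS (Ex m n) z ∪ EvS (Ey m n) z)
    (fun s => min (lx s) (ly s)) hθ (a1.mono b1) (a2.mono b2) b0 c2 (by positivity)
    (fun i => by rw [norm_sub_rev]; exact d1 i) hs₀ (by linarith)
    (fun v hv => hv.elim (gx.ev v) (gy.ev v))
    (le_min (by linarith [gx.start]) (by linarith [gy.start]))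
    (fun η τ a b t1 t2 t3 t4 t5 t6 => le_min
      (by linarith [gx.slope η τ a b t1 t2 (d2 η t3) t4 t5 fun v hv => t6 v (Or.inl hv),
        min_le_left (lx a) (ly a)])
      (by linarith [gy.slope η τ a b t1 t2 (d2 η t3) t4 t5 fun v hv => t6 v (Or.inr hv),
        min_le_right (lx a) (ly a)]))
    (fun α hα hc => (gx.last α hα hc).elim (fun p => (gy.last α hα hc).elim
      (fun q => Or.inl fun a b a1 a2 => le_min
        (by linarith [p a b a1 a2, min_le_left (lx a) (ly a)])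
        (by linarith [q a b a1 a2, min_le_right (lx a) (ly a)]))
      fun q => Or.inr fun a ha => (min_le_right _ _).trans (q a ha))
      fun p => Or.inr fun a ha => (min_le_left _ _).trans (p a ha))
  have hs : 0 ≤ s := hs₀.trans r7
  have k1 := r9.trans (min_le_left _ _)
  have k2 := r9.trans (min_le_right _ _)
  have ht : t ≤ Real.exp s := by
    by_contra! h
    exact c9 ⟨(gx.many s t hs h.le k1).anti (fun g hg => ⟨c4 hg, c6 g hg⟩) le_rfl,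
      (gy.many s t hs h.le k2).anti (fun g hg => ⟨c5 hg, c7 g hg⟩) le_rfl⟩
  have k3 : s ≤ w / 4 + (C + 2 * c₀) := by
    nlinarith [mul_nonneg (Nat.cast_nonneg (α := ℝ) τ) hs]
  have k4 : Real.exp (3 * w) ≤ Real.exp (5.1 * w) := Real.exp_le_exp.2 (by linarith)
  refine (w3 η τ α s _ _ r1 r2 r3 r5 r6 hs (by linarith) (d2 η r4)
    (gx.small η s k3 fun v hv => r10 v (Or.inl hv)) (gy.small η s k3 fun v hv => r10 v (Or.inr hv))
    ((gx.many s _ hs le_rfl k1).anti subset_rfl k4)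
    ((gy.many s _ hs le_rfl k2).anti subset_rfl k4)).mono (Nat.succ_le_succ (c8.trans ?_))
  exact add_le_add (rk_mono fun g hg => ⟨c4 hg, (c6 g hg).trans ht⟩)
    (rk_mono fun g hg => ⟨c5 hg, (c7 g hg).trans ht⟩)

end Pool.Agent.Lib.MP_12eca1_ag.Q
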