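import Pool.Agent.Lib.MP_12eca1_ag.Q.Defs

/-!
Beyond the distance to the zeros the precision plays no role.
-/

namespace Pool.Agent.Lib.MP_12eca1_ag.Q

open MvPolynomial Filter Module P

namespace KLow

/-- comparison of two Hermitian structures modulo a sublattice -/
theorem cmp {V E E' : Type} [AddCommGroup V] [Module ℂ V] [NormedAddCommGroup E]
    [InnerProductSpace ℂ E] [NormedAddCommGroup E'] [InnerProductSpace ℂ E'] {ι : V →ₗ[ℂ] E}
    {ι' : V →ₗ[ℂ] E'} {Λ N : Submodule ℤ V} {γ : ℝ} (hι : Function.Injective ι)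
    (hι' : Function.Injective ι') (hΛ : IsLat Λ) (hN : N ≤ Λ) (hγ : 0 < γ)
    (h : ∀ x ∈ Submodule.span ℂ (Λ : Set V), ∃ s ∈ Submodule.span ℂ (N : Set V),
      ‖ι (x - s)‖ ≤ γ * ‖ι' x‖) :
    lcov ι Λ - lcov ι N ≤
      ((finrank ℤ Λ : ℝ) - finrank ℤ N) * Real.log γ + (lcov ι' Λ - lcov ι' N) := by
  obtain ⟨n, hn⟩ := JL.exists_bas (hΛ.mono hN).1
  obtain ⟨s, u, hu, hi, ht⟩ := JL.exists_ext (N := N) (G := Λ) hΛ.1
    (by rw [Submodule.span_eq]; exact sup_eq_right.2 hN)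
  obtain ⟨a1, a2, -, a4⟩ := JL.core stIdx hι hΛ hN hn hu hi ht
  obtain ⟨-, b2, -, b4⟩ := JL.core stIdx hι' hΛ hN hn hu hi ht
  have h5 := stV E E' _ _ s (fun i => ι (n i)) (fun i => ι (u i)) (fun i => ι' (n i))
    (fun i => ι' (u i)) (fun _ => γ) a2 b2 (fun _ => hγ) fun i s' hs' => by
      have e : (Set.range fun i => ι' (n i)) ∪ (fun i => ι' (u i)) '' Set.Iio i =
          ι' '' (Set.range n ∪ u '' Set.Iio i) := by
        rw [Set.image_union, ← Set.range_comp, Set.image_image]; rfl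
      rw [e, Submodule.span_image] at hs'
      obtain ⟨x, hx, rfl⟩ := hs'
      obtain ⟨y, hy, hy'⟩ := h (u i - x) (Submodule.sub_mem _ (Submodule.subset_span (hu i))
        (Submodule.span_mono (by
          rintro _ (⟨j, rfl⟩ | ⟨j, -, rfl⟩)
          exacts [hN (JL.bas_mem hn j), hu j]) hx))
      refine ⟨ι (x + y), JL.span_map (S := Set.range n ∪ u '' Set.Iio i) ?_
        (Submodule.add_mem _ hx
          (Submodule.span_mono Set.subset_union_left (JL.spanC_bas hn hy))), ?_⟩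
      · rintro _ ⟨_, ⟨j, rfl⟩ | ⟨j, hj, rfl⟩, rfl⟩
        exacts [Submodule.subset_span (Or.inl ⟨j, rfl⟩),
          Submodule.subset_span (Or.inr ⟨j, hj, rfl⟩)]
      · rwa [← map_sub, ← map_sub, ← sub_sub]
  rw [a4, b4] at h5
  simp only [Finset.sum_const, Finset.card_univ, Fintype.card_fin, nsmul_eq_mul] at h5
  rw [← a1]
  push_cast
  linarith

variable {κ : Type} [Fintype κ] {θ : κ → ℂ} {B U : ℝ} {δ R : ℕ}

lemma l1_gv_mon {e : ℝ} (he : 0 ≤ e) (n : Option κ →₀ ℕ) :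
    l1 (aeval (JN.gv κ e 1) (monomial n (1 : ℂ))) ≤ e ^ ∑ i, n (some i) := by
  have a2 := JN.l1_aeval_monomial (JN.l1_gv (κ := κ) e 1) n
  rw [Fintype.prod_option] at a2
  simpa only [Option.elim, norm_one, one_pow, one_mul, Complex.norm_real, Real.norm_of_nonneg he,
    Finset.prod_pow_eq_pow_sum] using a2

lemma far (hB : 1 ≤ B) (hθ : ∀ i, ‖θ i‖ + 1 ≤ B) (hU : 0 ≤ U) {n : Option κ →₀ ℕ}
    (hn : n.degree = R) (hd : R / δ ≤ ∑ i, n (some i)) :
    ‖tw θ U δ R (aeval (JN.fv θ 1) (monomial n (1 : ℂ)))‖ ≤ 2 * B ^ R := by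
  refine (JN.norm_tw_le θ U δ R _).trans ?_
  have a1 := JN.l1_aeval_le (JN.l1_fv hB hθ norm_one.le) (isHomogeneous_monomial (1 : ℂ) hn)
  rw [l1_monomial, norm_one, one_mul] at a1
  have e0 := Real.exp_pos (-U)
  have e1 : Real.exp (-U) ≤ 1 := Real.exp_le_one_iff.2 (by linarith)
  have e2 : Real.exp U ^ (R / δ) * Real.exp (-U) ^ (R / δ) = 1 := by
    rw [← mul_pow, ← Real.exp_add, add_neg_cancel, Real.exp_zero, one_pow]
  have a3 : Real.exp U ^ (R / δ) *
      l1 (tay θ (Real.exp (-U) : ℝ) (aeval (JN.fv θ 1) (monomial n (1 : ℂ)))) ≤ 1 := by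
    rw [JN.tay_fv, ← e2]
    exact mul_le_mul_of_nonneg_left ((l1_gv_mon e0.le n).trans
      (pow_le_pow_of_le_one e0.le e1 hd)) (by positivity)
  linarith [one_le_pow₀ (n := R) hB]

lemma near (hB : 1 ≤ B) (hθ : ∀ i, ‖θ i‖ + 1 ≤ B) (hU : 0 ≤ U)
    {J : Ideal (MvPolynomial (Option κ) ℤ)} (hJ : IsHom J) {j : ℕ} {Q : MvPolynomial (Option κ) ℂ}
    (hQ : Q.IsHomogeneous j)
    (h1 : aeval (JN.fv θ (Real.exp (-U) : ℝ)) (X none ^ j - Q) ∈ J.map toC) {c : ℝ}
    (h2 : l1 Q ≤ Real.exp (-U) ^ j * c) {n : Option κ →₀ ℕ} (hn : n.degree = R)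
    (hj : j + ∑ i, n (some i) = R / δ) :
    ∃ s ∈ Submodule.span ℂ (Jl J R : Set (MvPolynomial (Option κ) ℂ)),
      ‖tw θ U δ R (aeval (JN.fv θ 1) (monomial n (1 : ℂ)) - s)‖ ≤ 2 * B ^ R * c := by
  have hk : R / δ ≤ R := Nat.div_le_self R δ
  have hn' := JN.norm_tw_le θ U δ R
  generalize R / δ = k at *
  set e : ℝ := Real.exp (-U) with he
  have e0 : 0 < e := Real.exp_pos _
  have e1 : e ≤ 1 := Real.exp_le_one_iff.2 (by linarith)
  have e2 : Real.exp U ^ k * e ^ k = 1 := by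
    rw [← mul_pow, he, ← Real.exp_add, add_neg_cancel, Real.exp_zero, one_pow]
  have e3 : ‖(e : ℂ)‖ = e := by rw [Complex.norm_real, Real.norm_eq_abs, abs_of_pos e0]
  have e4 : (e : ℂ) ≠ 0 := Complex.ofReal_ne_zero.2 e0.ne'
  have b1 : 1 ≤ B ^ R := one_le_pow₀ hB
  have c0 : 0 ≤ e ^ j * c := (l1_nonneg Q).trans h2
  have f1 : ∀ o, l1 (JN.fv θ 1 o) ≤ B := JN.l1_fv hB hθ norm_one.le
  have hc : j ≤ n none := by
    rw [Finsupp.degree_eq_sum, Fintype.sum_option] at hn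
    omega
  obtain ⟨n', rfl⟩ : ∃ n', n = Finsupp.single none j + n' :=
    ⟨n - Finsupp.single none j, (add_tsub_cancel_of_le (Finsupp.single_le_iff.2 hc)).symm⟩
  rw [map_add, Finsupp.degree_single] at hn
  simp only [Finsupp.add_apply, Finsupp.single_eq_of_ne (Option.some_ne_none _), zero_add] at hj
  have m1 : (monomial n' (1 : ℂ)).IsHomogeneous n'.degree := isHomogeneous_monomial _ rfl
  set A := aeval (JN.fv θ 1) (monomial n' (1 : ℂ)) with hA
  refine ⟨((e : ℂ) ^ j)⁻¹ • (aeval (JN.fv θ e) (X none ^ j - Q) * A),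
    Submodule.smul_mem _ _ ?_, ?_⟩
  · have h3 := JN.comp_mem hJ ((J.map toC).mul_mem_right A h1) R
    have h4 := (((isHomogeneous_X_pow none j).sub hQ).aeval _ (JN.fv_hom θ e)).mul
      (m1.aeval _ (JN.fv_hom θ 1))
    rw [one_mul, one_mul, hn] at h4
    rwa [homogeneousComponent_eq_self h4] at h3
  · have h3 : aeval (JN.fv θ 1) (monomial (Finsupp.single none j + n') (1 : ℂ)) -
        ((e : ℂ) ^ j)⁻¹ • (aeval (JN.fv θ e) (X none ^ j - Q) * A) =
          ((e : ℂ) ^ j)⁻¹ • (aeval (JN.fv θ e) Q * A) := by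
      rw [monomial_single_add, map_mul, ← hA, map_sub, map_pow, map_pow, aeval_X, aeval_X,
        sub_mul, smul_sub]
      simp only [JN.fv, Option.elim, C_mul', smul_pow, smul_mul_assoc, smul_smul,
        inv_mul_cancel₀ (pow_ne_zero j e4), one_smul, sub_sub_cancel]
    have h4 : l1 (aeval (JN.fv θ e) Q * A) ≤ e ^ j * c * B ^ R := by
      have a1 := JN.l1_aeval_le (JN.l1_fv hB hθ (e3.trans_le e1)) hQ
      have a2 := JN.l1_aeval_le f1 m1
      rw [l1_monomial, norm_one, one_mul] at a2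
      rw [← hn, pow_add, ← mul_assoc]
      exact l1_mul_le_of_le (a1.trans (mul_le_mul_of_nonneg_right h2 (by positivity))) a2
    have h5 : l1 (tay θ e (aeval (JN.fv θ e) Q * A)) ≤ e ^ j * c * e ^ k := by
      rw [map_mul, hA, JN.tay_fv, JN.tay_fv, ← hj, pow_add, ← mul_assoc]
      have a1 := JN.l1_aeval_le (b := e) (fun o => (JN.l1_gv (κ := κ) e e o).trans (by
        cases o <;> exact e3.le)) hQ
      exact l1_mul_le_of_le (a1.trans (mul_le_mul_of_nonneg_right h2 (by positivity)))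
        (l1_gv_mon e0.le n')
    rw [h3, map_smul, norm_smul, norm_inv, norm_pow, e3, inv_mul_le_iff₀ (by positivity)]
    refine (hn' _).trans ?_
    have h6 : Real.exp U ^ k * l1 (tay θ e (aeval (JN.fv θ e) Q * A)) ≤ e ^ j * c := by
      refine (mul_le_mul_of_nonneg_left h5 (by positivity)).trans_eq ?_
      rw [mul_left_comm, e2, mul_one]
    nlinarith

lemma gv_mon (ε : ℂ) (n : Option κ →₀ ℕ) : aeval (JN.gv κ ε 1) (monomial n (1 : ℂ)) =
    monomial n.some (ε ^ ∑ i, n (some i)) := by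
  rw [aeval_monomial, map_one, one_mul, Finsupp.prod_fintype _ _ fun i => pow_zero _,
    Fintype.prod_option, monomial_eq, Finsupp.prod_fintype _ _ fun i => pow_zero _]
  simp [JN.gv, mul_pow, Finset.prod_mul_distrib, Finset.prod_pow_eq_pow_sum]

lemma coeff_gv (ε : ℂ) {P : MvPolynomial (Option κ) ℂ} (hP : P.IsHomogeneous R)
    {n : Option κ →₀ ℕ} (hn : n ∈ P.support) :
    coeff n.some (aeval (JN.gv κ ε 1) P) = coeff n P * ε ^ ∑ i, n (some i) := by
  classical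
  conv_lhs => rw [JN.eq_sum P, map_sum, coeff_sum]
  rw [Finset.sum_eq_single_of_mem n hn fun m hm hmn => ?_]
  · rw [map_smul, gv_mon, coeff_smul, coeff_monomial, if_pos rfl, smul_eq_mul]
  · rw [map_smul, gv_mon, coeff_smul, coeff_monomial, if_neg, smul_zero]
    intro h
    have h1 : ∀ i, m (some i) = n (some i) := fun i => DFunLike.congr_fun h i
    have h2 := (JN.degree_eq hP hm).trans (JN.degree_eq hP hn).symm
    rw [Finsupp.degree_eq_sum, Finsupp.degree_eq_sum, Fintype.sum_option, Fintype.sum_option] at h2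
    simp only [h1, add_left_inj] at h2
    exact hmn (Finsupp.ext fun o => by cases o; exacts [h2, h1 _])

lemma coeff_le {P : MvPolynomial (Option κ) ℂ} (hP : P.IsHomogeneous R) {n : Option κ →₀ ℕ}
    (hn : n ∈ P.support) {j : ℕ} (hj : j + ∑ i, n (some i) = R / δ) :
    ‖coeff n P‖ * Real.exp U ^ j ≤ ‖tw θ U δ R (aeval (JN.fv θ 1) P)‖ := by
  refine le_trans ?_ (norm_tay_le_tw θ U δ R _)
  have h1 := norm_coeff_le_l2 (tay θ (Real.exp (-U) : ℝ) (aeval (JN.fv θ 1) P)) n.some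
  refine le_trans (le_of_eq ?_) (mul_le_mul_of_nonneg_left h1 (Real.exp_pos _).le)
  have e2 : Real.exp U * Real.exp (-U) = 1 := by
    rw [← Real.exp_add, add_neg_cancel, Real.exp_zero]
  rw [JN.tay_fv, coeff_gv _ hP hn, norm_mul, norm_pow, Complex.norm_real,
    Real.norm_of_nonneg (Real.exp_pos _).le, mul_comm U, Real.exp_nat_mul, ← hj, pow_add]
  generalize ∑ i, n (some i) = d
  calc _ = ‖coeff n P‖ * Real.exp U ^ j * (Real.exp U * Real.exp (-U)) ^ d := by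
        rw [e2, one_pow, mul_one]
    _ = _ := by ring

omit [Fintype κ] in
lemma approx {e r : ℝ} (he : 0 < e) (hr : 0 < r) {J : Ideal (MvPolynomial (Option κ) ℤ)}
    (hJ : IsHom J)
    (h : ¬ ∃ θ' : κ → ℂ, (∀ i, ‖θ' i - θ i‖ ≤ r⁻¹) ∧ ∀ P ∈ J, aeval (pt θ') P = 0) :
    ∃ c : ℝ, 1 ≤ c ∧ ∀ j : ℕ, ∃ Q : MvPolynomial (Option κ) ℂ, Q.IsHomogeneous j ∧
      aeval (JN.fv θ e) (X none ^ j - Q) ∈ J.map toC ∧ l1 Q ≤ e ^ j * (c * (2 * r) ^ j) := by
  obtain ⟨j0, h1⟩ := eventually_atTop.1 (JN.exists_approx stG θ he hr hJ h)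
  have s0 : 0 ≤ ∑ i ∈ Finset.range j0, ((2 * (e * r)) ^ i)⁻¹ := by positivity
  refine ⟨1 + ∑ i ∈ Finset.range j0, ((2 * (e * r)) ^ i)⁻¹, by linarith, fun j => ?_⟩
  have p0 : 0 < (2 * (e * r)) ^ j := by positivity
  have e1 : ∀ c : ℝ, e ^ j * (c * (2 * r) ^ j) = c * (2 * (e * r)) ^ j := fun c => by ring
  rw [e1]
  rcases le_or_gt j0 j with hj | hj
  · obtain ⟨Q, a1, a2, a3⟩ := h1 j hj
    exact ⟨Q, a1, a2, a3.trans (le_mul_of_one_le_left p0.le (by linarith))⟩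
  · refine ⟨X none ^ j, isHomogeneous_X_pow _ _, by simp, ?_⟩
    have a1 := l1_pow_le (l1_X (K := ℂ) (none : Option κ)).le j
    have a2 := Finset.single_le_sum (f := fun i => ((2 * (e * r)) ^ i)⁻¹)
      (fun i _ => by positivity) (Finset.mem_range.2 hj)
    rw [one_pow] at a1
    exact a1.trans ((inv_mul_cancel₀ p0.ne').ge.trans
      (mul_le_mul_of_nonneg_right (by linarith) p0.le))

end KLow

open KLow in
theorem stLow : StLow := by
  intro κ _ θ B U ρ δ J hB hθ hρ hU hδ hJ h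
  rw [Real.exp_neg] at h
  have U0 : 0 ≤ U := by linarith
  obtain ⟨c, c1, hc⟩ := approx (Real.exp_pos (-U)) (Real.exp_pos ρ) hJ h
  choose Q hQ1 hQ2 hQ3 using hc
  set N := Fintype.card (Option κ) with hN
  have t1 := ((Real.tendsto_exp_div_pow_atTop (2 * N)).comp (tendsto_atTop_add_const_right _ 1
    tendsto_natCast_atTop_atTop)).eventually_ge_atTop (2 * c * Real.exp 1)
  filter_upwards [t1] with R hR
  have B0 : 0 < B := by linarith
  have b1 : 1 ≤ B ^ R := one_le_pow₀ hB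
  have r1 : (1 : ℝ) ≤ (R + 1) ^ N := one_le_pow₀ (by linarith [Nat.cast_nonneg (α := ℝ) R])
  have g1 : (R + 1) ^ N * (2 * B ^ R * c * ((R + 1) ^ N * B ^ R)) ≤
      Real.exp (R * (2 * Real.log B + 1)) := by
    rw [Function.comp_apply, le_div_iff₀ (by positivity), Real.exp_add, mul_right_comm,
      mul_le_mul_iff_left₀ (Real.exp_pos 1)] at hR
    rw [mul_add, mul_one, Real.exp_add, two_mul (Real.log B), Real.exp_nat_mul, Real.exp_add,
      Real.exp_log B0]
    calc _ = (B * B) ^ R * (2 * c * (R + 1) ^ (2 * N)) := by ring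
      _ ≤ _ := by gcongr
  have key := cmp (tw_injective θ U δ R) (tw_injective θ (ρ + 1) δ R) (isLat_Jl ⊤ R)
    (Jl_mono (le_top (a := J)) R) (Real.exp_pos (R * (2 * Real.log B + 1))) fun P₀ hP₀ => ?_
  · rw [Real.log_exp] at key
    rw [chi, chi, Hf]
    linarith
  rw [mem_span_Jl_top] at hP₀
  set f := JN.fv (fun i => -(θ i * (1 : ℂ)⁻¹)) (1 : ℂ)⁻¹ with hf
  have m2 := hP₀.aeval f (JN.fv_hom _ _)
  rw [one_mul] at m2
  have w0 := norm_nonneg (tw θ (ρ + 1) δ R P₀)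
  have m3 : l1 (aeval f P₀) ≤ (R + 1) ^ N * B ^ R * ‖tw θ (ρ + 1) δ R P₀‖ := by
    refine (JN.l1_aeval_le (JN.l1_fv (θ := fun i => -(θ i * (1 : ℂ)⁻¹)) (ε := (1 : ℂ)⁻¹) hB
      (by simpa using hθ) (by simp)) hP₀).trans ?_
    rw [mul_right_comm]
    refine mul_le_mul_of_nonneg_right ((l1_le_card_mul P₀).trans (mul_le_mul ?_
      (norm_l2_le_tw θ _ δ R P₀) (norm_nonneg _) (by positivity))) (by positivity)
    exact_mod_cast card_support_le hP₀.totalDegree_le
  have m4 := JN.fv_inv θ one_ne_zero P₀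
  rw [← hf] at m4
  generalize aeval f P₀ = P at m2 m3 m4
  have m6 : ∀ n ∈ P.support, ∃ s ∈ Submodule.span ℂ (Jl J R : Set (MvPolynomial (Option κ) ℂ)),
      ‖coeff n P‖ * ‖tw θ U δ R (aeval (JN.fv θ 1) (monomial n (1 : ℂ)) - s)‖ ≤
        2 * B ^ R * c * ((R + 1) ^ N * B ^ R) * ‖tw θ (ρ + 1) δ R P₀‖ := by
    intro n hn
    have d1 := JN.degree_eq m2 hn
    rcases le_total (R / δ) (∑ i, n (some i)) with hd | hd
    · refine ⟨0, Submodule.zero_mem _, ?_⟩
      rw [sub_zero, mul_comm, mul_assoc (2 * B ^ R * c)]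
      exact mul_le_mul ((far hB hθ U0 d1 hd).trans (le_mul_of_one_le_right (by positivity) c1))
        ((norm_coeff_le_l1 P n).trans m3) (norm_nonneg _) (by positivity)
    · obtain ⟨j, hj⟩ : ∃ j, j + ∑ i, n (some i) = R / δ := ⟨_, Nat.sub_add_cancel hd⟩
      obtain ⟨s, s1, s2⟩ := near hB hθ U0 hJ (hQ1 j) (hQ2 j) (hQ3 j) d1 hj
      refine ⟨s, s1, ?_⟩
      have a1 := coeff_le (θ := θ) (U := ρ + 1) m2 hn hj
      rw [m4] at a1
      have a2 : (2 * Real.exp ρ) ^ j ≤ Real.exp (ρ + 1) ^ j := by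
        rw [Real.exp_add, mul_comm]
        gcongr
        linarith [Real.add_one_le_exp 1]
      calc _ ≤ ‖coeff n P‖ * (2 * B ^ R * (c * Real.exp (ρ + 1) ^ j)) := by
            refine mul_le_mul_of_nonneg_left (s2.trans ?_) (norm_nonneg _)
            gcongr
        _ = 2 * B ^ R * c * 1 * (‖coeff n P‖ * Real.exp (ρ + 1) ^ j) := by ring
        _ ≤ _ := by
            gcongr
            exact one_le_mul_of_one_le_of_one_le r1 b1
  choose! s hs1 hs2 using m6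
  refine ⟨∑ n ∈ P.support, coeff n P • s n, Submodule.sum_mem _ fun n hn =>
    Submodule.smul_mem _ _ (hs1 n hn), ?_⟩
  have m5 : P₀ - ∑ n ∈ P.support, coeff n P • s n =
      ∑ n ∈ P.support, coeff n P • (aeval (JN.fv θ 1) (monomial n (1 : ℂ)) - s n) := by
    simp only [smul_sub, Finset.sum_sub_distrib]
    congr 1
    rw [← m4]
    conv_lhs => rw [JN.eq_sum P, map_sum]
    simp only [map_smul]
  rw [m5, map_sum]
  refine (norm_sum_le _ _).trans ((Finset.sum_le_card_nsmul _ _ _ fun n hn => by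
    rw [map_smul, norm_smul]
    exact hs2 n hn).trans ?_)
  have m7 : (P.support.card : ℝ) ≤ (R + 1) ^ N := by
    exact_mod_cast card_support_le m2.totalDegree_le
  rw [nsmul_eq_mul, ← mul_assoc]
  exact mul_le_mul_of_nonneg_right
    ((mul_le_mul_of_nonneg_right m7 (by positivity)).trans g1) w0

end Pool.Agent.Lib.MP_12eca1_ag.Q
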