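import Pool.Agent.Lib.MP_12eca1_ag.Q.Basic

/-!
The auxiliary function and the zero estimate produce a new small linear form.
-/

namespace Pool.Agent.Lib.MP_12eca1_ag.Q

open MvPolynomial Filter Module P

namespace KRel

variable {m n : ℕ}

/-- the tensor product of two integral vectors -/
def tm (a : Fin m → ℤ) (s : Fin n → ℤ) : Fin m × Fin n → ℤ := fun k => a k.1 * s k.2

lemma sum_abs_le {a : Fin m → ℤ} {α : ℝ} (h : ‖a‖ ≤ α) : ∑ i, |(a i : ℝ)| ≤ m * α :=
  (Finset.sum_le_card_nsmul _ _ α fun i _ => (abs_le_norm a i).trans h).trans (by simp)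

lemma sum_tm {a : Fin m → ℤ} {s : Fin n → ℤ} {α β : ℝ} (ha : ‖a‖ ≤ α) (hs : ‖s‖ ≤ β) :
    ∑ k, |(tm a s k : ℝ)| ≤ m * n * (α * β) := by
  refine (Finset.sum_le_card_nsmul _ _ (α * β) fun k _ => ?_).trans (by simp)
  rw [tm, Int.cast_mul, abs_mul]
  exact mul_le_mul ((abs_le_norm a _).trans ha) ((abs_le_norm s _).trans hs) (abs_nonneg _)
    ((norm_nonneg a).trans ha)

lemma lf_tm_xy (a : Fin m → ℤ) (s : Fin n → ℤ) (x : Fin m → ℂ) (y : Fin n → ℂ) :
    lf (tm a s) (xy x y) = lf a x * lf s y := by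
  rw [lf, lf, lf, Finset.sum_mul_sum, Fintype.sum_prod_type]
  refine Finset.sum_congr rfl fun i _ => Finset.sum_congr rfl fun j _ => ?_
  simp only [tm, xy]
  push_cast
  ring

lemma lf_tm (a : Fin m → ℤ) (s : Fin n → ℤ) (z : Fin m × Fin n → ℂ) :
    lf (tm a s) z = ∑ j, (s j : ℂ) * lf (Ex m n j a) z := by
  simp only [lf_Ex]
  rw [lf, Fintype.sum_prod_type_right]
  refine Finset.sum_congr rfl fun j _ => ?_
  rw [lf, Finset.mul_sum]
  refine Finset.sum_congr rfl fun i _ => ?_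
  simp only [tm]
  push_cast
  ring

/-- the family of real linear forms attached to a point -/
noncomputable def om (z : Fin m × Fin n → ℂ) : (Fin n → ℤ) →+ (Fin m → ℝ) →ₗ[ℝ] ℂ :=
  (Fintype.linearCombination ℤ fun j => rext (lfL z ∘ₗ Ex m n j)).toAddMonoidHom

lemma om_cst (z : Fin m × Fin n → ℂ) (s : Fin n → ℤ) (a : Fin m → ℤ) :
    om z s (cst a) = lf (tm a s) z := by
  rw [lf_tm]
  simp [om, Fintype.linearCombination_apply, rext_cst]

lemma tm_sub (a : Fin m → ℤ) (s s' : Fin n → ℤ) : tm a (s - s') = tm a s - tm a s' := by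
  funext k
  simp [tm, mul_sub]

open Pointwise in
lemma norm_nsmul_mem [DecidableEq (Fin n → ℤ)] {S : Finset (Fin n → ℤ)} {t : ℝ}
    (h : ∀ s ∈ S, ‖s‖ ≤ t) (k : ℕ) : ∀ s ∈ k • S, ‖s‖ ≤ k * t := by
  induction k with
  | zero =>
    intro s hs
    rw [zero_nsmul, Finset.mem_zero] at hs
    simp [hs]
  | succ k ih =>
    intro s hs
    rw [succ_nsmul, Finset.mem_add] at hs
    obtain ⟨a, ha, b, hb, rfl⟩ := hs
    refine (norm_add_le_of_le (ih a ha) (h b hb)).trans_eq ?_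
    push_cast
    ring

/-- the polynomial attached to a vector of the second lattice -/
noncomputable def pol {A : Finset (Fin m → ℤ)} (p : A → ℤ) (s : Fin n → ℤ) :
    MvPolynomial ((Fin m × Fin n) ⊕ (Fin m × Fin n)) ℤ :=
  ∑ a : A, C (p a) * mon (tm a.1 s)

lemma aeval_pol {A : Finset (Fin m → ℤ)} (p : A → ℤ) (s : Fin n → ℤ) (z : Fin m × Fin n → ℂ) :
    aeval (ex z) (pol p s) = ∑ a : A, (p a : ℂ) * Complex.exp (lf (tm a.1 s) z) := by
  simp [pol, aeval_mon]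

lemma deg_pol {A : Finset (Fin m → ℤ)} (p : A → ℤ) {s : Fin n → ℤ} {α β : ℝ} (hα : 0 ≤ α)
    (hA : ∀ a ∈ A, ‖a‖ ≤ α) (hs : ‖s‖ ≤ β) : ((pol p s).totalDegree : ℝ) ≤ m * n * (α * β) := by
  have h0 : 0 ≤ (m : ℝ) * n * (α * β) :=
    mul_nonneg (by positivity) (mul_nonneg hα ((norm_nonneg s).trans hs))
  rw [← Nat.le_floor_iff h0]
  refine totalDegree_finsetSum_le fun a _ => (totalDegree_mul _ _).trans ?_
  rw [totalDegree_C, zero_add, Nat.le_floor_iff h0]
  exact (deg_mon _).trans (sum_tm (hA a.1 a.2) hs)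

lemma l1_pol {A : Finset (Fin m → ℤ)} {p : A → ℤ} (hp : ∀ a, |p a| ≤ 1) (s : Fin n → ℤ) :
    l1 (pol p s) ≤ A.card := by
  refine (l1_sum_le _ _).trans ((Finset.sum_le_card_nsmul _ _ 1 fun a _ => ?_).trans (by simp))
  refine (l1_C_mul_le _ _).trans (mul_le_one₀ ?_ (l1_nonneg _) (l1_mon _))
  rw [Int.norm_eq_abs]
  exact_mod_cast hp a

/-- the auxiliary function with a prescribed support -/
lemma aux (A : Finset (Fin m → ℤ)) (x : Fin m → ℂ) {U c r : ℝ} (hc : 1 ≤ c) (hU : 2400 * c ≤ U)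
    (h1 : 400 * U ^ 2 ≤ A.card) (h2 : A.card ≤ c * (400 * U ^ 2)) (hr : 0 < r)
    (hA : ∀ a ∈ A, ‖lf a x‖ * r ≤ U) :
    ∃ p : A → ℤ, p ≠ 0 ∧ (∀ a, |p a| ≤ 1) ∧ ∀ w : ℂ, ‖w‖ ≤ r →
      ‖∑ a : A, (p a : ℂ) * Complex.exp (lf a.1 x * w)‖ ≤ Real.exp (-U) := by
  have U0 : 0 ≤ U := by linarith
  have a3 := (Nat.ceil_lt_add_one (show 0 ≤ U + 3 * U + U + 2 by positivity)).le
  obtain ⟨p, p1, p2, p3⟩ := JA.core (fun a : A => lf a.1 x * (r : ℝ)) (W := U) (V := U) (l := U)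
    (K := ⌈U + 3 * U + U + 2⌉₊) U0 (fun a => by
      rw [norm_mul, Complex.norm_real, Real.norm_of_nonneg hr.le]
      exact hA a.1 a.2) U0 U0 (by
      rw [Fintype.card_coe]
      have h4 := Real.pow_div_factorial_le_exp U U0 3
      have h6 : ((Nat.factorial 3 : ℕ) : ℝ) = 6 := by norm_num [Nat.factorial]
      rw [h6] at h4
      have := mul_le_mul_of_nonneg_right hU (sq_nonneg U)
      refine h2.trans (le_trans ?_ h4)
      nlinarith) (Nat.le_ceil _) (by
      rw [Fintype.card_coe]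
      refine lt_of_lt_of_le ?_ h1
      calc _ ≤ 4 * (6 * U) * (9 * U) := by gcongr <;> linarith
        _ < 400 * U ^ 2 := by nlinarith)
  refine ⟨p, p1, p2, fun w hw => ?_⟩
  have hr' : ((r : ℝ) : ℂ) ≠ 0 := by exact_mod_cast hr.ne'
  have := p3 (w / (r : ℝ)) (by
    rwa [norm_div, Complex.norm_real, Real.norm_of_nonneg hr.le, div_le_one hr])
  simpa only [mul_assoc, mul_div_cancel₀ _ hr'] using this

/-- few values of a character on a large set give two points with the same logarithm -/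
lemma pig {Γ : Type} [DecidableEq ℂ] {B S : Finset Γ} (hB : B ⊆ S) (ω : Γ → ℂ) {N L : ℝ}
    (hN : 0 ≤ N) (hω : ∀ s ∈ B, ‖ω s‖ ≤ N)
    (hL : ((S.image fun s => Complex.exp (ω s)).card : ℝ) ≤ L) (hc : L * (2 * N + 3) < B.card) :
    ∃ s ∈ B, ∃ s' ∈ B, s ≠ s' ∧ ω s = ω s' := by
  obtain ⟨s, s', h1, h2⟩ := JOne.pigeon (fun s : B => ω s.1) ⌈N⌉₊
    (S.image fun s => Complex.exp (ω s)).card (fun s => (hω s.1 s.2).trans (Nat.le_ceil N)) (by
      rw [← Set.ncard_coe_finset]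
      refine Set.ncard_le_ncard ?_ (Finset.finite_toSet _)
      rintro _ ⟨s, rfl⟩
      exact Finset.mem_coe.2 (Finset.mem_image_of_mem _ (hB s.2))) (by
      rw [Fintype.card_coe, ← Nat.cast_lt (α := ℝ)]
      refine lt_of_le_of_lt ?_ hc
      have := (Nat.ceil_lt_add_one hN).le
      push_cast
      exact mul_le_mul hL (by linarith) (by positivity) ((Nat.cast_nonneg _).trans hL))
  exact ⟨s.1, s.2, s'.1, s'.2, fun e => h1 (Subtype.ext e), h2⟩

lemma exists_ne {G : Set (Fin m → ℤ)} {a : Fin m → ℤ} (h : cst a ∉ rsp G) : Nonempty (Fin m) := by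
  by_contra e
  rw [not_nonempty_iff] at e
  exact h (by rw [Subsingleton.elim (cst a) 0]; exact zero_mem _)

lemma exists_bound (x : Fin m → ℂ) (y : Fin n → ℂ) :
    ∃ Z : ℝ, 1 ≤ Z ∧ (∀ i, ‖x i‖ ≤ Z) ∧ ∀ j, ‖y j‖ ≤ Z :=
  ⟨1 + ‖x‖ + ‖y‖, by linarith [norm_nonneg x, norm_nonneg y],
    fun i => by linarith [norm_le_pi_norm x i, norm_nonneg y],
    fun j => by linarith [norm_le_pi_norm y j, norm_nonneg x]⟩

end KRel

open KRel Pointwise in
theorem stRel (h : StZE) : StRel := by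
  intro m n x y
  obtain ⟨c, hc, h⟩ := h m
  obtain ⟨Z, hZ, hx, hy⟩ := exists_bound x y
  have c0 : 0 ≤ c := by linarith
  have Z0 : 0 ≤ Z := by linarith
  obtain ⟨K, k1, k2, k3, k4, k5⟩ : ∃ K : ℝ, 2400 * c ≤ K ∧ m * c * Z * ((n * m + 1) * Z) ≤ K ∧
      m * n * (c * m) ≤ K ∧ c * 400 * (2 * (m * n * (2 * c) * (Z * Z + 1)) + 3) < K ∧
      m * n * (2 * c * 2) ≤ K :=
    ((eventually_ge_atTop _).and ((eventually_ge_atTop _).and ((eventually_ge_atTop _).and
      ((eventually_gt_atTop _).and (eventually_ge_atTop _))))).exists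
  have K1 : 1 ≤ K := by linarith
  refine ⟨K, K1, fun U t Gx Gy ht hU hG hMx hMy => ?_⟩
  have t0 : 0 ≤ t := by linarith
  have t2 : 1 ≤ t ^ 2 := one_le_pow₀ ht
  have KU : K ≤ U := (le_mul_of_one_le_right (by linarith) t2).trans hU
  have U1 : 1 ≤ U := K1.trans KU
  have U2 : 1 ≤ U ^ 2 := one_le_pow₀ U1
  obtain ⟨A, a1, a2, a3, hA⟩ := h Gx t (400 * U ^ 2) ht (by linarith) hG
    (hMx.mono le_rfl le_rfl (by
      refine le_trans ?_ (le_mul_of_one_le_right (by positivity) t2)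
      exact mul_le_mul_of_nonneg_right (by linarith) (by positivity)))
  obtain ⟨B, b1, b2, b3⟩ := hMy
  obtain ⟨p, p1, p2, p3⟩ := aux A x (U := U) (r := (n * m + 1) * Z * t) hc (k1.trans KU) a1 a2
    (by positivity) fun a ha => by
      have e1 := (norm_lf_le a hx).trans (mul_le_mul_of_nonneg_right (sum_abs_le (a3 a ha)) Z0)
      calc _ ≤ m * (c * t) * Z * ((n * m + 1) * Z * t) := by gcongr
        _ = m * c * Z * ((n * m + 1) * Z) * t ^ 2 := by ring
        _ ≤ K * t ^ 2 := by gcongr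
        _ ≤ U := hU
  refine ⟨{f | ∃ s : Fin n → ℤ, ‖s‖ ≤ m * t ∧ f = pol p s}, ?_, fun z r hr hz hK hF => ?_⟩
  · rintro _ ⟨s, hs, rfl⟩
    refine ⟨(deg_pol p (by positivity) a3 hs).trans ?_, (l1_pol p2 s).trans (a2.trans ?_), ?_⟩
    · calc _ = m * n * (c * m) * t ^ 2 := by ring
        _ ≤ K * t ^ 2 := by gcongr
    · rw [← mul_assoc]
      exact mul_le_mul_of_nonneg_right (by linarith) (by positivity)
    · rw [aeval_pol]
      simp only [lf_tm_xy]
      refine p3 _ ((norm_lf_le s hy).trans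
        ((mul_le_mul_of_nonneg_right (sum_abs_le hs) Z0).trans ?_))
      nlinarith [mul_nonneg Z0 t0]
  classical
  obtain ⟨a, ha, a', ha', h1, h2⟩ := hA (Fin n → ℤ) (om z) (insert 0 B)
    (fun a => if ha : a ∈ A then (p ⟨a, ha⟩ : ℂ) else 0) (fun s g hg => by
      rw [om_cst, lf_tm]
      exact Finset.sum_eq_zero fun j _ => by rw [hK hg j, mul_zero])
    (Finset.mem_insert_self _ _) (by
      obtain ⟨a, ha⟩ := Function.ne_iff.1 p1
      exact ⟨a.1, a.2, by rw [dif_pos a.2]; exact_mod_cast ha⟩) fun s hs => by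
      have e1 := hF _ ⟨s, @norm_nsmul_mem n (Classical.decEq _) (insert 0 B) t (fun s hs => by
        rcases Finset.mem_insert.1 hs with rfl | hs
        · simpa using t0
        · exact b2 s hs) m s hs, rfl⟩
      rw [aeval_pol] at e1
      rw [← e1, ← Finset.sum_coe_sort]
      exact Finset.sum_congr rfl fun a _ => by rw [dif_pos a.2, om_cst]
  have hl : ‖a - a'‖ ≤ 2 * c * t := (norm_sub_le_of_le (a3 a ha) (a3 a' ha')).trans_eq (by ring)
  have hzz : ∀ k, ‖z k‖ ≤ Z * Z + 1 := fun k => by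
    have e1 : ‖xy x y k‖ ≤ Z * Z := by
      rw [xy, norm_mul]
      exact mul_le_mul (hx _) (hy _) (norm_nonneg _) Z0
    linarith [norm_le_insert' (z k) (xy x y k), hz k]
  obtain ⟨s, hs, s', hs', h3, h4⟩ := pig (Finset.subset_insert 0 B)
    (fun s => om z s (cst (a - a'))) (N := m * n * (2 * c * t * t) * (Z * Z + 1)) (by positivity)
    (fun s hs => by
      rw [om_cst]
      exact (norm_lf_le _ hzz).trans
        (mul_le_mul_of_nonneg_right (sum_tm hl (b2 s hs)) (by positivity))) h2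
    (lt_of_lt_of_le (by
      calc _ ≤ c * (400 * U ^ 2) * (2 * (m * n * (2 * c * t * t) * (Z * Z + 1)) + 3 * t ^ 2) := by
            gcongr
            linarith
        _ = c * 400 * (2 * (m * n * (2 * c) * (Z * Z + 1)) + 3) * (U ^ 2 * t ^ 2) := by ring
        _ < K * (U ^ 2 * t ^ 2) := by gcongr
        _ = _ := by ring) b1)
  have h5 : cst (s - s') ∉ rsp Gy := fun e => h3 (b3 s hs s' hs' e)
  have hu : ‖s - s'‖ ≤ 2 * t := (norm_sub_le_of_le (b2 s hs) (b2 s' hs')).trans_eq (by ring)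
  obtain ⟨i⟩ := exists_ne h1
  obtain ⟨j⟩ := exists_ne h5
  have r0 : 0 ≤ r := (norm_nonneg _).trans (hz (i, j))
  refine ⟨a - a', s - s', h1, h5, hl.trans (by gcongr; linarith), hu.trans (by gcongr; linarith),
    ?_⟩
  have h6 : lf (tm (a - a') (s - s')) z = 0 := by
    rw [tm_sub, lf_sub, ← om_cst, ← om_cst, h4, sub_self]
  have h7 := norm_lf_sub_le (tm (a - a') (s - s')) hz
  rw [h6, zero_sub, norm_neg, lf_tm_xy, norm_mul] at h7
  refine h7.trans (mul_le_mul_of_nonneg_right ((sum_tm hl hu).trans ?_) r0)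
  calc _ = m * n * (2 * c * 2) * t ^ 2 := by ring
    _ ≤ K * t ^ 2 := by gcongr

end Pool.Agent.Lib.MP_12eca1_ag.Q
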