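import Pool.Agent.Lib.MP_12eca1_ag.Q.KNg

/-!
Adding relations at one scale without loss of precision.
-/

namespace Pool.Agent.Lib.MP_12eca1_ag.Q

open MvPolynomial Filter Module P KNg

namespace KTemp

section Side

variable {m : ℕ} {J ι : Type} [Fintype ι] {E : J → (Fin m → ℤ) →ₗ[ℤ] ι → ℤ} {z₀ : ι → ℂ}
  {q q' : Ideal (MvPolynomial (Option (ι ⊕ ι)) ℤ)} {δ c : ℕ} {t t' : ℝ} {G : Set (Fin m → ℤ)}

/-- small relations whose characters are trivial modulo the ideal -/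
def Inv (E : J → (Fin m → ℤ) →ₗ[ℤ] ι → ℤ) (z₀ : ι → ℂ) (δ : ℕ)
    (q : Ideal (MvPolynomial (Option (ι ⊕ ι)) ℤ)) (t : ℝ) (G : Set (Fin m → ℤ)) : Prop :=
  ∀ g ∈ G, ‖g‖ ≤ t ∧ ∀ j, JB.hz δ (mon (E j g) - 1) ∈ q ∧ ‖lf (E j g) z₀‖ ≤ 1

lemma Inv.mono (h : Inv E z₀ δ q t G) (hq : q ≤ q') (ht : t ≤ t') : Inv E z₀ δ q' t' G :=
  fun g hg => ⟨(h g hg).1.trans ht, fun j => ⟨hq ((h g hg).2 j).1, ((h g hg).2 j).2⟩⟩

lemma Inv.ker (h : Inv E z₀ δ q t G) (hE : Bd E c) {z : ι → ℂ} {r : ℝ}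
    (hz : ∀ i, ‖z i - z₀ i‖ ≤ r) (hr0 : 0 ≤ r) (hr : c * t * r ≤ 1)
    (hq : ∀ Q ∈ q, aeval (pt (ex z)) Q = 0) : G ⊆ Ker E z := fun g hg =>
  Ker_of_Van (fun j => by
    have := hq _ ((h g hg).2 j).1
    rwa [JB.aeval_hz, map_sub, map_one, sub_eq_zero] at this) fun j => by
    have h1 := norm_lf_sub_le (E j g) hz
    have h2 : (∑ i, |(E j g i : ℝ)|) * r ≤ c * t * r :=
      mul_le_mul_of_nonneg_right ((hE j g).trans (by gcongr; exact (h g hg).1)) hr0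
    linarith [norm_le_norm_add_norm_sub' (lf (E j g) z) (lf (E j g) z₀), ((h g hg).2 j).2]

lemma deg_le (hE : Bd E c) {a : Fin m → ℤ} (ha : c * ‖a‖ ≤ δ) (j : J) :
    (mon (E j a) - 1).totalDegree ≤ δ := by
  exact_mod_cast (deg_mon_sub_one (E j a)).trans ((hE j a).trans ha)

lemma Inv.add (h : Inv E z₀ δ q t G) (hE : Bd E c) {η : ι ⊕ ι → ℂ} {B U l k h' r σ : ℝ}
    (hq : Ng η δ U (l - 1) (l * k) q) (hB : 1 ≤ B) (hθ : ∀ i, ‖ex z₀ i‖ + 1 ≤ B)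
    (hη : ∀ i, ‖η i‖ + 1 ≤ B) (hδ : 1 ≤ δ) (hU : 0 ≤ U) (hl : 1 ≤ l)
    (hk : h' + 1 + δ * Real.log B ≤ k * δ) (h0 : 0 < r) (h1 : r ≤ 1)
    (hr : ∀ i, ‖η i - ex z₀ i‖ ≤ r) {a : Fin m → ℤ} (ha : ‖a‖ ≤ t) (ht : c * t ≤ δ)
    (hσ : ∀ j, ‖lf (E j a) z₀‖ ≤ σ) (hσ1 : σ ≤ 1) (hh : 2 ≤ Real.exp h')
    (hv : 2 * σ + r * (B ^ δ * 2) ≤ Real.exp (h' - U)) :
    ∃ q', q ≤ q' ∧ Ng η δ U (l - 1) (l * k) q' ∧ Inv E z₀ δ q' t (insert a G) := by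
  have hd := deg_le hE (δ := δ) (a := a) (le_trans (by gcongr) ht)
  obtain ⟨q', e1, e2, e3⟩ := hq.cut hB hη hδ hU (by linarith) (h' := h')
    (by rw [sub_add_cancel, mul_assoc]; gcongr) (F := Set.range fun j => mon (E j a) - 1) (by
      rintro _ ⟨j, rfl⟩
      refine ⟨hd j, (l1_mon_sub_one _).trans hh,
        (norm_aeval_le hB hθ h0 h1 hr (hd j)).trans (le_trans (add_le_add ?_ ?_) hv)⟩
      · rw [map_sub, map_one, aeval_mon]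
        exact (Complex.norm_exp_sub_one_le ((hσ j).trans hσ1)).trans (by linarith [hσ j])
      · gcongr
        exact l1_mon_sub_one _)
  refine ⟨q', e1, e2, fun g hg => ?_⟩
  rcases hg with rfl | hg
  · exact ⟨ha, fun j => ⟨e3 _ ⟨j, rfl⟩, (hσ j).trans hσ1⟩⟩
  · exact h.mono e1 le_rfl g hg

end Side

variable {m n : ℕ} {x : Fin m → ℂ} {y : Fin n → ℂ}

/-- the property of the constant of the auxiliary construction -/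
def Rel (x : Fin m → ℂ) (y : Fin n → ℂ) (C : ℝ) : Prop :=
  ∀ (U t : ℝ) (Gx : Set (Fin m → ℤ)) (Gy : Set (Fin n → ℤ)), 1 ≤ t → C * t ^ 2 ≤ U →
    (∀ g ∈ Gx, ‖g‖ ≤ t) → Many Gx t (C * U ^ 2 * t ^ 2) → Many Gy t (C * U ^ 2 * t ^ 2) →
    ∃ F : Set (MvPolynomial ((Fin m × Fin n) ⊕ (Fin m × Fin n)) ℤ),
      (∀ f ∈ F, (f.totalDegree : ℝ) ≤ C * t ^ 2 ∧ l1 f ≤ C * U ^ 2 ∧
        ‖aeval (ex (xy x y)) f‖ ≤ Real.exp (-U)) ∧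
      ∀ (z : Fin m × Fin n → ℂ) (r : ℝ), r ≤ 1 → (∀ k, ‖z k - xy x y k‖ ≤ r) →
        Gx ⊆ Ker (Ex m n) z → (∀ f ∈ F, aeval (ex z) f = 0) →
        ∃ (a : Fin m → ℤ) (u : Fin n → ℤ), cst a ∉ rsp Gx ∧ cst u ∉ rsp Gy ∧ ‖a‖ ≤ C * t ∧
          ‖u‖ ≤ C * t ∧ ‖lf a x‖ * ‖lf u y‖ ≤ C * t ^ 2 * r

/-- the numerical parameters of the process -/
structure Par (x : Fin m → ℂ) (y : Fin n → ℂ) (η : (Fin m × Fin n) ⊕ (Fin m × Fin n) → ℂ)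
    (C c₀ c₁ Z B U₀ h' k ρ tm l₀ : ℝ) (δ : ℕ) : Prop where
  rel : Rel x y C
  logs : ∀ (θ : (Fin m × Fin n) ⊕ (Fin m × Fin n) → ℂ) (r : ℝ), c₁ * r ≤ 1 →
    Spec (ex (xy x y)) θ → (∀ k, ‖θ k - ex (xy x y) k‖ ≤ r) →
    ∃ z, ex z = θ ∧ ∀ i, ‖z i - xy x y i‖ ≤ c₁ * r
  hC : 1 ≤ C
  hc₀ : 1 ≤ c₀
  hc₁ : 1 ≤ c₁
  hZ : 1 ≤ Z
  hx : ∀ i, ‖x i‖ ≤ Z
  hy : ∀ j, ‖y j‖ ≤ Z
  hB : 1 ≤ B
  hθ : ∀ i, ‖ex (xy x y) i‖ + 1 ≤ B
  hη : ∀ i, ‖η i‖ + 1 ≤ B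
  cl : ∀ i, ‖η i - ex (xy x y) i‖ ≤ c₀ * Real.exp (-U₀)
  hδ : 2 ≤ δ
  d1 : (m + n : ℕ) * tm ≤ δ
  d2 : C * tm ^ 2 ≤ δ
  d3 : C * tm ^ 2 ≤ U₀
  h1 : 1 + c₀ * (B ^ δ * (C * U₀ ^ 2)) ≤ Real.exp h'
  h2 : 2 * (Z * (C * c₁ * (1 + c₀) * tm)) + c₀ * (B ^ δ * 2) ≤ Real.exp (h' - 1)
  hk : h' + 1 + δ * Real.log B ≤ k * δ
  hl : 1 ≤ l₀
  k1 : 12 * (Real.log B + 1) + (1 + ρ) / δ ≤ l₀ * k
  r0 : 0 ≤ ρ
  r1 : ρ ≤ U₀
  r2 : (m + n + 1 : ℕ) * tm * (c₁ * ((1 + c₀) * Real.exp (-ρ))) ≤ 1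
  r3 : Z * (C * c₁ * (1 + c₀) * tm * Real.exp (-ρ / 2)) ≤ 1
  r4 : c₀ * Real.exp (-U₀) ≤ 1

variable {η : (Fin m × Fin n) ⊕ (Fin m × Fin n) → ℂ} {C c₀ c₁ Z B U₀ h' k ρ tm l₀ : ℝ} {δ : ℕ}
  {q : Ideal (MvPolynomial (Option ((Fin m × Fin n) ⊕ (Fin m × Fin n))) ℤ)} {t U l : ℝ}
  {Gx : Set (Fin m → ℤ)} {Gy : Set (Fin n → ℤ)}

lemma Par.pos (p : Par x y η C c₀ c₁ Z B U₀ h' k ρ tm l₀ δ) : 0 < k := by
  have h1 := Real.log_nonneg p.hB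
  have h2 : 0 ≤ (1 + ρ) / δ := by have := p.r0; positivity
  by_contra h
  nlinarith [p.k1, p.hl]

lemma Par.pt (p : Par x y η C c₀ c₁ Z B U₀ h' k ρ tm l₀ δ) (hq : vI (ex (xy x y)) ≤ q) {D : ℝ}
    (h1 : ρ ≤ D) (h2 : D ≤ U₀) (hn : Near η q D) (ht1 : 1 ≤ t) (ht : t ≤ tm)
    (hx : Inv (Ex m n) (xy x y) δ q t Gx) (hy : Inv (Ey m n) (xy x y) δ q t Gy) :
    ∃ z, Spec (ex (xy x y)) (ex z) ∧ (∀ i, ‖z i - xy x y i‖ ≤ c₁ * ((1 + c₀) * Real.exp (-D))) ∧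
      c₁ * ((1 + c₀) * Real.exp (-D)) ≤ 1 ∧ (∀ Q ∈ q, aeval (pt (ex z)) Q = 0) ∧
      Gx ⊆ Ker (Ex m n) z ∧ Gy ⊆ Ker (Ey m n) z := by
  obtain ⟨θ, a1, a2⟩ := hn
  have b0 := p.hc₀
  have b1 := p.hc₁
  have b2 : 0 ≤ tm := by linarith
  have a3 : (m + n + 1 : ℕ) * t * (c₁ * ((1 + c₀) * Real.exp (-D))) ≤ 1 :=
    le_trans (by gcongr) p.r2
  have a4 : c₁ * ((1 + c₀) * Real.exp (-D)) ≤ 1 := le_trans (le_mul_of_one_le_left (by positivity)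
    (one_le_mul_of_one_le_of_one_le (by exact_mod_cast Nat.le_add_left 1 _) ht1)) a3
  have a5 := spec_of_zero hq a2
  obtain ⟨z, rfl, a6⟩ := p.logs θ _ a4 a5 fun i => by
    have b2 : c₀ * Real.exp (-U₀) ≤ c₀ * Real.exp (-D) := by gcongr
    linarith [norm_sub_le_norm_sub_add_norm_sub (θ i) (η i) (ex (xy x y) i), a1 i, p.cl i]
  exact ⟨z, a5, a6, a4, a2, hx.ker (Bd_Ex (by omega)) a6 (by positivity) a3 a2,
    hy.ker (Bd_Ey (by omega)) a6 (by positivity) a3 a2⟩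

lemma Par.step (hL : StLow) (hH : StHalf) (p : Par x y η C c₀ c₁ Z B U₀ h' k ρ tm l₀ δ)
    (hq : vI (ex (xy x y)) ≤ q) (hN : Ng η δ U (l - 1) (l * k) q) (hU : 0 ≤ U) (hU' : U ≤ U₀)
    (hl : 4 * l₀ ≤ l) (ht1 : 1 ≤ t) (ht : C * t ≤ tm)
    (hx : Inv (Ex m n) (xy x y) δ q t Gx) (hy : Inv (Ey m n) (xy x y) δ q t Gy)
    (mx : Many Gx t (C * U₀ ^ 2 * tm ^ 2)) (my : Many Gy t (C * U₀ ^ 2 * tm ^ 2)) :
    ∃ q' U' Gx' Gy', vI (ex (xy x y)) ≤ q' ∧ Ng η δ U' (l / 4 - 1) (l / 4 * k) q' ∧ 0 ≤ U' ∧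
      U' ≤ U₀ ∧ Inv (Ex m n) (xy x y) δ q' (C * t) Gx' ∧ Inv (Ey m n) (xy x y) δ q' (C * t) Gy' ∧
      rk Gx + rk Gy + 1 ≤ rk Gx' + rk Gy' := by
  have b0 := p.hc₀
  have b1 := p.hc₁
  have b2 := p.hC
  have b3 := p.hZ
  have b4 := p.hB
  have b5 := p.hl
  have b6 := p.pos
  have b7 := Real.log_nonneg b4
  have b8 : 1 ≤ B ^ δ := one_le_pow₀ b4
  have b9 : 0 ≤ (1 + ρ) / δ := by have := p.r0; positivity
  have t1 : t ≤ C * t := le_mul_of_one_le_left (by linarith) b2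
  have t2 := t1.trans ht
  have t3 : C * t ^ 2 ≤ C * tm ^ 2 := by gcongr
  have t4 : C * U₀ ^ 2 * t ^ 2 ≤ C * U₀ ^ 2 * tm ^ 2 := by gcongr
  have r0 : 0 < c₀ * Real.exp (-U₀) := by positivity
  have r1 := p.r4
  have t0 : 0 ≤ tm := by linarith
  have k2 : l₀ * k ≤ l / 4 * k := by gcongr; linarith
  obtain ⟨F, f1, f2⟩ := p.rel U₀ t Gx Gy ht1 (t3.trans p.d3) (fun g hg => (hx g hg).1)
    (mx.anti subset_rfl t4) (my.anti subset_rfl t4)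
  obtain ⟨q₁, e1, e2, e3⟩ := hN.cut b4 p.hη (by linarith [p.hδ]) hU (by linarith) (h' := h')
    (by rw [sub_add_cancel, mul_assoc]; exact mul_le_mul_of_nonneg_left p.hk (by linarith))
    (F := F) fun f hf => by
      obtain ⟨g1, g2, g3⟩ := f1 f hf
      have g4 : f.totalDegree ≤ δ := by exact_mod_cast g1.trans (t3.trans p.d2)
      have g5 : C * U₀ ^ 2 ≤ c₀ * (B ^ δ * (C * U₀ ^ 2)) := by
        rw [← mul_assoc]
        exact le_mul_of_one_le_left (by positivity) (one_le_mul_of_one_le_of_one_le b0 b8)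
      refine ⟨g4, by linarith [p.h1], (norm_aeval_le b4 p.hθ r0 r1 p.cl g4).trans ?_⟩
      calc _ ≤ Real.exp (-U₀) + c₀ * Real.exp (-U₀) * (B ^ δ * (C * U₀ ^ 2)) := by gcongr
        _ = (1 + c₀ * (B ^ δ * (C * U₀ ^ 2))) * Real.exp (-U₀) := by ring
        _ ≤ Real.exp h' * Real.exp (-U) := by gcongr; exact p.h1
        _ = _ := by rw [← Real.exp_add, sub_eq_add_neg]
  obtain ⟨D₀, U', s1, s2, s3, s4, s5, s6⟩ := e2.step hL hH b4 p.hη p.hδ hU (by linarith) p.r0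
    (by nlinarith [p.k1]) (a' := l / 4 - 1) (k' := l / 4 * k) (by linarith) (by nlinarith [p.k1])
  obtain ⟨D, s1, s2, s5, s7⟩ : ∃ D, ρ ≤ D ∧ Near η q₁ D ∧ U' ≤ D / 2 + 1 ∧ D ≤ U₀ := by
    rcases le_total D₀ U₀ with h | h
    · exact ⟨D₀, s1, s2, s5, h⟩
    · obtain ⟨θ, a1, a2⟩ := s2
      exact ⟨U₀, p.r1, ⟨θ, fun i => (a1 i).trans (by gcongr), a2⟩, by linarith, le_rfl⟩
  obtain ⟨z, -, z2, z3, z4, z5, -⟩ := p.pt (hq.trans e1) s1 s7 s2 ht1 t2 (hx.mono e1 le_rfl)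
    (hy.mono e1 le_rfl)
  obtain ⟨a, u, a1, a2, a3, a4, a5⟩ := f2 z _ z3 z2 z5 fun f hf => by
    rw [← JB.aeval_hz _ δ]; exact z4 _ (e3 f hf)
  set σ := C * c₁ * (1 + c₀) * tm * Real.exp (-D / 2) with hσ
  have c5 : 1 ≤ C * c₁ * (1 + c₀) :=
    one_le_mul_of_one_le_of_one_le (one_le_mul_of_one_le_of_one_le b2 b1) (by linarith)
  have σ0 : 0 ≤ σ := by positivity
  have σ1 : Z * σ ≤ 1 := le_trans (by rw [hσ]; gcongr) p.r3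
  have σ2 : ‖lf a x‖ ≤ σ ∨ ‖lf u y‖ ≤ σ := by
    by_contra hc
    rw [not_or, not_le, not_le] at hc
    refine absurd (a5.trans ?_) (not_le.mpr (mul_lt_mul'' hc.1 hc.2 σ0 σ0))
    have e : Real.exp (-D) = Real.exp (-D / 2) * Real.exp (-D / 2) := by
      rw [← Real.exp_add, add_halves]
    calc _ = C * c₁ * (1 + c₀) * 1 * t ^ 2 * Real.exp (-D) := by ring
      _ ≤ C * c₁ * (1 + c₀) * (C * c₁ * (1 + c₀)) * tm ^ 2 * Real.exp (-D) := by gcongr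
      _ = _ := by rw [e, hσ]; ring
  have v1 : 2 ≤ Real.exp h' := by
    have : 0 ≤ 2 * (Z * (C * c₁ * (1 + c₀) * tm)) := by positivity
    nlinarith [p.h2, Real.exp_le_exp.mpr (show h' - 1 ≤ h' by linarith),
      one_le_mul_of_one_le_of_one_le b0 b8]
  have v2 : 2 * (Z * σ) + c₀ * Real.exp (-U₀) * (B ^ δ * 2) ≤ Real.exp (h' - U') := by
    calc _ ≤ 2 * (Z * σ) + c₀ * Real.exp (-D / 2) * (B ^ δ * 2) := by gcongr; linarith [p.r0]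
      _ = (2 * (Z * (C * c₁ * (1 + c₀) * tm)) + c₀ * (B ^ δ * 2)) * Real.exp (-D / 2) := by
        rw [hσ]; ring
      _ ≤ Real.exp (h' - 1) * Real.exp (-D / 2) := by gcongr; exact p.h2
      _ ≤ _ := by rw [← Real.exp_add]; gcongr; linarith
  have d1 : (m + n : ℕ) * (C * t) ≤ δ := le_trans (by gcongr) p.d1
  rcases σ2 with h | h
  · obtain ⟨q₂, g1, g2, g3⟩ := (hx.mono e1 t1).add (Bd_Ex (Nat.le_add_right m n)) s6 b4 p.hθ p.hη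
      (by linarith [p.hδ]) s3 (by linarith) p.hk r0 r1 p.cl a3 d1 (σ := Z * σ) (fun j => by
        rw [lf_Ex_xy, norm_mul, mul_comm]; exact mul_le_mul (p.hy j) h (norm_nonneg _) (by linarith))
      σ1 v1 v2
    exact ⟨q₂, U', _, Gy, (hq.trans e1).trans g1, g2, s3, by linarith, g3,
      hy.mono (e1.trans g1) t1, by linarith [rk_insert a1]⟩
  · obtain ⟨q₂, g1, g2, g3⟩ := (hy.mono e1 t1).add (Bd_Ey (Nat.le_add_left n m)) s6 b4 p.hθ p.hη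
      (by linarith [p.hδ]) s3 (by linarith) p.hk r0 r1 p.cl a4 d1 (σ := Z * σ) (fun i => by
        rw [lf_Ey_xy, norm_mul]; exact mul_le_mul (p.hx i) h (norm_nonneg _) (by linarith))
      σ1 v1 v2
    exact ⟨q₂, U', Gx, _, (hq.trans e1).trans g1, g2, s3, by linarith,
      hx.mono (e1.trans g1) t1, g3, by linarith [rk_insert a2]⟩

lemma Par.run (hL : StLow) (hH : StHalf) (p : Par x y η C c₀ c₁ Z B U₀ h' k ρ tm l₀ δ) {w : ℝ}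
    (w1 : c₁ * ((1 + c₀) * Real.exp (-ρ)) ≤ Real.exp (-Real.exp w))
    (w2 : C * U₀ ^ 2 * tm ^ 2 ≤ Real.exp (5.1 * w)) (d : ℕ) :
    ∀ (q : Ideal (MvPolynomial (Option ((Fin m × Fin n) ⊕ (Fin m × Fin n))) ℤ)) (t U l : ℝ)
      (Gx : Set (Fin m → ℤ)) (Gy : Set (Fin n → ℤ)), vI (ex (xy x y)) ≤ q →
      Ng η δ U (l - 1) (l * k) q → 0 ≤ U → U ≤ U₀ → 4 ^ d * l₀ ≤ l → 1 ≤ t → C ^ d * t ≤ tm →
      Inv (Ex m n) (xy x y) δ q t Gx → Inv (Ey m n) (xy x y) δ q t Gy →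
      m + n < rk Gx + rk Gy + d →
      (Many Gx t (C * U₀ ^ 2 * tm ^ 2) ∧ Many Gy t (C * U₀ ^ 2 * tm ^ 2) →
        Conf x y (rk Gx + rk Gy + 1) w) ∧ Conf x y (rk Gx + rk Gy) w := by
  induction d with
  | zero =>
    intro _ _ _ _ Gx Gy _ _ _ _ _ _ _ _ _ h
    have := rk_le Gx
    have := rk_le Gy
    omega
  | succ d ih =>
    intro q t U l Gx Gy hq hN hU hU' hl ht1 ht hx hy hr
    have b2 := p.hC
    have b5 := p.hl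
    have b6 := p.pos
    have a1 : 4 * l₀ ≤ l := le_trans (by gcongr; exact le_self_pow₀ (by norm_num) (by omega)) hl
    have a2 : C * t ≤ tm := le_trans (by gcongr; exact le_self_pow₀ b2 (by omega)) ht
    have t1 : t ≤ C * t := le_mul_of_one_le_left (by linarith) b2
    have key : Many Gx t (C * U₀ ^ 2 * tm ^ 2) ∧ Many Gy t (C * U₀ ^ 2 * tm ^ 2) →
        Conf x y (rk Gx + rk Gy + 1) w := fun hm => by
      obtain ⟨q', U', Gx', Gy', e1, e2, e3, e4, e5, e6, e7⟩ :=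
        p.step hL hH hq hN hU hU' a1 ht1 a2 hx hy hm.1 hm.2
      exact (ih q' (C * t) U' (l / 4) Gx' Gy' e1 e2 e3 e4 (by rw [pow_succ] at hl; linarith)
        (ht1.trans t1) (by rwa [← mul_assoc, ← pow_succ]) e5 e6 (by omega)).2.mono e7
    refine ⟨key, ?_⟩
    by_cases hm : Many Gx t (C * U₀ ^ 2 * tm ^ 2) ∧ Many Gy t (C * U₀ ^ 2 * tm ^ 2)
    · exact (key hm).mono (Nat.le_succ _)
    have k2 : l₀ * k ≤ l * k := by gcongr; linarith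
    obtain ⟨z, z1, z2, -, -, z5, z6⟩ := p.pt hq le_rfl p.r1 (hN.near p.hB p.hη p.hδ hU (by linarith)
      p.r0 (by linarith [p.k1, Real.log_nonneg p.hB])) ht1 (t1.trans a2) hx hy
    exact ⟨z, t, Gx, Gy, ht1, z1, fun i => (z2 i).trans w1, z5, z6, fun g hg => (hx g hg).1,
      fun g hg => (hy g hg).1, le_rfl,
      fun h => hm ⟨h.1.anti subset_rfl w2, h.2.anti subset_rfl w2⟩⟩

lemma ev_exp (A : ℝ) {a b : ℝ} (h : a < b) :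
    ∀ᶠ w : ℝ in atTop, A * Real.exp (a * w) ≤ Real.exp (b * w) := by
  filter_upwards [eventually_ge_atTop (A / (b - a))] with w hw
  rw [div_le_iff₀ (by linarith)] at hw
  rw [show b * w = w * (b - a) + a * w by ring, Real.exp_add]
  gcongr
  linarith [Real.add_one_le_exp (w * (b - a))]

lemma ev_exp2 (A : ℝ) : ∀ᶠ w : ℝ in atTop,
    A * Real.exp (w / 4) * Real.exp (-Real.exp (0.495 * w) / 2) ≤ 1 := by
  filter_upwards [ev_exp (2 * (|A| + 1)) (show (0.25 : ℝ) < 0.495 by norm_num),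
    eventually_ge_atTop 0] with w h1 h2
  rw [mul_assoc, ← Real.exp_add]
  have h3 := Real.add_one_le_exp (0.25 * w)
  have h4 : Real.exp (w / 4 + -Real.exp (0.495 * w) / 2) ≤ Real.exp (-|A|) := by
    gcongr
    nlinarith [abs_nonneg A]
  have h5 := Real.add_one_le_exp |A|
  have h6 : Real.exp |A| * Real.exp (-|A|) = 1 := by rw [← Real.exp_add]; simp
  nlinarith [le_abs_self A, Real.exp_pos (w / 4 + -Real.exp (0.495 * w) / 2), abs_nonneg A]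

lemma num1 {C c₀ c Z Bd e U tm : ℝ} (hC : 1 ≤ C) (h0 : 1 ≤ c₀) (hc : 1 ≤ c) (hZ : 1 ≤ Z)
    (hB : 1 ≤ Bd) (he : 1 ≤ e) (hU : 1 ≤ U) (ht : tm ≤ e) :
    1 + c₀ * (Bd * (C * U)) ≤ Bd * e * U * (2 * (Z * c) + 2 * c₀ + 1 + c₀ * C) ∧
    2 * (Z * (c * tm)) + c₀ * (Bd * 2) ≤ Bd * e * U * (2 * (Z * c) + 2 * c₀ + 1 + c₀ * C) := by
  have y1 : Bd * U ≤ Bd * e * U := by
    rw [mul_right_comm]; exact le_mul_of_one_le_right (by positivity) he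
  have y2 : Bd ≤ Bd * e * U := le_trans (le_mul_of_one_le_right (by positivity) hU) y1
  have y3 : tm ≤ Bd * e * U := ht.trans (le_trans (le_mul_of_one_le_left (by positivity) hB)
    (le_mul_of_one_le_right (by positivity) hU))
  generalize Bd * e * U = Y at y1 y2 y3
  have z1 : 0 ≤ Z * c := by positivity
  have z2 : 0 ≤ c₀ * C := by positivity
  have z3 : 0 ≤ Y := by linarith
  constructor
  · nlinarith [mul_le_mul_of_nonneg_left y1 z2, mul_nonneg z1 z3]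
  · nlinarith [mul_le_mul_of_nonneg_left y3 z1, mul_nonneg z2 z3,
      mul_le_mul_of_nonneg_left y2 (by linarith : 0 ≤ c₀)]

lemma num2 {b δ w a c V : ℝ} (hb : 0 ≤ b) (hδ : 2 ≤ δ) (hw : 0 ≤ w) (ha : 0 ≤ a) (hc : 0 ≤ c)
    (hV : 0.495 * w + 1 ≤ V) : ∃ k l₀ : ℝ,
    δ * (b + 1) + 2 * w + a + 1 + 1 + δ * b ≤ k * δ ∧ 1 ≤ l₀ ∧ 0 ≤ k ∧
      12 * (b + 1) + (1 + (V + c)) / δ ≤ l₀ * k ∧
      l₀ + l₀ * k ≤ 2 * (14 * (b + 1) + (a + 3 + c) + 6) * V := by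
  obtain ⟨k, k1, k2, k3⟩ : ∃ k : ℝ, δ * (b + 1) + 2 * w + a + 1 + 1 + δ * b ≤ k * δ ∧
      12 * (b + 1) ≤ k ∧ k ≤ 14 * (b + 1) + 2 * w + a + 2 :=
    ⟨14 * (b + 1) + 2 * w + a + 2, by nlinarith, by linarith, le_rfl⟩
  have v0 : 0 ≤ V := by linarith
  have u1 : 0 ≤ (1 + (V + c)) / δ := by positivity
  have u2 : (1 + (V + c)) / δ ≤ 1 + (V + c) := div_le_self (by positivity) (by linarith)
  generalize (1 + (V + c)) / δ = u at u1 u2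
  have k4 : (1 + u / k) * k = k + u := by rw [add_mul, one_mul, div_mul_cancel₀ _ (by linarith)]
  have k5 : 1 ≤ 1 + u / k := le_add_of_nonneg_right (div_nonneg u1 (by linarith))
  refine ⟨k, 1 + u / k, k1, k5, by linarith, by linarith, ?_⟩
  have k6 : 1 + u / k ≤ (1 + u / k) * k := le_mul_of_one_le_right (by linarith) (by linarith)
  have k7 : 0 ≤ (14 * (b + 1) + (a + 3 + c)) * (V - 1) := mul_nonneg (by positivity) (by linarith)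
  nlinarith

lemma num3 {C t : ℝ} {d : ℕ} (hC : 1 ≤ C) (ht : 1 ≤ t) (hd : 1 ≤ d) : ∃ δ : ℕ, 2 ≤ δ ∧
    d * (C ^ d * t) ≤ δ ∧ C * (C ^ d * t) ^ 2 ≤ δ ∧ C ^ d * t ≤ δ ∧
      δ ≤ 2 * (2 + (d + C) * (C ^ d) ^ 2) * t ^ 2 := by
  have d0 : (1 : ℝ) ≤ d := by exact_mod_cast hd
  have m1 : 1 ≤ C ^ d * t := one_le_mul_of_one_le_of_one_le (one_le_pow₀ hC) ht
  have m2 : C ^ d * t ≤ (C ^ d * t) ^ 2 := le_self_pow₀ m1 two_ne_zero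
  have t4 : 1 ≤ t ^ 2 := one_le_pow₀ ht
  have e : (2 + (d + C) * (C ^ d) ^ 2) * t ^ 2 = 2 * t ^ 2 + (d + C) * (C ^ d * t) ^ 2 := by ring
  have d1 := Nat.le_ceil ((2 + (d + C) * (C ^ d) ^ 2) * t ^ 2)
  have d2 := (Nat.ceil_lt_add_one
    (show 0 ≤ (2 + (d + C) * (C ^ d) ^ 2) * t ^ 2 by positivity)).le
  generalize ⌈(2 + (d + C) * (C ^ d) ^ 2) * t ^ 2⌉₊ = δ at d1 d2
  rw [mul_assoc 2]
  rw [e] at d1 d2 ⊢
  generalize C ^ d * t = tm at *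
  have a1 : d * tm ≤ d * tm ^ 2 := by gcongr
  have a2 : tm ≤ d * tm := le_mul_of_one_le_left (by linarith) d0
  have a3 : 0 ≤ C * tm ^ 2 := by positivity
  refine ⟨δ, ?_, by nlinarith, by nlinarith, by nlinarith, by nlinarith⟩
  have : (2 : ℝ) ≤ δ := by nlinarith
  exact_mod_cast this

lemma num (C c₀ c₁ Z B : ℝ) (d N T : ℕ) (hC : 1 ≤ C) (hc₀ : 1 ≤ c₀) (hc₁ : 1 ≤ c₁) (hZ : 1 ≤ Z)
    (hB : 1 ≤ B) (hd : 1 ≤ d) : ∀ᶠ w : ℝ in atTop, ∀ (τ : ℕ) (α s U₀ tm : ℝ), τ ≤ T → 0 ≤ α →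
    0 ≤ s → α + (τ + 1) * s ≤ w / 4 + c₀ → U₀ = Real.exp w → tm = C ^ d * Real.exp s →
    ∃ (h' k ρ l₀ : ℝ) (δ : ℕ), 2 ≤ δ ∧ d * tm ≤ δ ∧ C * tm ^ 2 ≤ δ ∧ C * tm ^ 2 ≤ U₀ ∧
      1 + c₀ * (B ^ δ * (C * U₀ ^ 2)) ≤ Real.exp h' ∧
      2 * (Z * (C * c₁ * (1 + c₀) * tm)) + c₀ * (B ^ δ * 2) ≤ Real.exp (h' - 1) ∧
      h' + 1 + δ * Real.log B ≤ k * δ ∧ 1 ≤ l₀ ∧ 0 ≤ k ∧
      12 * (Real.log B + 1) + (1 + ρ) / δ ≤ l₀ * k ∧ 0 ≤ ρ ∧ ρ ≤ U₀ ∧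
      d * tm * (c₁ * ((1 + c₀) * Real.exp (-ρ))) ≤ 1 ∧
      Z * (C * c₁ * (1 + c₀) * tm * Real.exp (-ρ / 2)) ≤ 1 ∧ c₀ * Real.exp (-U₀) ≤ 1 ∧
      c₁ * ((1 + c₀) * Real.exp (-ρ)) ≤ Real.exp (-Real.exp (0.495 * w)) ∧
      C * U₀ ^ 2 * tm ^ 2 ≤ Real.exp (5.1 * (0.495 * w)) ∧
      C * U₀ ^ 2 * tm ^ 2 ≤ Real.exp (3 * w) ∧
      (8 * (8 * (τ + 1)) ^ τ * (Real.exp α + 1) + 8 * (Real.log B + N)) * δ ^ (τ + 1) *
        (1 + (4 ^ d * l₀ - 1) + 4 ^ d * l₀ * k) ≤ U₀ := by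
  have hb := Real.log_nonneg hB
  have hCd : 1 ≤ C ^ d := one_le_pow₀ hC
  have c1 : 1 ≤ c₁ * (1 + c₀) := one_le_mul_of_one_le_of_one_le hc₁ (by linarith)
  obtain ⟨c₂, hc₂⟩ : ∃ c, c = C * c₁ * (1 + c₀) := ⟨_, rfl⟩
  have c2 : 1 ≤ c₂ := by rw [hc₂, mul_assoc]; exact one_le_mul_of_one_le_of_one_le hC c1
  obtain ⟨c₃, hc₃⟩ : ∃ c : ℝ, c = 2 + (d + C) * (C ^ d) ^ 2 := ⟨_, rfl⟩
  have c3 : 2 ≤ c₃ := hc₃ ▸ le_add_of_nonneg_right (by positivity)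
  obtain ⟨c₄, hc₄⟩ : ∃ c, c = 2 * (Z * c₂) + 2 * c₀ + 1 + c₀ * C := ⟨_, rfl⟩
  have c4 : 1 ≤ c₄ := by
    have z1 : 0 ≤ Z * c₂ := by positivity
    have z2 : 0 ≤ c₀ * C := by positivity
    linarith
  have l4 := Real.log_nonneg c4
  obtain ⟨c₅, hc₅⟩ : ∃ c, c = Real.log (c₁ * (1 + c₀)) := ⟨_, rfl⟩
  have c5 : 0 ≤ c₅ := hc₅ ▸ Real.log_nonneg c1
  obtain ⟨c₆, hc₆⟩ : ∃ c : ℝ, c = 8 * (8 * (T + 1)) ^ T * 2 + 8 * (Real.log B + N) := ⟨_, rfl⟩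
  have c6 : 0 ≤ c₆ := by rw [hc₆]; positivity
  obtain ⟨c₇, hc₇⟩ : ∃ c, c = 14 * (Real.log B + 1) + (Real.log c₄ + 3 + c₅) + 6 := ⟨_, rfl⟩
  have c7 : 0 ≤ c₇ := by rw [hc₇]; positivity
  have e0 := Real.exp_pos c₀
  filter_upwards [eventually_ge_atTop 0,
    ev_exp (C * (C ^ d * Real.exp c₀) ^ 2) (show (0.5 : ℝ) < 1 by norm_num),
    ev_exp (C * (C ^ d * Real.exp c₀) ^ 2) (show (2.5 : ℝ) < 5.1 * 0.495 by norm_num),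
    ev_exp (1 + c₅) (show (0.495 : ℝ) < 1 by norm_num),
    ev_exp (c₆ * (2 * c₃) ^ (T + 1) * Real.exp c₀ ^ 2 * (4 ^ d * (2 * c₇)))
      (show (0.995 : ℝ) < 1 by norm_num),
    ev_exp2 (d * (C ^ d * Real.exp c₀)), ev_exp2 (Z * (c₂ * (C ^ d * Real.exp c₀))), ev_exp2 c₀]
    with w w0 w1 w2 w3 w4 w5 w6 w7 τ α s U₀ tm hτ hα hs hw hU₀ htm
  rw [one_mul, ← hU₀] at w1 w3 w4
  rw [← hc₂]
  have V1 : 1 ≤ Real.exp (0.495 * w) := Real.one_le_exp (by positivity)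
  have V2 := Real.add_one_le_exp (0.495 * w)
  have v1 : Real.exp (0.995 * w) = Real.exp (w / 4) ^ 2 * Real.exp (0.495 * w) := by
    rw [← Real.exp_nat_mul, ← Real.exp_add]; congr 1; push_cast; ring
  have v2 : Real.exp (2.5 * w) = Real.exp (w / 4) ^ 2 * U₀ ^ 2 := by
    rw [hU₀, ← mul_pow, ← Real.exp_add, ← Real.exp_nat_mul]; congr 1; push_cast; ring
  have v3 : Real.exp (0.5 * w) = Real.exp (w / 4) ^ 2 := by
    rw [← Real.exp_nat_mul]; congr 1; push_cast; ring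
  have v4 : Real.exp (2 * w) = U₀ ^ 2 := by rw [hU₀, ← Real.exp_nat_mul]; norm_num
  have q1 : 1 ≤ Real.exp (w / 4) := Real.one_le_exp (by positivity)
  have t1 := Real.one_le_exp hs
  have a1 := Real.one_le_exp hα
  have t2 : Real.exp α * Real.exp s ^ (τ + 1) ≤ Real.exp c₀ * Real.exp (w / 4) := by
    rw [← Real.exp_nat_mul, ← Real.exp_add, ← Real.exp_add]
    exact Real.exp_le_exp.mpr (by push_cast; linarith)
  rw [v1] at w4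
  rw [v2, mul_assoc 5.1] at w2
  rw [v3] at w1
  generalize Real.exp (0.495 * w) = V at *
  generalize Real.exp (w / 4) = Q at *
  generalize Real.exp s = t at *
  generalize Real.exp α = A at *
  generalize Real.exp c₀ = e₀ at *
  have V3 : V + c₅ ≤ U₀ := by linarith [le_mul_of_one_le_right c5 V1]
  have t3 : t ≤ e₀ * Q := le_trans ((le_self_pow₀ t1 (by omega)).trans
    (le_mul_of_one_le_left (by positivity) a1)) t2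
  have m1 : 1 ≤ tm := htm ▸ one_le_mul_of_one_le_of_one_le hCd t1
  have m2 : tm ≤ C ^ d * e₀ * Q := by rw [mul_assoc, htm]; gcongr
  have m3 : C * tm ^ 2 ≤ C * (C ^ d * e₀) ^ 2 * Q ^ 2 := by rw [mul_assoc, ← mul_pow]; gcongr
  have m4 : C * U₀ ^ 2 * tm ^ 2 ≤ Real.exp (5.1 * (0.495 * w)) := by
    calc _ = C * tm ^ 2 * U₀ ^ 2 := by ring
      _ ≤ C * (C ^ d * e₀) ^ 2 * Q ^ 2 * U₀ ^ 2 := by gcongr
      _ ≤ _ := by rw [mul_assoc]; exact w2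
  obtain ⟨δ, d1, d2, d3, d4, d5⟩ := num3 hC t1 hd
  rw [← htm] at d2 d3 d4
  rw [← hc₃] at d5
  have d6 : (2 : ℝ) ≤ δ := by exact_mod_cast d1
  obtain ⟨k, l₀, k1, k2, k3, k4, k5⟩ := num2 hb d6 w0 l4 c5 V2
  rw [← hc₇] at k5
  have r1 : c₁ * ((1 + c₀) * Real.exp (-(V + c₅))) = Real.exp (-V) := by
    rw [neg_add, Real.exp_add, Real.exp_neg c₅, hc₅, Real.exp_log (by positivity)]
    field_simp
  have r2 : Real.exp (-V) ≤ Real.exp (-V / 2) := Real.exp_le_exp.mpr (by linarith)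
  have h1 : Real.exp (δ * (Real.log B + 1) + 2 * w + Real.log c₄) =
      B ^ δ * Real.exp δ * U₀ ^ 2 * c₄ := by
    rw [Real.exp_add, Real.exp_add, mul_add, mul_one, Real.exp_add, Real.exp_nat_mul,
      Real.exp_log (by linarith), Real.exp_log (by linarith), v4]
  obtain ⟨h2, h3⟩ := num1 hC hc₀ c2 hZ (one_le_pow₀ (n := δ) hB) (Real.one_le_exp δ.cast_nonneg)
    (one_le_pow₀ (n := 2) (show 1 ≤ U₀ by linarith))
    (show tm ≤ Real.exp δ by linarith [Real.add_one_le_exp (δ : ℝ)])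
  rw [← hc₄, ← h1] at h2 h3
  refine ⟨δ * (Real.log B + 1) + 2 * w + Real.log c₄ + 1, k, V + c₅, l₀, δ, d1, d2, d3,
    m3.trans w1, h2.trans (Real.exp_le_exp.mpr (by linarith)), by rwa [add_sub_cancel_right],
    k1, k2, k3, k4, by linarith, V3, ?_, ?_, ?_, r1.le, m4,
    m4.trans (Real.exp_le_exp.mpr (by linarith)), le_trans ?_ w4⟩
  · rw [r1]
    exact le_trans (by rw [mul_assoc (d : ℝ) (C ^ d * e₀)]; gcongr) w5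
  · refine le_trans ?_ w6
    rw [mul_assoc Z, mul_assoc Z, mul_assoc c₂ (C ^ d * e₀)]
    gcongr
    linarith
  · refine le_trans ?_ w7
    rw [mul_assoc]
    gcongr
    exact (Real.exp_le_exp.mpr (by linarith)).trans (le_mul_of_one_le_left (by positivity) q1)
  have s1 : 8 * (8 * (τ + 1 : ℝ)) ^ τ * (A + 1) + 8 * (Real.log B + N) ≤ c₆ * A := by
    have : (8 * (τ + 1 : ℝ)) ^ τ ≤ (8 * (T + 1)) ^ T :=
      (pow_le_pow_left₀ (by positivity) (by gcongr) τ).trans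
        (pow_le_pow_right₀ (by linarith [Nat.cast_nonneg (α := ℝ) T]) hτ)
    rw [hc₆, add_mul, mul_assoc _ 2]
    exact add_le_add (by gcongr; linarith) (le_mul_of_one_le_right (by positivity) a1)
  have s2 : A * δ ^ (τ + 1) ≤ (2 * c₃) ^ (T + 1) * (e₀ * Q) ^ 2 := by
    calc _ ≤ A ^ 2 * (2 * c₃ * t ^ 2) ^ (τ + 1) := by
          gcongr; exact le_self_pow₀ a1 two_ne_zero
      _ = (2 * c₃) ^ (τ + 1) * (A * t ^ (τ + 1)) ^ 2 := by ring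
      _ ≤ _ := by gcongr; linarith
  have s4 : 1 + (4 ^ d * l₀ - 1) + 4 ^ d * l₀ * k = 4 ^ d * (l₀ + l₀ * k) := by ring
  rw [s4]
  calc _ ≤ c₆ * A * δ ^ (τ + 1) * (4 ^ d * (2 * c₇ * V)) := by gcongr
    _ ≤ c₆ * ((2 * c₃) ^ (T + 1) * (e₀ * Q) ^ 2) * (4 ^ d * (2 * c₇ * V)) := by
        rw [mul_assoc c₆]; gcongr
    _ = _ := by ring

end KTemp

open KTemp in
theorem stTemp (hR : StRel) (hL : StLow) (hH : StHalf) : StTemp := by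
  intro m n T x y C'
  obtain ⟨C, hC, hrel⟩ := hR m n x y
  obtain ⟨c₁, hc₁, hlog⟩ := exists_logs (xy x y)
  obtain ⟨c₀, hc₀, hc₀'⟩ : ∃ c₀ : ℝ, 1 ≤ c₀ ∧ C' ≤ c₀ :=
    ⟨max 1 C', le_max_left _ _, le_max_right _ _⟩
  obtain ⟨Z, hZ, hx, hy⟩ : ∃ Z : ℝ, 1 ≤ Z ∧ (∀ i, ‖x i‖ ≤ Z) ∧ ∀ j, ‖y j‖ ≤ Z :=
    ⟨1 + ‖x‖ + ‖y‖, by linarith [norm_nonneg x, norm_nonneg y],
      fun i => by linarith [norm_le_pi_norm x i, norm_nonneg y],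
      fun j => by linarith [norm_le_pi_norm y j, norm_nonneg x]⟩
  obtain ⟨B, hB, hθ⟩ : ∃ B : ℝ, 1 ≤ B ∧ ∀ i, ‖ex (xy x y) i‖ + 2 ≤ B :=
    ⟨‖ex (xy x y)‖ + 2, by linarith [norm_nonneg (ex (xy x y))],
      fun i => by linarith [norm_le_pi_norm (ex (xy x y)) i]⟩
  filter_upwards [num C c₀ c₁ Z B (m + n + 1)
    (Fintype.card ((Fin m × Fin n) ⊕ (Fin m × Fin n))) T hC hc₀ hc₁ hZ hB (by omega)] with w hw
  intro η τ α s Gx Gy hτ hTB hS hA hα hs hw' hη gx gy mx my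
  obtain ⟨h', k, ρ, l₀, δ, a1, a2, a3, a4, a5, a6, a7, a8, a9, a10, a11, a12, a13, a14, a15, a16,
    a17, a18, a19⟩ := hw τ α s _ _ hτ hα hs (by linarith) rfl rfl
  have t1 := Real.one_le_exp hs
  have t2 : Real.exp s ≤ C ^ (m + n + 1) * Real.exp s :=
    le_mul_of_one_le_left (by positivity) (one_le_pow₀ hC)
  have cl : ∀ i, ‖η i - ex (xy x y) i‖ ≤ c₀ * Real.exp (-Real.exp w) :=
    fun i => (hη i).trans (by gcongr)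
  have hη' : ∀ i, ‖η i‖ + 1 ≤ B := fun i => by
    linarith [norm_le_norm_add_norm_sub' (η i) (ex (xy x y) i), cl i, hθ i]
  have p : Par x y η C c₀ c₁ Z B _ h' k ρ _ l₀ δ :=
    ⟨hrel, hlog, hC, hc₀, hc₁, hZ, hx, hy, hB, fun i => by linarith [hθ i], hη', cl, a1,
      le_trans (mul_le_mul_of_nonneg_right (Nat.cast_le.mpr (Nat.le_succ _)) (by positivity)) a2,
      a3, a4, a5, a6, a7, a8, a10, a11, a12, a13, a14, a15⟩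
  have l2 : 1 ≤ 4 ^ (m + n + 1) * l₀ :=
    one_le_mul_of_one_le_of_one_le (one_le_pow₀ (by norm_num)) a8
  have inv : ∀ {m' : ℕ} {J : Type} (E : J → (Fin m' → ℤ) →ₗ[ℤ] Fin m × Fin n → ℤ)
      (G : Set (Fin m' → ℤ)), Bd E (m + n + 1) →
      (∀ g ∈ G, ‖g‖ ≤ Real.exp s ∧ Van E η g ∧ ∀ j, ‖lf (E j g) (xy x y)‖ ≤ 1) →
      Inv E (xy x y) δ (vI η) (Real.exp s) G := fun E G hE h g hg =>
    ⟨(h g hg).1, fun j => ⟨(hz_mem_vI (deg_le hE (le_trans (by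
      gcongr
      exact (h g hg).1.trans t2) a2) j)).mpr (by
        rw [map_sub, map_one, (h g hg).2.1 j, sub_self]), (h g hg).2.2 j⟩⟩
  exact (p.run hL hH a16 a17 (m + n + 1) (vI η) _ _ (4 ^ (m + n + 1) * l₀) Gx Gy hS.vI_le
    (start hTB hA hB hη' (by omega) (by linarith) (by positivity) a19)
    (by positivity) le_rfl le_rfl t1 le_rfl (inv _ _ (Bd_Ex (by omega)) gx)
    (inv _ _ (Bd_Ey (by omega)) gy) (by omega)).1 ⟨mx.anti subset_rfl a18, my.anti subset_rfl a18⟩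

end Pool.Agent.Lib.MP_12eca1_ag.Q
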