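import Pool.Agent.Lib.MP_12eca1_ag.Q.Basic

/-!
Few classes modulo the relations of an algebraic point.
-/

namespace Pool.Agent.Lib.MP_12eca1_ag.Q

open Filter Module P

namespace KTm

open Polynomial

variable {κ : Type} {η : κ → ℂ} {α δ D : ℝ} {γ : ℂ}

/-- the powers of `γ` are values of polynomials of slowly growing degree -/
def Pw (η : κ → ℂ) (γ : ℂ) (δ D : ℝ) : Prop :=
  ∀ k : ℕ, ∃ Q : MvPolynomial κ ℤ, (Q.totalDegree : ℝ) ≤ δ * k + D ∧ l1 Q ≤ 1 ∧
    MvPolynomial.aeval η Q = γ ^ k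

/-- counting digit expansions -/
lemma count (h : CN η 1 α) (hp : Pw η γ δ D) (hδ : 0 ≤ δ) : ∀ᶠ R : ℕ in atTop, ∀ k n m : ℕ,
    δ * (k * n) + D ≤ R → (n + 1) * m ≤ Real.exp R →
    (∀ Q : ℤ[X], Q ≠ 0 → Q.natDegree ≤ n → (∀ i, |Q.coeff i| ≤ m) → aeval (γ ^ k) Q ≠ 0) →
    ((m : ℝ) + 1) ^ (n + 1) ≤ Real.exp (Real.exp α * R) := by
  classical
  choose Q q1 q2 q3 using hp
  filter_upwards [h] with R hR k n m h1 h2 h3
  let v : (Fin (n + 1) → Fin (m + 1)) → ℂ := fun c =>
    aeval (γ ^ k) (ofFn (n + 1) fun j => ((c j : ℕ) : ℤ))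
  have hinj : Function.Injective v := by
    intro c c' hc
    by_contra hne
    refine h3 (ofFn (n + 1) ((fun j => ((c j : ℕ) : ℤ)) - fun j => ((c' j : ℕ) : ℤ))) ?_ ?_ ?_ ?_
    · intro h0
      have h4 := injective_ofFn (n + 1) (h0.trans (ofFn_zero _).symm)
      refine hne (funext fun j => Fin.ext ?_)
      have := congrFun h4 j
      simp only [Pi.sub_apply, Pi.zero_apply] at this
      omega
    · exact Nat.lt_succ_iff.mp (ofFn_natDegree_lt (by omega) _)
    · intro i
      rcases lt_or_ge i (n + 1) with hi | hi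
      · rw [ofFn_coeff_eq_val_of_lt _ hi, Pi.sub_apply, abs_le]
        have := (c ⟨i, hi⟩).2
        have := (c' ⟨i, hi⟩).2
        constructor <;> omega
      · rw [ofFn_coeff_eq_zero_of_ge _ hi]
        simp
    · rw [map_sub, map_sub]
      exact sub_eq_zero.2 hc
  have h4 := hR (Finset.univ.image v) (by
    intro w hw
    obtain ⟨c, -, rfl⟩ := Finset.mem_image.mp hw
    refine ⟨∑ j : Fin (n + 1), MvPolynomial.C ((c j : ℕ) : ℤ) * Q (k * j), ?_, ?_, ?_⟩
    · refine MvPolynomial.totalDegree_finsetSum_le fun j _ =>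
        (MvPolynomial.totalDegree_mul _ _).trans ?_
      rw [MvPolynomial.totalDegree_C, zero_add, ← Nat.cast_le (α := ℝ)]
      refine (q1 _).trans (le_trans ?_ h1)
      push_cast
      gcongr
      exact Nat.lt_succ_iff.mp j.2
    · refine (l1_sum_le _ _).trans ((Finset.sum_le_card_nsmul _ _ (m : ℝ) fun j _ => ?_).trans ?_)
      · refine (l1_C_mul_le _ _).trans ((mul_le_of_le_one_right (norm_nonneg _) (q2 _)).trans ?_)
        rw [Int.norm_natCast]
        exact_mod_cast Nat.lt_succ_iff.mp (c j).2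
      · simpa using h2
    · simp only [v]
      rw [ofFn_eq_sum_monomial, map_sum, map_sum]
      refine Finset.sum_congr rfl fun j _ => ?_
      rw [map_mul, q3, aeval_monomial, pow_mul]
      simp)
  rw [Finset.card_image_of_injective _ hinj] at h4
  simpa using h4

lemma low_degree (h : CN η 1 α) (hp : Pw η γ δ D) (hδ : 0 ≤ δ) :
    ∃ P : ℚ[X], P ≠ 0 ∧ P.natDegree ≤ ⌊Real.exp α⌋₊ ∧ aeval γ P = 0 := by
  by_contra hc
  set d := ⌊Real.exp α⌋₊ with hd
  have h0 : Real.exp α < d + 1 := Nat.lt_floor_add_one _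
  obtain ⟨R, h1, h2, h3⟩ := ((count h hp hδ).and (tendsto_natCast_atTop_atTop.eventually
    ((eventually_ge_atTop (δ * d + D)).and
    (eventually_gt_atTop ((d + 1) * Real.log (d + 1) / (d + 1 - Real.exp α)))))).exists
  have hd0 : (0 : ℝ) < d + 1 := by positivity
  have h4 := h1 1 d ⌊Real.exp R / (d + 1)⌋₊ (by simpa using h2)
    (by rw [mul_comm, ← le_div_iff₀ hd0]; exact Nat.floor_le (by positivity))
    (fun Q hQ hq _ h5 => hc ⟨Q.map (algebraMap ℤ ℚ),
      (Polynomial.map_ne_zero_iff (algebraMap ℤ ℚ).injective_int).mpr hQ,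
      natDegree_map_le.trans hq, by rwa [aeval_map_algebraMap, ← pow_one γ]⟩)
  have h5 : (Real.exp R / (d + 1)) ^ (d + 1) ≤ Real.exp (Real.exp α * R) :=
    (pow_le_pow_left₀ (by positivity) (Nat.lt_floor_add_one _).le _).trans h4
  rw [← Real.exp_log hd0, ← Real.exp_sub, ← Real.exp_nat_mul, Real.exp_le_exp] at h5
  rw [div_lt_iff₀ (by linarith)] at h3
  push_cast at h5
  nlinarith

lemma lower {w : ℂ} {Z : ℝ} (h : CN η 1 α) (hα : 0 ≤ α) (hp : Pw η (Complex.exp w) δ D)
    (hδ : 0 < δ) (hZ : 1 ≤ Z) (hw : ‖w‖ ≤ Z * δ) (h0 : w ≠ 0) :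
    1 ≤ 100 * Real.exp α ^ 3 * (Z * δ) := by
  obtain ⟨P, hP, hd, hr⟩ := low_degree h hp hδ.le
  have e1 : 1 ≤ Real.exp α := Real.one_le_exp hα
  have e2 : ((⌊Real.exp α⌋₊ : ℕ) : ℝ) ≤ Real.exp α := Nat.floor_le (by positivity)
  rcases stDob _ _ P (Complex.exp_ne_zero _) hP hd hr with ⟨j, j0, j1, j2⟩ | ⟨k, k0, k1, k2⟩
  · rw [← Complex.exp_nat_mul, Complex.exp_eq_one_iff] at j2
    obtain ⟨n, hn⟩ := j2
    have hn0 : n ≠ 0 := by
      rintro rfl
      simp [h0, j0.ne'] at hn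
    have h1 := congrArg norm hn
    have h2 : (1 : ℝ) ≤ |(n : ℝ)| := by exact_mod_cast Int.one_le_abs hn0
    simp only [norm_mul, Complex.norm_natCast, Complex.norm_intCast, Complex.norm_I,
      Complex.norm_real, Complex.norm_ofNat, Real.norm_of_nonneg Real.pi_pos.le] at h1
    have h3 : (j : ℝ) ≤ 2 * Real.exp α ^ 3 := by
      have : (j : ℝ) ≤ 2 * ((⌊Real.exp α⌋₊ : ℕ) : ℝ) ^ 2 := by exact_mod_cast j1
      refine this.trans (mul_le_mul_of_nonneg_left ?_ zero_le_two)
      exact (pow_le_pow_left₀ (by positivity) e2 2).trans (pow_le_pow_right₀ e1 (by norm_num))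
    have h4 : (j : ℝ) * ‖w‖ ≤ 2 * Real.exp α ^ 3 * (Z * δ) :=
      mul_le_mul h3 hw (norm_nonneg _) (by positivity)
    nlinarith [Real.pi_gt_three]
  · have hk : (0 : ℝ) < k := by exact_mod_cast k0
    have hk1 : (1 : ℝ) ≤ k := by exact_mod_cast k0
    obtain ⟨R, h1, h2, h3, h9⟩ := ((count h hp hδ.le).and (tendsto_natCast_atTop_atTop.eventually
      ((eventually_ge_atTop (1 / δ)).and ((eventually_gt_atTop (0 : ℝ)).and
      (eventually_ge_atTop (2 * D)))))).exists
    have hf : ((⌊R / (2 * k * δ)⌋₊ : ℕ) : ℝ) ≤ R / (2 * k * δ) := Nat.floor_le (by positivity)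
    have h4 := h1 k ⌊R / (2 * k * δ)⌋₊ 1
      (by
        rw [le_div_iff₀ (by positivity)] at hf
        linarith)
      (by
        have h5 : R / (2 * k * δ) ≤ (R : ℝ) ^ 2 / 2 := by
          rw [div_le_iff₀ hδ] at h2
          rw [div_le_iff₀ (by positivity)]
          nlinarith [mul_le_mul_of_nonneg_right hk1 (show 0 ≤ (R : ℝ) * (R * δ) by positivity)]
        have := Real.quadratic_le_exp_of_nonneg h3.le
        push_cast
        linarith)
      (fun Q hQ _ hc => k2 Q hQ (by exact_mod_cast hc))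
    have h5 := (Nat.lt_floor_add_one (R / (2 * k * δ))).le
    generalize ⌊R / (2 * k * δ)⌋₊ = n at h4 h5
    rw [Nat.cast_one, one_add_one_eq_two, ← Real.exp_log two_pos, ← Real.exp_nat_mul,
      Real.exp_le_exp] at h4
    push_cast at h4
    have l2 := Real.log_two_gt_d9
    have h6 : R / (2 * k * δ) * (1 / 2) ≤ Real.exp α * R :=
      (mul_le_mul h5 (by linarith) (by norm_num) (by positivity)).trans h4
    rw [div_mul_eq_mul_div, div_le_iff₀ (by positivity)] at h6
    have h7 : 1 / 2 ≤ Real.exp α * (2 * k * δ) := by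
      refine le_of_mul_le_mul_left (h6.trans (le_of_eq ?_)) h3
      ring
    have h8 : (k : ℝ) ≤ 24 * Real.exp α ^ 2 := by
      have : (k : ℝ) ≤ 24 * ((⌊Real.exp α⌋₊ : ℕ) : ℝ) ^ 2 := by exact_mod_cast k1
      refine this.trans (mul_le_mul_of_nonneg_left ?_ (by norm_num))
      exact pow_le_pow_left₀ (by positivity) e2 2
    have h10 : Real.exp α * (2 * k * δ) ≤
        Real.exp α * (2 * (24 * Real.exp α ^ 2) * (Z * δ)) := by
      gcongr
      exact le_mul_of_one_le_left hδ.le hZ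
    have : 0 ≤ Real.exp α ^ 3 * (Z * δ) := by positivity
    nlinarith

lemma rk_le_finrank {m : ℕ} (S : Submodule ℤ (Fin m → ℤ)) : rk (S : Set (Fin m → ℤ)) ≤
    finrank ℤ S := by
  let b := Module.finBasis ℤ S
  have h : rsp (S : Set (Fin m → ℤ)) ≤ Submodule.span ℝ (Set.range fun i => cst (b i).1) := by
    refine Submodule.span_le.2 ?_
    rintro _ ⟨a, ha, rfl⟩
    have h1 := congrArg (cstL m ∘ₗ S.subtype) (b.sum_repr ⟨a, ha⟩)
    rw [map_sum] at h1
    rw [show cst a = _ from h1.symm]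
    refine Submodule.sum_mem _ fun i _ => ?_
    rw [map_smul]
    exact Submodule.smul_of_tower_mem _ _ (Submodule.subset_span ⟨i, rfl⟩)
  exact (Submodule.finrank_mono h).trans ((finrank_range_le_card _).trans (Fintype.card_fin _).le)

/-- a family that is injective modulo `N` in the image -/
lemma pack {m : ℕ} {V : Type} [AddCommGroup V] [IsAddTorsionFree V] (ζ : (Fin m → ℤ) →ₗ[ℤ] V)
    {N : ℕ} (hN : 1 ≤ N) (A : Finset (Fin m → ℤ))
    (h : ∀ a ∈ A, ∀ a' ∈ A, ∀ b, ζ (a - a') = (N : ℤ) • ζ b → a = a') :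
    A.card ≤ N ^ (m - rk (LinearMap.ker ζ : Set (Fin m → ℤ))) := by
  classical
  have h1 := (LinearMap.ker ζ).finrank_quotient_add_finrank
  rw [ζ.quotKerEquivRange.finrank_eq, finrank_fin_fun] at h1
  have h2 := rk_le_finrank (LinearMap.ker ζ)
  refine le_trans ?_ (Nat.pow_le_pow_right hN (show finrank ℤ (LinearMap.range ζ) ≤ _ by omega))
  let b := Module.finBasis ℤ (LinearMap.range ζ)
  have : NeZero N := ⟨by omega⟩
  let f : A → Fin (finrank ℤ (LinearMap.range ζ)) → ZMod N := fun a i =>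
    (b.repr (ζ.rangeRestrict a) i : ZMod N)
  have hf : Function.Injective f := by
    intro a a' haa
    have h3 : ∀ i, ∃ c : ℤ, b.repr (ζ.rangeRestrict a) i - b.repr (ζ.rangeRestrict a') i = N * c :=
      fun i => (ZMod.intCast_eq_intCast_iff_dvd_sub _ _ _).mp (congrFun haa i).symm
    choose c hc using h3
    have h4 : ζ.rangeRestrict a - ζ.rangeRestrict a' = (N : ℤ) • b.equivFun.symm c := by
      apply b.equivFun.injective
      rw [map_smul, b.equivFun.apply_symm_apply, map_sub]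
      ext i
      simpa using hc i
    obtain ⟨u, hu⟩ := (b.equivFun.symm c).2
    refine Subtype.ext (h a a.2 a' a'.2 u ?_)
    rw [hu, map_sub]
    exact congrArg Subtype.val h4
  simpa using Fintype.card_le_of_injective f hf

end KTm

theorem stTm : StTm := by
  intro m c Z
  have hc : (1 : ℝ) ≤ c + 1 := by linarith [c.cast_nonneg (α := ℝ)]
  have hZ : 1 ≤ |Z| + 1 := by linarith [abs_nonneg Z]
  have hcZ : 1 ≤ (c + 1) * (|Z| + 1) := one_le_mul_of_one_le_of_one_le hc hZ
  refine ⟨201 * ((c + 1) * (|Z| + 1)), by linarith, ?_⟩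
  intro J ι _ E z α t K hE hz hα hC ht ⟨A, h1, h2, h3⟩
  have e1 : 1 ≤ Real.exp (3 * α) := Real.one_le_exp (by linarith)
  have e2 : 1 ≤ (c + 1) * (|Z| + 1) * t * Real.exp (3 * α) :=
    one_le_mul_of_one_le_of_one_le (one_le_mul_of_one_le_of_one_le hcZ ht) e1
  set B := (c + 1) * (|Z| + 1) * t * Real.exp (3 * α) with hB
  set N := ⌊200 * B⌋₊ + 1 with hN
  have n1 : 200 * B < N := by rw [hN]; push_cast; exact Nat.lt_floor_add_one _
  have n2 : (N : ℝ) ≤ 201 * B := by
    rw [hN]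
    push_cast
    linarith [Nat.floor_le (show 0 ≤ 200 * B by linarith)]
  have n3 : (0 : ℝ) < N := by linarith
  let ζ : (Fin m → ℤ) →ₗ[ℤ] J → ℂ := LinearMap.pi fun j => lfL z ∘ₗ E j
  have hk : (LinearMap.ker ζ : Set (Fin m → ℤ)) = Ker E z := Set.ext fun a => funext_iff
  have h4 := KTm.pack ζ (show 1 ≤ N by omega) A fun a ha a' ha' b hb => by
    refine h3 a ha a' ha' (cst_mem_rsp fun j => ?_)
    have h5 : lf (E j (a - a')) z = N * lf (E j b) z := by simpa [ζ] using congrFun hb j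
    by_contra h0
    have h6 : ‖a - a'‖ ≤ 2 * t := (norm_sub_le _ _).trans (by linarith [h2 a ha, h2 a' ha'])
    have h7 : ‖lf (E j b) z‖ ≤ (|Z| + 1) * (2 * (c + 1) * t / N) := by
      rw [← mul_div_assoc, le_div_iff₀ n3, mul_comm _ (N : ℝ), ← Complex.norm_natCast, ← norm_mul,
        ← h5, mul_comm]
      refine (norm_lf_le _ (r := |Z| + 1) fun i => (hz i).trans (by linarith [le_abs_self Z])).trans
        (mul_le_mul_of_nonneg_right ((hE j _).trans ?_) (by linarith))
      nlinarith [c.cast_nonneg (α := ℝ)]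
    have h8 := KTm.lower (D := c * (N * ‖b‖)) hC hα (fun k => ⟨mon (E j
      (((k / N : ℕ) : ℤ) • (a - a') + ((k % N : ℕ) : ℤ) • b)), ?_, l1_mon _, ?_⟩)
      (show 0 < 2 * (c + 1) * t / N by positivity) hZ h7 fun e => h0 (by rw [h5, e, mul_zero])
    · rw [← Real.exp_nat_mul, Nat.cast_ofNat, ← mul_div_assoc, ← mul_div_assoc, one_le_div n3] at h8
      linarith
    · refine (deg_mon _).trans ((hE j _).trans ?_)
      have s1 : ‖((k / N : ℕ) : ℤ) • (a - a')‖ ≤ k / N * (2 * t) := by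
        rw [natCast_zsmul]
        exact norm_nsmul_le.trans (mul_le_mul Nat.cast_div_le h6 (norm_nonneg _) (by positivity))
      have s2 : ‖((k % N : ℕ) : ℤ) • b‖ ≤ N * ‖b‖ := by
        rw [natCast_zsmul]
        refine norm_nsmul_le.trans (mul_le_mul_of_nonneg_right ?_ (norm_nonneg _))
        exact_mod_cast (Nat.mod_lt k (by omega)).le
      refine (mul_le_mul_of_nonneg_left ((norm_add_le _ _).trans (add_le_add s1 s2))
        c.cast_nonneg).trans ?_
      have s3 : 2 * (c + 1) * t / N * k = (c + 1) * (k / N * (2 * t)) := by ring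
      have s4 : 0 ≤ k / N * (2 * t) := by positivity
      rw [s3]
      linarith
    · rw [aeval_mon, map_add, map_smul, map_smul, lf_add, lf_smul, lf_smul, h5,
        ← Complex.exp_nat_mul]
      congr 1
      have s5 : (k : ℂ) = N * (k / N : ℕ) + (k % N : ℕ) := by
        exact_mod_cast (Nat.div_add_mod k N).symm
      rw [Int.cast_natCast, Int.cast_natCast]
      linear_combination -s5 * lf (E j b) z
  rw [hk] at h4
  refine h1.trans (le_trans (Nat.cast_le.2 h4) ?_)
  rw [Nat.cast_pow]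
  exact pow_le_pow_left₀ n3.le (n2.trans (le_of_eq (by rw [hB]; ring))) _

end Pool.Agent.Lib.MP_12eca1_ag.Q
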