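import Pool.Agent.Lib.MP_12eca1_ag.Q.Basic
import Pool.Agent.Lib.MP_12eca1_ag.Acc

/-!
Intersections with subtori near a generic point, through an ultrapower of the complex numbers.
-/

namespace Pool.Agent.Lib.MP_12eca1_ag.Q

open MvPolynomial Filter Module P Topology

namespace KWZ

section ultra

variable {K : Type} [Field K] {U : Ultrafilter ℕ} {π : (ℕ → ℂ) →+* K}

lemma closed (hs : Function.Surjective π) : IsAlgClosed K := by
  refine IsAlgClosed.of_exists_root _ fun p hp hi => ?_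
  obtain ⟨q, rfl, h1, h2⟩ := Polynomial.lifts_and_degree_eq_and_monic (f := π)
    ((Polynomial.lifts_iff_coeff_lifts p).2 fun n => hs _) hp
  have h3 : ∀ s, ∃ z, (q.map (Pi.evalRingHom (fun _ => ℂ) s)).IsRoot z := fun s =>
    IsAlgClosed.exists_root _ (by
      rw [h2.degree_map, h1]
      exact (Polynomial.degree_pos_of_irreducible hi).ne')
  choose z hz using h3
  refine ⟨π z, ?_⟩
  rw [Polynomial.eval_map, Polynomial.eval₂_at_apply,
    show q.eval z = 0 from funext fun s => ?_, map_zero]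
  have := hz s
  rwa [Polynomial.IsRoot, Polynomial.eval_map, show z s = Pi.evalRingHom (fun _ => ℂ) s z from rfl,
    Polynomial.eval₂_at_apply] at this

lemma deriv [Algebra ℚ K] (hs : Function.Surjective π) (hk : ∀ f f', π f = π f' ↔ f =ᶠ[U] f')
    (d : ℕ → Derivation ℚ ℂ ℂ) :
    ∃ D : Derivation ℚ K K, ∀ f, D (π f) = π fun s => d s (f s) := by
  let D : K → K := fun x => π fun s => d s (Function.surjInv hs x s)
  have hD : ∀ f, D (π f) = π fun s => d s (f s) := fun f => (hk _ _).2 (by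
    filter_upwards [(hk _ _).1 (Function.surjInv_eq hs (π f))] with s h
    rw [h])
  refine ⟨Derivation.mk' (AddMonoidHom.mk' D fun x y => ?_).toRatLinearMap fun x y => ?_, hD⟩
  · obtain ⟨f, rfl⟩ := hs x
    obtain ⟨g, rfl⟩ := hs y
    rw [← map_add, hD, hD, hD, ← map_add]
    exact congrArg π (funext fun s => by simp)
  · obtain ⟨f, rfl⟩ := hs x
    obtain ⟨g, rfl⟩ := hs y
    change D _ = _ • D _ + _ • D _
    rw [← map_mul, hD, hD, hD, smul_eq_mul, smul_eq_mul, ← map_mul, ← map_mul, ← map_add]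
    exact congrArg π (funext fun s => by simp)

end ultra

open scoped IntermediateField.algebraAdjoinAdjoin in
lemma emb {κ K : Type} [Field K] [Algebra ℚ K] (θ : κ → ℂ) (g : κ → K)
    (h : ∀ Q : MvPolynomial κ ℚ, aeval θ Q = 0 ↔ aeval g Q = 0) :
    ∃ φ : IntermediateField.adjoin ℚ (Set.range θ) →ₐ[ℚ] K,
      ∀ k, φ ⟨θ k, IntermediateField.subset_adjoin _ _ ⟨k, rfl⟩⟩ = g k := by
  have hmem : ∀ P : MvPolynomial κ ℚ, aeval θ P ∈ Algebra.adjoin ℚ (Set.range θ) := fun P => by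
    rw [Algebra.adjoin_range_eq_range_aeval]
    exact ⟨P, rfl⟩
  let p := (aeval θ).codRestrict _ hmem
  have hp : Function.Surjective p := by
    rintro ⟨x, hx⟩
    rw [Algebra.adjoin_range_eq_range_aeval] at hx
    obtain ⟨P, rfl⟩ := hx
    exact ⟨P, rfl⟩
  have hker : RingHom.ker p ≤ RingHom.ker (aeval g : MvPolynomial κ ℚ →ₐ[ℚ] K) := fun P hP =>
    (h P).1 (congrArg Subtype.val hP)
  let ψ := AlgHom.liftOfSurjective p hp (aeval g) hker
  have hψ : ∀ P, ψ (p P) = aeval g P := fun P => AlgHom.liftOfSurjective_apply p hp _ hker P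
  have hu : ∀ y : nonZeroDivisors (Algebra.adjoin ℚ (Set.range θ)), IsUnit (ψ y) := fun y => by
    obtain ⟨P, hP⟩ := hp y
    rw [← hP, hψ, isUnit_iff_ne_zero]
    exact fun h0 => nonZeroDivisors.coe_ne_zero y (hP.symm.trans (Subtype.ext ((h P).2 h0)))
  refine ⟨IsLocalization.liftAlgHom (M := nonZeroDivisors (Algebra.adjoin ℚ (Set.range θ))) hu, fun k => ?_⟩
  have h1 := IsLocalization.lift_eq (S := IntermediateField.adjoin ℚ (Set.range θ)) hu (p (X k))
  rw [show ψ.toRingHom (p (X k)) = g k from (hψ _).trans (aeval_X _ _)] at h1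
  refine Eq.trans (congrArg _ (Subtype.ext ?_)) h1
  exact (aeval_X θ k).symm

lemma rat {κ : Type} (G : AddSubgroup (κ → ℤ)) {μ : κ → ℤ} {S : Set (κ → ℂ)}
    (hS : ∀ v ∈ S, ∃ m ∈ G, v = fun k => (m k : ℂ))
    (h : (fun k => (μ k : ℂ)) ∈ Submodule.span ℂ S) : ∃ N : ℕ, 0 < N ∧ N • μ ∈ G := by
  obtain ⟨p, hp⟩ := Projective.exists_dual_eq_one ℚ (one_ne_zero (α := ℂ))
  have h1 : ∀ (c : ℂ) (n : ℤ), p (c * n) = n * p c := fun c n => by
    rw [mul_comm, ← zsmul_eq_mul, map_zsmul, zsmul_eq_mul]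
  have key : ∀ v ∈ Submodule.span ℂ S, ∀ c : ℂ, ∃ N : ℕ, 0 < N ∧ ∃ m ∈ G,
      ∀ k, (N : ℚ) * p (c * v k) = m k := fun v hv => by
    induction hv using Submodule.span_induction with
    | mem v hv =>
      intro c
      obtain ⟨m, hm, rfl⟩ := hS v hv
      refine ⟨(p c).den, (p c).pos, (p c).num • m, G.zsmul_mem hm _, fun k => ?_⟩
      rw [h1, mul_left_comm, Rat.den_mul_eq_num]
      simp [mul_comm]
    | zero => exact fun c => ⟨1, one_pos, 0, G.zero_mem, fun k => by simp⟩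
    | add v w _ _ hv hw =>
      intro c
      obtain ⟨N, hN, m, hm, e⟩ := hv c
      obtain ⟨N', hN', m', hm', e'⟩ := hw c
      refine ⟨N * N', by positivity, N' • m + N • m',
        G.add_mem (G.nsmul_mem hm _) (G.nsmul_mem hm' _), fun k => ?_⟩
      rw [Pi.add_apply, Pi.add_apply, Pi.smul_apply, Pi.smul_apply, mul_add, map_add, nsmul_eq_mul,
        nsmul_eq_mul]
      push_cast
      rw [← e, ← e']
      ring
    | smul a v _ hv =>
      intro c
      simpa only [Pi.smul_apply, smul_eq_mul, mul_assoc] using hv (c * a)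
  obtain ⟨N, hN, m, hm, e⟩ := key _ h 1
  refine ⟨N, hN, (funext fun k => ?_ : m = N • μ) ▸ hm⟩
  have := e k
  rw [h1, hp, mul_one] at this
  simp only [Pi.smul_apply, nsmul_eq_mul]
  exact_mod_cast this.symm

lemma prod_nsmul {κ : Type} [Fintype κ] (θ : κ → ℂ) (m : κ → ℤ) (N : ℕ) :
    ∏ k, θ k ^ (N • m) k = (∏ k, θ k ^ m k) ^ N := by
  rw [← Finset.prod_pow]
  exact Finset.prod_congr rfl fun k _ => by
    rw [Pi.smul_apply, nsmul_eq_mul, mul_comm, zpow_mul, zpow_natCast]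

lemma alg {κ : Type} [Fintype κ] {θ : κ → ℂ} (h0 : ∀ k, θ k ≠ 0) {μ : κ → ℤ} {S : Set (κ → ℂ)}
    {Y : Set ℂ} (hS : ∀ v ∈ S, ∃ m : κ → ℤ, ∏ k, θ k ^ m k ∈ Y ∧ v = fun k => (m k : ℂ))
    (h : (fun k => (μ k : ℂ)) ∈ Submodule.span ℂ S) :
    IsAlgebraic (Algebra.adjoin ℚ Y) (∏ k, θ k ^ μ k) := by
  let G : AddSubgroup (κ → ℤ) :=
    { carrier := {m | ∏ k, θ k ^ m k ∈ IntermediateField.adjoin ℚ Y}
      add_mem' := fun {a b} ha hb => by
        simp only [Set.mem_ofPred_eq, Pi.add_apply, zpow_add₀ (h0 _), Finset.prod_mul_distrib]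
        exact mul_mem ha hb
      zero_mem' := by simp
      neg_mem' := fun {a} ha => by
        simp only [Set.mem_ofPred_eq, Pi.neg_apply, zpow_neg, Finset.prod_inv_distrib]
        exact inv_mem ha }
  obtain ⟨N, hN, hm⟩ := rat G (fun v hv => (hS v hv).imp fun m hm =>
    ⟨IntermediateField.subset_adjoin _ _ hm.1, hm.2⟩) h
  refine IntermediateField.isAlgebraic_adjoin_iff.1 (IsAlgebraic.of_pow hN ?_)
  rw [← prod_nsmul]
  exact isAlgebraic_algebraMap (⟨_, hm⟩ : IntermediateField.adjoin ℚ Y)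

lemma many {Y : Set ℂ} {a e : ℕ} {v : Fin a → ℂ} (hv : AlgebraicIndependent ℚ v) (z : Fin e → ℂ)
    (h : ∀ l, IsAlgebraic (Algebra.adjoin ℚ (Y ∪ Set.range z)) (v l)) :
    ∃ w : Fin (a - e) → ℂ, (∀ j, w j ∈ Y) ∧ AlgebraicIndependent ℚ w := by
  obtain ⟨B, hB⟩ := (AlgebraicIndependent.matroid ℚ ℂ).exists_isBasis Y
  have h1 : (a : ℕ∞) ≤ B.encard + e := by
    calc (a : ℕ∞) ≤ (Set.range v).encard := by simpa using hv.injective.encard_range
      _ ≤ _ := (AlgebraicIndependent.matroid_indep_iff.2 hv.to_subtype_range).encard_le_eRk_of_subset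
          (X := (AlgebraicIndependent.matroid ℚ ℂ).closure (Y ∪ Set.range z)) (by
            rintro _ ⟨l, rfl⟩
            rw [AlgebraicIndependent.matroid_closure_eq]
            exact h l)
      _ ≤ _ := by
        rw [Matroid.eRk_closure_eq]
        refine (Matroid.eRk_union_le_eRk_add_encard _ _ _).trans ?_
        rw [hB.eRk_eq_encard]
        gcongr
        rw [← Set.image_univ]
        simpa using Set.encard_image_le z Set.univ
  obtain ⟨t, ht, h2⟩ := Set.exists_subset_encard_eq (k := ((a - e : ℕ) : ℕ∞)) (s := B) (by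
    rw [ENat.natCast_sub]
    exact tsub_le_iff_right.2 h1)
  have := (Set.finite_of_encard_eq_coe h2).to_subtype
  have h3 : Nat.card t = a - e := by
    rw [Nat.card_coe_set_eq, Set.ncard_def, h2, ENat.toNat_natCast]
  refine ⟨fun j => ((Finite.equivFinOfCardEq h3).symm j : ℂ), fun j => hB.subset (ht (Subtype.prop _)),
    AlgebraicIndependent.comp (AlgebraicIndependent.matroid_indep_iff.1 (hB.indep.subset ht)) _
      (Equiv.injective _)⟩

theorem core (h : StAx) {K : Type} [Field K] {U : Ultrafilter ℕ} {π : (ℕ → ℂ) →+* K}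
    (hs : Function.Surjective π) (hk : ∀ f f', π f = π f' ↔ f =ᶠ[U] f') (hU : U.toFilter ≤ atTop)
    {κ : Type} [Fintype κ] {θ : κ → ℂ} {T τ a : ℕ} (h0 : ∀ k, θ k ≠ 0) (hT : TB θ T)
    (e : Fin τ → κ) (η : ℕ → κ → ℂ) (μ : ℕ → Fin a → κ → ℤ) (h1 : ∀ s, Spec θ (η s))
    (h2 : Tendsto η atTop (𝓝 θ)) (h3 : ∀ s, AlgebraicIndependent ℚ (η s ∘ e))
    (h4 : ∀ s l, ∏ k, η s k ^ μ s l k = 1)
    (h5 : ∀ s, AlgebraicIndependent ℚ fun l => ∏ k, θ k ^ μ s l k) : a + τ ≤ T := by
  classical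
  have : CharZero K := charZero_of_injective_ringHom (π.comp (Pi.constRingHom ℕ ℂ)).injective
  have := closed hs
  have hd : ∀ s i, ∃ D : Derivation ℚ ℂ ℂ, ∀ j, D (η s (e j)) = if i = j then 1 else 0 :=
    fun s i => exists_derivation (η s ∘ e) _ fun P hP => by
      rw [(h3 s).eq_zero_of_aeval_eq_zero P hP]
      simp
  choose d hd using hd
  choose D hD using fun i => deriv hs hk fun s => d s i
  let C : IntermediateField ℚ K := ⨅ i, kerField (D i)
  have hC : ∀ z, z ∈ C ↔ ∀ i, D i z = 0 := fun z => by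
    simp only [C, iInf, IntermediateField.mem_sInf, Set.forall_mem_range, mem_kerField]
  have : CharZero C := algebraRat.charZero _
  let g : κ → K := fun k => π fun s => η s k
  obtain ⟨φ, hφ⟩ := emb θ g fun Q => by
    have e1 : aeval g Q = π fun s => aeval (η s) Q :=
      DFunLike.congr_fun (MvPolynomial.algHom_ext (f := aeval g)
        (g := π.toRatAlgHom.comp (AlgHom.pi fun s => aeval (η s))) fun k => by
          rw [aeval_X]
          exact congrArg π (funext fun s => (aeval_X _ _).symm)) Q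
    rw [e1, ← map_zero π, hk]
    refine ⟨fun hQ => .of_forall fun s => (h1 s).rat Q hQ, fun hQ => ?_⟩
    have c1 : Continuous fun x : κ → ℂ => aeval x Q := by
      simpa only [eval_map, aeval_def] using continuous_eval (map (algebraMap ℚ ℂ) Q)
    exact tendsto_nhds_unique_of_eventuallyEq (((c1.tendsto θ).comp h2).mono_left hU)
      tendsto_const_nhds hQ
  set t : κ → IntermediateField.adjoin ℚ (Set.range θ) :=
    fun k => ⟨θ k, IntermediateField.subset_adjoin _ _ ⟨k, rfl⟩⟩ with ht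
  have g0 : ∀ k, g k ≠ 0 := fun k => by
    rw [← hφ]
    exact (map_ne_zero φ).2 fun e => h0 k (congrArg Subtype.val e)
  have η0 : ∀ᶠ s in U, ∀ k, η s k ≠ 0 := eventually_all.2 fun k =>
    Ultrafilter.eventually_not.2 fun e => g0 k (((hk _ 0).2 e).trans (map_zero π))
  let ν : Fin a → κ → C := fun l k => ⟨π fun s => μ s l k, (hC _).2 fun i => by
    rw [hD, ← map_zero π]
    exact congrArg π (funext fun s => Derivation.map_intCast _ _)⟩
  let V := Submodule.span C {v : κ → C | ∃ m : κ → ℤ,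
    ∏ k, g k ^ m k ∈ Set.range (algebraMap C K) ∧ v = fun k => (m k : C)}
  obtain ⟨I, i0, hi0, i1, i2⟩ := exists_linearIndependent' C fun l => V.mkQ (ν l)
  have := Finite.of_injective i0 hi0
  let i : Fin (Nat.card I) → Fin a := i0 ∘ (Finite.equivFin I).symm
  obtain ⟨b, hb⟩ := h C K κ τ (Nat.card I)
    (fun i => overField (D i) C fun c => (hC _).1 c.2 i) g e (ν ∘ i)
    (fun z hz => ⟨⟨z, (hC z).2 hz⟩, rfl⟩) g0 (fun s s' => by
      change D s _ = _
      rw [hD]
      simp only [hd]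
      split_ifs
      exacts [map_one π, map_zero π]) (fun l j => by
      have e1 : ∀ k, D j (g k) / g k = π fun s => d s j (η s k) / η s k := fun k => by
        rw [div_eq_iff (g0 k), hD, ← map_mul, hk]
        filter_upwards [η0] with s hs
        exact (div_mul_cancel₀ _ (hs k)).symm
      change ∑ k, π _ * (D j (g k) / g k) = 0
      simp only [e1, ← map_mul]
      rw [← map_sum, ← map_zero π, hk]
      filter_upwards [η0] with s hs
      have := logDeriv_prod_zpow (d s j) (η s) hs (μ s (i l))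
      rw [h4, Derivation.map_one_eq_zero, zero_div] at this
      simpa using this.symm) fun c hc => by
      refine funext (Fintype.linearIndependent_iff.1
        (i2.comp _ (Finite.equivFin I).symm.injective) c ?_)
      have := (Submodule.Quotient.mk_eq_zero V).2 hc
      rw [← Submodule.mkQ_apply, map_sum] at this
      simp only [map_smul] at this
      exact this
  let S : ℕ → Set (κ → ℂ) := fun s => {v | ∃ m : κ → ℤ,
    (∏ k, g k ^ m k ∈ Set.range (algebraMap C K) ∨ ∃ j, m = μ s (i j)) ∧ v = fun k => (m k : ℂ)}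
  let W : Submodule C (κ → C) :=
    { carrier := {v | ∃ f : ℕ → κ → ℂ, (∀ k, (v k : K) = π fun s => f s k) ∧
        ∀ s, f s ∈ Submodule.span ℂ (S s)}
      add_mem' := fun ⟨f, f1, f2⟩ ⟨f', f1', f2'⟩ => ⟨f + f', fun k => by
        rw [Pi.add_apply, IntermediateField.coe_add, f1, f1', ← map_add]
        rfl, fun s => add_mem (f2 s) (f2' s)⟩
      zero_mem' := ⟨0, fun k => (map_zero π).symm, fun s => zero_mem _⟩
      smul_mem' := fun c _ ⟨f, f1, f2⟩ => by
        obtain ⟨c', hc⟩ := hs c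
        exact ⟨fun s => c' s • f s, fun k => by
          rw [Pi.smul_apply, smul_eq_mul, IntermediateField.coe_mul, f1, ← hc, ← map_mul]
          rfl, fun s => Submodule.smul_mem _ _ (f2 s)⟩ }
  have hVW : V ≤ W := Submodule.span_le.2 (by
    rintro _ ⟨m, hm, rfl⟩
    exact ⟨fun _ k => m k, fun k => (map_intCast π (m k)).symm,
      fun s => Submodule.subset_span ⟨m, Or.inl hm, rfl⟩⟩)
  have hW : ∀ l, ν l ∈ W := fun l => by
    have e1 : V.mkQ (ν l) ∈ W.map V.mkQ := by
      refine Submodule.span_le.2 ?_ (i1.ge (Submodule.subset_span ⟨l, rfl⟩))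
      rintro _ ⟨j, rfl⟩
      exact ⟨ν (i0 j), ⟨fun s k => μ s (i0 j) k, fun k => rfl, fun s => Submodule.subset_span
        ⟨_, Or.inr ⟨Finite.equivFin I j, by simp [i]⟩, rfl⟩⟩, rfl⟩
    rwa [← Submodule.mem_comap, Submodule.comap_map_mkQ, sup_eq_right.2 hVW] at e1
  obtain ⟨s, hs'⟩ : ∃ s, ∀ l, (fun k => (μ s l k : ℂ)) ∈ Submodule.span ℂ (S s) := by
    refine Eventually.exists (f := U.toFilter) (eventually_all.2 fun l => ?_)
    obtain ⟨f, f1, f2⟩ := hW l
    filter_upwards [eventually_all.2 fun k => (hk _ _).1 (f1 k)] with s hs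
    exact (funext hs : (fun k => (μ s l k : ℂ)) = f s) ▸ f2 s
  obtain ⟨w, w1, w2⟩ := many (Y := {y | ∃ m : κ → ℤ,
      ∏ k, g k ^ m k ∈ Set.range (algebraMap C K) ∧ y = ∏ k, θ k ^ m k}) (h5 s)
    (fun j => ∏ k, θ k ^ μ s (i j) k) fun l => alg h0 (by
      rintro _ ⟨m, hm | ⟨j, rfl⟩, rfl⟩
      exacts [⟨m, Or.inl ⟨m, hm, rfl⟩, rfl⟩, ⟨_, Or.inr ⟨j, rfl⟩, rfl⟩]) (hs' l)
  choose m m1 m2 using w1
  have e2 : ∀ j, φ (∏ k, t k ^ m j k) = ∏ k, g k ^ m j k := fun j => by
    simp only [map_prod, map_zpow₀, ht, hφ]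
  have e3 : AlgebraicIndependent ℚ fun j => ∏ k, t k ^ m j k :=
    AlgebraicIndependent.of_comp (IntermediateField.adjoin ℚ (Set.range θ)).val (by
      convert w2 using 1
      funext j
      rw [m2]
      exact (map_prod (IntermediateField.adjoin ℚ (Set.range θ)).subtype _ _).trans
        (Finset.prod_congr rfl fun k _ =>
          map_zpow₀ (IntermediateField.adjoin ℚ (Set.range θ)).subtype (t k) (m j k)))
  have e4 := (e3.map' (f := φ) φ.injective).sumElim_of_tower (S := C) (by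
    rintro _ ⟨j, rfl⟩
    rw [Function.comp_apply, e2]
    exact m1 j) hb
  have e5 : AlgebraicIndependent ℚ (Sum.elim (t ∘ b) fun j => ∏ k, t k ^ m j k) :=
    AlgebraicIndependent.of_comp φ (by
      convert e4 using 1
      funext x
      rcases x with x | x
      exacts [hφ _, rfl])
  have e6 := e5.cardinalMk_le_trdeg.trans (TB.trdeg_le hT)
  rw [Cardinal.mk_fintype, Nat.cast_le] at e6
  simp only [Fintype.card_sum, Fintype.card_fin] at e6
  omega

end KWZ

theorem stWZ (h : StAx) : StWZ := by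
  intro κ _ θ T h0 hT
  have key : ∀ i : Σ τ : Fin (Fintype.card κ + 1), (Fin τ → κ) × Fin (T + 1), ∃ ε : ℝ, 0 < ε ∧
      ∀ (η : κ → ℂ) (μ : Fin i.2.2 → κ → ℤ), Spec θ η → (∀ k, ‖η k - θ k‖ ≤ ε) →
        AlgebraicIndependent ℚ (η ∘ i.2.1) → (∀ l, ∏ k, η k ^ μ l k = 1) →
        (AlgebraicIndependent ℚ fun l => ∏ k, θ k ^ μ l k) → (i.2.2 : ℕ) + i.1 ≤ T := by
    rintro ⟨τ, e, a⟩
    by_contra hc
    push Not at hc
    choose η μ h1 h2 h3 h4 h5 h6 using fun s : ℕ => hc (1 / ((s : ℝ) + 1)) (by positivity)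
    refine (h6 0).not_ge (KWZ.core h (U := hyperfilter ℕ)
      (π := Germ.coeRingHom (hyperfilter ℕ : Filter ℕ)) (fun x => Quot.exists_rep x)
      (fun _ _ => Germ.coe_eq) Nat.hyperfilter_le_atTop h0 hT e η μ h1 ?_ h3 h4 h5)
    exact tendsto_pi_nhds.2 fun k => tendsto_iff_norm_sub_tendsto_zero.2 (squeeze_zero
      (fun _ => norm_nonneg _) (fun s => h2 s k) tendsto_one_div_add_atTop_nhds_zero_nat)
  choose ε h1 h2 using key
  have : Nonempty (Σ τ : Fin (Fintype.card κ + 1), (Fin τ → κ) × Fin (T + 1)) :=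
    ⟨⟨0, Fin.elim0, 0⟩⟩
  obtain ⟨i0, hi⟩ := Finite.exists_min ε
  refine ⟨ε i0, h1 i0, fun η τ a μ k1 k2 ⟨e, k3, _⟩ k4 k5 => ?_⟩
  have k6 : τ ≤ Fintype.card κ := by
    simpa using Fintype.card_le_of_injective e (Function.Injective.of_comp k3.injective)
  have k7 : a ≤ T := TB.le_of_indep hT k5 fun l => prod_mem fun k _ =>
    zpow_mem (IntermediateField.subset_adjoin ℚ _ (Set.mem_range_self k)) _
  exact h2 ⟨⟨τ, by omega⟩, e, ⟨a, by omega⟩⟩ η μ k1 (fun k => (k2 k).trans (hi _)) k3 k4 k5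

end Pool.Agent.Lib.MP_12eca1_ag.Q
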