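import Pool.Agent.Lib.MP_12eca1_ag.Q.Basic

/-! The choice of the support modulo a set of relations. -/

namespace Pool.Agent.Lib.MP_12eca1_ag.Q

open Filter Module P

namespace KZE

open MeasureTheory Metric

section Pack

variable {E : Type} [NormedAddCommGroup E] [NormedSpace ℝ E] [FiniteDimensional ℝ E]

open scoped Function ENNReal in
lemma sep0 (s : Finset E) {r ρ : ℝ} (hr : 0 < r) (hρ : 0 ≤ ρ) (hs : ∀ c ∈ s, ‖c‖ ≤ ρ * r)
    (h : ∀ c ∈ s, ∀ d ∈ s, c ≠ d → r ≤ ‖c - d‖) : (s.card : ℝ) ≤ (2 * ρ + 1) ^ finrank ℝ E := by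
  borelize E
  let μ : Measure E := Measure.addHaar
  have h1 : 0 < r / 2 := by positivity
  have h2 : 0 < (2 * ρ + 1) * (r / 2) := by positivity
  have D : Set.Pairwise (s : Set E) (Disjoint on fun c => ball (c : E) (r / 2)) := by
    rintro c hc d hd hcd
    apply ball_disjoint_ball
    rw [dist_eq_norm, add_halves]
    exact h c hc d hd hcd
  have sub : ⋃ c ∈ s, ball (c : E) (r / 2) ⊆ ball (0 : E) ((2 * ρ + 1) * (r / 2)) := by
    refine Set.iUnion₂_subset fun x hx => ball_subset_ball' ?_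
    rw [dist_zero_right]
    linarith [hs x hx]
  have I : (s.card : ℝ≥0∞) * ENNReal.ofReal ((r / 2) ^ finrank ℝ E) * μ (ball 0 1) ≤
      ENNReal.ofReal (((2 * ρ + 1) * (r / 2)) ^ finrank ℝ E) * μ (ball 0 1) := by
    have := measure_mono (μ := μ) sub
    rw [measure_biUnion_finset D fun c _ => measurableSet_ball, μ.addHaar_ball_of_pos _ h2] at this
    simpa only [μ.addHaar_ball_of_pos _ h1, Finset.sum_const, nsmul_eq_mul, mul_assoc] using this
  have J := (ENNReal.mul_le_mul_iff_left (measure_ball_pos μ _ zero_lt_one).ne'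
    measure_ball_lt_top.ne).1 I
  have K := ENNReal.toReal_le_of_le_ofReal (pow_nonneg h2.le _) J
  rw [ENNReal.toReal_mul, ENNReal.toReal_natCast, ENNReal.toReal_ofReal (by positivity),
    mul_pow] at K
  exact le_of_mul_le_mul_right K (by positivity)

open Classical in
lemma sep (U : Submodule ℝ E) (s : Finset E) {r ρ : ℝ} (hr : 0 < r) (hρ : 0 ≤ ρ)
    (hs : ∀ c ∈ s, c ∈ U ∧ ‖c‖ ≤ ρ * r) (h : ∀ c ∈ s, ∀ d ∈ s, c ≠ d → r ≤ ‖c - d‖) :
    (s.card : ℝ) ≤ (2 * ρ + 1) ^ finrank ℝ U := by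
  have := sep0 (E := U) (s.subtype (· ∈ U)) hr hρ
    (fun c hc => (hs c (Finset.mem_subtype.1 hc)).2) fun c hc d hd hcd =>
      h c (Finset.mem_subtype.1 hc) d (Finset.mem_subtype.1 hd) fun e => hcd (Subtype.ext e)
  rwa [Finset.card_subtype, Finset.filter_true_of_mem fun c hc => (hs c hc).1] at this

open Classical in
/-- the packing lemma -/
lemma pack (M : AddSubgroup E) (U : Submodule ℝ E) (S B : Finset E) {r ρ : ℝ} (hr : 0 < r)
    (hρ : 0 ≤ ρ) (hS : ∀ c ∈ S, c ∈ M ∧ c ∈ U ∧ ‖c‖ ≤ ρ * r)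
    (hB : ∀ c ∈ M, ‖c‖ ≤ r → c ∈ B) : (S.card : ℝ) ≤ (2 * ρ + 1) ^ finrank ℝ U * B.card := by
  obtain ⟨S', h1, h2⟩ := (S.powerset.filter fun T => ∀ c ∈ T, ∀ d ∈ T, c ≠ d → r ≤ ‖c - d‖).exists_max_image
    Finset.card ⟨∅, by simp⟩
  obtain ⟨h3, h4⟩ := Finset.mem_filter.1 h1
  rw [Finset.mem_powerset] at h3
  have h5 : S ⊆ S'.biUnion fun y => B.image (· + y) := by
    intro x hx
    have : ∃ y ∈ S', ‖x - y‖ ≤ r := by
      by_contra h
      push Not at h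
      have hx' : x ∉ S' := fun e => by
        have := h x e
        rw [sub_self, norm_zero] at this
        linarith
      have := h2 (insert x S') (Finset.mem_filter.2 ⟨Finset.mem_powerset.2
        (Finset.insert_subset hx h3), fun c hc d hd hcd => ?_⟩)
      · rw [Finset.card_insert_of_notMem hx'] at this
        omega
      rcases Finset.mem_insert.1 hc with e | hc' <;> rcases Finset.mem_insert.1 hd with e' | hd'
      · exact absurd (e.trans e'.symm) hcd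
      · rw [e]; exact (h d hd').le
      · rw [norm_sub_rev, e']; exact (h c hc').le
      · exact h4 c hc' d hd' hcd
    obtain ⟨y, hy, hxy⟩ := this
    exact Finset.mem_biUnion.2 ⟨y, hy, Finset.mem_image.2 ⟨x - y,
      hB _ (M.sub_mem (hS x hx).1 (hS y (h3 hy)).1) hxy, sub_add_cancel x y⟩⟩
  have h6 : S.card ≤ S'.card * B.card := (Finset.card_le_card h5).trans
    (Finset.card_biUnion_le_card_mul _ _ _ fun _ _ => Finset.card_image_le)
  refine (Nat.cast_le.2 h6).trans ?_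
  rw [Nat.cast_mul]
  exact mul_le_mul_of_nonneg_right (sep U S' hr hρ (fun c hc => (hS c (h3 hc)).2) h4)
    (Nat.cast_nonneg _)

/-- the dyadic choice of the radius -/
lemma dyadic (M : AddSubgroup E) (B : ℝ → Finset E) (hB : ∀ r c, c ∈ B r ↔ c ∈ M ∧ ‖c‖ ≤ r)
    {t L : ℝ} (ht : 0 < t) (hL : 2 ≤ L) (h : L ≤ (B t).card) :
    ∃ r, 0 < r ∧ r ≤ t ∧ L ≤ (B r).card ∧ ((B r).card : ℝ) ≤ 5 ^ finrank ℝ E * L := by
  classical
  have h1 : ∃ i : ℕ, ((B (t * (1 / 2) ^ i)).card : ℝ) < L := by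
    have h2 : Tendsto (fun i : ℕ => t * (1 / 2 : ℝ) ^ i) atTop (nhds 0) := by
      simpa using (tendsto_pow_atTop_nhds_zero_of_lt_one (r := (1 / 2 : ℝ)) (by norm_num)
        (by norm_num)).const_mul t
    have h3 : ∀ᶠ i : ℕ in atTop, ∀ c ∈ (B t).erase 0, t * (1 / 2 : ℝ) ^ i < ‖c‖ :=
      (eventually_all_finset _).2 fun c hc =>
        h2.eventually_lt_const (norm_pos_iff.2 (Finset.ne_of_mem_erase hc))
    obtain ⟨i, hi⟩ := h3.exists
    have h4 : B (t * (1 / 2) ^ i) ⊆ {0} := fun c hc => by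
      obtain ⟨a1, a2⟩ := (hB _ c).1 hc
      by_contra a3
      exact (hi c (Finset.mem_erase.2 ⟨fun e => a3 (Finset.mem_singleton.2 e), (hB _ c).2
        ⟨a1, a2.trans (mul_le_of_le_one_right ht.le (pow_le_one₀ (by norm_num) (by norm_num)))⟩⟩)).not_ge
        a2
    have h5 : ((B (t * (1 / 2) ^ i)).card : ℝ) ≤ (1 : ℕ) := Nat.cast_le.2 (Finset.card_le_card h4)
    exact ⟨i, by push_cast at h5; linarith⟩
  have h2 := Nat.find_spec h1
  have h3 : Nat.find h1 ≠ 0 := fun e => by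
    rw [e, pow_zero, mul_one] at h2
    linarith
  obtain ⟨i, hi⟩ := Nat.exists_eq_succ_of_ne_zero h3
  have h4 := not_lt.1 (Nat.find_min h1 (m := i) (by omega))
  rw [hi] at h2
  refine ⟨_, by positivity, mul_le_of_le_one_right ht.le (pow_le_one₀ (by norm_num) (by norm_num)),
    h4, ?_⟩
  have h5 := pack M ⊤ (B (t * (1 / 2) ^ i)) (B (t * (1 / 2) ^ (i + 1))) (r := t * (1 / 2) ^ (i + 1))
    (ρ := 2) (by positivity) (by norm_num) (fun c hc => ⟨((hB _ c).1 hc).1, trivial,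
      ((hB _ c).1 hc).2.trans (le_of_eq (by ring))⟩) fun c a b => (hB _ c).2 ⟨a, b⟩
  rw [finrank_top, show (2 * 2 + 1 : ℝ) = 5 by norm_num] at h5
  exact h5.trans (mul_le_mul_of_nonneg_left h2.le (by positivity))

end Pack

open Pointwise Classical in
lemma core (h : StZa) (m : ℕ) : ∃ C : ℝ, 0 ≤ C ∧ ∀ (E : Type) [NormedAddCommGroup E]
    [NormedSpace ℝ E] [FiniteDimensional ℝ E] (M : AddSubgroup E) (t L : ℝ), finrank ℝ E ≤ m →
    (∀ r, {c | c ∈ M ∧ ‖c‖ ≤ r}.Finite) → 0 < t → 2 ≤ L →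
    (∃ S : Finset E, L ≤ S.card ∧ ∀ c ∈ S, c ∈ M ∧ ‖c‖ ≤ t) →
    ∃ A : Finset E, L ≤ A.card ∧ A.card ≤ C * L ∧ (∀ c ∈ A, c ∈ M ∧ ‖c‖ ≤ t) ∧
      ∀ (Γ : Type) [AddCommMonoid Γ] (ω : Γ →+ E →+ ℂ) (S : Finset Γ) (p : E → ℂ), 0 ∈ S →
        (∃ a ∈ A, p a ≠ 0) → (∀ s ∈ m • S, ∑ a ∈ A, p a * Complex.exp (ω s a) = 0) →
        ∃ a ∈ A, ∃ a' ∈ A, a ≠ a' ∧
          ((S.image fun s => Complex.exp (ω s (a - a'))).card : ℝ) ≤ C * L := by
  choose c c0 hc using h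
  obtain ⟨c', hc'⟩ : ∃ c', c' = ∑ ρ ∈ Finset.range (m + 1), c ρ := ⟨_, rfl⟩
  have c1 : 0 ≤ c' := hc' ▸ Finset.sum_nonneg fun ρ _ => c0 ρ
  refine ⟨(1 + c' * 3 ^ m) * 5 ^ m, by positivity, fun E _ _ _ M t L hm hfin ht hL ⟨S0, s1, s2⟩ => ?_⟩
  let B : ℝ → Finset E := fun r => (hfin r).toFinset
  have hB : ∀ r c, c ∈ B r ↔ c ∈ M ∧ ‖c‖ ≤ r := fun r c => (hfin r).mem_toFinset
  obtain ⟨r, r0, r1, r2, r3⟩ := dyadic M B hB ht hL
    (s1.trans (Nat.cast_le.2 (Finset.card_le_card fun c hc => (hB _ c).2 (s2 c hc))))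
  have L0 : 0 ≤ L := by linarith
  have r4 : ((B r).card : ℝ) ≤ 5 ^ m * L :=
    r3.trans (mul_le_mul_of_nonneg_right (pow_le_pow_right₀ (by norm_num) hm) L0)
  have k0 : 0 ≤ c' * 3 ^ m * (5 ^ m * L) := by positivity
  have k1 : 0 ≤ 5 ^ m * L := by positivity
  refine ⟨B r, r2, by linarith, fun c hc => ⟨((hB _ c).1 hc).1, ((hB _ c).1 hc).2.trans r1⟩,
    fun Γ _ ω S p S0 hp hS => ?_⟩
  obtain ⟨ρ, hρ⟩ : ∃ ρ, finrank ℝ (Submodule.span ℝ (B r : Set E)) = ρ := ⟨_, rfl⟩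
  have ρm : ρ ≤ m := hρ ▸ (Submodule.finrank_le _).trans hm
  have mem : ∀ R : ℕ, ∀ x ∈ R • B r, x ∈ M ∧ x ∈ Submodule.span ℝ (B r : Set E) ∧ ‖x‖ ≤ R * r := by
    intro R
    induction R with
    | zero =>
      intro x hx
      rw [zero_nsmul, Finset.mem_zero] at hx
      simp [hx]
    | succ R ih =>
      intro x hx
      rw [succ_nsmul, Finset.mem_add] at hx
      obtain ⟨y, hy, z, hz, rfl⟩ := hx
      obtain ⟨a1, a2, a3⟩ := ih y hy
      obtain ⟨b1, b2⟩ := (hB _ z).1 hz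
      refine ⟨M.add_mem a1 b1, Submodule.add_mem _ a2 (Submodule.subset_span hz), ?_⟩
      push_cast
      linarith [norm_add_le y z]
  have hg : ∀ᶠ R : ℕ in atTop, ((R • B r).card : ℝ) ≤ 3 ^ m * (5 ^ m * L) * R ^ ρ := by
    filter_upwards [eventually_ge_atTop 1] with R hR
    have h1 := pack M _ (R • B r) (B r) r0 (Nat.cast_nonneg R) (mem R) fun c a b => (hB _ c).2 ⟨a, b⟩
    have hR' : (1 : ℝ) ≤ R := by exact_mod_cast hR
    have h2 : (2 * R + 1 : ℝ) ^ ρ ≤ 3 ^ m * R ^ ρ := by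
      refine (pow_le_pow_left₀ (by positivity) (show (2 * R + 1 : ℝ) ≤ 3 * R by linarith) ρ).trans ?_
      rw [mul_pow]
      exact mul_le_mul_of_nonneg_right (pow_le_pow_right₀ (by norm_num) ρm) (by positivity)
    rw [hρ] at h1
    refine (h1.trans (mul_le_mul h2 r4 (Nat.cast_nonneg _) (by positivity))).trans (le_of_eq ?_)
    ring
  obtain ⟨a, ha, a', ha', h1, h2⟩ := hc ρ E Γ (B r) (3 ^ m * (5 ^ m * L)) p ω S
    ((hB _ _).2 ⟨M.zero_mem, by rw [norm_zero]; exact r0.le⟩)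
    (fun a ha => (hB _ _).2 ⟨M.neg_mem ((hB _ a).1 ha).1, by rw [norm_neg]; exact ((hB _ a).1 ha).2⟩)
    hρ hg hp S0 fun s hs => hS s (Finset.nsmul_subset_nsmul_right S0 ρm hs)
  refine ⟨a, ha, a', ha', h1, h2.trans ?_⟩
  have h3 : c ρ ≤ c' := hc' ▸ Finset.single_le_sum (fun ρ _ => c0 ρ) (Finset.mem_range_succ_iff.2 ρm)
  have h4 := mul_le_mul_of_nonneg_right h3 (show 0 ≤ 3 ^ m * (5 ^ m * L) by positivity)
  linarith

variable {m : ℕ} {G : Set (Fin m → ℤ)} {t : ℝ}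

lemma frac (ht : 0 ≤ t) (hG : ∀ g ∈ G, ‖g‖ ≤ t) {w : Fin m → ℝ} (hw : w ∈ rsp G) :
    ∃ z : Fin m → ℤ, cst z ∈ rsp G ∧ ‖w - cst z‖ ≤ m * t := by
  obtain ⟨b, h1, h2, h3⟩ := exists_linearIndependent ℝ (cst '' G)
  have := h3.setFinite.fintype
  have h4 : Fintype.card b ≤ m := h3.fintype_card_le_finrank.trans (finrank_fin_fun ℝ).le
  rw [rsp, ← h2, ← Subtype.range_coe (s := b), Submodule.mem_span_range_iff_exists_fun] at hw
  obtain ⟨c, rfl⟩ := hw
  choose g hg hg' using fun i : b => h1 i.2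
  have e : cst (∑ i, ⌊c i⌋ • g i) = ∑ i, (⌊c i⌋ : ℝ) • (i : Fin m → ℝ) := by
    rw [← cstL_apply, map_sum]
    exact Finset.sum_congr rfl fun i _ => by
      rw [map_zsmul, cstL_apply, hg', Int.cast_smul_eq_zsmul]
  refine ⟨∑ i, ⌊c i⌋ • g i, ?_, ?_⟩
  · rw [e]
    exact Submodule.sum_mem _ fun i _ => Submodule.smul_mem _ _ (hg' i ▸ cst_mem_rsp (hg i))
  · rw [e, ← Finset.sum_sub_distrib]
    refine (norm_sum_le _ _).trans ((Finset.sum_le_card_nsmul _ _ t fun i _ => ?_).trans ?_)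
    · rw [← sub_smul, norm_smul, ← hg', norm_cst, Int.self_sub_floor, Real.norm_eq_abs,
        Int.abs_fract]
      exact (mul_le_of_le_one_left (norm_nonneg _) (Int.fract_lt_one _).le).trans (hG _ (hg i))
    · rw [Finset.card_univ, nsmul_eq_mul]
      exact mul_le_mul_of_nonneg_right (Nat.cast_le.2 h4) ht

lemma lift (ht : 0 ≤ t) (hG : ∀ g ∈ G, ‖g‖ ≤ t) (a : Fin m → ℤ) :
    ∃ a' : Fin m → ℤ, (rsp G).mkQ (cst a') = (rsp G).mkQ (cst a) ∧
      ‖a'‖ ≤ ‖(rsp G).mkQ (cst a)‖ + 1 + m * t := by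
  obtain ⟨v, h1, h2⟩ := Submodule.Quotient.norm_mk_lt ((rsp G).mkQ (cst a)) one_pos
  obtain ⟨z, h3, h4⟩ := frac ht hG ((Submodule.Quotient.eq _).1 h1.symm)
  refine ⟨a - z, ?_, ?_⟩
  · rw [cst_sub, map_sub, Submodule.mkQ_apply _ (cst z), (Submodule.Quotient.mk_eq_zero _).2 h3,
      sub_zero]
  · rw [← norm_cst, cst_sub, show cst a - cst z = v + (cst a - v - cst z) by abel]
    linarith [norm_add_le v (cst a - v - cst z)]

end KZE

open KZE Pointwise Classical in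
theorem stZE (h : StZa) : StZE := by
  intro m
  obtain ⟨C, C0, hC⟩ := core h m
  have m0 : (0 : ℝ) ≤ m := Nat.cast_nonneg m
  refine ⟨C + (m + 2), by linarith, fun G t L ht hL hG ⟨S0, s1, s2, s3⟩ => ?_⟩
  have : IsClosed (rsp G : Set (Fin m → ℝ)) := Submodule.closed_of_finiteDimensional _
  have t0 : 0 < t := by linarith
  have L0 : 0 ≤ (m + 2) * L := mul_nonneg (by linarith) (by linarith)
  let M : AddSubgroup ((Fin m → ℝ) ⧸ rsp G) :=
    ((rsp G).mkQ.toAddMonoidHom.comp (cstL m).toAddMonoidHom).range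
  have hl : ∀ x : (Fin m → ℝ) ⧸ rsp G, ∃ a : Fin m → ℤ, x ∈ M →
      (rsp G).mkQ (cst a) = x ∧ ‖a‖ ≤ ‖x‖ + 1 + m * t := fun x => by
    by_cases hx : x ∈ M
    · obtain ⟨a, rfl⟩ := hx
      obtain ⟨a', h'⟩ := lift t0.le hG a
      exact ⟨a', fun _ => h'⟩
    · exact ⟨0, fun h => absurd h hx⟩
  choose l hl using hl
  obtain ⟨A, a1, a2, a3, a4⟩ := hC _ M t L
    ((Submodule.finrank_quotient_le _).trans (finrank_fin_fun ℝ).le)
    (fun r => ((finite_norm_le (r + 1 + m * t)).image fun a => (rsp G).mkQ (cst a)).subset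
      fun x hx => ⟨l x, (hl x hx.1).2.trans (by linarith [hx.2]), (hl x hx.1).1⟩) t0 hL
    ⟨S0.image fun a => (rsp G).mkQ (cst a), by
      rw [Finset.card_image_of_injOn fun a ha a' ha' e => s3 a ha a' ha' ?_]
      · exact s1
      · rw [cst_sub]; exact (Submodule.Quotient.eq _).1 e, fun x hx => by
      obtain ⟨a, ha, rfl⟩ := Finset.mem_image.1 hx
      exact ⟨⟨a, rfl⟩, (Submodule.Quotient.norm_mk_le _ _).trans ((norm_cst a).le.trans (s2 a ha))⟩⟩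
  have inj : Set.InjOn l A := fun x hx y hy e => by
    rw [← (hl x (a3 x hx).1).1, e, (hl y (a3 y hy).1).1]
  refine ⟨A.image l, by rwa [Finset.card_image_of_injOn inj],
    by rw [Finset.card_image_of_injOn inj]; linarith, fun a ha => ?_,
    fun Γ _ ω S p hω hS hp h0 => ?_⟩
  · obtain ⟨x, hx, rfl⟩ := Finset.mem_image.1 ha
    have := mul_nonneg C0 t0.le
    linarith [(hl x (a3 x hx).1).2, (a3 x hx).2]
  have hle : ∀ s, rsp G ≤ LinearMap.ker (ω s) := fun s =>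
    Submodule.span_le.2 (by rintro _ ⟨g, hg, rfl⟩; exact hω s g hg)
  let ω' : Γ →+ ((Fin m → ℝ) ⧸ rsp G) →+ ℂ :=
    { toFun := fun s => ((rsp G).liftQ (ω s) (hle s)).toAddMonoidHom
      map_zero' := AddMonoidHom.ext fun x => by
        obtain ⟨v, rfl⟩ := Submodule.Quotient.mk_surjective _ x
        simp
      map_add' := fun s s' => AddMonoidHom.ext fun x => by
        obtain ⟨v, rfl⟩ := Submodule.Quotient.mk_surjective _ x
        simp }
  have e1 : ∀ s v, ω' s ((rsp G).mkQ v) = ω s v := fun s v => rfl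
  have e2 : ∀ x ∈ A, ∀ y ∈ A, (rsp G).mkQ (cst (l x - l y)) = x - y := fun x hx y hy => by
    rw [cst_sub, map_sub, (hl x (a3 x hx).1).1, (hl y (a3 y hy).1).1]
  obtain ⟨x, hx, y, hy, h1, h2⟩ := a4 Γ ω' S (p ∘ l) hS
    (by obtain ⟨a, ha, h'⟩ := hp
        obtain ⟨x, hx, rfl⟩ := Finset.mem_image.1 ha
        exact ⟨x, hx, h'⟩) fun s hs => by
      rw [← h0 s hs, Finset.sum_image inj]
      exact Finset.sum_congr rfl fun x hx => by
        rw [← e1, (hl x (a3 x hx).1).1]; rfl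
  refine ⟨l x, Finset.mem_image_of_mem _ hx, l y, Finset.mem_image_of_mem _ hy, fun e => h1 ?_, ?_⟩
  · rw [← sub_eq_zero, ← e2 x hx y hy]
    exact (Submodule.Quotient.mk_eq_zero _).2 e
  · simp only [← e1, e2 x hx y hy]
    linarith

end Pool.Agent.Lib.MP_12eca1_ag.Q
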