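import Pool.Agent.Lib.MP_12eca1_ag.Q.Defs

/-!
The zero estimate for an exponential sum whose support has a small growth.
-/

namespace Pool.Agent.Lib.MP_12eca1_ag.Q

open Filter Module P

namespace KZa

section Core

variable {S G : Type} [CommRing S] [Algebra ℂ S] [AddCommGroup G]

/-- the transcendence degree drops strictly along a strict inclusion of primes -/
theorem lt_of_lt (hL : StLt) {q Q : Ideal S} (hq : q.IsPrime) (hQ : Q.IsPrime) (h : q ≤ Q)
    (hn : ¬ Q ≤ q) {n : ℕ} (ht : (n : Cardinal) ≤ Algebra.trdeg ℂ (S ⧸ Q)) :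
    ((n + 1 : ℕ) : Cardinal) ≤ Algebra.trdeg ℂ (S ⧸ q) := by
  refine hL ℂ (S ⧸ q) (Q.map (Ideal.Quotient.mkₐ ℂ q)) n ?_ ?_ ?_
  · exact Ideal.map_isPrime_of_surjective (f := Ideal.Quotient.mk q) Ideal.Quotient.mk_surjective
      (by rwa [Ideal.mk_ker])
  · intro e
    refine hn fun r hr => Ideal.Quotient.eq_zero_iff_mem.1 ?_
    have : Ideal.Quotient.mkₐ ℂ q r ∈ Q.map (Ideal.Quotient.mkₐ ℂ q) := Ideal.mem_map_of_mem _ hr
    rwa [e] at this
  · rwa [(DoubleQuot.quotQuotEquivQuotOfLEₐ ℂ h).trdeg_eq]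

/-- translating a prime does not decrease the transcendence degree -/
theorem trdeg_comap {τ : G → S →ₐ[ℂ] S} (h0 : ∀ r, τ 0 r = r)
    (hadd : ∀ g h r, τ g (τ h r) = τ (g + h) r) (Q : Ideal S) (g : G) :
    Algebra.trdeg ℂ (S ⧸ Q) ≤ Algebra.trdeg ℂ (S ⧸ Q.comap (τ g)) := by
  have hle : Q ≤ (Q.comap (τ g)).comap (τ (-g)) := fun r hr => by
    rwa [Ideal.mem_comap, Ideal.mem_comap, hadd, add_neg_cancel, h0]
  refine trdeg_le_of_injective (Ideal.quotientMapₐ (Q.comap (τ g)) (τ (-g)) hle) ?_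
  refine (injective_iff_map_eq_zero _).2 fun r hr => ?_
  obtain ⟨r, rfl⟩ := Ideal.Quotient.mk_surjective r
  rw [Ideal.quotient_map_mkₐ, Ideal.Quotient.mkₐ_eq_mk, Ideal.Quotient.eq_zero_iff_mem,
    Ideal.mem_comap, hadd, add_neg_cancel, h0] at hr
  exact Ideal.Quotient.eq_zero_iff_mem.2 hr

theorem mem_of_smul {Q : Ideal S} {c : ℂ} (hc : c ≠ 0) {r : S} (h : c • r ∈ Q) : r ∈ Q := by
  have := Q.mul_mem_left (algebraMap ℂ S c⁻¹) h
  rwa [← Algebra.smul_def, smul_smul, inv_mul_cancel₀ hc, one_smul] at this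

/-- two characters that agree on the stabiliser -/
theorem exists_lam {ι : Type} [Fintype ι] {τ : G → S →ₐ[ℂ] S} (h0 : ∀ r, τ 0 r = r)
    (hadd : ∀ g h r, τ g (τ h r) = τ (g + h) r) {x : ι → S} (hx : ∀ i, IsUnit (x i))
    {e : ι → G →+ ℂ} (he : ∀ g i, τ g (x i) = Complex.exp (e i g) • x i) {p : ι → ℂ}
    (hP : ∑ i, p i • x i ≠ 0) {Q : Ideal S} (hQ : Q.IsPrime) (hm : ∑ i, p i • x i ∈ Q) :
    ∃ i j, i ≠ j ∧ ∀ g, (∀ r ∈ Q, τ g r ∈ Q) → Complex.exp (e i g) = Complex.exp (e j g) := by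
  let H : AddSubmonoid G :=
    { carrier := {g | ∀ r ∈ Q, τ g r ∈ Q}
      add_mem' := fun {u v} hu hv r hr => by rw [← hadd]; exact hu _ (hv r hr)
      zero_mem' := fun r hr => by rwa [h0] }
  let χ : ι → Multiplicative H →* (S ⧸ Q) := fun i =>
    { toFun := fun u => algebraMap ℂ (S ⧸ Q) (Complex.exp (e i u.toAdd.1))
      map_one' := by simp
      map_mul' := fun u v => by
        rw [← map_mul, ← Complex.exp_add, ← map_add]; rfl }
  by_contra hc
  have inj : Function.Injective χ := by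
    intro i j h
    by_contra hne
    refine hc ⟨i, j, hne, fun g hg => ?_⟩
    have e1 : algebraMap ℂ (S ⧸ Q) (Complex.exp (e i g)) =
        algebraMap ℂ (S ⧸ Q) (Complex.exp (e j g)) :=
      DFunLike.congr_fun h (Multiplicative.ofAdd ⟨g, hg⟩)
    exact (algebraMap ℂ (S ⧸ Q)).injective e1
  have li := (linearIndependent_monoidHom (Multiplicative H) (S ⧸ Q)).comp _ inj
  have h2 := Fintype.linearIndependent_iff.1 li (fun i => Ideal.Quotient.mk Q (p i • x i)) (by
    funext u
    have h1 := Ideal.Quotient.eq_zero_iff_mem.2 (u.toAdd.2 _ hm)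
    rw [map_sum, map_sum] at h1
    rw [Finset.sum_apply, Pi.zero_apply, ← h1]
    refine Finset.sum_congr rfl fun i _ => ?_
    rw [map_smul (τ _), he, smul_comm (p i), Algebra.smul_def (Complex.exp _), map_mul, mul_comm]
    rfl)
  refine hP (Finset.sum_eq_zero fun i _ => ?_)
  by_cases hp : p i = 0
  · rw [hp, zero_smul]
  · exact absurd (Q.eq_top_of_isUnit_mem
      (mem_of_smul hp (Ideal.Quotient.eq_zero_iff_mem.1 (h2 i))) (hx i)) hQ.ne_top

theorem exists_step {D : ℕ → ℕ → Prop} {ρ : ℕ} (h1 : D ρ 0) (h2 : ¬ D 0 ρ) :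
    ∃ k n, D (k + 1) n ∧ ¬ D k (n + 1) := by
  by_contra hc
  simp only [not_exists, not_and, not_not] at hc
  have : ∀ n k, D (k + n) 0 → D k n := by
    intro n
    induction n with
    | zero => exact fun k h => h
    | succ n ih => exact fun k h => hc k n (ih (k + 1) (by rwa [add_right_comm]))
  exact h2 (this ρ 0 (by rwa [zero_add]))

open Pointwise Classical in
/-- the abstract zero estimate -/
theorem core (hL : StLt) [IsDomain S] {Γ ι : Type} [AddCommMonoid Γ] [Fintype ι] {ρ : ℕ}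
    {τ : G → S →ₐ[ℂ] S} (h0 : ∀ r, τ 0 r = r) (hadd : ∀ g h r, τ g (τ h r) = τ (g + h) r)
    {x : ι → S} (hx : ∀ i, IsUnit (x i)) {e : ι → G →+ ℂ}
    (he : ∀ g i, τ g (x i) = Complex.exp (e i g) • x i) {p : ι → ℂ} (hP : ∑ i, p i • x i ≠ 0)
    (htr : Algebra.trdeg ℂ S ≤ ρ) (ω : Γ →+ G) {T : Finset Γ} (hT : 0 ∈ T) {Q₀ : Ideal S}
    (hq : Q₀.IsPrime) (hz : ∀ s ∈ ρ • T, τ (ω s) (∑ i, p i • x i) ∈ Q₀) :
    ∃ i j, i ≠ j ∧ ∃ (F : Set S) (s : Finset (Ideal S)),
      F ⊆ Submodule.span ℂ (Set.range x) ∧ (∀ q ∈ s, q ∈ (Ideal.span F).minimalPrimes) ∧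
      (T.image fun t => Complex.exp (e i (ω t) - e j (ω t))).card ≤ s.card := by
  let F : ℕ → Set S := fun k => {f | ∃ s ∈ k • T, f = τ (ω s) (∑ i, p i • x i)}
  let D : ℕ → ℕ → Prop := fun k n =>
    ∃ Q : Ideal S, Q.IsPrime ∧ F k ⊆ Q ∧ (n : Cardinal) ≤ Algebra.trdeg ℂ (S ⧸ Q)
  have PF : ∀ k, ∑ i, p i • x i ∈ F k := fun k =>
    ⟨0, Finset.zero_mem_nsmul hT, by rw [map_zero, h0]⟩
  obtain ⟨k, n, ⟨Q, hQ, hF, hn⟩, hk⟩ := exists_step (D := D) (ρ := ρ)
    ⟨Q₀, hq, by rintro _ ⟨s, hs, rfl⟩; exact hz s hs, by simp⟩ (by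
      rintro ⟨Q, hQ, hF, hn⟩
      have h1 := (hL ℂ S Q ρ hQ (fun e => hP (by have := hF (PF 0); rwa [e] at this)) hn).trans htr
      have h2 : ρ + 1 ≤ ρ := by exact_mod_cast h1
      omega)
  obtain ⟨i, j, hij, hχ⟩ := exists_lam h0 hadd hx he hP hQ (hF (PF _))
  let C : Γ → Ideal S := fun s => Q.comap (τ (ω s))
  refine ⟨i, j, hij, F k, T.image C, ?_, ?_, ?_⟩
  · rintro _ ⟨s, -, rfl⟩
    rw [map_sum]
    refine Submodule.sum_mem _ fun l _ => ?_
    rw [map_smul, he]
    exact Submodule.smul_mem _ _ (Submodule.smul_mem _ _ (Submodule.subset_span ⟨l, rfl⟩))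
  · intro q hq
    obtain ⟨s, hs, rfl⟩ := Finset.mem_image.1 hq
    have t1 : (C s).IsPrime := Ideal.comap_isPrime _ _
    have t2 : F k ⊆ C s := by
      rintro _ ⟨t, ht, rfl⟩
      refine Ideal.mem_comap.2 (hF ⟨t + s, ?_, by rw [hadd, map_add, add_comm]⟩)
      rw [succ_nsmul]
      exact Finset.add_mem_add ht hs
    refine ⟨⟨t1, Ideal.span_le.2 t2⟩, fun q hq hle => ?_⟩
    by_contra hnot
    exact hk ⟨q, hq.1, Ideal.span_le.1 hq.2,
      lt_of_lt hL hq.1 t1 hle hnot (hn.trans (trdeg_comap h0 hadd Q _))⟩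
  · have key : ∀ s t, C s = C t →
        Complex.exp (e i (ω s) - e j (ω s)) = Complex.exp (e i (ω t) - e j (ω t)) := by
      intro s t hst
      have h1 := hχ (ω s + -ω t) fun r hr => by
        rw [← hadd, ← Ideal.mem_comap]
        show _ ∈ C s
        rw [hst]
        exact Ideal.mem_comap.2 (by rwa [hadd, add_neg_cancel, h0])
      rw [map_add, map_add, map_neg, map_neg] at h1
      have h2 : e i (ω s) - e j (ω s) =
          (e i (ω s) + -e i (ω t)) - (e j (ω s) + -e j (ω t)) + (e i (ω t) - e j (ω t)) := by ring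
      rw [h2, Complex.exp_add, Complex.exp_sub, h1, div_self (Complex.exp_ne_zero _), one_mul]
    let φ : Ideal S → ℂ := fun q =>
      if h : ∃ s, C s = q then Complex.exp (e i (ω h.choose) - e j (ω h.choose)) else 0
    refine le_trans (Finset.card_le_card ?_) (Finset.card_image_le (s := T.image C) (f := φ))
    intro y hy
    obtain ⟨s, hs, rfl⟩ := Finset.mem_image.1 hy
    refine Finset.mem_image.2 ⟨C s, Finset.mem_image_of_mem _ hs, ?_⟩
    have h : ∃ t, C t = C s := ⟨s, rfl⟩
    simp only [φ, dif_pos h]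
    exact key _ _ h.choose_spec

end Core

section Group

open AddMonoidAlgebra

variable {M : Type} [AddCommGroup M]

/-- twisting by a character -/
noncomputable def tw (χ : M →+ ℂ) : AddMonoidAlgebra ℂ M →ₐ[ℂ] AddMonoidAlgebra ℂ M :=
  lift ℂ _ M
    { toFun := fun a => Complex.exp (χ a.toAdd) • single a.toAdd (1 : ℂ)
      map_one' := by simp [one_def]
      map_mul' := fun a b => by
        rw [toAdd_mul, map_add, Complex.exp_add, smul_mul_smul_comm, single_mul_single, one_mul] }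

theorem tw_single (χ : M →+ ℂ) (a : M) :
    tw χ (single a 1) = Complex.exp (χ a) • single a (1 : ℂ) := by
  rw [tw, lift_single, one_smul]; rfl

theorem hom_ext {B : Type} [CommRing B] [Algebra ℂ B] {f g : AddMonoidAlgebra ℂ M →ₐ[ℂ] B}
    (h : ∀ a, f (single a 1) = g (single a 1)) : f = g :=
  algHom_ext h (Subsingleton.elim _ _)

theorem tw_zero (r : AddMonoidAlgebra ℂ M) : tw 0 r = r := by
  have : tw (0 : M →+ ℂ) = AlgHom.id ℂ _ := hom_ext fun a => by simp [tw_single]
  rw [this]; rfl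

theorem tw_tw (χ ψ : M →+ ℂ) (r : AddMonoidAlgebra ℂ M) : tw χ (tw ψ r) = tw (χ + ψ) r := by
  have : (tw χ).comp (tw ψ) = tw (χ + ψ) := hom_ext fun a => by
    rw [AlgHom.comp_apply, tw_single, map_smul, tw_single, tw_single, smul_smul,
      AddMonoidHom.add_apply, Complex.exp_add, mul_comm]
  exact DFunLike.congr_fun this r

/-- the augmentation -/
noncomputable def aug : AddMonoidAlgebra ℂ M →ₐ[ℂ] ℂ := lift ℂ ℂ M 1

theorem aug_single (a : M) : aug (single a (1 : ℂ)) = 1 := by
  rw [aug, lift_single, one_smul]; rfl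

theorem unit_single (a : M) : IsUnit (single a (1 : ℂ)) :=
  IsUnit.of_mul_eq_one (single (-a) 1) (by rw [single_mul_single, add_neg_cancel, one_mul]; rfl)

omit [AddCommGroup M] in
theorem li_single : LinearIndependent ℂ fun a : M => single a (1 : ℂ) :=
  (basis M ℂ).linearIndependent

/-- independent exponents give algebraically independent monomials -/
theorem alg_single {κ : Type} {b : κ → M} (hb : LinearIndependent ℤ b) :
    AlgebraicIndependent ℂ fun i => single (b i) (1 : ℂ) := by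
  let f : (κ →₀ ℕ) →+ M := (Finsupp.linearCombination ℕ b).toAddMonoidHom
  have hf : Function.Injective f :=
    LinearIndependent.restrict_scalars (R := ℕ) (fun r s h => by simpa using h) hb
  have h : MvPolynomial.aeval (fun i => single (b i) (1 : ℂ)) = mapDomainAlgHom ℂ ℂ f :=
    MvPolynomial.algHom_ext fun i => by
      rw [MvPolynomial.aeval_X, mapDomainAlgHom_apply]
      show _ = mapDomain f (single (Finsupp.single i 1) 1)
      rw [mapDomain_single]
      simp [f]
  rw [algebraicIndependent_iff_injective_aeval, h]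
  exact mapDomain_injective hf

end Group

end KZa

open KZa AddMonoidAlgebra Pointwise in
theorem stZa (hB : StBz) (hL : StLt) : StZa := by
  classical
  intro ρ
  obtain ⟨c, hc0, hc⟩ := hB ρ
  refine ⟨c, hc0, fun V Γ _ _ _ A N p ω T h0 hneg hρ hN hp hT hz => ?_⟩
  let M : AddSubgroup V := AddSubgroup.closure (A : Set V)
  have hU : UniqueSums M := by
    let _ : Module ℚ V := Module.compHom V (algebraMap ℚ ℝ)
    exact UniqueSums.of_injective_addHom (M.subtype : M →ₙ+ V) M.subtype_injective inferInstance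
  let v : A → M := fun a => ⟨a, AddSubgroup.subset_closure a.2⟩
  have hv : Function.Injective v := fun a b h =>
    Subtype.ext (congrArg (fun m : M => (m : V)) h)
  let x : A → AddMonoidAlgebra ℂ M := fun a => single (v a) 1
  let W : Submodule ℂ (AddMonoidAlgebra ℂ M) := Submodule.span ℂ (Set.range x)
  have xW : ∀ a, x a ∈ W := fun a => Submodule.subset_span ⟨a, rfl⟩
  have hadj : Algebra.adjoin ℂ (W : Set (AddMonoidAlgebra ℂ M)) = ⊤ := by
    have h1 : ∀ (m : V) (hm : m ∈ M), single (⟨m, hm⟩ : M) (1 : ℂ) ∈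
        Algebra.adjoin ℂ (W : Set (AddMonoidAlgebra ℂ M)) := by
      intro m hm
      induction hm using AddSubgroup.closure_induction'' with
      | mem a ha => exact Algebra.subset_adjoin (xW ⟨a, ha⟩)
      | neg_mem a ha => exact Algebra.subset_adjoin (xW ⟨-a, hneg a ha⟩)
      | zero => exact one_mem _
      | add a b ha hb iha ihb =>
        have := mul_mem iha ihb
        rwa [single_mul_single, one_mul] at this
    refine eq_top_iff.2 fun r _ => ?_
    induction r using induction_linear with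
    | zero => exact zero_mem _
    | add f g hf hg => exact add_mem (hf trivial) (hg trivial)
    | single m a =>
      have := Subalgebra.smul_mem _ (h1 m.1 m.2) a
      rwa [smul_single, smul_eq_mul, mul_one] at this
  have hpow : ∀ R : ℕ, W ^ R ≤ Submodule.span ℂ
      (((R • A).subtype (· ∈ M)).image fun m => single m (1 : ℂ) : Finset _) := by
    intro R
    induction R with
    | zero =>
      rw [pow_zero, Submodule.one_le]
      refine Submodule.subset_span (Finset.mem_coe.2 (Finset.mem_image.2 ⟨0, ?_, rfl⟩))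
      simp
    | succ R ih =>
      rw [pow_succ]
      refine (mul_le_mul_left ih W).trans ?_
      rw [Submodule.span_mul_span]
      refine Submodule.span_mono ?_
      rintro _ ⟨_, hm', _, ⟨a, rfl⟩, rfl⟩
      obtain ⟨m, hm, rfl⟩ := Finset.mem_image.1 (Finset.mem_coe.1 hm')
      refine Finset.mem_coe.2 (Finset.mem_image.2 ⟨m + v a, ?_, ?_⟩)
      · rw [Finset.mem_subtype, succ_nsmul]
        exact Finset.add_mem_add (Finset.mem_subtype.1 hm) a.2
      · show _ = single m (1 : ℂ) * single (v a) 1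
        rw [single_mul_single, one_mul]
  obtain ⟨htr, hcard⟩ := hc (AddMonoidAlgebra ℂ M) W N
    (Submodule.fg_span (Set.finite_range x)) (xW ⟨0, h0⟩) hadj (hN.mono fun R hR => by
      refine le_trans (Nat.cast_le.2 ?_) hR
      refine (Submodule.finrank_mono (hpow R)).trans ((finrank_span_finset_le_card _).trans ?_)
      refine Finset.card_image_le.trans ?_
      rw [Finset.card_subtype]
      exact Finset.card_filter_le _ _)
  have hle : (ρ : Cardinal) ≤ Algebra.trdeg ℂ (AddMonoidAlgebra ℂ M) := by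
    obtain ⟨b, hbA, hsp, hli⟩ := exists_linearIndependent ℝ (A : Set V)
    have h1 : LinearIndependent ℤ fun i : b => v ⟨i.1, hbA i.2⟩ :=
      LinearIndependent.of_comp M.subtype.toIntLinearMap
        (LinearIndependent.restrict_scalars (R := ℤ) (fun r s h => by simpa using h) hli)
    refine le_trans (le_of_eq ?_) (alg_single h1).cardinalMk_le_trdeg
    rw [← hρ, Module.finrank_eq_rank, ← hsp, rank_span_set hli]
  have hP : ∑ a : A, p a • x a ≠ 0 := fun h => by
    obtain ⟨a, ha, hpa⟩ := hp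
    exact hpa (Fintype.linearIndependent_iff.1 (li_single.comp v hv) (fun a : A => p a) h ⟨a, ha⟩)
  obtain ⟨i, j, hij, F, s, hF, hs, hk⟩ := core hL (G := V →+ ℂ)
    (τ := fun g => tw (g.comp M.subtype)) (x := x) (e := fun a => AddMonoidHom.eval a.1)
    (fun r => by rw [AddMonoidHom.zero_comp, tw_zero])
    (fun g h r => by rw [tw_tw, AddMonoidHom.add_comp]) (fun a => unit_single _)
    (fun g a => tw_single _ _) hP htr ω hT (RingHom.ker_isPrime aug) (fun t ht => by
      rw [RingHom.mem_ker, map_sum, map_sum, ← hz t ht, ← Finset.sum_coe_sort A]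
      refine Finset.sum_congr rfl fun a _ => ?_
      rw [map_smul, tw_single, map_smul, map_smul, aug_single]
      simp [v])
  refine ⟨i, i.2, j, j.2, fun h => hij (Subtype.ext h), le_trans ?_ (hcard hle F hF s hs)⟩
  simp only [map_sub]
  exact_mod_cast hk

end Pool.Agent.Lib.MP_12eca1_ag.Q
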