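import Pool.Agent.Lib.MP_12eca1_ag.Q.KAx
import Pool.Agent.Lib.MP_12eca1_ag.Q.KBz
import Pool.Agent.Lib.MP_12eca1_ag.Q.KCut
import Pool.Agent.Lib.MP_12eca1_ag.Q.KDens
import Pool.Agent.Lib.MP_12eca1_ag.Q.KHA
import Pool.Agent.Lib.MP_12eca1_ag.Q.KHalf
import Pool.Agent.Lib.MP_12eca1_ag.Q.KHist
import Pool.Agent.Lib.MP_12eca1_ag.Q.KLat
import Pool.Agent.Lib.MP_12eca1_ag.Q.KLev
import Pool.Agent.Lib.MP_12eca1_ag.Q.KLow
import Pool.Agent.Lib.MP_12eca1_ag.Q.KRel
import Pool.Agent.Lib.MP_12eca1_ag.Q.KStab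
import Pool.Agent.Lib.MP_12eca1_ag.Q.KTemp
import Pool.Agent.Lib.MP_12eca1_ag.Q.KTm
import Pool.Agent.Lib.MP_12eca1_ag.Q.KWZ
import Pool.Agent.Lib.MP_12eca1_ag.Q.KZa
import Pool.Agent.Lib.MP_12eca1_ag.Q.KZE

/-!
Assembly of the linear bound.
-/

namespace Pool.Agent.Lib.MP_12eca1_ag.Q

open Filter Module P

theorem thLev : StLev :=
  stLev stLat stTm (stHist (stCut stLt stDens) stHAc stCN)
    (stTemp (stRel (stZE (stZa stBz stLt))) stLow stHalf) stCN

lemma adjoin_ex {ι : Type} (z : ι → ℂ) : IntermediateField.adjoin ℚ (Set.range (ex z)) =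
    IntermediateField.adjoin ℚ (Set.range fun i => Complex.exp (z i)) := by
  refine le_antisymm (IntermediateField.adjoin_le_iff.2 ?_) (IntermediateField.adjoin.mono _ _ _ ?_)
  · rintro _ ⟨i | i, rfl⟩
    · exact IntermediateField.subset_adjoin _ _ ⟨i, rfl⟩
    · change Complex.exp (-z i) ∈ _
      rw [Complex.exp_neg]
      exact inv_mem (IntermediateField.subset_adjoin _ _ ⟨i, rfl⟩)
  · rintro _ ⟨i, rfl⟩
    exact ⟨.inl i, rfl⟩

lemma trdeg_congr {K L : IntermediateField ℚ ℂ} (h : K = L) :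
    Algebra.trdeg ℚ K = Algebra.trdeg ℚ L := by subst h; rfl

lemma conf_zero {m n : ℕ} (x : Fin m → ℂ) (y : Fin n → ℂ) : ∀ᶠ w : ℝ in atTop, Conf x y 0 w := by
  filter_upwards [eventually_ge_atTop ((finite_norm_le (m := m) 1).toFinset.card : ℝ)] with w hw
  refine ⟨xy x y, 1, ∅, ∅, le_rfl, Spec.refl _, fun i => by simpa using (Real.exp_pos _).le,
    Set.empty_subset _, Set.empty_subset _, by simp, by simp, Nat.zero_le _, ?_⟩
  rintro ⟨⟨A, h1, h2, -⟩, -⟩
  have h3 : A.card ≤ (finite_norm_le (m := m) 1).toFinset.card :=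
    Finset.card_le_card fun a ha => by simpa using h2 a ha
  have h4 : (A.card : ℝ) ≤ w := le_trans (by exact_mod_cast h3) hw
  linarith [Real.add_one_le_exp (5.1 * w), Nat.cast_nonneg (α := ℝ) A.card]

theorem main (T : ℕ) : Main T := by
  induction T using Nat.strong_induction_on with
  | _ T ih =>
    intro m n x y hm hn hx hy hT
    rcases Nat.eq_zero_or_pos T with rfl | h0
    · have h1 := mainDegree 1 m n (by omega) (by omega) x y hx hy
      have h2 := TB.trdeg_le hT
      rw [trdeg_congr (adjoin_ex _)] at h2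
      exact absurd (h1.trans h2) (by simp)
    obtain ⟨s1, s2⟩ := stStab (stWZ stAx) m n T x y hm hn hx hy hT ih
    have h1 := thLev m n T x y h0 (by omega) (by omega) hx hy hT s1 s2
    have h2 : ∀ k, ∀ᶠ w : ℝ in atTop, Conf x y k w := fun k => by
      induction k with
      | zero => exact conf_zero x y
      | succ k ihk =>
        filter_upwards [(tendsto_id.atTop_div_const (show (0 : ℝ) < 0.495 by norm_num)).eventually
          (h1.and ihk)] with w hw
        have := hw.1 k hw.2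
        rwa [id, mul_div_cancel₀ _ (by norm_num)] at this
    obtain ⟨w, z, t, Gx, Gy, -, -, -, -, -, -, -, h3, -⟩ := (h2 (m + n + 1)).exists
    have := rk_le Gx
    have := rk_le Gy
    omega

theorem mainLinear (T m n : ℕ) (hm : min (24 * T ^ 2) (80 * T - 56) ≤ m)
    (hn : min (24 * T ^ 2) (80 * T - 56) ≤ n)
    (x : Fin m → ℂ) (y : Fin n → ℂ) (hx : LinearIndependent ℚ x) (hy : LinearIndependent ℚ y) :
    (T : Cardinal) ≤ Algebra.trdeg ℚ (IntermediateField.adjoin ℚ
      (Set.range fun ij : Fin m × Fin n => Complex.exp (x ij.1 * y ij.2))) := by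
  rcases le_total (24 * T ^ 2) (80 * T - 56) with h | h
  · rw [min_eq_left h] at hm hn
    exact mainDegree T m n hm hn x y hx hy
  rw [min_eq_right h] at hm hn
  obtain ⟨T', e, h1, h2⟩ := exists_TB (ex (xy x y))
  have h3 : T ≤ T' := by
    by_contra h4
    exact main T' m n x y (by omega) (by omega) hx hy ⟨e, h1, h2⟩
  have hi : AlgebraicIndependent ℚ fun t : Fin T' =>
      (⟨ex (xy x y) (e t), IntermediateField.subset_adjoin _ _ ⟨_, rfl⟩⟩ :
        IntermediateField.adjoin ℚ (Set.range (ex (xy x y)))) :=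
    AlgebraicIndependent.of_comp (IntermediateField.adjoin ℚ (Set.range (ex (xy x y)))).val h1
  have h5 := hi.cardinalMk_le_trdeg
  rw [Cardinal.mk_fin, trdeg_congr (adjoin_ex _)] at h5
  exact le_trans (by exact_mod_cast h3) h5

end Pool.Agent.Lib.MP_12eca1_ag.Q
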