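import Pool.Agent.Lib.MP_12eca1_ag.Q.Defs
import Pool.Agent.Lib.MP_12eca1_ag.Acc

/-!
The theorem of Ax for several derivations.
-/

namespace Pool.Agent.Lib.MP_12eca1_ag.Q

namespace KAx

variable {C K : Type*} [Field C] [Field K] [Algebra C K]

/-- a relation between too many functionals which does not involve the dual family -/
lemma rel_aux {V : Type*} [AddCommGroup V] [Module K V] {β : Type*} [Fintype β] {τ e : ℕ}
    (hc : Fintype.card β < τ + e) (L : β → V →ₗ[K] K) (θ : Fin τ → V →ₗ[K] K)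
    (ω : Fin e → V →ₗ[K] K) (hθ : ∀ s v, (∀ b, L b v = 0) → θ s v = 0)
    (hω : ∀ l v, (∀ b, L b v = 0) → ω l v = 0) (D : Fin τ → V)
    (hD : ∀ s s', θ s' (D s) = if s = s' then 1 else 0) (hD' : ∀ l s, ω l (D s) = 0) :
    ∃ c : Fin e → K, c ≠ 0 ∧ ∀ v, ∑ l, c l * ω l v = 0 := by
  classical
  have hW : ∀ φ : V →ₗ[K] K, (∀ v, (∀ b, L b v = 0) → φ v = 0) →
      φ ∈ Submodule.span K (Set.range L) := by
    intro φ hφ
    apply mem_span_of_iInf_ker_le_ker
    intro δ hδ
    simp only [Submodule.mem_iInf, LinearMap.mem_ker] at hδ ⊢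
    exact hφ δ hδ
  let f : Fin τ ⊕ Fin e → (V →ₗ[K] K) := Sum.elim θ ω
  have hdep : ¬ LinearIndependent K f := by
    intro hli
    have h1 := linearIndependent_le_span_aux' f hli (Set.range L) (by
      rintro _ ⟨o, rfl⟩
      cases o with
      | inl s => exact hW _ (hθ s)
      | inr l => exact hW _ (hω l))
    have h2 : Fintype.card (Set.range L) ≤ Fintype.card β := Fintype.card_range_le L
    simp only [Fintype.card_sum, Fintype.card_fin] at h1
    omega
  obtain ⟨g, hg, j, hj⟩ := Fintype.not_linearIndependent_iff.mp hdep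
  have hg' : ∀ v, ∑ s, g (Sum.inl s) * θ s v + ∑ l, g (Sum.inr l) * ω l v = 0 := by
    intro v
    have h1 := congrArg (fun w : V →ₗ[K] K => w v) hg
    simpa [Fintype.sum_sum_type, f] using h1
  have h0 : ∀ s, g (Sum.inl s) = 0 := by
    intro s
    have h1 := hg' (D s)
    simpa [hD, hD'] using h1
  refine ⟨fun l => g (Sum.inr l), fun h => hj ?_, fun δ => ?_⟩
  · cases j with
    | inl s => exact h0 s
    | inr l => exact congrFun h l
  · have := hg' δ
    simpa [h0] using this

/-- a relation of minimal support has constant coefficients -/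
lemma const_rel {σ ι : Type*} [Fintype ι] (D : σ → Derivation C K K)
    (w : ι → Derivation C K K → K) (hw : ∀ s l δ, D s (w l δ) = w l ⁅D s, δ⁆)
    (h : ∃ c : ι → K, c ≠ 0 ∧ ∀ δ, ∑ l, c l * w l δ = 0) :
    ∃ c : ι → K, c ≠ 0 ∧ (∀ s l, D s (c l) = 0) ∧ ∀ δ, ∑ l, c l * w l δ = 0 := by
  classical
  let S : Set (ι → K) := {c | c ≠ 0 ∧ ∀ δ, ∑ l, c l * w l δ = 0}
  let f : (ι → K) → ℕ := fun c => (Finset.univ.filter fun i => c i ≠ 0).card
  have hS : S.Nonempty := h
  obtain ⟨hc0, hc⟩ := Function.argminOn_mem f S hS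
  have hmin : ∀ a ∈ S, f (Function.argminOn f S hS) ≤ f a := fun a ha =>
    Function.argminOn_le f S ha
  set c := Function.argminOn f S hS
  obtain ⟨i0, hi0⟩ := Function.ne_iff.mp hc0
  have hi0' : c i0 ≠ 0 := hi0
  let c' : ι → K := fun i => c i / c i0
  have hc' : ∀ δ, ∑ l, c' l * w l δ = 0 := by
    intro δ
    have := congrArg (· / c i0) (hc δ)
    simp only [zero_div, Finset.sum_div] at this
    rw [← this]
    exact Finset.sum_congr rfl fun i _ => by simp only [c']; ring
  have hc'1 : c' i0 = 1 := div_self hi0'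
  refine ⟨c', fun h0 => by simpa [hc'1] using congrFun h0 i0, fun s => ?_, hc'⟩
  by_contra hne
  have hmem : (fun i => D s (c' i)) ∈ S := by
    refine ⟨fun h0 => hne fun i => congrFun h0 i, fun δ => ?_⟩
    have h1 := congrArg (D s) (hc' δ)
    have h2 := hc' ⁅D s, δ⁆
    rw [map_sum, map_zero] at h1
    have h3 : ∀ i, D s (c' i) * w i δ = D s (c' i * w i δ) - c' i * w i ⁅D s, δ⁆ := by
      intro i
      rw [(D s).leibniz, hw]
      simp only [smul_eq_mul]
      ring
    rw [Finset.sum_congr rfl fun i _ => h3 i, Finset.sum_sub_distrib, h1, h2, sub_zero]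
  have hlt : f (fun i => D s (c' i)) < f c := by
    apply Finset.card_lt_card
    constructor
    · intro i hi
      simp only [Finset.mem_filter, Finset.mem_univ, true_and] at hi ⊢
      intro h0
      apply hi
      simp [c', h0]
    · intro hsub
      have : i0 ∈ Finset.univ.filter fun i => D s (c' i) ≠ 0 := hsub (by simpa using hi0')
      simp [hc'1] at this
  exact absurd (hmin _ hmem) (not_le.mpr hlt)

/-- the invariant forms are closed -/
lemma closed_form {κ : Type*} [Fintype κ] (g : κ → K) (hg : ∀ k, g k ≠ 0) (ν : κ → C)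
    (D δ : Derivation C K K) (h : ∑ k, algebraMap C K (ν k) * (D (g k) / g k) = 0) :
    D (∑ k, algebraMap C K (ν k) * (δ (g k) / g k)) =
      ∑ k, algebraMap C K (ν k) * (⁅D, δ⁆ (g k) / g k) := by
  have h1 := congrArg δ h
  rw [map_sum, map_zero] at h1
  rw [map_sum, ← add_zero (∑ k, algebraMap C K (ν k) * (⁅D, δ⁆ (g k) / g k)), ← h1,
    ← Finset.sum_add_distrib]
  refine Finset.sum_congr rfl fun k _ => ?_
  have := hg k
  rw [Derivation.commutator_apply, D.leibniz, δ.leibniz, D.map_algebraMap, δ.map_algebraMap,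
    D.leibniz_div (δ (g k)) (g k), δ.leibniz_div (D (g k)) (g k)]
  simp only [smul_eq_mul]
  field_simp
  ring

/-- a vanishing invariant form with constant coefficients comes from constant monomials -/
lemma mem_span [CharZero C] [IsAlgClosed K] {κ : Type*} [Fintype κ] (g : κ → K)
    (hg : ∀ k, g k ≠ 0) (hC : ∀ z : K, IsAlgebraic C z → z ∈ Set.range (algebraMap C K))
    (γ : κ → C)
    (h : ∀ δ : Derivation C K K, ∑ k, algebraMap C K (γ k) * (δ (g k) / g k) = 0) :
    γ ∈ Submodule.span C {v : κ → C | ∃ μ : κ → ℤ,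
      ∏ k, g k ^ μ k ∈ Set.range (algebraMap C K) ∧ v = fun k => (μ k : C)} := by
  classical
  let W : Submodule ℚ C := Submodule.span ℚ (Set.range γ)
  have hWfin : Module.Finite ℚ W := Module.Finite.span_of_finite ℚ (Set.finite_range _)
  let b := Module.finBasis ℚ W
  let u : κ → W := fun i => ⟨γ i, Submodule.subset_span ⟨i, rfl⟩⟩
  obtain ⟨N, hN⟩ := IsLocalization.exist_integer_multiples_of_finite (nonZeroDivisors ℤ)
    (fun p : κ × Fin (Module.finrank ℚ W) => b.repr (u p.1) p.2)
  choose n hn using hN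
  have hγn : ∀ i, ((N : ℤ) : C) * γ i = ∑ j, (n (i, j) : C) * (b j : C) := by
    intro i
    have h1 := congrArg (fun w : W => (w : C)) (b.sum_repr (u i))
    simp only [Submodule.coe_sum, Submodule.coe_smul, u] at h1
    rw [← h1, Finset.mul_sum]
    refine Finset.sum_congr rfl fun j _ => ?_
    have h2 : ((n (i, j) : ℤ) : ℚ) = ((N : ℤ) : ℚ) * b.repr (u i) j := by
      simpa using hn (i, j)
    have h3 : ((n (i, j) : ℤ) : C) = ((N : ℤ) : C) * ((b.repr (u i) j : ℚ) : C) := by
      exact_mod_cast congrArg (fun q : ℚ => (q : C)) h2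
    rw [h3, Rat.smul_def, mul_assoc]
  have hbli : LinearIndependent ℚ fun j => (b j : C) :=
    b.linearIndependent.map' W.subtype (Submodule.ker_subtype W)
  have hv : ∀ j, ∏ i, g i ^ n (i, j) ≠ 0 := fun j =>
    Finset.prod_ne_zero_iff.mpr fun i _ => zpow_ne_zero _ (hg i)
  have halg := isAlgebraic_of_logDeriv (fun j => (b j : C)) hbli
    (fun j => ∏ i, g i ^ n (i, j)) hv 0 (fun δ => by
      have h1 := h δ
      simp only [logDeriv_prod_zpow δ g hg, Finset.mul_sum]
      rw [Finset.sum_comm, map_zero]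
      have h2 : ∀ i, ∑ j, algebraMap C K (b j : C) * ((n (i, j) : K) * (δ (g i) / g i)) =
          ((N : ℤ) : K) * (algebraMap C K (γ i) * (δ (g i) / g i)) := by
        intro i
        have h3 := congrArg (algebraMap C K) (hγn i)
        rw [map_mul, map_sum, map_intCast] at h3
        simp only [map_mul, map_intCast] at h3
        calc _ = (∑ j, (n (i, j) : K) * algebraMap C K (b j : C)) * (δ (g i) / g i) := by
              rw [Finset.sum_mul]; exact Finset.sum_congr rfl fun j _ => by ring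
          _ = _ := by rw [← h3]; ring
      rw [Finset.sum_congr rfl fun i _ => h2 i, ← Finset.mul_sum, h1, mul_zero])
  have h2 : ((N : ℤ) : C) ≠ 0 := by exact_mod_cast nonZeroDivisors.coe_ne_zero N
  have h3 : γ = ∑ j, ((b j : C) / ((N : ℤ) : C)) • fun i => ((n (i, j) : ℤ) : C) := by
    funext i
    have h4 : γ i = (∑ j, (n (i, j) : C) * (b j : C)) / ((N : ℤ) : C) := by
      rw [← hγn i]; field_simp
    rw [h4, Finset.sum_div, Finset.sum_apply]
    refine Finset.sum_congr rfl fun j _ => ?_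
    simp only [Pi.smul_apply, smul_eq_mul]
    ring
  rw [h3]
  exact Submodule.sum_mem _ fun j _ => Submodule.smul_mem _ _
    (Submodule.subset_span ⟨fun i => n (i, j), hC _ (halg j), rfl⟩)

end KAx

theorem stAx : StAx := by
  intro C K κ _ _ _ _ _ _ τ e D g b ν hC hg hb hν hind
  classical
  obtain ⟨B0, hB0⟩ := (AlgebraicIndependent.matroid C K).exists_isBasis (Set.range g) (by simp)
  obtain ⟨hB1, hB2, hB3⟩ := AlgebraicIndependent.matroid_isBasis_iff.mp hB0
  have hfin : B0.Finite := (Set.finite_range g).subset hB2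
  obtain ⟨B, rfl⟩ := hfin.exists_finset_coe
  by_cases hcard : τ + e ≤ B.card
  · obtain ⟨ι⟩ : Nonempty (Fin (τ + e) ↪ B) :=
      Function.Embedding.nonempty_of_card_le (by simpa using hcard)
    choose b' hb' using fun i : Fin (τ + e) => hB2 (ι i).2
    refine ⟨b', ?_⟩
    have h1 : g ∘ b' = ((↑) : B → K) ∘ ι := funext hb'
    rw [h1]
    exact AlgebraicIndependent.comp (x := ((↑) : B → K)) hB1 ι ι.injective
  exfalso
  have hz : ∀ k, ∀ δ : Derivation C K K, (∀ z : B, evD C (z : K) δ = 0) → δ (g k) = 0 :=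
    fun k δ hδ => eq_zero_of_isAlgebraic_adjoin δ (fun z hz => hδ ⟨z, hz⟩) (hB3 _ ⟨k, rfl⟩)
  let ω : Fin e → Derivation C K K →ₗ[K] K := fun l =>
    ∑ k, (algebraMap C K (ν l k) * (g k)⁻¹) • evD C (g k)
  have hω : ∀ l δ, ω l δ = ∑ k, algebraMap C K (ν l k) * (δ (g k) / g k) := by
    intro l δ
    simp only [ω, LinearMap.sum_apply, LinearMap.smul_apply, evD_apply, smul_eq_mul]
    exact Finset.sum_congr rfl fun k _ => by rw [div_eq_inv_mul, mul_assoc]
  obtain ⟨c, hc0, hcD, hc⟩ := KAx.const_rel D (fun l δ => ω l δ)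
    (fun s l δ => by
      simp only [hω]
      exact KAx.closed_form g hg (ν l) (D s) δ (hν l s))
    (KAx.rel_aux (β := B) (by simpa using hcard) (fun z : B => evD C (z : K))
      (fun s => evD C (g (b s))) ω (fun s δ hδ => hz _ δ hδ)
      (fun l δ hδ => by simp [hω, hz _ δ hδ]) D (fun s s' => hb s s')
      (fun l s => by rw [hω]; exact hν l s))
  choose a ha using fun l => hC _ fun s => hcD s l
  have h1 := hind a (KAx.mem_span g hg
    (fun z hz => hC z fun s => eq_zero_of_isAlgebraic (D s) hz) _ (fun δ => by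
      rw [← hc δ]
      simp only [hω, Finset.sum_apply, Pi.smul_apply, smul_eq_mul, map_sum, map_mul, ha,
        Finset.sum_mul, Finset.mul_sum]
      rw [Finset.sum_comm]
      exact Finset.sum_congr rfl fun l _ => Finset.sum_congr rfl fun k _ => by ring))
  apply hc0
  funext l
  rw [← ha, h1]
  simp

end Pool.Agent.Lib.MP_12eca1_ag.Q
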