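import Pool.Agent.Lib.MP_12eca1_ag.Q.Basic

/-!
The elimination process with a weighted arithmetic Hilbert function.
-/

namespace Pool.Agent.Lib.MP_12eca1_ag.Q

open MvPolynomial Filter Module P

namespace KNg

section Abstract

variable {σ : Type} [Fintype σ] {ψ ψ' : Ideal (MvPolynomial σ ℤ) → ℕ → ℝ}
  {J p : Ideal (MvPolynomial σ ℤ)} {t : ℕ}

/-- the function is not negative of order `R ^ t` -/
def Good (ψ : Ideal (MvPolynomial σ ℤ) → ℕ → ℝ) (J : Ideal (MvPolynomial σ ℤ)) (t : ℕ) : Prop :=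
  ∀ c : ℝ, 0 < c → ∀ᶠ R : ℕ in atTop, -c * R ^ t < ψ J R

/-- the inequality attached to the multiplication by a form -/
def Sub (ψ : Ideal (MvPolynomial σ ℤ) → ℕ → ℝ) (g : MvPolynomial σ ℤ) (e : ℕ) (γ : ℝ) : Prop :=
  ∀ J R, IsHom J → ψ (J ⊔ Ideal.span {g}) (R + e) + ψ (col J g) R - γ * Hf (col J g) R ≤
    ψ J (R + e)

omit [Fintype σ] in
lemma Good.of_le (h : Good ψ' J t) {b : ℝ} (hb : 0 < b)
    (hle : ∀ᶠ R : ℕ in atTop, b * ψ' J R ≤ ψ J R) : Good ψ J t := fun c hc => by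
  filter_upwards [h (c / b) (by positivity), hle] with R h1 h2
  have := mul_lt_mul_of_pos_left h1 hb
  rw [← mul_assoc, mul_neg, mul_div_cancel₀ _ hb.ne'] at this
  linarith

lemma good_small (h : HB J t) (hψ : ∀ᶠ R : ℕ in atTop, -Hf J R ≤ ψ J R) : Good ψ J t :=
  fun c hc => by
    filter_upwards [JC.HB.small h 1 (half_pos hc), hψ, eventually_ge_atTop 1] with R h1 h2 h3
    have : (0 : ℝ) < R := by exact_mod_cast h3
    have : 0 < c * (R : ℝ) ^ t := by positivity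
    linarith

lemma good_zero (h0 : ∀ J R, Hf J R = 0 → 0 ≤ ψ J R) (h : HB J 0) : Good ψ J 0 := by
  obtain ⟨C, hC⟩ := h
  intro c hc
  filter_upwards [hC, (tendsto_natCast_atTop_atTop (R := ℝ)).eventually_gt_atTop C] with R h1 h2
  have h3 : Hf J R < 1 := by
    by_contra h
    nlinarith [mul_le_mul_of_nonneg_right (not_lt.1 h) (Nat.cast_nonneg (α := ℝ) R)]
  have h4 := h0 J R (by rw [Hf, JC.rank_eq h3, sub_self])
  simp only [pow_zero, mul_one]
  linarith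

lemma good_of_primes (h0 : ∀ J R, Hf J R = 0 → 0 ≤ ψ J R)
    (hb : ∀ (g : MvPolynomial σ ℤ) (e : ℕ), g.IsHomogeneous e → ∃ γ : ℝ, Sub ψ g e γ)
    (hJ : IsHom J) (h : ∀ q, IsHom q → q.IsPrime → J ≤ q → HB q t ∧ Good ψ q t) :
    Good ψ J t := by
  induction J using IsNoetherian.induction with
  | _ J ih =>
    by_cases hne : J = ⊤
    · rw [hne]
      exact good_small ⟨0, by simp⟩ (Eventually.of_forall fun R => by
        rw [JC.Hf_top, neg_zero]; exact h0 _ _ (JC.Hf_top R))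
    obtain ⟨g, e, h1, h2, h3⟩ := JC.exists_prime hJ hne
    obtain ⟨γ, hb'⟩ := hb g e h1
    obtain ⟨q1, q2⟩ := h _ (JC.isHom_col hJ h1) h3 JC.le_col
    have g1 := ih (J ⊔ Ideal.span {g}) (lt_of_le_of_ne le_sup_left fun e => h2 (by
        rw [e]; exact Submodule.mem_sup_right (Ideal.mem_span_singleton_self g)))
      (JC.isHom_sup hJ h1) fun q a b c => h q a b (le_sup_left.trans c)
    intro c hc
    have c3 : 0 < c / 3 := by positivity
    rw [← map_add_atTop_eq_nat e, eventually_map]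
    filter_upwards [(tendsto_add_atTop_nat e).eventually (g1 _ c3), q2 _ c3,
      JC.HB.small q1 γ c3] with R a1 a2 a3
    have a4 := hb' J R hJ
    have a5 : (R : ℝ) ^ t ≤ ((R + e : ℕ) : ℝ) ^ t :=
      pow_le_pow_left₀ (Nat.cast_nonneg R) (by exact_mod_cast Nat.le_add_right R e) t
    nlinarith

omit [Fintype σ] in
lemma good_step (hp : IsHom p) (hp' : p.IsPrime) {f : MvPolynomial σ ℤ} {δ : ℕ} (hδ : 1 ≤ δ)
    (hf' : f ∉ p) (hb : Sub ψ f δ 0) (h : Good ψ (p ⊔ Ideal.span {f}) t) :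
    Good ψ p (t + 1) := by
  intro c hc
  have c2 : 0 < c / 2 := by positivity
  obtain ⟨R₀, h0⟩ := eventually_atTop.1 (h _ c2)
  obtain ⟨C, hC⟩ := ((Set.finite_Iio (R₀ + δ)).image (ψ p)).bddBelow
  have key : ∀ R : ℕ, min C 0 - c / 2 * R ^ (t + 1) ≤ ψ p R := fun R => by
    induction R using Nat.strong_induction_on with
    | _ R ih =>
      by_cases hR : R < R₀ + δ
      · have a1 := hC ⟨R, hR, rfl⟩
        have a2 : 0 ≤ c / 2 * (R : ℝ) ^ (t + 1) := by positivity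
        linarith [min_le_left C 0]
      · obtain ⟨S, rfl⟩ : ∃ S, R = S + δ := ⟨R - δ, by omega⟩
        have a1 := ih S (by omega)
        have a2 := h0 (S + δ) (by omega)
        have a3 := hb p S hp
        rw [JC.col_prime hp' hf', zero_mul, sub_zero] at a3
        have a4 : (S : ℝ) ^ t ≤ ((S + δ : ℕ) : ℝ) ^ t :=
          pow_le_pow_left₀ (Nat.cast_nonneg S) (by exact_mod_cast Nat.le_add_right S δ) t
        have a5 : (S : ℝ) + 1 ≤ (S + δ : ℕ) := by exact_mod_cast (by omega : S + 1 ≤ S + δ)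
        have a6 : (S : ℝ) ^ (t + 1) + ((S + δ : ℕ) : ℝ) ^ t ≤ ((S + δ : ℕ) : ℝ) ^ (t + 1) := by
          have b1 := mul_le_mul_of_nonneg_right a4 (Nat.cast_nonneg (α := ℝ) S)
          have b2 := mul_le_mul_of_nonneg_left a5 (by positivity : 0 ≤ ((S + δ : ℕ) : ℝ) ^ t)
          rw [pow_succ, pow_succ]
          linarith
        nlinarith
  filter_upwards [(tendsto_natCast_atTop_atTop (R := ℝ)).eventually_gt_atTop
    (-min C 0 / (c / 2)), eventually_ge_atTop 1] with R a1 a2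
  have r : (1 : ℝ) ≤ R := by exact_mod_cast a2
  have a3 : (R : ℝ) ≤ R ^ (t + 1) := le_self_pow₀ r (by omega)
  rw [div_lt_iff₀ c2] at a1
  nlinarith [key R]

lemma elim (h0 : ∀ J R, Hf J R = 0 → 0 ≤ ψ J R)
    (hb : ∀ (g : MvPolynomial σ ℤ) (e : ℕ), g.IsHomogeneous e → ∃ γ : ℝ, Sub ψ g e γ)
    {δ : ℕ} (hδ : 1 ≤ δ) {F : Set (MvPolynomial σ ℤ)}
    (hF : ∀ f ∈ F, f.IsHomogeneous δ ∧ Sub ψ f δ 0) (t : ℕ) :
    ∀ p, IsHom p → p.IsPrime → HB p t → ¬ Good ψ p t → ∃ q t', IsHom q ∧ q.IsPrime ∧ p ≤ q ∧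
      (∀ f ∈ F, f ∈ q) ∧ HB q t' ∧ ¬ Good ψ q t' := by
  induction t with
  | zero => exact fun p _ _ h1 h2 => absurd (good_zero h0 h1) h2
  | succ t ih =>
    intro p hp hp' h1 h2
    by_cases h : ∀ f ∈ F, f ∈ p
    · exact ⟨p, t + 1, hp, hp', le_rfl, h, h1, h2⟩
    simp only [not_forall] at h
    obtain ⟨f, hf, hf'⟩ := h
    by_contra hc
    refine h2 (good_step hp hp' hδ hf' (hF f hf).2
      (good_of_primes h0 hb (JC.isHom_sup hp (hF f hf).1) fun q a b c => ?_))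
    have d := JC.HB_step thX (ι := fun _ => l2 σ) (fun _ => l2_injective) (fun g e _ =>
      ⟨l1 (toC g) + 1, by linarith [l1_nonneg (toC g)], fun R P _ => (norm_l2_mul_le _ P).trans
        (mul_le_mul_of_nonneg_right (by linarith) (norm_nonneg _))⟩) hp hp' h1 (hF f hf).1 hf' a b c
    refine ⟨d, by_contra fun n => hc ?_⟩
    obtain ⟨q', t', e1, e2, e3, e4⟩ := ih q a b d n
    exact ⟨q', t', e1, e2, (le_sup_left.trans c).trans e3, e4⟩

end Abstract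

variable {κ : Type} [Fintype κ] {η : κ → ℂ} {δ : ℕ} {B U a k : ℝ}
  {q : Ideal (MvPolynomial (Option κ) ℤ)}

/-- the weighted arithmetic Hilbert function -/
noncomputable def psi (η : κ → ℂ) (δ : ℕ) (U a k : ℝ) (J : Ideal (MvPolynomial (Option κ) ℤ))
    (R : ℕ) : ℝ := a * chi (l2 (Option κ)) J R + chi (tw η U δ R) J R + k * R * Hf J R

/-- a prime ideal whose weighted Hilbert function is negative -/
def Ng (η : κ → ℂ) (δ : ℕ) (U a k : ℝ) (q : Ideal (MvPolynomial (Option κ) ℤ)) : Prop :=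
  IsHom q ∧ q.IsPrime ∧ ∃ t, HB q t ∧ ¬ Good (psi η δ U a k) q t

lemma sub_psi (ha : 0 ≤ a) {g : MvPolynomial (Option κ) ℤ} {e : ℕ} (hg : g.IsHomogeneous e)
    {γ : ℝ} (hγ : 0 < γ) (h1 : l1 (toC g) ≤ γ)
    (h2 : ∀ R : ℕ, Real.exp (U * ((R + e) / δ : ℕ)) *
      l1 (tay η ((Real.exp (-U) : ℝ) : ℂ) (toC g)) ≤ γ * Real.exp (U * (R / δ : ℕ))) :
    Sub (psi η δ U a k) g e ((a + 1) * Real.log γ - k * e) := fun J R hJ => by
  obtain ⟨b1, b2⟩ := thX _ _ _ (l2 _) (l2 _) J g e R γ l2_injective l2_injective hJ hg hγ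
    fun P _ => (norm_l2_mul_le _ P).trans (mul_le_mul_of_nonneg_right h1 (norm_nonneg _))
  obtain ⟨-, b3⟩ := thX _ _ _ (tw η U δ R) (tw η U δ (R + e)) J g e R γ (tw_injective η U δ R)
    (tw_injective η U δ _) hJ hg hγ fun P _ => norm_tw_mul_le η U δ R _ h1 (h2 R) P
  unfold psi
  rw [b1]
  push_cast
  nlinarith [mul_le_mul_of_nonneg_left b2 ha]

lemma Ng.cut (h : Ng η δ U a k q) (hB : 1 ≤ B) (hη : ∀ i, ‖η i‖ + 1 ≤ B) (hδ : 1 ≤ δ)
    (hU : 0 ≤ U) (ha : 0 ≤ a) {h' : ℝ}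
    (hk' : (a + 1) * (h' + 1 + δ * Real.log B) ≤ k * δ) {F : Set (MvPolynomial κ ℤ)}
    (hF : ∀ f ∈ F, f.totalDegree ≤ δ ∧ l1 f ≤ Real.exp h' ∧ ‖aeval η f‖ ≤ Real.exp (h' - U)) :
    ∃ q', q ≤ q' ∧ Ng η δ U a k q' ∧ ∀ f ∈ F, JB.hz δ f ∈ q' := by
  obtain ⟨q1, q2, t, q3, q4⟩ := h
  have he : Real.exp (-U) ≤ 1 := Real.exp_le_one_iff.mpr (by linarith)
  obtain ⟨q', t', e1, e2, e3, e4, e5⟩ := elim (ψ := psi η δ U a k) (F := JB.hz δ '' F)
    (fun J R h => by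
      have b1 := chi_nonneg thI (tw_injective η U δ R) h
      have b2 := mul_nonneg ha (chi0_nonneg J R)
      rw [psi, h]; linarith)
    (fun g e hg => by
      have a1 := l1_nonneg (toC g)
      have a2 := l1_nonneg (tay η ((Real.exp (-U) : ℝ) : ℂ) (toC g))
      refine ⟨_, sub_psi ha hg (γ := l1 (toC g) + Real.exp (U * e) *
        l1 (tay η ((Real.exp (-U) : ℝ) : ℂ) (toC g)) + 1) (by positivity) ?_ fun R => ?_⟩
      · have : 0 ≤ Real.exp (U * e) * l1 (tay η ((Real.exp (-U) : ℝ) : ℂ) (toC g)) := by positivity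
        linarith
      · have a3 : (R + e) / δ ≤ e + R / δ := by
          rw [add_comm e, ← Nat.add_mul_div_right _ _ hδ]
          exact Nat.div_le_div_right (by nlinarith)
        have a4 : (((R + e) / δ : ℕ) : ℝ) ≤ e + (R / δ : ℕ) := by exact_mod_cast a3
        calc _ ≤ Real.exp (U * (e + (R / δ : ℕ))) *
              l1 (tay η ((Real.exp (-U) : ℝ) : ℂ) (toC g)) := by gcongr
          _ = Real.exp (U * e) * l1 (tay η ((Real.exp (-U) : ℝ) : ℂ) (toC g)) *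
              Real.exp (U * (R / δ : ℕ)) := by rw [mul_add, Real.exp_add]; ring
          _ ≤ _ := by gcongr; linarith) hδ (by
      rintro _ ⟨f, hf, rfl⟩
      obtain ⟨f1, f2, f3⟩ := hF f hf
      have f4 := JB.hz_hom f1
      have f5 : l1 (toC (JB.hz δ f)) ≤ Real.exp h' := by
        rw [l1_toC]; exact (JB.l1_hz _ _).trans f2
      have b1 : 1 ≤ B ^ δ := one_le_pow₀ hB
      have b2 := Real.exp_pos h'
      have f6 : Real.exp h' + B ^ δ * Real.exp h' ≤ Real.exp (h' + 1 + δ * Real.log B) := by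
        rw [Real.exp_add, Real.exp_add, Real.exp_nat_mul, Real.exp_log (by linarith)]
        nlinarith [Real.add_one_le_exp 1, mul_le_mul_of_nonneg_left b1 b2.le]
      have f7 := sub_psi (η := η) (δ := δ) (U := U) (k := k) ha f4 (Real.exp_pos _)
        (f5.trans (le_trans (le_add_of_nonneg_right (by positivity)) f6)) fun R => by
          have c1 := JB.l1_tay_le hB hη (Real.exp_pos (-U)).le he (isHomogeneous_toC f4)
          rw [eval_toC, JB.aeval_hz] at c1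
          rw [Nat.add_div_right _ hδ, Nat.cast_succ, mul_add, mul_one, Real.exp_add,
            mul_assoc, mul_comm]
          refine mul_le_mul_of_nonneg_right (le_trans ?_ f6) (Real.exp_pos _).le
          calc _ ≤ Real.exp U * (Real.exp (h' - U) + Real.exp (-U) * (B ^ δ * Real.exp h')) := by
                refine mul_le_mul_of_nonneg_left (c1.trans ?_) (Real.exp_pos _).le
                gcongr
            _ = _ := by rw [mul_add, ← mul_assoc, ← Real.exp_add, ← Real.exp_add]; simp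
      refine ⟨f4, fun J R hJ => le_trans ?_ (f7 J R hJ)⟩
      rw [Real.log_exp]
      nlinarith [Hf_nonneg (col J (JB.hz δ f)) R]) t q q1 q2 q3 q4
  exact ⟨q', e3, ⟨e1, e2, t', e5⟩, fun f hf => e4 _ ⟨f, hf, rfl⟩⟩

/-- a zero of the ideal near the point -/
def Near (η : κ → ℂ) (q : Ideal (MvPolynomial (Option κ) ℤ)) (ρ : ℝ) : Prop :=
  ∃ θ : κ → ℂ, (∀ i, ‖θ i - η i‖ ≤ Real.exp (-ρ)) ∧ ∀ Q ∈ q, aeval (pt θ) Q = 0

lemma Ng.near (h : Ng η δ U a k q) (hB : 1 ≤ B) (hη : ∀ i, ‖η i‖ + 1 ≤ B) (hδ : 2 ≤ δ)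
    (hU : 0 ≤ U) (ha : 0 ≤ a) {ρ : ℝ} (hρ : 0 ≤ ρ) (hk : 2 * Real.log B + (1 + ρ) / δ ≤ k) :
    Near η q ρ := by
  obtain ⟨q1, -, t, q3, q4⟩ := h
  by_contra hc
  refine q4 (good_small q3 ?_)
  filter_upwards [thN κ η B U ρ δ q hB hη hU hρ hδ q1 hc] with R h1
  have b1 := mul_nonneg ha (chi0_nonneg q R)
  have b2 := mul_le_mul_of_nonneg_left hk (mul_nonneg (Hf_nonneg q R) (Nat.cast_nonneg (α := ℝ) R))
  unfold psi
  nlinarith

lemma Ng.low (hL : StLow) (h : Ng η δ U a k q) (hB : 1 ≤ B) (hη : ∀ i, ‖η i‖ + 1 ≤ B)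
    (hδ : 1 ≤ δ) {ρ : ℝ} (hρ : 0 ≤ ρ) (hU : ρ + 1 ≤ U) (hn : ¬ Near η q ρ) :
    Ng η δ (ρ + 1) a (k - (2 * Real.log B + 1)) q := by
  obtain ⟨q1, q2, t, q3, q4⟩ := h
  refine ⟨q1, q2, t, q3, fun hg => q4 (hg.of_le one_pos ?_)⟩
  filter_upwards [hL κ η B U ρ δ q hB hη hρ hU hδ q1 hn] with R h1
  unfold psi
  nlinarith

lemma Ng.half (hH : StHalf) (h : Ng η δ U a k q) (hB : 1 ≤ B) (hη : ∀ i, ‖η i‖ + 1 ≤ B)
    (hU : 0 ≤ U) {a' k' : ℝ} (ha : 2 * a' + 1 ≤ a) (hk : 2 * k' + 4 * (Real.log B + 1) ≤ k) :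
    Ng η δ (U / 2) a' k' q := by
  obtain ⟨q1, q2, t, q3, q4⟩ := h
  refine ⟨q1, q2, t, q3, fun hg => q4 (hg.of_le two_pos ?_)⟩
  filter_upwards [hH κ η B U δ q hB hη hU] with R h1
  have b1 := mul_le_mul_of_nonneg_right ha (chi0_nonneg q R)
  have b2 := mul_le_mul_of_nonneg_right hk (mul_nonneg (Nat.cast_nonneg (α := ℝ) R) (Hf_nonneg q R))
  unfold psi
  nlinarith

lemma Ng.mono (h : Ng η δ U a k q) {a' k' : ℝ} (ha : a' ≤ a) (hk : k' ≤ k) :
    Ng η δ U a' k' q := by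
  obtain ⟨q1, q2, t, q3, q4⟩ := h
  refine ⟨q1, q2, t, q3, fun hg => q4 (hg.of_le one_pos (Eventually.of_forall fun R => ?_))⟩
  have b1 := mul_le_mul_of_nonneg_right ha (chi0_nonneg q R)
  have b2 := mul_le_mul_of_nonneg_right hk (mul_nonneg (Nat.cast_nonneg (α := ℝ) R) (Hf_nonneg q R))
  unfold psi
  nlinarith

/-- lowering the precision to half of the logarithmic distance of the nearest zero -/
lemma Ng.step (hL : StLow) (hH : StHalf) (h : Ng η δ U a k q) (hB : 1 ≤ B)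
    (hη : ∀ i, ‖η i‖ + 1 ≤ B) (hδ : 2 ≤ δ) (hU : 0 ≤ U) (ha : 0 ≤ a) {ρ : ℝ} (hρ : 0 ≤ ρ)
    (hk : 2 * Real.log B + (1 + ρ) / δ ≤ k) {a' k' : ℝ} (ha' : 2 * a' + 1 ≤ a)
    (hk' : 2 * k' + 6 * (Real.log B + 1) ≤ k) :
    ∃ D U', ρ ≤ D ∧ Near η q D ∧ 0 ≤ U' ∧ U' ≤ U / 2 ∧ U' ≤ D / 2 + 1 ∧ Ng η δ U' a' k' q := by
  classical
  have hl := Real.log_nonneg hB
  have h1 : ∃ i : ℕ, U < ρ + i + 2 ∨ ¬ Near η q (ρ + i + 1) := by
    obtain ⟨i, hi⟩ := exists_nat_gt U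
    exact ⟨i, Or.inl (by linarith)⟩
  have h2 : Near η q (ρ + Nat.find h1) := by
    rcases h3 : Nat.find h1 with _ | i
    · simpa using h.near hB hη hδ hU ha hρ hk
    · have := Nat.find_min h1 (m := i) (by omega)
      rw [not_or, not_not] at this
      push_cast
      rw [← add_assoc]
      exact this.2
  have h3 := Nat.find_spec h1
  have h4 : (0 : ℝ) ≤ Nat.find h1 := Nat.cast_nonneg _
  generalize (Nat.find h1 : ℝ) = i at h2 h3 h4
  by_cases h5 : U < ρ + i + 2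
  · exact ⟨ρ + i, U / 2, by linarith, h2, by linarith, le_rfl, by linarith,
      h.half hH hB hη hU ha' (by linarith)⟩
  · exact ⟨ρ + i, (ρ + i + 1 + 1) / 2, by linarith, h2, by linarith, by linarith, by linarith,
      (h.low hL hB hη (by omega) (by linarith) (by linarith) (h3.resolve_left h5)).half hH hB hη
        (by linarith) ha' (by linarith)⟩

lemma start {T : ℕ} {α : ℝ} (hTB : TB η T) (hA : HA (vI η) T α) (hB : 1 ≤ B)
    (hη : ∀ i, ‖η i‖ + 1 ≤ B) (hδ : 1 ≤ δ) (ha : 0 ≤ a) (hk : 0 ≤ k)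
    (hU : (8 * (8 * (T + 1)) ^ T * (Real.exp α + 1) + 8 * (Real.log B + Fintype.card κ)) *
      δ ^ (T + 1) * (1 + a + k) ≤ U) : Ng η δ U a k (vI η) := by
  set c₀ : ℝ := Real.log B + Fintype.card κ with hc₀
  have hc : 0 ≤ c₀ := add_nonneg (Real.log_nonneg hB) (by positivity)
  set b : ℝ := (8 * (T + 1)) ^ T with hb
  have hb0 : 0 < b := by positivity
  set C₁ := Real.exp α
  have hC₁ : 0 < C₁ := Real.exp_pos α
  refine ⟨vI_isHom η, vI_isPrime η, T + 1, ⟨C₁, ?_⟩, fun hg => ?_⟩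
  · filter_upwards [hA] with R hR
    rw [pow_succ, ← mul_assoc]
    exact mul_le_mul_of_nonneg_right hR.1 (by positivity)
  obtain ⟨R, hR', ⟨b1, b2⟩, hR⟩ :=
    ((hg 1 one_pos).and (hA.and (eventually_ge_atTop (2 * (T + 1) * δ)))).exists
  have hδ' : (1 : ℝ) ≤ δ := by exact_mod_cast hδ
  have hδ1 : (δ : ℝ) ≤ δ ^ (T + 1) := le_self_pow₀ hδ' (by omega)
  have hU0 : 0 ≤ U := le_trans (by positivity) hU
  set q := R / δ with hq
  set j := q / (2 * (T + 1)) with hj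
  have q1 : 2 * (T + 1) ≤ q := (Nat.le_div_iff_mul_le hδ).mpr hR
  have q2 : 1 ≤ j := (Nat.le_div_iff_mul_le (by positivity)).mpr (by omega)
  have q3 : 2 * (T + 1) * j ≤ q := Nat.mul_div_le _ _
  have q4 : R < δ * (q + 1) := Nat.lt_mul_div_succ R hδ
  have q5 : q < 2 * (T + 1) * (j + 1) := Nat.lt_mul_div_succ q (by positivity)
  have q6 : q ≤ R := Nat.div_le_self _ _
  have q7 : R ≤ 2 * (δ * q) := by nlinarith
  have q8 : q ≤ 4 * (T + 1) * j := by nlinarith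
  have q9 : R ≤ 8 * (T + 1) * δ * j := by nlinarith
  have q10 : 2 * (T * j) ≤ q := by nlinarith
  have r7 : (R : ℝ) ≤ 2 * (δ * q) := by exact_mod_cast q7
  have r9 : (R : ℝ) ≤ 8 * (T + 1) * δ * j := by exact_mod_cast q9
  have r10 : (2 * (T * j : ℕ) : ℝ) ≤ q := by exact_mod_cast q10
  have hR0 : (0 : ℝ) ≤ R := by positivity
  have u1 : 8 * c₀ * δ ≤ U := by
    refine le_trans ?_ hU
    have : 0 ≤ 8 * b * (C₁ + 1) := by positivity
    calc 8 * c₀ * δ = 8 * c₀ * δ * 1 := (mul_one _).symm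
      _ ≤ _ := by gcongr <;> linarith
  have u2 : 8 * b * (C₁ + 1) * δ ^ (T + 1) * (1 + a + k) ≤ U := by
    refine le_trans ?_ hU
    gcongr; linarith
  have hg := JB.gain stD3 thM hTB hB hη hU0 (δ := δ) (j := j) (R := R) (by omega)
    (x := U * R / (8 * δ)) (by positivity) (by
      rw [← hq, ← hc₀]
      have e1 : U * R / (8 * δ) ≤ U * q / 4 := by
        rw [div_le_div_iff₀ (by positivity) (by positivity)]
        nlinarith [mul_le_mul_of_nonneg_left r7 hU0]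
      have e2 : R * c₀ ≤ U * q / 4 := by
        nlinarith [mul_le_mul_of_nonneg_right r7 hc,
          mul_le_mul_of_nonneg_right u1 (Nat.cast_nonneg (α := ℝ) q)]
      nlinarith [mul_le_mul_of_nonneg_left r10 hU0])
  have e1 : (R : ℝ) ^ T ≤ b * δ ^ T * j ^ T := by
    rw [hb, ← mul_pow, ← mul_pow]; gcongr
  have e2 : (C₁ + 1) * (1 + a + k) * R ^ (T + 1) ≤ j ^ T * (U * R / (8 * δ)) := by
    rw [← mul_div_assoc, le_div_iff₀ (by positivity)]
    calc _ = (C₁ + 1) * (1 + a + k) * R ^ T * (R * 8 * δ) := by ring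
      _ ≤ (C₁ + 1) * (1 + a + k) * (b * δ ^ T * j ^ T) * (R * 8 * δ) := by gcongr
      _ = j ^ T * ((8 * b * (C₁ + 1) * δ ^ (T + 1) * (1 + a + k)) * R) := by ring
      _ ≤ _ := by gcongr
  have e3 : k * R * Hf (vI η) R ≤ k * C₁ * R ^ (T + 1) := by
    calc _ ≤ k * R * (C₁ * R ^ T) := by gcongr
      _ = _ := by ring
  have e4 : 0 ≤ (a + k) * (R : ℝ) ^ (T + 1) := by positivity
  have e5 := mul_le_mul_of_nonneg_left b2 ha
  unfold psi at hR'
  nlinarith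

end KNg

end Pool.Agent.Lib.MP_12eca1_ag.Q
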