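import Pool.Agent.Lib.MP_12eca1_ag.Q.Basic

/-!
Stability of the rank of the relations near the point, from the induction hypothesis.
-/

namespace Pool.Agent.Lib.MP_12eca1_ag.Q

open MvPolynomial Filter Module P

namespace KStab

lemma exists_indep {m : ℕ} (S : Set (Fin m → ℤ)) : ∃ k : Fin (rk S) → Fin m → ℤ,
    (∀ l, k l ∈ S) ∧ LinearIndependent ℝ fun l => cst (k l) := by
  obtain ⟨f, h1, -, h3⟩ := Submodule.exists_fun_fin_finrank_span_eq ℝ (cst '' S)
  choose k hk hk' using h1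
  exact ⟨k, hk, by simp only [hk']; exact h3⟩

lemma indep_lf {m r : ℕ} {x : Fin m → ℂ} (hx : LinearIndependent ℚ x) {k : Fin r → Fin m → ℤ}
    (hk : LinearIndependent ℝ fun l => cst (k l)) : LinearIndependent ℚ fun l => lf (k l) x := by
  rw [Fintype.linearIndependent_iff] at hx hk ⊢
  intro c hc l
  have h1 := hx (fun i => ∑ l, c l * k l i) (by
    rw [← hc]
    simp only [lf, Finset.sum_smul, Finset.smul_sum]
    rw [Finset.sum_comm]
    refine Finset.sum_congr rfl fun l _ => Finset.sum_congr rfl fun i _ => ?_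
    simp [Rat.smul_def, mul_assoc])
  have h2 := hk (fun l => (c l : ℝ)) (funext fun i => by
    have := congrArg (Rat.cast : ℚ → ℝ) (h1 i)
    simpa [cst, Finset.sum_apply] using this) l
  exact_mod_cast h2

lemma core (h : StWZ) {m T : ℕ} {J ι : Type} [Fintype ι] (E : J → (Fin m → ℤ) →ₗ[ℤ] ι → ℤ)
    {z : ι → ℂ} (hT : TB (ex z) T) (hm : 80 * T + 24 ≤ m)
    (hM : ∀ (r : ℕ) (k : Fin r → Fin m → ℤ), (LinearIndependent ℝ fun l => cst (k l)) →
      ∃ (L : Type) (_ : Fintype L) (w : L → ℂ), (∀ p, ∃ j l, w p = lf (E j (k l)) z) ∧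
        ∀ T' < T, TB (ex w) T' → r < 80 * T' + 24) : Stab E z := by
  obtain ⟨ε, hε, H⟩ := h _ (ex z) T (ex_ne_zero z) hT
  refine ⟨ε, hε, fun η τ S hτ hs hc hv => ?_⟩
  obtain ⟨k, hk, hi⟩ := exists_indep S
  obtain ⟨L, _, w, hw, hr⟩ := hM _ k hi
  obtain ⟨T', hT'⟩ := exists_TB (ex w)
  have key : ∀ p : L ⊕ L, ∃ ν : ι ⊕ ι → ℤ, ∏ i, η i ^ ν i = 1 ∧ ∏ i, ex z i ^ ν i = ex w p := by
    have h0 : ∀ p : L, ∃ ν : ι ⊕ ι → ℤ, ∏ i, η i ^ ν i = 1 ∧
        ∏ i, ex z i ^ ν i = Complex.exp (w p) := fun p => by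
      obtain ⟨j, l, e⟩ := hw p
      exact ⟨_, (aeval_mon_eq_prod η _).symm.trans (hv _ (hk l) j),
        (aeval_mon_eq_prod _ _).symm.trans ((aeval_mon z _).trans (by rw [e]))⟩
    rintro (p | p)
    · exact h0 p
    · obtain ⟨ν, h1, h2⟩ := h0 p
      refine ⟨-ν, ?_, ?_⟩
      · simp only [Pi.neg_apply, zpow_neg, Finset.prod_inv_distrib, h1, inv_one]
      · simp only [Pi.neg_apply, zpow_neg, Finset.prod_inv_distrib, h2]
        exact (Complex.exp_neg _).symm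
  choose ν h1 h2 using key
  have h3 : T' + τ ≤ T := by
    obtain ⟨e, he, -⟩ := hT'
    exact H η τ T' (fun l => ν (e l)) hs hc hτ (fun l => h1 _) (by simp only [h2]; exact he)
  rcases Nat.eq_zero_or_pos τ with rfl | h4
  · exact rk_le S
  · have := hr T' (by omega) hT'
    omega

end KStab

theorem stStab (h : StWZ) : StStab := fun m n T x y hm hn hx hy hT hM =>
  ⟨KStab.core h _ hT hm fun r k hk => ⟨Fin r × Fin n, inferInstance, xy (fun l => lf (k l) x) y,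
      fun p => ⟨p.2, p.1, (lf_Ex_xy _ _ x y).symm⟩, fun T' h1 h2 => not_le.mp fun h3 =>
        hM T' h1 r n _ y h3 (by omega) (KStab.indep_lf hx hk) hy h2⟩,
    KStab.core h _ hT hn fun r k hk => ⟨Fin m × Fin r, inferInstance, xy x fun l => lf (k l) y,
      fun p => ⟨p.1, p.2, (lf_Ey_xy _ _ x y).symm⟩, fun T' h1 h2 => not_le.mp fun h3 =>
        hM T' h1 m r x _ (by omega) h3 hx (KStab.indep_lf hy hk) h2⟩⟩

end Pool.Agent.Lib.MP_12eca1_ag.Q
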